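import Pool.Agent.Lib_MP_10b5ac_nt.Defs

set_option autoImplicit false

/-! Piece A1: real algebraic numbers, bounded representations, Liouville inequality. -/

namespace Pool.Agent.Sub

open Finset

section alg
variable {θ : ℝ} {D : ℕ} {C : ℝ}

theorem Rep.mono {M M' α : ℝ} (h : M ≤ M') (hr : Rep θ D M α) : Rep θ D M' α := by
  obtain ⟨a, ha, hα⟩ := hr
  exact ⟨a, fun l => (ha l).trans h, hα⟩

theorem rep_int_of_pos (hD : 1 ≤ D) (n : ℤ) : Rep θ D |(n : ℝ)| (n : ℝ) := by
  refine ⟨fun l => if (l : ℕ) = 0 then n else 0, ?_, ?_⟩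
  · intro l
    by_cases h : (l : ℕ) = 0
    · simp [h]
    · simp [h]
  · rw [Finset.sum_eq_single (⟨0, hD⟩ : Fin D)]
    · simp
    · intro b _ hb
      have : (b : ℕ) ≠ 0 := by
        intro h
        exact hb (Fin.ext h)
      simp [this]
    · intro h
      exact absurd (Finset.mem_univ _) h

theorem rep_int (hA : AlgData θ D C) (n : ℤ) : Rep θ D |(n : ℝ)| (n : ℝ) :=
  rep_int_of_pos hA.hD n

theorem Rep.add {M M' α β : ℝ} (h : Rep θ D M α) (h' : Rep θ D M' β) :
    Rep θ D (M + M') (α + β) := by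
  obtain ⟨a, ha, hα⟩ := h
  obtain ⟨b, hb, hβ⟩ := h'
  refine ⟨fun l => a l + b l, ?_, ?_⟩
  · intro l
    push_cast
    exact (abs_add_le _ _).trans (add_le_add (ha l) (hb l))
  · rw [hα, hβ, ← Finset.sum_add_distrib]
    refine Finset.sum_congr rfl fun l _ => ?_
    push_cast
    ring

theorem Rep.int_mul {M α : ℝ} (n : ℤ) (h : Rep θ D M α) : Rep θ D (|(n : ℝ)| * M) (n * α) := by
  obtain ⟨a, ha, hα⟩ := h
  refine ⟨fun l => n * a l, ?_, ?_⟩
  · intro l
    push_cast
    rw [abs_mul]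
    exact mul_le_mul_of_nonneg_left (ha l) (abs_nonneg _)
  · rw [hα, Finset.mul_sum]
    refine Finset.sum_congr rfl fun l _ => ?_
    push_cast
    ring

theorem Rep.neg {M α : ℝ} (h : Rep θ D M α) : Rep θ D M (-α) := by
  have := Rep.int_mul (-1) h
  simpa using this

theorem rep_zero {M : ℝ} (hM : 0 ≤ M) : Rep θ D M 0 :=
  ⟨fun _ => 0, fun _ => by simpa using hM, by simp⟩

theorem rep_sum {ι : Type*} (s : Finset ι) (M : ι → ℝ) (f : ι → ℝ)
    (h : ∀ i ∈ s, Rep θ D (M i) (f i)) : Rep θ D (∑ i ∈ s, M i) (∑ i ∈ s, f i) := by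
  classical
  induction s using Finset.induction_on with
  | empty => simpa using rep_zero (θ := θ) (D := D) le_rfl
  | insert a s ha ih =>
    rw [Finset.sum_insert ha, Finset.sum_insert ha]
    exact Rep.add (h a (Finset.mem_insert_self _ _))
      (ih fun i hi => h i (Finset.mem_insert_of_mem hi))

theorem Rep.nonneg {M α : ℝ} (hD : 1 ≤ D) (h : Rep θ D M α) : 0 ≤ M := by
  obtain ⟨a, ha, _⟩ := h
  exact (abs_nonneg _).trans (ha ⟨0, hD⟩)

/-- products of representable numbers -/
theorem rep_prod (hA : AlgData θ D C) (M : ℝ) (hM : 1 ≤ M) {ι : Type*} (s : Finset ι) (f : ι → ℝ)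
    (h : ∀ i ∈ s, Rep θ D M (f i)) : Rep θ D ((C * M) ^ s.card) (∏ i ∈ s, f i) := by
  classical
  induction s using Finset.induction_on with
  | empty =>
    have := rep_int hA 1
    simpa using this
  | insert a s ha ih =>
    rw [Finset.prod_insert ha, Finset.card_insert_of_notMem ha, pow_succ]
    have h1 := h a (Finset.mem_insert_self _ _)
    have h2 := ih fun i hi => h i (Finset.mem_insert_of_mem hi)
    have h3 := hA.mul M ((C * M) ^ s.card) (f a) (∏ i ∈ s, f i) (by linarith)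
      (Rep.nonneg hA.hD h2) h1 h2
    exact Rep.mono (by linarith) h3

/-- determinants of matrices with representable entries are representable -/
theorem rep_det (hA : AlgData θ D C) (n : ℕ) (M : ℝ) (hM : 1 ≤ M) : ∃ M' : ℝ, 1 ≤ M' ∧
    ∀ A : Matrix (Fin n) (Fin n) ℝ, (∀ i j, Rep θ D M (A i j)) → Rep θ D M' A.det := by
  have hC := hA.hC
  have h1 : (1 : ℝ) ≤ C * M := by nlinarith
  refine ⟨∑ _σ : Equiv.Perm (Fin n), (C * M) ^ n, ?_, ?_⟩
  · rw [Finset.sum_const, nsmul_eq_mul]
    have h2 : (1 : ℝ) ≤ (C * M) ^ n := one_le_pow₀ h1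
    have h3 : (1 : ℝ) ≤ ((Finset.univ : Finset (Equiv.Perm (Fin n))).card : ℝ) := by
      have : 0 < (Finset.univ : Finset (Equiv.Perm (Fin n))).card :=
        Finset.card_pos.mpr ⟨1, Finset.mem_univ _⟩
      exact_mod_cast this
    nlinarith
  · intro A hAij
    rw [Matrix.det_apply']
    refine rep_sum _ _ _ fun σ _ => ?_
    have h4 := rep_prod hA M hM (Finset.univ : Finset (Fin n)) (fun i => A (σ i) i)
      (fun i _ => hAij _ _)
    have h5 := Rep.int_mul ((Equiv.Perm.sign σ : ℤˣ) : ℤ) h4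
    have h6 : |(((Equiv.Perm.sign σ : ℤˣ) : ℤ) : ℝ)| = 1 := by
      rcases Int.units_eq_one_or (Equiv.Perm.sign σ) with h | h <;> simp [h]
    rw [h6, one_mul, Finset.card_univ, Fintype.card_fin] at h5
    exact h5

theorem rep_adjugate (hA : AlgData θ D C) (n : ℕ) (M : ℝ) (hM : 1 ≤ M) : ∃ M' : ℝ, 1 ≤ M' ∧
    ∀ A : Matrix (Fin n) (Fin n) ℝ, (∀ i j, Rep θ D M (A i j)) →
      ∀ i j, Rep θ D M' (A.adjugate i j) := by
  obtain ⟨M', hM', h⟩ := rep_det hA n M hM
  refine ⟨M', hM', fun A hAij i j => ?_⟩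
  rw [Matrix.adjugate_apply]
  refine h _ fun k l => ?_
  rw [Matrix.updateRow_apply]
  split_ifs with hk
  · by_cases hl : l = i
    · subst hl
      rw [Pi.single_eq_same]
      have := rep_int hA 1
      simp only [Int.cast_one, abs_one] at this
      exact Rep.mono hM this
    · rw [Pi.single_eq_of_ne hl]
      exact rep_zero (by linarith)
  · exact hAij k l

end alg

/-! ### existence of the data -/

section exist

variable {θ : ℝ}

/-- independence of the first powers -/
theorem lin_indep_pow (hθ : IsIntegral ℤ θ) (u : Fin (minpoly ℤ θ).natDegree → ℤ)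
    (h : ∑ l, (u l : ℝ) * θ ^ (l : ℕ) = 0) : u = 0 := by
  let p : Polynomial ℤ := ∑ l : Fin (minpoly ℤ θ).natDegree, Polynomial.monomial (l : ℕ) (u l)
  have hp : Polynomial.aeval θ p = 0 := by
    simp only [p, map_sum, Polynomial.aeval_monomial]
    rw [← h]
    refine Finset.sum_congr rfl fun l _ => ?_
    simp
  have hcoef : ∀ l : Fin (minpoly ℤ θ).natDegree, p.coeff (l : ℕ) = u l := by
    intro l
    simp only [p, Polynomial.finsetSum_coeff, Polynomial.coeff_monomial]
    rw [Finset.sum_eq_single l]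
    · simp
    · intro b _ hb
      have : (b : ℕ) ≠ (l : ℕ) := fun h => hb (Fin.ext h)
      simp [this]
    · intro h; exact absurd (Finset.mem_univ _) h
  by_contra hu
  have hp0 : p ≠ 0 := by
    intro hp0
    apply hu
    funext l
    rw [← hcoef l, hp0]
    simp
  have hdvd : minpoly ℤ θ ∣ p := minpoly.isIntegrallyClosed_dvd hθ hp
  have hdeg : (minpoly ℤ θ).natDegree ≤ p.natDegree := Polynomial.natDegree_le_of_dvd hdvd hp0
  have hDpos : 0 < (minpoly ℤ θ).natDegree := minpoly.natDegree_pos hθ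
  have hlt : p.natDegree < (minpoly ℤ θ).natDegree := by
    rw [Polynomial.natDegree_lt_iff_degree_lt hp0]
    refine lt_of_le_of_lt (Polynomial.degree_sum_le _ _) ?_
    rw [Finset.sup_lt_iff (by exact WithBot.bot_lt_coe _)]
    intro l _
    refine lt_of_le_of_lt (Polynomial.degree_monomial_le _ _) ?_
    exact_mod_cast l.2
  omega

/-- every power has a bounded representation -/
theorem rep_pow (hθ : IsIntegral ℤ θ) (n : ℕ) :
    ∃ M : ℝ, Rep θ (minpoly ℤ θ).natDegree M (θ ^ n) := by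
  set f := minpoly ℤ θ with hf
  have hmon : f.Monic := minpoly.monic hθ
  let g : Polynomial ℤ := (Polynomial.X ^ n) %ₘ f
  have hg : Polynomial.aeval θ g = θ ^ n := by
    have h1 := Polynomial.modByMonic_add_div (Polynomial.X ^ n : Polynomial ℤ) f
    have h2 : Polynomial.aeval θ (g + f * (Polynomial.X ^ n /ₘ f)) = θ ^ n := by
      rw [h1]; simp
    rw [map_add, map_mul, hf, minpoly.aeval, zero_mul, add_zero] at h2
    exact h2
  have hdeg : g.natDegree < f.natDegree := by
    have hpos : 0 < f.natDegree := minpoly.natDegree_pos hθ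
    exact Polynomial.natDegree_modByMonic_lt _ hmon (by
      intro h1
      rw [h1] at hpos
      simp at hpos)
  refine ⟨∑ l : Fin f.natDegree, |(g.coeff l : ℝ)|, fun l => g.coeff l, ?_, ?_⟩
  · intro l
    exact Finset.single_le_sum (f := fun l : Fin f.natDegree => |(g.coeff l : ℝ)|)
      (fun i _ => abs_nonneg _) (Finset.mem_univ l)
  · rw [← hg, Polynomial.aeval_eq_sum_range' hdeg, Finset.sum_range]
    refine Finset.sum_congr rfl fun l _ => ?_
    simp

theorem exists_algData_of_integral (hθ : IsIntegral ℤ θ) :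
    ∃ C : ℝ, AlgData θ (minpoly ℤ θ).natDegree C := by
  set D := (minpoly ℤ θ).natDegree with hD
  have hDpos : 1 ≤ D := minpoly.natDegree_pos hθ
  choose R hR using rep_pow hθ
  -- uniform bound for the powers up to 2D
  obtain ⟨R₀, hR₀1, hR₀⟩ : ∃ R₀ : ℝ, 1 ≤ R₀ ∧ ∀ n, n ≤ 2 * D → Rep θ D R₀ (θ ^ n) := by
    refine ⟨1 + ∑ n ∈ Finset.range (2 * D + 1), |R n|, ?_, ?_⟩
    · have : 0 ≤ ∑ n ∈ Finset.range (2 * D + 1), |R n| :=
        Finset.sum_nonneg fun _ _ => abs_nonneg _
      linarith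
    · intro n hn
      refine Rep.mono ?_ (hR n)
      have h1 : |R n| ≤ ∑ n ∈ Finset.range (2 * D + 1), |R n| :=
        Finset.single_le_sum (f := fun n => |R n|) (fun i _ => abs_nonneg _)
          (Finset.mem_range.mpr (by omega))
      have := le_abs_self (R n)
      linarith
  -- multiplication
  have hmul : ∀ M M' α β : ℝ, 0 ≤ M → 0 ≤ M' → Rep θ D M α → Rep θ D M' β →
      Rep θ D ((D : ℝ) ^ 2 * R₀ * M * M') (α * β) := by
    intro M M' α β hM hM' hα hβ
    obtain ⟨a, ha, hα⟩ := hα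
    obtain ⟨b, hb, hβ⟩ := hβ
    have h1 : α * β = ∑ l : Fin D, ∑ k : Fin D, ((a l * b k : ℤ) : ℝ) * θ ^ ((l : ℕ) + (k : ℕ)) := by
      rw [hα, hβ, Finset.sum_mul_sum]
      refine Finset.sum_congr rfl fun l _ => Finset.sum_congr rfl fun k _ => ?_
      push_cast
      ring
    rw [h1]
    have h2 : Rep θ D (∑ l : Fin D, ∑ k : Fin D, (M * M') * R₀)
        (∑ l : Fin D, ∑ k : Fin D, ((a l * b k : ℤ) : ℝ) * θ ^ ((l : ℕ) + (k : ℕ))) := by
      refine rep_sum _ _ _ fun l _ => rep_sum _ _ _ fun k _ => ?_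
      refine Rep.mono ?_ (Rep.int_mul (a l * b k) (hR₀ ((l : ℕ) + (k : ℕ)) (by omega)))
      refine mul_le_mul_of_nonneg_right ?_ (by linarith)
      push_cast
      rw [abs_mul]
      exact mul_le_mul (ha l) (hb k) (abs_nonneg _) hM
    refine Rep.mono (le_of_eq ?_) h2
    simp only [Finset.sum_const, Finset.card_univ, Fintype.card_fin, nsmul_eq_mul]
    ring
  -- Liouville
  obtain ⟨C₁, hC₁, hliou⟩ : ∃ C₁ : ℝ, 1 ≤ C₁ ∧ ∀ M α : ℝ, 1 ≤ M → Rep θ D M α → α ≠ 0 →
      1 ≤ C₁ * M ^ D * |α| := by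
    set K : ℝ := (D : ℝ) ^ 2 * R₀ * R₀ with hK
    have hK1 : 1 ≤ K := by
      have : (1 : ℝ) ≤ D := by exact_mod_cast hDpos
      have h2 : (1 : ℝ) ≤ (D : ℝ) ^ 2 := one_le_pow₀ this
      have h3 : (1 : ℝ) ≤ (D : ℝ) ^ 2 * R₀ := by nlinarith
      nlinarith
    set T : ℝ := 1 + |θ| with hT
    have hT1 : 1 ≤ T := by have := abs_nonneg θ; linarith
    refine ⟨1 + (D : ℝ) * ((D.factorial : ℝ) * K ^ D * T ^ D), ?_, ?_⟩
    · have : 0 ≤ (D : ℝ) * ((D.factorial : ℝ) * K ^ D * T ^ D) := by positivity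
      linarith
    intro M α hM hα hα0
    -- the multiplication matrix
    have hrow : ∀ i : Fin D, ∃ a : Fin D → ℤ, (∀ l, |(a l : ℝ)| ≤ K * M) ∧
        α * θ ^ (i : ℕ) = ∑ l, (a l : ℝ) * θ ^ (l : ℕ) := by
      intro i
      have h1 := hmul M R₀ α (θ ^ (i : ℕ)) (by linarith) (by linarith) hα
        (hR₀ i (by omega))
      obtain ⟨a, ha, h⟩ := h1
      exact ⟨a, fun l => (ha l).trans (le_of_eq (by rw [hK]; ring)), h⟩
    choose N hN hNeq using hrow
    let A : Matrix (Fin D) (Fin D) ℤ := fun i j => N i j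
    have hdet : A.det ≠ 0 := by
      intro h0
      obtain ⟨u, hu0, hu⟩ := (Matrix.exists_vecMul_eq_zero_iff (M := A)).mpr h0
      apply hu0
      apply lin_indep_pow hθ
      have h2 : α * ∑ i : Fin D, (u i : ℝ) * θ ^ (i : ℕ) = 0 := by
        calc α * ∑ i : Fin D, (u i : ℝ) * θ ^ (i : ℕ)
            = ∑ i : Fin D, (u i : ℝ) * (α * θ ^ (i : ℕ)) := by
              rw [Finset.mul_sum]
              exact Finset.sum_congr rfl fun i _ => by ring
          _ = ∑ i : Fin D, ∑ l : Fin D, ((u i * N i l : ℤ) : ℝ) * θ ^ (l : ℕ) := by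
              refine Finset.sum_congr rfl fun i _ => ?_
              rw [hNeq i, Finset.mul_sum]
              refine Finset.sum_congr rfl fun l _ => ?_
              push_cast; ring
          _ = ∑ l : Fin D, ((∑ i : Fin D, u i * N i l : ℤ) : ℝ) * θ ^ (l : ℕ) := by
              rw [Finset.sum_comm]
              refine Finset.sum_congr rfl fun l _ => ?_
              rw [Int.cast_sum, Finset.sum_mul]
          _ = 0 := by
              refine Finset.sum_eq_zero fun l _ => ?_
              have h3 : (∑ i : Fin D, u i * N i l : ℤ) = 0 := by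
                have := congrFun hu l
                simpa [Matrix.vecMul, dotProduct, A] using this
              rw [h3]; simp
      rcases mul_eq_zero.mp h2 with h | h
      · exact absurd h hα0
      · exact h
    -- real matrix
    let B : Matrix (Fin D) (Fin D) ℝ := A.map (Int.castRingHom ℝ)
    have hBdet : B.det = ((A.det : ℤ) : ℝ) := by
      have := (Int.castRingHom ℝ).map_det A
      simpa [B] using this.symm
    let v : Fin D → ℝ := fun l => θ ^ (l : ℕ)
    have hBv : B.mulVec v = α • v := by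
      funext i
      simp only [Matrix.mulVec, dotProduct, Pi.smul_apply, smul_eq_mul, v, B, A,
        Matrix.map_apply, Int.coe_castRingHom]
      rw [hNeq i]
    have hadj : B.det • v = α • (B.adjugate.mulVec v) := by
      have h1 : B.adjugate.mulVec (B.mulVec v) = B.det • v := by
        rw [Matrix.mulVec_mulVec, Matrix.adjugate_mul, Matrix.smul_mulVec, Matrix.one_mulVec]
      rw [← h1, hBv, Matrix.mulVec_smul]
    have h0 := congrFun hadj (⟨0, hDpos⟩ : Fin D)
    simp only [Pi.smul_apply, smul_eq_mul, v, pow_zero, mul_one] at h0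
    -- bound of the adjugate
    have hadjb : ∀ j : Fin D, |B.adjugate ⟨0, hDpos⟩ j| ≤ (D.factorial : ℝ) * (K * M) ^ D := by
      intro j
      rw [Matrix.adjugate_apply]
      have hKM : 1 ≤ K * M := by nlinarith
      have h5 := Matrix.det_le (A := B.updateRow j (Pi.single ⟨0, hDpos⟩ 1)) (abv := AbsoluteValue.abs)
        (x := K * M) (by
          intro i k
          rw [Matrix.updateRow_apply]
          split_ifs with hk
          · by_cases hl : k = ⟨0, hDpos⟩
            · subst hl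
              simp only [Pi.single_eq_same, map_one]
              exact hKM
            · rw [Pi.single_eq_of_ne hl, map_zero]
              linarith
          · simpa [B, A] using hN i k)
      simpa using h5
    have h6 : |((A.det : ℤ) : ℝ)| ≤ |α| * ((D : ℝ) * ((D.factorial : ℝ) * (K * M) ^ D * T ^ D)) := by
      rw [← hBdet, h0, abs_mul]
      refine mul_le_mul_of_nonneg_left ?_ (abs_nonneg _)
      simp only [Matrix.mulVec, dotProduct]
      refine (Finset.abs_sum_le_sum_abs _ _).trans ?_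
      have h7 : ∀ j ∈ (Finset.univ : Finset (Fin D)),
          |B.adjugate ⟨0, hDpos⟩ j * θ ^ (j : ℕ)| ≤ (D.factorial : ℝ) * (K * M) ^ D * T ^ D := by
        intro j _
        rw [abs_mul, abs_pow]
        refine mul_le_mul (hadjb j) ?_ (by positivity) ?_
        · calc |θ| ^ (j : ℕ) ≤ T ^ (j : ℕ) :=
                pow_le_pow_left₀ (abs_nonneg _) (by linarith) _
            _ ≤ T ^ D := pow_le_pow_right₀ hT1 (by omega)
        · have : 0 ≤ K * M := by nlinarith
          positivity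
      refine (Finset.sum_le_sum h7).trans ?_
      simp
    have h8 : (1 : ℝ) ≤ |((A.det : ℤ) : ℝ)| := by
      rw [← Int.cast_abs]
      exact_mod_cast Int.one_le_abs hdet
    have h9 : 0 ≤ M ^ D * |α| := by positivity
    calc (1 : ℝ) ≤ |α| * ((D : ℝ) * ((D.factorial : ℝ) * (K * M) ^ D * T ^ D)) := h8.trans h6
      _ = (D : ℝ) * ((D.factorial : ℝ) * K ^ D * T ^ D) * (M ^ D * |α|) := by
          rw [mul_pow]; ring
      _ ≤ (1 + (D : ℝ) * ((D.factorial : ℝ) * K ^ D * T ^ D)) * (M ^ D * |α|) := by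
          nlinarith
      _ = _ := by ring
  refine ⟨C₁ + (D : ℝ) ^ 2 * R₀ + R₀, ⟨hDpos, ?_, ?_, ?_, ?_⟩⟩
  · have : 0 ≤ (D : ℝ) ^ 2 * R₀ := by positivity
    linarith
  · refine Rep.mono ?_ (by simpa using hR₀ 1 (by omega))
    have : 0 ≤ (D : ℝ) ^ 2 * R₀ := by positivity
    linarith
  · intro M M' α β hM hM' h h'
    refine Rep.mono ?_ (hmul M M' α β hM hM' h h')
    have h1 : 0 ≤ M * M' := mul_nonneg hM hM'
    have h2 : 0 ≤ (C₁ + R₀) * (M * M') := mul_nonneg (by linarith) h1
    nlinarith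
  · intro M α hM h hα
    refine (hliou M α hM h hα).trans ?_
    have h1 : 0 ≤ M ^ D * |α| := by positivity
    have h2 : 0 ≤ (D : ℝ) ^ 2 * R₀ + R₀ := by positivity
    have h3 : 0 ≤ ((D : ℝ) ^ 2 * R₀ + R₀) * (M ^ D * |α|) := mul_nonneg h2 h1
    nlinarith

theorem exists_algData (ξ : ℝ) (hξ : IsAlgebraic ℚ ξ) :
    ∃ (v : ℕ) (D : ℕ) (C : ℝ), 0 < v ∧ AlgData ((v : ℝ) * ξ) D C := by
  have hξ' : IsAlgebraic ℤ ξ := (IsFractionRing.isAlgebraic_iff ℤ ℚ ℝ).mpr hξ
  obtain ⟨y, hy0, hy⟩ := hξ'.exists_integral_multiple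
  have h1 : IsIntegral ℤ (((y.natAbs : ℕ) : ℝ) * ξ) := by
    rcases Int.natAbs_eq y with h | h
    · have h2 : (y : ℝ) = ((y.natAbs : ℕ) : ℝ) := by
        conv_lhs => rw [h]
        simp
      rw [zsmul_eq_mul, h2] at hy
      exact hy
    · have h2 : ((y.natAbs : ℕ) : ℝ) = -(y : ℝ) := by
        conv_rhs => rw [h]
        simp
      rw [zsmul_eq_mul] at hy
      rw [h2, neg_mul]
      exact hy.neg
  obtain ⟨C, hC⟩ := exists_algData_of_integral h1
  exact ⟨y.natAbs, _, C, Int.natAbs_pos.mpr hy0, hC⟩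

end exist

end Pool.Agent.Sub
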