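import Pool.Agent.Lib_MP_10b5ac_nt.Defs

set_option autoImplicit false

/-! Piece H1: a linear representation of a `k`-regular sequence and its polynomial growth. -/

namespace Pool.Agent.Sub

open MvPolynomial Finset Filter

theorem regular_basis (k : ℕ) (hk : 2 ≤ k) (a : ℕ → ℕ)
    (hfg : (Submodule.span ℤ {f : ℕ → ℤ | ∃ e r : ℕ, r < k ^ e ∧
          f = fun n => ((a (k ^ e * n + r) : ℕ) : ℤ)}).FG) :
    ∃ (d : ℕ) (V : ℕ → Fin d → ℤ) (A : ℕ → Matrix (Fin d) (Fin d) ℤ) (w : Fin d → ℤ),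
      (∀ i < k, ∀ n, V (k * n + i) = (A i).mulVec (V n)) ∧ ∀ n, (a n : ℤ) = w ⬝ᵥ V n := by
  set S := Submodule.span ℤ {f : ℕ → ℤ | ∃ e r : ℕ, r < k ^ e ∧
          f = fun n => ((a (k ^ e * n + r) : ℕ) : ℤ)} with hS
  obtain ⟨d, s, hs⟩ := Submodule.fg_iff_exists_fin_generating_family.1 hfg
  -- the shift operators
  let T : ℕ → (ℕ → ℤ) →ₗ[ℤ] (ℕ → ℤ) := fun i =>
    { toFun := fun f n => f (k * n + i)
      map_add' := fun f g => rfl
      map_smul' := fun c f => rfl }
  have hT : ∀ i < k, ∀ f ∈ S, T i f ∈ S := by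
    intro i hi f hf
    have : S ≤ S.comap (T i) := by
      rw [hS, Submodule.span_le]
      rintro g ⟨e, r, hr, rfl⟩
      refine Submodule.subset_span ⟨e + 1, k ^ e * i + r, ?_, ?_⟩
      · have : k ^ e * i + r < k ^ e * (i + 1) := by
          rw [mul_add, mul_one]; omega
        refine this.trans_le ?_
        rw [pow_succ]
        exact Nat.mul_le_mul_left _ hi
      · funext n
        change ((a (k ^ e * (k * n + i) + r) : ℕ) : ℤ) = _
        congr 2
        ring
    exact this hf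
  have hmem : ∀ j, s j ∈ S := by
    intro j
    rw [← hs]
    exact Submodule.subset_span ⟨j, rfl⟩
  have hA : ∀ i, ∃ A : Matrix (Fin d) (Fin d) ℤ, i < k → ∀ j, T i (s j) = ∑ l, A j l • s l := by
    intro i
    by_cases hi : i < k
    · have : ∀ j, ∃ c : Fin d → ℤ, ∑ l, c l • s l = T i (s j) := by
        intro j
        have h1 := hT i hi _ (hmem j)
        rw [← hs] at h1
        exact (Submodule.mem_span_range_iff_exists_fun ℤ).1 h1
      choose c hc using this
      exact ⟨fun j l => c j l, fun _ j => (hc j).symm⟩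
    · exact ⟨0, fun h => absurd h hi⟩
  choose A hA using hA
  have ha : (fun n => ((a n : ℕ) : ℤ)) ∈ S := by
    refine Submodule.subset_span ⟨0, 0, by simp, ?_⟩
    funext n
    simp
  rw [← hs] at ha
  obtain ⟨w, hw⟩ := (Submodule.mem_span_range_iff_exists_fun ℤ).1 ha
  refine ⟨d, fun n j => s j n, A, w, ?_, ?_⟩
  · intro i hi n
    funext j
    have := congrFun (hA i hi j) n
    change s j (k * n + i) = _ at this
    change s j (k * n + i) = _
    rw [this]
    simp [Matrix.mulVec, dotProduct]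
  · intro n
    have := congrFun hw n
    rw [← this]
    simp [dotProduct]

theorem regular_growth (k : ℕ) (hk : 2 ≤ k) (d : ℕ) (V : ℕ → Fin d → ℤ)
    (A : ℕ → Matrix (Fin d) (Fin d) ℤ) (hV : ∀ i < k, ∀ n, V (k * n + i) = (A i).mulVec (V n)) :
    ∃ (C h : ℕ), ∀ n j, |V n j| ≤ C * ((n : ℤ) + 1) ^ h := by
  set K : ℕ := 1 + ∑ i ∈ Finset.range k, ∑ j, ∑ l, (A i j l).natAbs with hK
  set V₀ : ℕ := ∑ j, (V 0 j).natAbs with hV₀
  have hrow : ∀ i < k, ∀ j, ∑ l, (A i j l).natAbs ≤ K := by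
    intro i hi j
    have h1 : ∑ l, (A i j l).natAbs ≤ ∑ j, ∑ l, (A i j l).natAbs :=
      Finset.single_le_sum (f := fun j => ∑ l, (A i j l).natAbs) (fun _ _ => Nat.zero_le _)
        (Finset.mem_univ j)
    have h2 : ∑ j, ∑ l, (A i j l).natAbs ≤ ∑ i ∈ Finset.range k, ∑ j, ∑ l, (A i j l).natAbs :=
      Finset.single_le_sum (f := fun i => ∑ j, ∑ l, (A i j l).natAbs) (fun _ _ => Nat.zero_le _)
        (Finset.mem_range.2 hi)
    omega
  have hstep : ∀ i < k, ∀ n (B : ℤ), 0 ≤ B → (∀ j, |V n j| ≤ B) →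
      ∀ j, |V (k * n + i) j| ≤ K * B := by
    intro i hi n B hB hb j
    rw [hV i hi n]
    simp only [Matrix.mulVec, dotProduct]
    calc |∑ l, A i j l * V n l| ≤ ∑ l, |A i j l * V n l| := Finset.abs_sum_le_sum_abs _ _
      _ ≤ ∑ l, ((A i j l).natAbs : ℤ) * B := by
          refine Finset.sum_le_sum fun l _ => ?_
          rw [abs_mul, ← Int.natCast_natAbs (A i j l)]
          exact mul_le_mul_of_nonneg_left (hb l) (Int.natCast_nonneg _)
      _ = ((∑ l, (A i j l).natAbs : ℕ) : ℤ) * B := by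
          rw [← Finset.sum_mul]; push_cast; rfl
      _ ≤ K * B := by
          refine mul_le_mul_of_nonneg_right ?_ hB
          exact_mod_cast hrow i hi j
  have h0 : ∀ j, |V 0 j| ≤ (V₀ : ℤ) := by
    intro j
    rw [← Int.natCast_natAbs (V 0 j)]
    exact_mod_cast Finset.single_le_sum (f := fun j => (V 0 j).natAbs)
      (fun _ _ => Nat.zero_le _) (Finset.mem_univ j)
  have hK2 : K ≤ 2 ^ K := Nat.lt_two_pow_self.le
  have main : ∀ n, 1 ≤ n → ∀ j, |V n j| ≤ ((K * V₀ : ℕ) : ℤ) * (n : ℤ) ^ K := by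
    intro n
    induction n using Nat.strong_induction_on with
    | _ n ih =>
      intro hn j
      have hk0 : 0 < k := by omega
      have hi : n % k < k := Nat.mod_lt _ hk0
      have hdiv : k * (n / k) + n % k = n := Nat.div_add_mod n k
      by_cases h1 : n / k = 0
      · have := hstep (n % k) hi (n / k) V₀ (Int.natCast_nonneg _) (by rw [h1]; exact h0) j
        rw [hdiv] at this
        refine this.trans ?_
        have hn1 : (1 : ℤ) ≤ (n : ℤ) ^ K := one_le_pow₀ (by exact_mod_cast hn)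
        have h3 : (0 : ℤ) ≤ ((K * V₀ : ℕ) : ℤ) := Int.natCast_nonneg _
        calc (K : ℤ) * V₀ = ((K * V₀ : ℕ) : ℤ) * 1 := by push_cast; ring
          _ ≤ _ := mul_le_mul_of_nonneg_left hn1 h3
      · have hlt : n / k < n := Nat.div_lt_self (by omega) (by omega)
        have h2 := ih (n / k) hlt (Nat.one_le_iff_ne_zero.2 h1)
        have := hstep (n % k) hi (n / k) (((K * V₀ : ℕ) : ℤ) * ((n / k : ℕ) : ℤ) ^ K)
          (by positivity) h2 j
        rw [hdiv] at this
        refine this.trans ?_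
        have h3 : k * (n / k) ≤ n := Nat.mul_div_le n k
        have h4 : 2 * (n / k) ≤ n := (Nat.mul_le_mul_right _ hk).trans h3
        have h5 : K * (n / k) ^ K ≤ n ^ K := by
          calc K * (n / k) ^ K ≤ 2 ^ K * (n / k) ^ K := Nat.mul_le_mul_right _ hK2
            _ = (2 * (n / k)) ^ K := by rw [mul_pow]
            _ ≤ n ^ K := Nat.pow_le_pow_left h4 _
        have h6 : ((K * (n / k) ^ K : ℕ) : ℤ) ≤ ((n ^ K : ℕ) : ℤ) := by exact_mod_cast h5
        have h7 : (0 : ℤ) ≤ ((K * V₀ : ℕ) : ℤ) := Int.natCast_nonneg _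
        calc (K : ℤ) * (((K * V₀ : ℕ) : ℤ) * ((n / k : ℕ) : ℤ) ^ K)
            = ((K * V₀ : ℕ) : ℤ) * ((K * (n / k) ^ K : ℕ) : ℤ) := by push_cast; ring
          _ ≤ ((K * V₀ : ℕ) : ℤ) * ((n ^ K : ℕ) : ℤ) := mul_le_mul_of_nonneg_left h6 h7
          _ = _ := by push_cast; ring
  refine ⟨K * V₀, K, ?_⟩
  intro n j
  rcases Nat.eq_zero_or_pos n with rfl | hn
  · refine (h0 j).trans ?_
    have hK1 : 1 ≤ K := by omega
    have : V₀ ≤ K * V₀ := Nat.le_mul_of_pos_left _ hK1
    have h2 : (V₀ : ℤ) ≤ ((K * V₀ : ℕ) : ℤ) := by exact_mod_cast this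
    simpa using h2
  · refine (main n hn j).trans ?_
    refine mul_le_mul_of_nonneg_left ?_ (Int.natCast_nonneg _)
    exact pow_le_pow_left₀ (Int.natCast_nonneg _) (by linarith) _

end Pool.Agent.Sub
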