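import Pool.Agent.Lib_MP_10b5ac_nt.Irr

set_option autoImplicit false

/-! Piece H3: long `k`-adic windows on which the number of digits is constant. -/

namespace Pool.Agent.Sub

open MvPolynomial Finset Filter

theorem digits_length_mono (b : ℕ) (a : ℕ → ℕ) (hmono : StrictMono a) :
    Monotone (fun n => (Nat.digits b (a n)).length) := by
  intro n m hnm
  exact Nat.le_length_digits_le b _ _ (hmono.monotone hnm)

theorem window (k b : ℕ) (hk : 2 ≤ k) (hb : 2 ≤ b) (a : ℕ → ℕ) (hmono : StrictMono a)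
    (hpos : ∀ n, 0 < a n) (C h : ℕ) (hgr : ∀ n, a n ≤ C * (n + 1) ^ h) (d : ℕ) :
    ∃ t : ℕ, 1 ≤ t ∧ ∃ e : ℕ → ℕ, StrictMono e ∧ ∀ i, ∃ ℓ : ℕ, 1 ≤ ℓ ∧
      ∀ n, k ^ e i * t ≤ n → n < k ^ e i * (t + d) → (Nat.digits b (a n)).length = ℓ := by
  set len : ℕ → ℕ := fun n => (Nat.digits b (a n)).length with hlen
  have hlm : Monotone len := digits_length_mono b a hmono
  have hb1 : 1 < b := by omega
  have hk0 : 0 < k := by omega
  -- growth
  have hup : ∀ E, len (k ^ E) ≤ C + k * (E + 1) * h := by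
    intro E
    refine length_le_of_growth hb a C h hgr _ _ ?_
    have h1 : k ^ E + 1 ≤ k ^ (E + 1) := by
      have : 1 ≤ k ^ E := Nat.one_le_pow _ _ hk0
      rw [pow_succ]
      nlinarith
    have h2 : k ≤ b ^ k := (Nat.lt_pow_self hb1).le
    calc k ^ E + 1 ≤ k ^ (E + 1) := h1
      _ ≤ (b ^ k) ^ (E + 1) := Nat.pow_le_pow_left h2 _
      _ = b ^ (k * (E + 1)) := by rw [pow_mul]
  set H : ℕ := k * h with hH
  have hfreq : ∀ E₀, ∃ E, E₀ ≤ E ∧ len (k ^ (E + 1)) ≤ len (k ^ E) + H := by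
    intro E₀
    by_contra hcon
    push Not at hcon
    have h1 : ∀ M, M * (H + 1) ≤ len (k ^ (E₀ + M)) := by
      intro M
      induction M with
      | zero => simp
      | succ M ih =>
        have := hcon (E₀ + M) (by omega)
        have e : E₀ + (M + 1) = E₀ + M + 1 := by ring
        rw [e]
        rw [Nat.succ_mul]
        omega
    have h2 := h1 (C + k * (E₀ + 1) * h + 1)
    have h3 := hup (E₀ + (C + k * (E₀ + 1) * h + 1))
    set M := C + k * (E₀ + 1) * h + 1 with hM
    have h4 : C + k * (E₀ + M + 1) * h = (M - 1) + M * H := by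
      rw [hM, hH]
      simp only [Nat.add_sub_cancel]
      ring
    rw [h4] at h3
    rw [Nat.mul_succ] at h2
    omega
  -- choice of g
  obtain ⟨g, hg⟩ : ∃ g : ℕ, d * (H + 1) ≤ k ^ g :=
    ⟨d * (H + 1), (Nat.lt_pow_self (by omega : 1 < k)).le⟩
  set P : ℕ → ℕ → Prop := fun j e =>
    ∀ n, k ^ e * (k ^ g + d * j) ≤ n → n < k ^ e * (k ^ g + d * (j + 1)) →
      len n = len (k ^ e * (k ^ g + d * j)) with hP
  have hex : ∃ j, ∃ᶠ e in atTop, P j e := by
    by_contra hcon
    push Not at hcon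
    have h1 : ∀ᶠ e in atTop, ∀ j ∈ Finset.range (H + 1), ¬ P j e :=
      (Filter.eventually_all_finset _).2 fun j _ => by
        have := hcon j
        exact this
    obtain ⟨e₀, he₀⟩ := Filter.eventually_atTop.1 h1
    obtain ⟨E, hE, hE2⟩ := hfreq (e₀ + g)
    obtain ⟨e, rfl⟩ : ∃ e, E = e + g := ⟨E - g, by omega⟩
    have h2 := he₀ e (by omega)
    have h3 : ∀ j ≤ H + 1, len (k ^ e * k ^ g) + j ≤ len (k ^ e * (k ^ g + d * j)) := by
      intro j
      induction j with
      | zero => intro _; simp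
      | succ j ih =>
        intro hj
        have ih' := ih (by omega)
        have h4 := h2 j (Finset.mem_range.2 (by omega))
        simp only [hP] at h4
        push Not at h4
        obtain ⟨n, hn1, hn2, hn3⟩ := h4
        have h5 : len (k ^ e * (k ^ g + d * j)) ≤ len n := hlm hn1
        have h6 : len n ≤ len (k ^ e * (k ^ g + d * (j + 1))) := hlm hn2.le
        omega
    have h4 := h3 (H + 1) le_rfl
    have h5 : k ^ e * (k ^ g + d * (H + 1)) ≤ k ^ (e + g + 1) := by
      calc k ^ e * (k ^ g + d * (H + 1)) ≤ k ^ e * (k ^ g * 2) := by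
            refine Nat.mul_le_mul_left _ ?_
            omega
        _ ≤ k ^ e * (k ^ g * k) := Nat.mul_le_mul_left _ (Nat.mul_le_mul_left _ hk)
        _ = k ^ (e + g + 1) := by ring
    have h6 := hlm h5
    rw [← pow_add] at h4
    omega
  obtain ⟨j, hj⟩ := hex
  obtain ⟨φ, hφ, hφP⟩ := Filter.extraction_of_frequently_atTop hj
  refine ⟨k ^ g + d * j, ?_, φ, hφ, ?_⟩
  · have : 1 ≤ k ^ g := Nat.one_le_pow _ _ hk0
    omega
  · intro i
    refine ⟨len (k ^ φ i * (k ^ g + d * j)), ?_, ?_⟩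
    · by_contra h0
      have h1 : (Nat.digits b (a (k ^ φ i * (k ^ g + d * j)))).length = 0 := by
        simp only [hlen] at h0
        omega
      have h2 := List.length_eq_zero_iff.1 h1
      rw [Nat.digits_eq_nil_iff_eq_zero] at h2
      exact absurd h2 (hpos _).ne'
    · intro n hn1 hn2
      refine hφP i n hn1 ?_
      rw [mul_add d, mul_one, ← add_assoc]
      exact hn2

end Pool.Agent.Sub
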