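import Pool.Agent.Lib_MP_10b5ac_nt.Defs
import Pool.Agent.Lib_MP_10b5ac_nt.Regular
import Pool.Agent.Lib_MP_10b5ac_nt.Window

set_option autoImplicit false

/-! Piece H4: rational approximations to the concatenation constant. -/

namespace Pool.Agent.Sub

open Finset

namespace Appr

/-- number of digits -/
noncomputable def len (b : ℕ) (a : ℕ → ℕ) (n : ℕ) : ℕ := (Nat.digits b (a n)).length

/-- total number of digits of the first `n` terms -/
noncomputable def tot (b : ℕ) (a : ℕ → ℕ) (n : ℕ) : ℕ := ∑ i ∈ range n, len b a i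

theorem tot_succ (b : ℕ) (a : ℕ → ℕ) (n : ℕ) : tot b a (n + 1) = tot b a n + len b a n :=
  Finset.sum_range_succ _ _

/-- the terms of the series -/
noncomputable def trm (b : ℕ) (a : ℕ → ℕ) (n : ℕ) : ℝ := (a n : ℝ) / (b : ℝ) ^ tot b a (n + 1)

theorem xi_eq (b : ℕ) (a : ℕ → ℕ) : xi b a = ∑' n, trm b a n := rfl

variable {b : ℕ} {a : ℕ → ℕ}

theorem trm_nonneg (n : ℕ) : 0 ≤ trm b a n := by
  unfold trm
  positivity

theorem trm_le (hb : 2 ≤ b) (n : ℕ) :
    trm b a n ≤ ((b : ℝ) ^ tot b a n)⁻¹ - ((b : ℝ) ^ tot b a (n + 1))⁻¹ := by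
  have hb0 : (0 : ℝ) < b := by positivity
  have h1 : a n < b ^ len b a n := Nat.lt_base_pow_length_digits (by omega)
  have h2 : (a n : ℝ) ≤ (b : ℝ) ^ len b a n - 1 := by
    have : (a n : ℝ) + 1 ≤ (b : ℝ) ^ len b a n := by exact_mod_cast h1
    linarith
  unfold trm
  rw [tot_succ, pow_add]
  have h3 : (0 : ℝ) < (b : ℝ) ^ tot b a n := by positivity
  have h4 : (0 : ℝ) < (b : ℝ) ^ len b a n := by positivity
  have h5 : ((b : ℝ) ^ tot b a n)⁻¹ - ((b : ℝ) ^ tot b a n * (b : ℝ) ^ len b a n)⁻¹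
      = ((b : ℝ) ^ len b a n - 1) / ((b : ℝ) ^ tot b a n * (b : ℝ) ^ len b a n) := by
    field_simp
  rw [h5]
  exact div_le_div_of_nonneg_right h2 (by positivity)

theorem sum_trm_le (hb : 2 ≤ b) (m n : ℕ) :
    ∑ i ∈ range n, trm b a (i + m) ≤ ((b : ℝ) ^ tot b a m)⁻¹ - ((b : ℝ) ^ tot b a (n + m))⁻¹ := by
  induction n with
  | zero => simp
  | succ n ih =>
    rw [Finset.sum_range_succ]
    have := trm_le (a := a) hb (n + m)
    rw [show n + 1 + m = n + m + 1 by ring]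
    linarith

theorem sum_trm_le' (hb : 2 ≤ b) (m n : ℕ) :
    ∑ i ∈ range n, trm b a (i + m) ≤ ((b : ℝ) ^ tot b a m)⁻¹ := by
  have h1 := sum_trm_le (a := a) hb m n
  have h2 : (0 : ℝ) ≤ ((b : ℝ) ^ tot b a (n + m))⁻¹ := by positivity
  linarith

theorem summable_trm (hb : 2 ≤ b) (m : ℕ) : Summable fun i => trm b a (i + m) :=
  summable_of_sum_range_le (fun _ => trm_nonneg _) (fun n => sum_trm_le' hb m n)

theorem tail_nonneg (m : ℕ) : 0 ≤ ∑' i, trm b a (i + m) := tsum_nonneg fun _ => trm_nonneg _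

theorem tail_le (hb : 2 ≤ b) (m : ℕ) : ∑' i, trm b a (i + m) ≤ ((b : ℝ) ^ tot b a m)⁻¹ :=
  (summable_trm hb m).tsum_le_of_sum_range_le fun n => sum_trm_le' hb m n

theorem xi_split (hb : 2 ≤ b) (m : ℕ) :
    xi b a = ∑ i ∈ range m, trm b a i + ∑' i, trm b a (i + m) := by
  rw [xi_eq]
  have h := (summable_trm (a := a) hb 0)
  simp only [add_zero] at h
  exact (h.sum_add_tsum_nat_add m).symm

theorem tot_mono : Monotone (tot b a) := by
  refine monotone_nat_of_le_succ fun n => ?_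
  rw [tot_succ]
  omega

/-- the head is integral after multiplication by `b ^ tot m` -/
theorem head_int (hb : 2 ≤ b) (m : ℕ) :
    ∃ I : ℤ, (b : ℝ) ^ tot b a m * ∑ i ∈ range m, trm b a i = I := by
  refine ⟨∑ i ∈ range m, (a i : ℤ) * (b : ℤ) ^ (tot b a m - tot b a (i + 1)), ?_⟩
  rw [Finset.mul_sum]
  push_cast
  refine Finset.sum_congr rfl fun i hi => ?_
  have h1 : tot b a (i + 1) ≤ tot b a m := tot_mono (by
    have := Finset.mem_range.mp hi
    omega)
  have hb0 : (0 : ℝ) < b := by positivity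
  unfold trm
  rw [← Nat.sub_add_cancel h1, pow_add, Nat.sub_add_cancel h1]
  field_simp

/-- products of the transition matrices -/
theorem exists_trans {k d : ℕ} (hk : 2 ≤ k) (V : ℕ → Fin d → ℤ) (A : ℕ → Matrix (Fin d) (Fin d) ℤ)
    (hV : ∀ i < k, ∀ n, V (k * n + i) = (A i).mulVec (V n)) (E : ℕ) :
    ∃ B : ℕ → Matrix (Fin d) (Fin d) ℤ, ∀ ρ < k ^ E, ∀ m, V (k ^ E * m + ρ) = (B ρ).mulVec (V m) := by
  induction E with
  | zero =>
    refine ⟨fun _ => 1, fun ρ hρ m => ?_⟩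
    have : ρ = 0 := by simpa using hρ
    subst this
    simp
  | succ E ih =>
    obtain ⟨B, hB⟩ := ih
    refine ⟨fun ρ => A (ρ % k) * B (ρ / k), fun ρ hρ m => ?_⟩
    have h1 : ρ / k < k ^ E := by
      rw [Nat.div_lt_iff_lt_mul (by omega), ← pow_succ]
      exact hρ
    have h2 : k ^ (E + 1) * m + ρ = k * (k ^ E * m + ρ / k) + ρ % k := by
      have h3 := Nat.div_add_mod ρ k
      rw [mul_add, pow_succ]
      calc k ^ E * k * m + ρ = k * (k ^ E * m) + (k * (ρ / k) + ρ % k) := by rw [h3]; ring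
        _ = _ := by ring
    rw [h2, hV _ (Nat.mod_lt _ (by omega)), hB _ h1, Matrix.mulVec_mulVec]

/-- the purely algebraic part -/
theorem approx_alg (d : ℕ) (c : Fin (d + 1) → ℤ) (Bs : ℕ) (hBs : 1 ≤ Bs) (I : ℤ)
    (F : Fin (d + 1) → ℝ) (hF0 : ∀ i, 0 ≤ F i) (hF1 : ∀ i, F i ≤ 1)
    (G : Fin (d + 1) → ℤ) (hG : ∀ i, (Bs : ℝ) * F i = G i) (hc : ∑ i, (c i : ℝ) * F i = 0)
    (τ : ℝ) (hτ0 : 0 ≤ τ) (hτ : τ * (Bs : ℝ) ^ (d + 1) ≤ 1) (x : ℝ)
    (hx : x = I + ∑ i, F i / (Bs : ℝ) ^ (i : ℕ) + τ) :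
    ∃ p : ℤ, |(∑ j, (c j : ℝ) * (Bs : ℝ) ^ (j : ℕ)) * x - p| ≤
      ((d + 2) * ∑ j, |(c j : ℝ)|) * (Bs : ℝ)⁻¹ := by
  have hB0 : (0 : ℝ) < Bs := by positivity
  have hB1 : (1 : ℝ) ≤ Bs := by exact_mod_cast hBs
  -- the integer
  let p : ℤ := ∑ j : Fin (d + 1), (c j * (Bs : ℤ) ^ (j : ℕ) * I +
    ∑ i : Fin (d + 1), if (i : ℕ) < j then c j * (Bs : ℤ) ^ ((j : ℕ) - i - 1) * G i else 0)
  refine ⟨p, ?_⟩
  -- the double sum
  let R : Fin (d + 1) → Fin (d + 1) → ℝ := fun j i =>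
    (c j : ℝ) * ((Bs : ℝ) ^ (j : ℕ) * (F i / (Bs : ℝ) ^ (i : ℕ)))
      - (if (i : ℕ) < j then ((c j * (Bs : ℤ) ^ ((j : ℕ) - i - 1) * G i : ℤ) : ℝ) else 0)
      - (if i = j then (c j : ℝ) * F j else 0)
  have hRb : ∀ j i, |R j i| ≤ |(c j : ℝ)| * (Bs : ℝ)⁻¹ := by
    intro j i
    rcases lt_trichotomy (i : ℕ) (j : ℕ) with h | h | h
    · have hne : i ≠ j := fun h' => by rw [h'] at h; exact lt_irrefl _ h
      have : R j i = 0 := by
        simp only [R, h, if_true, hne, if_false, sub_zero]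
        push_cast
        rw [← hG i]
        have h1 : (Bs : ℝ) ^ (j : ℕ) = (Bs : ℝ) ^ ((j : ℕ) - i - 1) * Bs * (Bs : ℝ) ^ (i : ℕ) := by
          rw [← pow_succ, ← pow_add]
          congr 1
          omega
        rw [h1]
        field_simp
        ring
      rw [this, abs_zero]
      positivity
    · have hij : i = j := Fin.ext h
      subst hij
      have : R i i = 0 := by
        simp only [R, lt_irrefl, if_false, if_true, sub_zero]
        field_simp
        ring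
      rw [this, abs_zero]
      positivity
    · have hne : i ≠ j := fun h' => by rw [h'] at h; exact lt_irrefl _ h
      have h' : ¬ (i : ℕ) < j := by omega
      have h2 : R j i = (c j : ℝ) * ((Bs : ℝ) ^ (j : ℕ) * (F i / (Bs : ℝ) ^ (i : ℕ))) := by
        simp only [R, h', if_false, hne, sub_zero]
      rw [h2, abs_mul]
      refine mul_le_mul_of_nonneg_left ?_ (abs_nonneg _)
      have h3 : (Bs : ℝ) ^ (i : ℕ) = (Bs : ℝ) ^ (j : ℕ) * Bs * (Bs : ℝ) ^ ((i : ℕ) - j - 1) := by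
        rw [← pow_succ, ← pow_add]
        congr 1
        omega
      have h4 : (Bs : ℝ) ^ (j : ℕ) * (F i / (Bs : ℝ) ^ (i : ℕ))
          = F i * (Bs : ℝ)⁻¹ * ((Bs : ℝ) ^ ((i : ℕ) - j - 1))⁻¹ := by
        rw [h3]
        field_simp
      rw [h4]
      have h5 : ((Bs : ℝ) ^ ((i : ℕ) - j - 1))⁻¹ ≤ 1 := inv_le_one_of_one_le₀ (one_le_pow₀ hB1)
      have h6 : (0 : ℝ) ≤ ((Bs : ℝ) ^ ((i : ℕ) - j - 1))⁻¹ := by positivity
      have h7 : (0 : ℝ) ≤ (Bs : ℝ)⁻¹ := by positivity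
      rw [abs_of_nonneg (by have := hF0 i; positivity)]
      calc F i * (Bs : ℝ)⁻¹ * ((Bs : ℝ) ^ ((i : ℕ) - j - 1))⁻¹ ≤ 1 * (Bs : ℝ)⁻¹ * 1 :=
            mul_le_mul (mul_le_mul_of_nonneg_right (hF1 i) h7) h5 h6 (by positivity)
        _ = _ := by ring
  have hsum : (∑ j, (c j : ℝ) * (Bs : ℝ) ^ (j : ℕ)) * x - p
      = ∑ j, ∑ i, R j i + ∑ j, (c j : ℝ) * ((Bs : ℝ) ^ (j : ℕ) * τ) := by
    have h1 : ∑ j, ∑ i, R j i = ∑ j, ∑ i, (c j : ℝ) * ((Bs : ℝ) ^ (j : ℕ) * (F i / (Bs : ℝ) ^ (i : ℕ)))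
        - ∑ j : Fin (d + 1), ∑ i : Fin (d + 1),
          (if (i : ℕ) < j then ((c j * (Bs : ℤ) ^ ((j : ℕ) - i - 1) * G i : ℤ) : ℝ) else 0)
        - ∑ i, (c i : ℝ) * F i := by
      have h2 : ∑ i, (c i : ℝ) * F i
          = ∑ j : Fin (d + 1), ∑ i : Fin (d + 1), (if i = j then (c j : ℝ) * F j else 0) := by
        refine Finset.sum_congr rfl fun j _ => ?_
        simp
      rw [h2, ← Finset.sum_sub_distrib, ← Finset.sum_sub_distrib]
      refine Finset.sum_congr rfl fun j _ => ?_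
      rw [← Finset.sum_sub_distrib, ← Finset.sum_sub_distrib]
    have h3 : ((p : ℤ) : ℝ) = ∑ j : Fin (d + 1), (c j : ℝ) * (Bs : ℝ) ^ (j : ℕ) * I
        + ∑ j : Fin (d + 1), ∑ i : Fin (d + 1),
          (if (i : ℕ) < j then ((c j * (Bs : ℤ) ^ ((j : ℕ) - i - 1) * G i : ℤ) : ℝ) else 0) := by
      simp only [p]
      rw [Int.cast_sum, ← Finset.sum_add_distrib]
      refine Finset.sum_congr rfl fun j _ => ?_
      push_cast
      rfl
    rw [h1, hc, h3, hx, Finset.sum_mul]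
    have h4 : ∑ j : Fin (d + 1), (c j : ℝ) * (Bs : ℝ) ^ (j : ℕ) *
        ((I : ℝ) + ∑ i, F i / (Bs : ℝ) ^ (i : ℕ) + τ)
        = ∑ j : Fin (d + 1), (c j : ℝ) * (Bs : ℝ) ^ (j : ℕ) * I
          + ∑ j, ∑ i, (c j : ℝ) * ((Bs : ℝ) ^ (j : ℕ) * (F i / (Bs : ℝ) ^ (i : ℕ)))
          + ∑ j, (c j : ℝ) * ((Bs : ℝ) ^ (j : ℕ) * τ) := by
      rw [← Finset.sum_add_distrib, ← Finset.sum_add_distrib]
      refine Finset.sum_congr rfl fun j _ => ?_
      rw [← Finset.mul_sum, ← Finset.mul_sum]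
      ring
    rw [h4]
    ring
  rw [hsum]
  have hτb : ∀ j : Fin (d + 1), |(c j : ℝ) * ((Bs : ℝ) ^ (j : ℕ) * τ)| ≤ |(c j : ℝ)| * (Bs : ℝ)⁻¹ := by
    intro j
    rw [abs_mul]
    refine mul_le_mul_of_nonneg_left ?_ (abs_nonneg _)
    rw [abs_of_nonneg (by positivity)]
    have h1 : (Bs : ℝ) ^ (j : ℕ) * Bs ≤ (Bs : ℝ) ^ (d + 1) := by
      rw [← pow_succ]
      exact pow_le_pow_right₀ hB1 (by omega)
    have h2 : (Bs : ℝ) ^ (j : ℕ) * τ * Bs ≤ 1 := by
      calc (Bs : ℝ) ^ (j : ℕ) * τ * Bs = τ * ((Bs : ℝ) ^ (j : ℕ) * Bs) := by ring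
        _ ≤ τ * (Bs : ℝ) ^ (d + 1) := mul_le_mul_of_nonneg_left h1 hτ0
        _ ≤ 1 := hτ
    rw [← one_div, le_div_iff₀ hB0]
    exact h2
  refine (abs_add_le _ _).trans ?_
  have h1 : |∑ j, ∑ i, R j i| ≤ ∑ j : Fin (d + 1), (d + 1) * (|(c j : ℝ)| * (Bs : ℝ)⁻¹) := by
    refine (Finset.abs_sum_le_sum_abs _ _).trans (Finset.sum_le_sum fun j _ => ?_)
    refine (Finset.abs_sum_le_sum_abs _ _).trans ?_
    refine (Finset.sum_le_sum fun i _ => hRb j i).trans ?_
    simp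
  have h2 : |∑ j, (c j : ℝ) * ((Bs : ℝ) ^ (j : ℕ) * τ)| ≤ ∑ j, |(c j : ℝ)| * (Bs : ℝ)⁻¹ :=
    (Finset.abs_sum_le_sum_abs _ _).trans (Finset.sum_le_sum fun j _ => hτb j)
  refine (add_le_add h1 h2).trans (le_of_eq ?_)
  rw [← Finset.mul_sum, ← Finset.sum_mul]
  ring

end Appr

open Appr

theorem approx (k b : ℕ) (hk : 2 ≤ k) (hb : 2 ≤ b) (a : ℕ → ℕ) (hmono : StrictMono a)
    (hpos : ∀ n, 0 < a n)
    (hfg : (Submodule.span ℤ {f : ℕ → ℤ | ∃ e r : ℕ, r < k ^ e ∧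
          f = fun n => ((a (k ^ e * n + r) : ℕ) : ℤ)}).FG) :
    ∃ (d : ℕ) (c : Fin (d + 1) → ℤ) (T : ℕ) (C : ℝ) (r s : ℕ → ℕ) (p : ℕ → ℤ), c ≠ 0 ∧
      StrictMono s ∧ (∀ e, r e ≤ T * s e) ∧
      ∀ e, |(∑ j, (c j : ℝ) * (b : ℝ) ^ (r e + s e * (j : ℕ))) * xi b a - p e|
        ≤ C * (b : ℝ) ^ (-(s e : ℝ)) := by
  obtain ⟨d, V, A, w, hV, hw⟩ := regular_basis k hk a hfg
  obtain ⟨C₁, h₁, hgrV⟩ := regular_growth k hk d V A hV
  -- growth of a
  obtain ⟨C₂, hgr⟩ : ∃ C₂ : ℕ, ∀ n, a n ≤ C₂ * (n + 1) ^ h₁ := by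
    refine ⟨∑ j, (w j).natAbs * C₁, fun n => ?_⟩
    have h1 : ((a n : ℕ) : ℤ) ≤ ((∑ j, (w j).natAbs * C₁) * (n + 1) ^ h₁ : ℕ) := by
      rw [hw n]
      push_cast
      rw [dotProduct, Finset.sum_mul]
      refine Finset.sum_le_sum fun j _ => ?_
      calc w j * V n j ≤ |w j * V n j| := le_abs_self _
        _ = |w j| * |V n j| := abs_mul _ _
        _ ≤ |w j| * (C₁ * ((n : ℤ) + 1) ^ h₁) :=
            mul_le_mul_of_nonneg_left (hgrV n j) (abs_nonneg _)
        _ = _ := by ring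
    exact_mod_cast h1
  obtain ⟨t, ht, e, he, hwin⟩ := window k b hk hb a hmono hpos C₂ h₁ hgr (d + 1)
  choose ℓ hℓ1 hℓ using hwin
  -- linear dependence
  obtain ⟨c, hc0, hc⟩ : ∃ c : Fin (d + 1) → ℤ, c ≠ 0 ∧
      ∑ i : Fin (d + 1), c i • V (t + i) = 0 := by
    have h1 : ¬ LinearIndependent ℤ (fun i : Fin (d + 1) => V (t + i)) := by
      intro h
      have h2 := h.fintype_card_le_finrank
      simp at h2
    rw [Fintype.not_linearIndependent_iff] at h1
    obtain ⟨g, hg, i, hi⟩ := h1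
    exact ⟨g, fun h0 => hi (by rw [h0]; rfl), hg⟩
  have hkpos : ∀ E, 1 ≤ k ^ E := fun E => Nat.one_le_pow _ _ (by omega)
  -- main construction for every index
  have hmain : ∀ i : ℕ, ∃ p : ℤ, |(∑ j, (c j : ℝ) * ((b ^ (ℓ i * k ^ e i) : ℕ) : ℝ) ^ (j : ℕ)) *
      ((b : ℝ) ^ tot b a (k ^ e i * t) * xi b a) - p| ≤
      ((d + 2) * ∑ j, |(c j : ℝ)|) * ((b ^ (ℓ i * k ^ e i) : ℕ) : ℝ)⁻¹ := by
    intro i
    set E := e i with hE
    set l := ℓ i with hl
    set m₀ := k ^ E * t with hm₀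
    have hlen : ∀ n, m₀ ≤ n → n < k ^ E * (t + (d + 1)) → len b a n = l := fun n h1 h2 => hℓ i n h1 h2
    -- digits count in the window
    have htot : ∀ q, q ≤ k ^ E * (d + 1) → tot b a (m₀ + q) = tot b a m₀ + l * q := by
      intro q
      induction q with
      | zero => intro _; simp
      | succ q ih =>
        intro hq
        rw [← add_assoc, tot_succ, ih (by omega), hlen (m₀ + q) (by omega) (by
          rw [hm₀, mul_add]; omega)]
        ring
    obtain ⟨I, hI⟩ := head_int (a := a) hb m₀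
    obtain ⟨B, hB⟩ := exists_trans hk V A hV E
    have hb0 : (0 : ℝ) < b := by positivity
    -- the block functional
    let Φ : (Fin d → ℤ) → ℝ := fun v =>
      ∑ ρ ∈ range (k ^ E), ((w ⬝ᵥ (B ρ).mulVec v : ℤ) : ℝ) / (b : ℝ) ^ (l * (ρ + 1))
    have hΦadd : ∀ u v, Φ (u + v) = Φ u + Φ v := by
      intro u v
      simp only [Φ, Matrix.mulVec_add, dotProduct_add]
      rw [← Finset.sum_add_distrib]
      refine Finset.sum_congr rfl fun ρ _ => ?_
      push_cast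
      ring
    have hΦsmul : ∀ (n : ℤ) v, Φ (n • v) = n * Φ v := by
      intro n v
      simp only [Φ, Matrix.mulVec_smul, dotProduct_smul]
      rw [Finset.mul_sum]
      refine Finset.sum_congr rfl fun ρ _ => ?_
      rw [smul_eq_mul]
      push_cast
      ring
    have hΦ0 : Φ 0 = 0 := by
      have := hΦsmul 0 0
      simpa using this
    have hΦsum : ∀ (s : Finset (Fin (d + 1))) (f : Fin (d + 1) → Fin d → ℤ),
        Φ (∑ i ∈ s, f i) = ∑ i ∈ s, Φ (f i) := by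
      intro s f
      classical
      induction s using Finset.induction_on with
      | empty => simpa using hΦ0
      | insert x s hx ih => rw [Finset.sum_insert hx, Finset.sum_insert hx, hΦadd, ih]
    let F : Fin (d + 1) → ℝ := fun i' => Φ (V (t + i'))
    have hΦV : ∀ i' : Fin (d + 1), F i' =
        ∑ ρ ∈ range (k ^ E), (a (k ^ E * (t + i') + ρ) : ℝ) / (b : ℝ) ^ (l * (ρ + 1)) := by
      intro i'
      simp only [F, Φ]
      refine Finset.sum_congr rfl fun ρ hρ => ?_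
      rw [← hB ρ (Finset.mem_range.mp hρ), ← hw]
      simp
    -- block sums of the terms
    have hblock : ∀ i' : Fin (d + 1),
        (b : ℝ) ^ tot b a m₀ * ∑ ρ ∈ range (k ^ E), trm b a (k ^ E * (t + i') + ρ)
          = F i' / ((b ^ (l * k ^ E) : ℕ) : ℝ) ^ (i' : ℕ) := by
      intro i'
      rw [hΦV, Finset.mul_sum, Finset.sum_div]
      refine Finset.sum_congr rfl fun ρ hρ => ?_
      have hρ' := Finset.mem_range.mp hρ
      have hi' : (i' : ℕ) ≤ d := by omega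
      have h1 : k ^ E * (t + i') + ρ + 1 = m₀ + (k ^ E * i' + (ρ + 1)) := by rw [hm₀]; ring
      have h2 : k ^ E * (i' : ℕ) + (ρ + 1) ≤ k ^ E * (d + 1) := by
        have : k ^ E * (i' : ℕ) ≤ k ^ E * d := Nat.mul_le_mul_left _ hi'
        rw [mul_add]; omega
      unfold trm
      rw [h1, htot _ h2]
      have h3 : (b : ℝ) ^ (tot b a m₀ + l * (k ^ E * (i' : ℕ) + (ρ + 1)))
          = (b : ℝ) ^ tot b a m₀ * ((b : ℝ) ^ (l * (ρ + 1)) * (b : ℝ) ^ (l * k ^ E * (i' : ℕ))) := by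
        rw [← pow_add, ← pow_add]
        congr 1
        ring
      rw [h3]
      push_cast
      rw [← pow_mul]
      field_simp
    -- splitting of xi
    have hsplit : xi b a = ∑ n ∈ range m₀, trm b a n
        + ∑ i' : Fin (d + 1), ∑ ρ ∈ range (k ^ E), trm b a (k ^ E * (t + i') + ρ)
        + ∑' n, trm b a (n + k ^ E * (t + (d + 1))) := by
      rw [xi_split hb (k ^ E * (t + (d + 1)))]
      congr 1
      have h1 : ∀ q : ℕ, ∑ n ∈ range (k ^ E * (t + q)), trm b a n = ∑ n ∈ range m₀, trm b a n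
          + ∑ i' ∈ range q, ∑ ρ ∈ range (k ^ E), trm b a (k ^ E * (t + i') + ρ) := by
        intro q
        induction q with
        | zero => simp [hm₀]
        | succ q ih =>
          rw [show k ^ E * (t + (q + 1)) = k ^ E * (t + q) + k ^ E by ring,
            Finset.sum_range_add, ih, Finset.sum_range_succ]
          ring
      rw [h1 (d + 1)]
      congr 1
      exact Finset.sum_range (fun i' => ∑ ρ ∈ range (k ^ E), trm b a (k ^ E * (t + i') + ρ))
    refine approx_alg d c (b ^ (l * k ^ E)) (Nat.one_le_pow _ _ (by omega)) I F ?_ ?_ 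
      (fun i' => ∑ ρ ∈ range (k ^ E), (a (k ^ E * (t + i') + ρ) : ℤ) *
        (b : ℤ) ^ (l * (k ^ E - (ρ + 1)))) ?_ ?_
      ((b : ℝ) ^ tot b a m₀ * ∑' n, trm b a (n + k ^ E * (t + (d + 1)))) ?_ ?_ _ ?_
    · intro i'
      rw [hΦV]
      exact Finset.sum_nonneg fun ρ _ => by positivity
    · -- F ≤ 1
      intro i'
      rw [hΦV]
      have hi' : (i' : ℕ) ≤ d := by omega
      have h1 : ∀ q, q ≤ k ^ E →
          ∑ ρ ∈ range q, (a (k ^ E * (t + i') + ρ) : ℝ) / (b : ℝ) ^ (l * (ρ + 1))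
            ≤ 1 - ((b : ℝ) ^ (l * q))⁻¹ := by
        intro q
        induction q with
        | zero => intro _; simp
        | succ q ih =>
          intro hq
          rw [Finset.sum_range_succ]
          have h2 := ih (by omega)
          have h3 : a (k ^ E * (t + i') + q) < b ^ l := by
            have h4 : len b a (k ^ E * (t + i') + q) = l := hlen _ (by rw [hm₀, mul_add]; omega) (by
              have : k ^ E * (i' : ℕ) ≤ k ^ E * d := Nat.mul_le_mul_left _ hi'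
              rw [mul_add, mul_add, mul_add]; omega)
            rw [← h4]
            exact Nat.lt_base_pow_length_digits (by omega)
          have h5 : (a (k ^ E * (t + i') + q) : ℝ) ≤ (b : ℝ) ^ l - 1 := by
            have : (a (k ^ E * (t + i') + q) : ℝ) + 1 ≤ (b : ℝ) ^ l := by exact_mod_cast h3
            linarith
          have h6 : (a (k ^ E * (t + i') + q) : ℝ) / (b : ℝ) ^ (l * (q + 1))
              ≤ ((b : ℝ) ^ (l * q))⁻¹ - ((b : ℝ) ^ (l * (q + 1)))⁻¹ := by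
            have h7 : ((b : ℝ) ^ (l * q))⁻¹ - ((b : ℝ) ^ (l * (q + 1)))⁻¹
                = ((b : ℝ) ^ l - 1) / (b : ℝ) ^ (l * (q + 1)) := by
              rw [mul_add, mul_one, pow_add]
              field_simp
            rw [h7]
            exact div_le_div_of_nonneg_right h5 (by positivity)
          linarith
      have h2 := h1 (k ^ E) le_rfl
      have h3 : (0 : ℝ) ≤ ((b : ℝ) ^ (l * k ^ E))⁻¹ := by positivity
      linarith
    · -- integrality
      intro i'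
      rw [hΦV, Finset.mul_sum]
      push_cast
      refine Finset.sum_congr rfl fun ρ hρ => ?_
      have hρ' := Finset.mem_range.mp hρ
      have h1 : l * k ^ E = l * (k ^ E - (ρ + 1)) + l * (ρ + 1) := by
        rw [← mul_add]
        congr 1
        omega
      rw [h1, pow_add]
      field_simp
    · -- the relation
      have h1 := hΦsum Finset.univ (fun i' => c i' • V (t + i'))
      rw [hc, hΦ0] at h1
      rw [h1]
      exact Finset.sum_congr rfl fun i' _ => (hΦsmul _ _).symm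
    · exact mul_nonneg (by positivity) (tail_nonneg _)
    · -- tail
      have h1 := tail_le (a := a) hb (k ^ E * (t + (d + 1)))
      have h2 : tot b a (k ^ E * (t + (d + 1))) = tot b a m₀ + l * k ^ E * (d + 1) := by
        rw [show k ^ E * (t + (d + 1)) = m₀ + k ^ E * (d + 1) by rw [hm₀]; ring, htot _ le_rfl]
        ring
      rw [h2, pow_add] at h1
      have h3 : (0 : ℝ) < (b : ℝ) ^ tot b a m₀ := by positivity
      have h4 : (0 : ℝ) < (b : ℝ) ^ (l * k ^ E * (d + 1)) := by positivity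
      push_cast
      rw [← pow_mul]
      calc (b : ℝ) ^ tot b a m₀ * (∑' n, trm b a (n + k ^ E * (t + (d + 1)))) *
            (b : ℝ) ^ (l * k ^ E * (d + 1))
          ≤ (b : ℝ) ^ tot b a m₀ * ((b : ℝ) ^ tot b a m₀ * (b : ℝ) ^ (l * k ^ E * (d + 1)))⁻¹ *
            (b : ℝ) ^ (l * k ^ E * (d + 1)) := by
            gcongr
        _ = 1 := by field_simp
    · rw [hsplit, mul_add, mul_add, hI, Finset.mul_sum]
      congr 2
      exact Finset.sum_congr rfl fun i' _ => hblock i'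
  choose p hp using hmain
  have hcast : ∀ i, ((b ^ (ℓ i * k ^ e i) : ℕ) : ℝ)⁻¹ = (b : ℝ) ^ (-((ℓ i * k ^ e i : ℕ) : ℝ)) := by
    intro i
    rw [Real.rpow_neg (by positivity), Real.rpow_natCast]
    push_cast
    rfl
  have hℓeq : ∀ i, ℓ i = len b a (k ^ e i * t) := by
    intro i
    refine (hℓ i _ le_rfl ?_).symm
    exact Nat.mul_lt_mul_of_pos_left (by omega) (hkpos _)
  have hlenmono : Monotone (len b a) := by
    intro m n hmn
    unfold len
    exact Nat.le_length_digits_le _ _ _ (hmono.monotone hmn)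
  refine ⟨d, c, t, (d + 2) * ∑ j, |(c j : ℝ)|, fun i => tot b a (k ^ e i * t),
    fun i => ℓ i * k ^ e i, p, hc0, ?_, ?_, ?_⟩
  · refine strictMono_nat_of_lt_succ fun i => ?_
    have h1 : e i < e (i + 1) := he (Nat.lt_succ_self i)
    have h2 : k ^ e i < k ^ e (i + 1) := Nat.pow_lt_pow_right (by omega) h1
    have h3 : ℓ i ≤ ℓ (i + 1) := by
      rw [hℓeq, hℓeq]
      exact hlenmono (Nat.mul_le_mul_right _ h2.le)
    calc ℓ i * k ^ e i < ℓ i * k ^ e (i + 1) := Nat.mul_lt_mul_of_pos_left h2 (hℓ1 i)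
      _ ≤ ℓ (i + 1) * k ^ e (i + 1) := Nat.mul_le_mul_right _ h3
  · intro i
    have h1 : tot b a (k ^ e i * t) ≤ ∑ _n ∈ range (k ^ e i * t), ℓ i := by
      unfold tot
      refine Finset.sum_le_sum fun n hn => ?_
      rw [hℓeq]
      exact hlenmono (Finset.mem_range.mp hn).le
    refine h1.trans (le_of_eq ?_)
    rw [Finset.sum_const, Finset.card_range, smul_eq_mul]
    ring
  · intro i
    have h1 := hp i
    rw [hcast] at h1
    have h2 : (∑ j : Fin (d + 1), (c j : ℝ) *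
        (b : ℝ) ^ (tot b a (k ^ e i * t) + ℓ i * k ^ e i * (j : ℕ))) * xi b a
        = (∑ j : Fin (d + 1), (c j : ℝ) * ((b ^ (ℓ i * k ^ e i) : ℕ) : ℝ) ^ (j : ℕ)) *
          ((b : ℝ) ^ tot b a (k ^ e i * t) * xi b a) := by
      rw [Finset.sum_mul, Finset.sum_mul]
      refine Finset.sum_congr rfl fun j _ => ?_
      push_cast
      rw [pow_add, ← pow_mul]
      ring
    rw [h2]
    exact h1

end Pool.Agent.Sub
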