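import Mathlib

set_option autoImplicit false

/-! The law of large numbers (Chebyshev) for exponent tuples. -/

namespace Pool.Agent.Sub

open Finset

lemma sum_sq_piFinset_le {m : ℕ} {V : Type*} [DecidableEq V] (S : Fin m → Finset V)
    (x : Fin m → V → ℝ) (h0 : ∀ h, ∑ v ∈ S h, x h v = 0) (h1 : ∀ h, ∀ v ∈ S h, |x h v| ≤ 1) :
    ∑ I ∈ Fintype.piFinset S, (∑ h, x h (I h)) ^ 2 ≤ m * ((Fintype.piFinset S).card : ℝ) := by
  have hcross : ∀ h h', h ≠ h' → ∑ I ∈ Fintype.piFinset S, x h (I h) * x h' (I h') = 0 := by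
    intro h h' hne
    set f : (g : Fin m) → V → ℝ := fun g v => if g = h then x h v else if g = h' then x h' v else 1
      with hf
    have e1 : ∀ I : Fin m → V, x h (I h) * x h' (I h') = ∏ g, f g (I g) := by
      intro I
      rw [← Finset.mul_prod_erase univ _ (mem_univ h),
        ← Finset.mul_prod_erase _ _ (mem_erase.2 ⟨hne.symm, mem_univ h'⟩)]
      have e2 : ∏ g ∈ (univ.erase h).erase h', f g (I g) = 1 := by
        refine Finset.prod_eq_one fun g hg => ?_
        rw [mem_erase, mem_erase] at hg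
        simp only [hf]
        rw [if_neg hg.2.1, if_neg hg.1]
      rw [e2, mul_one]
      simp only [hf, if_true]
      rw [if_neg hne.symm]
    simp_rw [e1]
    rw [← Finset.prod_univ_sum S f]
    refine Finset.prod_eq_zero (mem_univ h) ?_
    simp only [hf, if_true]
    exact h0 h
  calc ∑ I ∈ Fintype.piFinset S, (∑ h, x h (I h)) ^ 2
      = ∑ I ∈ Fintype.piFinset S, ∑ h, ∑ h', x h (I h) * x h' (I h') := by
        refine sum_congr rfl fun I _ => ?_
        rw [sq, sum_mul_sum]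
    _ = ∑ h, ∑ h', ∑ I ∈ Fintype.piFinset S, x h (I h) * x h' (I h') := by
        rw [sum_comm]
        refine sum_congr rfl fun h _ => ?_
        rw [sum_comm]
    _ = ∑ h, ∑ I ∈ Fintype.piFinset S, x h (I h) * x h (I h) := by
        refine sum_congr rfl fun h _ => ?_
        exact Finset.sum_eq_single h (fun h' _ hne => hcross h h' hne.symm)
          (fun hh => absurd (mem_univ h) hh)
    _ ≤ ∑ _h : Fin m, ∑ _I ∈ Fintype.piFinset S, (1 : ℝ) := by
        refine sum_le_sum fun h _ => sum_le_sum fun I hI => ?_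
        have := h1 h (I h) (Fintype.mem_piFinset.1 hI h)
        have h2 := abs_le.1 this
        nlinarith
    _ = m * ((Fintype.piFinset S).card : ℝ) := by simp

lemma sum_piAntidiag_apply (N r : ℕ) (j j' : Fin N) :
    ∑ v ∈ Finset.piAntidiag (univ : Finset (Fin N)) r, ((v j : ℕ) : ℝ)
      = ∑ v ∈ Finset.piAntidiag (univ : Finset (Fin N)) r, ((v j' : ℕ) : ℝ) := by
  refine Finset.sum_bij (fun v _ => v ∘ Equiv.swap j j') ?_ ?_ ?_ ?_
  · intro v hv
    rw [mem_piAntidiag] at hv ⊢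
    refine ⟨?_, fun _ _ => mem_univ _⟩
    rw [← hv.1]
    exact Equiv.sum_comp (Equiv.swap j j') v
  · intro v _ v' _ hvv
    ext i
    have := congrFun hvv (Equiv.swap j j' i)
    simpa using this
  · intro v hv
    refine ⟨v ∘ Equiv.swap j j', ?_, ?_⟩
    · rw [mem_piAntidiag] at hv ⊢
      refine ⟨?_, fun _ _ => mem_univ _⟩
      rw [← hv.1]
      exact Equiv.sum_comp (Equiv.swap j j') v
    · ext i
      simp
  · intro v _
    simp

lemma mean_zero (N r : ℕ) (hr : 1 ≤ r) (j : Fin N) :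
    ∑ v ∈ Finset.piAntidiag (univ : Finset (Fin N)) r, (((v j : ℕ) : ℝ) / r - 1 / N) = 0 := by
  have hN : (0 : ℝ) < N := by
    have : 0 < N := j.pos
    exact_mod_cast this
  have hr' : (0 : ℝ) < r := by exact_mod_cast hr
  set S := Finset.piAntidiag (univ : Finset (Fin N)) r with hS
  have h1 : (N : ℝ) * ∑ v ∈ S, ((v j : ℕ) : ℝ) = r * S.card := by
    calc (N : ℝ) * ∑ v ∈ S, ((v j : ℕ) : ℝ) = ∑ _j' : Fin N, ∑ v ∈ S, ((v j : ℕ) : ℝ) := by simp
      _ = ∑ j' : Fin N, ∑ v ∈ S, ((v j' : ℕ) : ℝ) :=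
          sum_congr rfl fun j' _ => sum_piAntidiag_apply N r j j'
      _ = ∑ v ∈ S, ∑ j' : Fin N, ((v j' : ℕ) : ℝ) := sum_comm
      _ = ∑ v ∈ S, (r : ℝ) := by
          refine sum_congr rfl fun v hv => ?_
          have := (mem_piAntidiag.1 hv).1
          rw [← this]
          push_cast
          rfl
      _ = r * S.card := by simp [mul_comm]
  rw [sum_sub_distrib, ← sum_div, sum_const, nsmul_eq_mul]
  have h2 : ∑ v ∈ S, ((v j : ℕ) : ℝ) = r * S.card / N := by
    rw [eq_div_iff hN.ne', ← h1]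
    ring
  rw [h2]
  field_simp
  ring

theorem count_bad (m N : ℕ) (hN : 1 ≤ N) (r : Fin m → ℕ) (hr : ∀ h, 1 ≤ r h) (ε : ℝ)
    (hε : 0 < ε) :
    (((Fintype.piFinset fun h => Finset.piAntidiag (univ : Finset (Fin N)) (r h)).filter
      (fun I : Fin m → Fin N → ℕ =>
        ¬ ∀ j, |∑ h, (I h j : ℝ) / (r h : ℝ) - (m : ℝ) / N| ≤ ε * m)).card : ℝ) * (ε ^ 2 * m)
      ≤ N * ((Fintype.piFinset fun h => Finset.piAntidiag (univ : Finset (Fin N)) (r h)).card : ℝ) := by
  classical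
  have hN' : (0 : ℝ) < N := by exact_mod_cast hN
  set S : Fin m → Finset (Fin N → ℕ) := fun h => Finset.piAntidiag (univ : Finset (Fin N)) (r h)
    with hS
  set T := Fintype.piFinset S with hT
  rcases Nat.eq_zero_or_pos m with hm | hm
  · have : (m : ℝ) = 0 := by exact_mod_cast hm
    rw [this]
    have h2 : (0 : ℝ) ≤ N * (T.card : ℝ) := by positivity
    simpa using h2
  have hm' : (0 : ℝ) < m := by exact_mod_cast hm
  -- bad tuples for one index
  set Bad : Fin N → Finset (Fin m → Fin N → ℕ) := fun j =>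
    T.filter (fun I => ε * m < |∑ h, (I h j : ℝ) / (r h : ℝ) - (m : ℝ) / N|) with hBad
  have hsub : T.filter (fun I : Fin m → Fin N → ℕ =>
        ¬ ∀ j, |∑ h, (I h j : ℝ) / (r h : ℝ) - (m : ℝ) / N| ≤ ε * m) ⊆ univ.biUnion Bad := by
    intro I hI
    rw [mem_filter] at hI
    obtain ⟨hI1, hI2⟩ := hI
    push Not at hI2
    obtain ⟨j, hj⟩ := hI2
    rw [mem_biUnion]
    exact ⟨j, mem_univ j, mem_filter.2 ⟨hI1, hj⟩⟩
  have hone : ∀ j, ((Bad j).card : ℝ) * (ε ^ 2 * m) ≤ T.card := by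
    intro j
    have hx0 : ∀ h, ∑ v ∈ S h, ((v j : ℝ) / (r h : ℝ) - 1 / N) = 0 := fun h =>
      mean_zero N (r h) (hr h) j
    have hx1 : ∀ h, ∀ v ∈ S h, |(v j : ℝ) / (r h : ℝ) - 1 / N| ≤ 1 := by
      intro h v hv
      have hrh : (0 : ℝ) < r h := by exact_mod_cast hr h
      have hle : v j ≤ r h := by
        rw [← (mem_piAntidiag.1 hv).1]
        exact Finset.single_le_sum (fun _ _ => Nat.zero_le _) (mem_univ j)
      have h3 : (v j : ℝ) / (r h : ℝ) ≤ 1 := by
        rw [div_le_one hrh]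
        exact_mod_cast hle
      have h4 : 0 ≤ (v j : ℝ) / (r h : ℝ) := by positivity
      have h5 : (1 : ℝ) / N ≤ 1 := by
        rw [div_le_one hN']
        exact_mod_cast hN
      have h6 : (0 : ℝ) ≤ 1 / N := by positivity
      rw [abs_le]
      constructor <;> linarith
    have hsq := sum_sq_piFinset_le S (fun h v => (v j : ℝ) / (r h : ℝ) - 1 / N) hx0 hx1
    have hbad : ((Bad j).card : ℝ) * (ε * m) ^ 2
        ≤ ∑ I ∈ T, (∑ h, ((I h j : ℝ) / (r h : ℝ) - 1 / N)) ^ 2 := by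
      calc ((Bad j).card : ℝ) * (ε * m) ^ 2 = ∑ _I ∈ Bad j, (ε * m) ^ 2 := by
            rw [sum_const, nsmul_eq_mul]
        _ ≤ ∑ I ∈ Bad j, (∑ h, ((I h j : ℝ) / (r h : ℝ) - 1 / N)) ^ 2 := by
            refine sum_le_sum fun I hI => ?_
            have h3 := (mem_filter.1 hI).2
            have h4 : ∑ h, ((I h j : ℝ) / (r h : ℝ) - 1 / N)
                = ∑ h, (I h j : ℝ) / (r h : ℝ) - (m : ℝ) / N := by
              rw [sum_sub_distrib, sum_const, card_univ, Fintype.card_fin, nsmul_eq_mul]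
              ring
            rw [h4, ← sq_abs (∑ h, (I h j : ℝ) / (r h : ℝ) - (m : ℝ) / N)]
            exact pow_le_pow_left₀ (by positivity) h3.le 2
        _ ≤ ∑ I ∈ T, (∑ h, ((I h j : ℝ) / (r h : ℝ) - 1 / N)) ^ 2 :=
            sum_le_sum_of_subset_of_nonneg (filter_subset _ _) fun _ _ _ => sq_nonneg _
    have h7 : ((Bad j).card : ℝ) * (ε ^ 2 * m) * m ≤ T.card * m := by
      calc ((Bad j).card : ℝ) * (ε ^ 2 * m) * m = ((Bad j).card : ℝ) * (ε * m) ^ 2 := by ring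
        _ ≤ m * (T.card : ℝ) := hbad.trans hsq
        _ = T.card * m := mul_comm _ _
    exact le_of_mul_le_mul_right h7 hm'
  have hcard : ((T.filter (fun I : Fin m → Fin N → ℕ =>
        ¬ ∀ j, |∑ h, (I h j : ℝ) / (r h : ℝ) - (m : ℝ) / N| ≤ ε * m)).card : ℝ)
      ≤ ∑ j, ((Bad j).card : ℝ) := by
    have h1 := (card_le_card hsub).trans (card_biUnion_le)
    exact_mod_cast h1
  calc ((T.filter (fun I : Fin m → Fin N → ℕ =>
        ¬ ∀ j, |∑ h, (I h j : ℝ) / (r h : ℝ) - (m : ℝ) / N| ≤ ε * m)).card : ℝ) * (ε ^ 2 * m)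
      ≤ (∑ j, ((Bad j).card : ℝ)) * (ε ^ 2 * m) := by gcongr
    _ = ∑ j, ((Bad j).card : ℝ) * (ε ^ 2 * m) := by rw [sum_mul]
    _ ≤ ∑ _j : Fin N, (T.card : ℝ) := sum_le_sum fun j _ => hone j
    _ = N * (T.card : ℝ) := by simp

end Pool.Agent.Sub
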