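import Pool.Agent.Lib_MP_10b5ac_nt.Defs

set_option autoImplicit false

/-! A2: elementary lemmas on `l1`, `tay`, `hd`. -/

namespace Pool.Agent.Sub

open MvPolynomial Finset

section poly
variable {σ : Type*}

theorem l1_eq_of_subset (P : MvPolynomial σ ℝ) (S : Finset (σ →₀ ℕ)) (h : P.support ⊆ S) :
    l1 P = ∑ I ∈ S, |P.coeff I| := by
  unfold l1
  apply Finset.sum_subset h
  intro I _ hI
  rw [notMem_support_iff.mp hI, abs_zero]

theorem l1_nonneg (P : MvPolynomial σ ℝ) : 0 ≤ l1 P :=
  Finset.sum_nonneg fun _ _ => abs_nonneg _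

theorem coeff_le_l1 (P : MvPolynomial σ ℝ) (I : σ →₀ ℕ) : |P.coeff I| ≤ l1 P := by
  by_cases hI : I ∈ P.support
  · exact Finset.single_le_sum (f := fun I => |P.coeff I|) (fun _ _ => abs_nonneg _) hI
  · rw [notMem_support_iff.mp hI, abs_zero]
    exact l1_nonneg P

theorem l1_zero : l1 (0 : MvPolynomial σ ℝ) = 0 := by
  simp [l1]

theorem l1_monomial (I : σ →₀ ℕ) (c : ℝ) : l1 (monomial I c) = |c| := by
  classical
  rw [l1_eq_of_subset _ {I} support_monomial_subset]
  simp

theorem l1_C (c : ℝ) : l1 (C c : MvPolynomial σ ℝ) = |c| := l1_monomial 0 c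

theorem l1_X (s : σ) : l1 (X s : MvPolynomial σ ℝ) = 1 := by
  have := l1_monomial (Finsupp.single s 1) (1 : ℝ)
  rw [abs_one] at this
  exact this

theorem l1_neg (P : MvPolynomial σ ℝ) : l1 (-P) = l1 P := by
  unfold l1
  rw [support_neg]
  simp

theorem l1_add (P Q : MvPolynomial σ ℝ) : l1 (P + Q) ≤ l1 P + l1 Q := by
  classical
  rw [l1_eq_of_subset (P + Q) (P.support ∪ Q.support) support_add,
    l1_eq_of_subset P (P.support ∪ Q.support) Finset.subset_union_left,
    l1_eq_of_subset Q (P.support ∪ Q.support) Finset.subset_union_right,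
    ← Finset.sum_add_distrib]
  apply Finset.sum_le_sum
  intro I _
  rw [coeff_add]
  exact abs_add_le _ _

theorem l1_sum {ι : Type*} (s : Finset ι) (f : ι → MvPolynomial σ ℝ) :
    l1 (∑ i ∈ s, f i) ≤ ∑ i ∈ s, l1 (f i) := by
  classical
  induction s using Finset.induction_on with
  | empty => simp [l1_zero]
  | insert a s ha ih =>
    rw [Finset.sum_insert ha, Finset.sum_insert ha]
    exact (l1_add _ _).trans (by linarith)

theorem l1_mul (P Q : MvPolynomial σ ℝ) : l1 (P * Q) ≤ l1 P * l1 Q := by
  have h1 : P * Q = ∑ I ∈ P.support, ∑ J ∈ Q.support,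
      monomial (I + J) (P.coeff I * Q.coeff J) := by
    conv_lhs => rw [P.as_sum, Q.as_sum]
    rw [Finset.sum_mul_sum]
    simp only [monomial_mul]
  rw [h1]
  refine (l1_sum _ _).trans ?_
  have h2 : l1 P * l1 Q = ∑ I ∈ P.support, ∑ J ∈ Q.support, |P.coeff I| * |Q.coeff J| := by
    unfold l1
    rw [Finset.sum_mul_sum]
  rw [h2]
  apply Finset.sum_le_sum
  intro I _
  refine (l1_sum _ _).trans ?_
  apply Finset.sum_le_sum
  intro J _
  rw [l1_monomial, abs_mul]

theorem l1_one : l1 (1 : MvPolynomial σ ℝ) = 1 := by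
  have := l1_C (σ := σ) 1
  rw [C_1, abs_one] at this
  exact this

theorem l1_prod {ι : Type*} (s : Finset ι) (f : ι → MvPolynomial σ ℝ) :
    l1 (∏ i ∈ s, f i) ≤ ∏ i ∈ s, l1 (f i) := by
  classical
  induction s using Finset.induction_on with
  | empty => simp [l1_one]
  | insert a s ha ih =>
    rw [Finset.prod_insert ha, Finset.prod_insert ha]
    exact (l1_mul _ _).trans (mul_le_mul_of_nonneg_left ih (l1_nonneg _))

theorem l1_pow (P : MvPolynomial σ ℝ) (n : ℕ) : l1 (P ^ n) ≤ l1 P ^ n := by
  induction n with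
  | zero => simp [l1_one]
  | succ n ih =>
    rw [pow_succ, pow_succ]
    exact (l1_mul _ _).trans (mul_le_mul_of_nonneg_right ih (l1_nonneg _))

theorem one_le_l1_toR (P : MvPolynomial σ ℤ) (hP : P ≠ 0) : 1 ≤ l1 (toR P) := by
  obtain ⟨I, hI⟩ := MvPolynomial.ne_zero_iff.mp hP
  refine le_trans ?_ (coeff_le_l1 (toR P) I)
  have h1 : coeff I (toR P) = ((coeff I P : ℤ) : ℝ) := by
    simp [toR, coeff_map]
  rw [h1, ← Int.cast_abs]
  have : (1 : ℤ) ≤ |coeff I P| := Int.one_le_abs hI
  exact_mod_cast this

/-- coefficients of a product of powers of `x_s + X_s` -/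
theorem coeff_prod_add_pow {R : Type*} [CommSemiring R] (x : σ → R) (I : σ → ℕ) (S : Finset σ)
    (k : σ →₀ ℕ) [Decidable (k.support ⊆ S)] :
    coeff k (∏ s ∈ S, (C (x s) + X s : MvPolynomial σ R) ^ (I s)) =
      if k.support ⊆ S then ∏ s ∈ S, (((I s).choose (k s) : ℕ) : R) * x s ^ (I s - k s) else 0 := by
  classical
  induction S using Finset.induction_on generalizing k with
  | empty =>
    by_cases hk : k = 0
    · subst hk
      simp
    · rw [Finset.prod_empty, coeff_one, if_neg (fun h => hk h.symm), if_neg]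
      intro h
      exact hk (Finsupp.support_eq_empty.mp (Finset.subset_empty.mp h))
  | insert a S ha ih =>
    rw [Finset.prod_insert ha, add_comm (C (x a)) (X a), add_pow, Finset.sum_mul, coeff_sum]
    have hterm : ∀ m ∈ Finset.range (I a + 1),
        coeff k ((X a ^ m * C (x a) ^ (I a - m) * ((I a).choose m : MvPolynomial σ R)) *
          ∏ s ∈ S, (C (x s) + X s : MvPolynomial σ R) ^ (I s)) =
        if m = k a then (if k.support ⊆ insert a S then (((I a).choose (k a) : ℕ) : R) *
          x a ^ (I a - k a) * ∏ s ∈ S, (((I s).choose (k s) : ℕ) : R) * x s ^ (I s - k s) else 0)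
        else 0 := by
      intro m _
      have h1 : (X a ^ m * C (x a) ^ (I a - m) * ((I a).choose m : MvPolynomial σ R)) *
          ∏ s ∈ S, (C (x s) + X s : MvPolynomial σ R) ^ (I s) =
          C (((I a).choose m : R) * x a ^ (I a - m)) * (monomial (Finsupp.single a m) 1 *
          ∏ s ∈ S, (C (x s) + X s : MvPolynomial σ R) ^ (I s)) := by
        rw [X_pow_eq_monomial, C_mul, C_pow, map_natCast]
        ring
      rw [h1, coeff_C_mul, coeff_monomial_mul', one_mul]
      by_cases hm : Finsupp.single a m ≤ k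
      · rw [if_pos hm, ih]
        have hma : m ≤ k a := by
          have := hm a
          simpa using this
        by_cases hmk : m = k a
        · rw [if_pos hmk]
          by_cases hS : k.support ⊆ insert a S
          · rw [if_pos hS, if_pos, hmk]
            · congr 1
              apply Finset.prod_congr rfl
              intro s hs
              have hsa : s ≠ a := fun h => ha (h ▸ hs)
              have : (k - Finsupp.single a (k a)) s = k s := by
                rw [Finsupp.tsub_apply, Finsupp.single_eq_of_ne hsa, Nat.sub_zero]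
              rw [this]
            · intro s hs
              rw [Finsupp.mem_support_iff, Finsupp.tsub_apply] at hs
              by_cases hsa : s = a
              · subst hsa
                rw [Finsupp.single_eq_same, hmk] at hs
                omega
              · rw [Finsupp.single_eq_of_ne hsa, Nat.sub_zero] at hs
                exact (Finset.mem_insert.mp (hS (Finsupp.mem_support_iff.mpr hs))).resolve_left hsa
          · rw [if_neg hS, if_neg, mul_zero]
            intro hS'
            apply hS
            intro s hs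
            by_cases hsa : s = a
            · exact Finset.mem_insert.mpr (Or.inl hsa)
            · apply Finset.mem_insert_of_mem
              apply hS'
              rw [Finsupp.mem_support_iff, Finsupp.tsub_apply, Finsupp.single_eq_of_ne hsa,
                Nat.sub_zero]
              exact Finsupp.mem_support_iff.mp hs
        · rw [if_neg hmk, if_neg, mul_zero]
          intro hS'
          apply ha
          apply hS'
          rw [Finsupp.mem_support_iff, Finsupp.tsub_apply, Finsupp.single_eq_same]
          omega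
      · rw [if_neg hm, mul_zero, if_neg]
        intro hmk
        apply hm
        intro s
        by_cases hsa : s = a
        · subst hsa
          rw [Finsupp.single_eq_same, hmk]
        · rw [Finsupp.single_eq_of_ne hsa]
          exact zero_le
    rw [Finset.sum_congr rfl hterm, Finset.sum_ite_eq']
    by_cases hka : k a ∈ Finset.range (I a + 1)
    · rw [if_pos hka, Finset.prod_insert ha]
    · rw [if_neg hka]
      have h0 : (I a).choose (k a) = 0 := by
        apply Nat.choose_eq_zero_of_lt
        rw [Finset.mem_range] at hka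
        omega
      rw [Finset.prod_insert ha, h0]
      simp

theorem coeff_tay_monomial {R : Type*} [CommSemiring R] (x : σ → R) (I : σ →₀ ℕ) (c : R)
    (k : σ →₀ ℕ) : coeff k (tay x (monomial I c)) = c *
      (((k.prod fun s j => (I s).choose j : ℕ) : R) * (I - k).prod fun s e => x s ^ e) := by
  classical
  unfold tay
  rw [bind₁_monomial, coeff_C_mul, coeff_prod_add_pow]
  congr 1
  by_cases hk : k.support ⊆ I.support
  · rw [if_pos hk, Finset.prod_mul_distrib]
    congr 1
    · rw [Finsupp.prod_of_support_subset k hk _ (fun _ _ => Nat.choose_zero_right _), Nat.cast_prod]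
    · have hsub : (I - k).support ⊆ I.support := by
        intro s hs
        rw [Finsupp.mem_support_iff, Finsupp.tsub_apply] at hs
        rw [Finsupp.mem_support_iff]
        omega
      rw [Finsupp.prod_of_support_subset (I - k) hsub _ (fun _ _ => pow_zero _)]
      apply Finset.prod_congr rfl
      intro s _
      rw [Finsupp.tsub_apply]
  · rw [if_neg hk]
    obtain ⟨s, hs, hs'⟩ := Finset.not_subset.mp hk
    have h0 : (k.prod fun s j => (I s).choose j) = 0 := by
      apply Finset.prod_eq_zero hs
      beta_reduce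
      rw [Finsupp.notMem_support_iff.mp hs']
      apply Nat.choose_eq_zero_of_lt
      exact Nat.pos_of_ne_zero (Finsupp.mem_support_iff.mp hs)
    rw [h0, Nat.cast_zero, zero_mul]

theorem tay_add {R : Type*} [CommSemiring R] (x : σ → R) (P Q : MvPolynomial σ R) :
    tay x (P + Q) = tay x P + tay x Q := map_add _ _ _

theorem tay_sum {R ι : Type*} [CommSemiring R] (x : σ → R) (s : Finset ι)
    (P : ι → MvPolynomial σ R) : tay x (∑ a ∈ s, P a) = ∑ a ∈ s, tay x (P a) := map_sum _ _ _

theorem tay_mul {R : Type*} [CommSemiring R] (x : σ → R) (P Q : MvPolynomial σ R) :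
    tay x (P * Q) = tay x P * tay x Q := map_mul _ _ _

theorem tay_prod {R ι : Type*} [CommSemiring R] (x : σ → R) (s : Finset ι)
    (P : ι → MvPolynomial σ R) : tay x (∏ a ∈ s, P a) = ∏ a ∈ s, tay x (P a) := map_prod _ _ _

theorem tay_pow {R : Type*} [CommSemiring R] (x : σ → R) (P : MvPolynomial σ R) (n : ℕ) :
    tay x (P ^ n) = tay x P ^ n := map_pow _ _ _

theorem tay_C {R : Type*} [CommSemiring R] (x : σ → R) (c : R) :
    tay x (C c) = C c := bind₁_C_right _ _

theorem tay_X {R : Type*} [CommSemiring R] (x : σ → R) (s : σ) :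
    tay x (X s) = C (x s) + X s := bind₁_X_right _ _

theorem coeff_tay {R : Type*} [CommSemiring R] (x : σ → R) (P : MvPolynomial σ R) (k : σ →₀ ℕ) :
    coeff k (tay x P) = ∑ I ∈ P.support, P.coeff I *
      (((k.prod fun s j => (I s).choose j : ℕ) : R) * (I - k).prod fun s e => x s ^ e) := by
  conv_lhs => rw [P.as_sum]
  rw [tay_sum, coeff_sum]
  apply Finset.sum_congr rfl
  intro I _
  exact coeff_tay_monomial x I _ k

theorem hd_eq_of_subset {R : Type*} [CommSemiring R] (i : σ →₀ ℕ) (P : MvPolynomial σ R)
    (S : Finset (σ →₀ ℕ)) (h : P.support ⊆ S) :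
    hd i P = ∑ I ∈ S,
      monomial (I - i) (P.coeff I * ((i.prod fun s j => (I s).choose j : ℕ) : R)) := by
  unfold hd
  apply Finset.sum_subset h
  intro I _ hI
  rw [notMem_support_iff.mp hI, zero_mul, map_zero]

theorem eval_hd {R : Type*} [CommSemiring R] (x : σ → R) (P : MvPolynomial σ R) (k : σ →₀ ℕ) :
    eval x (hd k P) = coeff k (tay x P) := by
  rw [coeff_tay]
  unfold hd
  rw [map_sum]
  apply Finset.sum_congr rfl
  intro I _
  rw [eval_monomial, mul_assoc]

theorem choose_prod_mul (I i j : σ →₀ ℕ) :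
    (i.prod fun s a => (I s).choose a) * (j.prod fun s a => ((I - i) s).choose a) =
      (i.prod fun s a => (a + j s).choose a) * ((i + j).prod fun s a => (I s).choose a) := by
  classical
  have hi : i.support ⊆ i.support ∪ j.support := Finset.subset_union_left
  have hj : j.support ⊆ i.support ∪ j.support := Finset.subset_union_right
  have hij : (i + j).support ⊆ i.support ∪ j.support := Finsupp.support_add
  rw [Finsupp.prod_of_support_subset i hi _ (fun _ _ => Nat.choose_zero_right _),
    Finsupp.prod_of_support_subset j hj _ (fun _ _ => Nat.choose_zero_right _),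
    Finsupp.prod_of_support_subset (i + j) hij _ (fun _ _ => Nat.choose_zero_right _),
    Finsupp.prod_of_support_subset i hi (fun s a => (a + j s).choose a)
      (fun _ _ => Nat.choose_zero_right _),
    ← Finset.prod_mul_distrib, ← Finset.prod_mul_distrib]
  apply Finset.prod_congr rfl
  intro s _
  rw [Finsupp.tsub_apply, Finsupp.add_apply]
  by_cases h1 : i s + j s ≤ I s
  · have := Nat.choose_mul (n := I s) (k := i s + j s) (s := i s) (by omega)
    rw [mul_comm ((i s + j s).choose (i s))]
    rw [this]
    congr 2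
    omega
  · rw [Nat.choose_eq_zero_of_lt (n := I s) (k := i s + j s) (by omega), mul_zero]
    by_cases h2 : i s ≤ I s
    · rw [Nat.choose_eq_zero_of_lt (n := I s - i s) (k := j s) (by omega), mul_zero]
    · rw [Nat.choose_eq_zero_of_lt (n := I s) (k := i s) (by omega), zero_mul]

theorem coeff_tay_hd {R : Type*} [CommSemiring R] (x : σ → R) (P : MvPolynomial σ R)
    (i j : σ →₀ ℕ) : coeff j (tay x (hd i P)) =
      ((i.prod fun s a => (a + j s).choose a : ℕ) : R) * coeff (i + j) (tay x P) := by
  rw [coeff_tay x P (i + j), Finset.mul_sum]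
  unfold hd
  rw [tay_sum, coeff_sum]
  apply Finset.sum_congr rfl
  intro I _
  rw [coeff_tay_monomial]
  have h := congrArg (fun n : ℕ => (n : R)) (choose_prod_mul I i j)
  simp only [Nat.cast_mul] at h
  have h2 : I - i - j = I - (i + j) := tsub_tsub I i j
  rw [h2]
  calc P.coeff I * ((i.prod fun s j => (I s).choose j : ℕ) : R) *
        (((j.prod fun s j => ((I - i) s).choose j : ℕ) : R) * (I - (i + j)).prod fun s e => x s ^ e)
      = P.coeff I * (((i.prod fun s j => (I s).choose j : ℕ) : R) *
        ((j.prod fun s j => ((I - i) s).choose j : ℕ) : R)) *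
          ((I - (i + j)).prod fun s e => x s ^ e) := by ring
    _ = _ := by
      rw [h]
      ring

theorem tay_tay {R : Type*} [CommSemiring R] (x y : σ → R) (P : MvPolynomial σ R) :
    tay x (tay y P) = tay (x + y) P := by
  unfold tay
  rw [bind₁_bind₁]
  congr 2
  funext s
  rw [map_add, bind₁_C_right, bind₁_X_right, Pi.add_apply, C_add]
  ring

theorem tay_zero_left {R : Type*} [CommSemiring R] (P : MvPolynomial σ R) :
    tay (0 : σ → R) P = P := by
  unfold tay
  have : (fun s : σ => C ((0 : σ → R) s) + X s : σ → MvPolynomial σ R) = X := by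
    funext s
    simp
  rw [this, bind₁_X_left]
  rfl

theorem tay_eq_zero {R : Type*} [CommRing R] (x : σ → R) (P : MvPolynomial σ R) :
    tay x P = 0 ↔ P = 0 := by
  constructor
  · intro h
    have h1 : tay (-x) (tay x P) = P := by
      rw [tay_tay, neg_add_cancel, tay_zero_left]
    rw [← h1, h]
    exact map_zero _
  · rintro rfl
    exact map_zero _

theorem hd_add {R : Type*} [CommSemiring R] (i : σ →₀ ℕ) (P Q : MvPolynomial σ R) :
    hd i (P + Q) = hd i P + hd i Q := by
  classical
  rw [hd_eq_of_subset i (P + Q) (P.support ∪ Q.support) support_add,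
    hd_eq_of_subset i P (P.support ∪ Q.support) Finset.subset_union_left,
    hd_eq_of_subset i Q (P.support ∪ Q.support) Finset.subset_union_right,
    ← Finset.sum_add_distrib]
  apply Finset.sum_congr rfl
  intro I _
  rw [coeff_add, add_mul, map_add]

theorem hd_zero_right {R : Type*} [CommSemiring R] (i : σ →₀ ℕ) :
    hd i (0 : MvPolynomial σ R) = 0 := by
  simp [hd]

theorem hd_sum {R ι : Type*} [CommSemiring R] (i : σ →₀ ℕ) (s : Finset ι)
    (P : ι → MvPolynomial σ R) : hd i (∑ a ∈ s, P a) = ∑ a ∈ s, hd i (P a) := by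
  classical
  induction s using Finset.induction_on with
  | empty => simp [hd_zero_right]
  | insert a s ha ih => rw [Finset.sum_insert ha, Finset.sum_insert ha, hd_add, ih]

theorem hd_C_mul {R : Type*} [CommSemiring R] (i : σ →₀ ℕ) (c : R) (P : MvPolynomial σ R) :
    hd i (C c * P) = C c * hd i P := by
  classical
  have hs : (C c * P).support ⊆ P.support := by
    intro I hI
    rw [mem_support_iff, coeff_C_mul] at hI
    rw [mem_support_iff]
    exact right_ne_zero_of_mul hI
  rw [hd_eq_of_subset i (C c * P) P.support hs]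
  unfold hd
  rw [Finset.mul_sum]
  apply Finset.sum_congr rfl
  intro I _
  rw [coeff_C_mul, C_mul_monomial, mul_assoc]

theorem hd_map {R S : Type*} [CommSemiring R] [CommSemiring S] (f : R →+* S) (i : σ →₀ ℕ)
    (P : MvPolynomial σ R) : hd i (map f P) = map f (hd i P) := by
  rw [hd_eq_of_subset i (map f P) P.support (support_map_subset f P)]
  unfold hd
  rw [map_sum]
  apply Finset.sum_congr rfl
  intro I _
  rw [map_monomial, coeff_map, RingHom.map_mul, map_natCast f]

theorem tay_map {R S : Type*} [CommSemiring R] [CommSemiring S] (f : R →+* S) (x : σ → R)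
    (P : MvPolynomial σ R) : tay (fun s => f (x s)) (map f P) = map f (tay x P) := by
  unfold tay
  rw [map_bind₁]
  congr 2
  funext s
  simp

theorem choose_prod_le (I i : σ →₀ ℕ) (d : ℕ) (hd' : (I.sum fun _ e => e) ≤ d) :
    (i.prod fun s j => (I s).choose j) ≤ 2 ^ d := by
  classical
  have h1 : (i.prod fun s j => (I s).choose j) ≤ ∏ s ∈ i.support, 2 ^ (I s) := by
    apply Finset.prod_le_prod'
    intro s _
    exact Nat.choose_le_two_pow _ _
  rw [Finset.prod_pow_eq_pow_sum] at h1
  refine h1.trans (Nat.pow_le_pow_right (by norm_num) (le_trans ?_ hd'))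
  have h2 : (I.sum fun _ e => e) = ∑ s ∈ I.support ∪ i.support, I s :=
    Finsupp.sum_of_support_subset I Finset.subset_union_left _ (fun _ _ => rfl)
  rw [h2]
  exact Finset.sum_le_sum_of_subset Finset.subset_union_right

theorem choose_prod_eq_zero (I i : σ →₀ ℕ) (h : ¬ i ≤ I) :
    (i.prod fun s j => (I s).choose j) = 0 := by
  have h' : ¬ ∀ s, i s ≤ I s := h
  push Not at h'
  obtain ⟨s, hs⟩ := h'
  apply Finset.prod_eq_zero (i := s)
  · rw [Finsupp.mem_support_iff]
    omega
  · exact Nat.choose_eq_zero_of_lt hs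

theorem l1_hd [Finite σ] (P : MvPolynomial σ ℝ) (i : σ →₀ ℕ) (d : ℕ) (hd' : P.totalDegree ≤ d) :
    l1 (hd i P) ≤ 2 ^ d * l1 P := by
  unfold hd
  refine (l1_sum _ _).trans ?_
  have : (2 : ℝ) ^ d * l1 P = ∑ I ∈ P.support, 2 ^ d * |P.coeff I| := by
    unfold l1
    rw [Finset.mul_sum]
  rw [this]
  apply Finset.sum_le_sum
  intro I hI
  rw [l1_monomial, abs_mul, mul_comm]
  apply mul_le_mul_of_nonneg_right _ (abs_nonneg _)
  rw [Nat.abs_cast]
  have := choose_prod_le I i d ((le_totalDegree hI).trans hd')
  exact_mod_cast this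

/-- divisibility of Taylor coefficients -/
theorem dvd_coeff_tay (b E : ℕ) (P : MvPolynomial σ ℤ) (x : σ → ℤ) (n : σ → ℕ)
    (hx : ∀ s, ((b : ℤ) ^ n s) ∣ x s) (k : σ →₀ ℕ)
    (hE : ∀ I ∈ P.support, k ≤ I → E ≤ (I - k).sum fun s e => n s * e) :
    ((b : ℤ) ^ E) ∣ coeff k (tay x P) := by
  rw [coeff_tay]
  apply Finset.dvd_sum
  intro I hI
  apply Dvd.dvd.mul_left
  by_cases hk : k ≤ I
  · apply Dvd.dvd.mul_left
    refine (pow_dvd_pow (b : ℤ) (hE I hI hk)).trans ?_
    have h1 : (b : ℤ) ^ ((I - k).sum fun s e => n s * e) =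
        (I - k).prod fun s e => ((b : ℤ) ^ n s) ^ e := by
      unfold Finsupp.sum Finsupp.prod
      rw [← Finset.prod_pow_eq_pow_sum]
      apply Finset.prod_congr rfl
      intro s _
      rw [pow_mul]
    rw [h1]
    apply Finset.prod_dvd_prod_of_dvd
    intro s _
    exact pow_dvd_pow_of_dvd (hx s) _
  · rw [choose_prod_eq_zero I k hk]
    simp

/-- size of Taylor coefficients -/
theorem abs_coeff_tay (P : MvPolynomial σ ℝ) (d : ℕ) (hP : P.totalDegree ≤ d) (y Y : σ → ℝ)
    (hY : ∀ s, |y s| ≤ Y s) (T : ℝ) (k : σ →₀ ℕ)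
    (hT : ∀ I ∈ P.support, k ≤ I → ((I - k).prod fun s e => Y s ^ e) ≤ T) (hT0 : 0 ≤ T) :
    |coeff k (tay y P)| ≤ 2 ^ d * l1 P * T := by
  rw [coeff_tay]
  refine (Finset.abs_sum_le_sum_abs _ _).trans ?_
  have : (2 : ℝ) ^ d * l1 P * T = ∑ I ∈ P.support, |P.coeff I| * (2 ^ d * T) := by
    unfold l1
    rw [← Finset.sum_mul]
    ring
  rw [this]
  apply Finset.sum_le_sum
  intro I hI
  rw [abs_mul, abs_mul, Nat.abs_cast]
  apply mul_le_mul_of_nonneg_left _ (abs_nonneg _)
  by_cases hk : k ≤ I
  · apply mul_le_mul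
    · have := choose_prod_le I k d ((le_totalDegree hI).trans hP)
      exact_mod_cast this
    · refine le_trans ?_ (hT I hI hk)
      unfold Finsupp.prod
      rw [Finset.abs_prod]
      apply Finset.prod_le_prod
      · intro s _
        exact abs_nonneg _
      · intro s _
        rw [abs_pow]
        exact pow_le_pow_left₀ (abs_nonneg _) (hY s) _
    · exact abs_nonneg _
    · positivity
  · rw [choose_prod_eq_zero I k hk, Nat.cast_zero, zero_mul]
    positivity

end poly

end Pool.Agent.Sub
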