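import Pool.Agent.Lib_MP_10b5ac_nt.Alg
import Pool.Agent.Lib_MP_10b5ac_nt.Poly
import Pool.Agent.Lib_MP_10b5ac_nt.Count

set_option autoImplicit false

/-! A5: the auxiliary polynomial (Siegel's lemma). -/

namespace Pool.Agent.Sub

open MvPolynomial Finset

namespace Aux

section prep
variable {σ : Type*} {θ : ℝ} {D : ℕ} {C₀ : ℝ}

/-- `F = ∑ θ^l F_l` with integer polynomials `F_l` of total size at most `M`. -/
def PRep (θ : ℝ) (D : ℕ) (M : ℝ) (F : MvPolynomial σ ℝ) : Prop :=
  ∃ G : Fin D → MvPolynomial σ ℤ, ∑ l : Fin D, l1 (toR (G l)) ≤ M ∧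
    F = ∑ l : Fin D, C (θ ^ (l : ℕ)) * toR (G l)

theorem PRep.mono {M M' : ℝ} {F : MvPolynomial σ ℝ} (h : M ≤ M') (hF : PRep θ D M F) :
    PRep θ D M' F := by
  obtain ⟨G, h1, h2⟩ := hF
  exact ⟨G, h1.trans h, h2⟩

theorem toR_C (n : ℤ) : toR (C n : MvPolynomial σ ℤ) = C (n : ℝ) := by
  simp only [toR, map_C]
  rfl

theorem l1_toR_C (n : ℤ) : l1 (toR (C n : MvPolynomial σ ℤ)) = |(n : ℝ)| := by
  have : toR (C n : MvPolynomial σ ℤ) = C (n : ℝ) := by
    simp [toR]
  rw [this, l1_C]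

theorem l1_toR_add (P Q : MvPolynomial σ ℤ) : l1 (toR (P + Q)) ≤ l1 (toR P) + l1 (toR Q) := by
  have : toR (P + Q) = toR P + toR Q := by simp [toR]
  rw [this]; exact l1_add _ _

theorem l1_toR_mul (P Q : MvPolynomial σ ℤ) : l1 (toR (P * Q)) ≤ l1 (toR P) * l1 (toR Q) := by
  have : toR (P * Q) = toR P * toR Q := by simp [toR]
  rw [this]; exact l1_mul _ _

theorem l1_toR_sum {ι : Type*} (s : Finset ι) (f : ι → MvPolynomial σ ℤ) :
    l1 (toR (∑ i ∈ s, f i)) ≤ ∑ i ∈ s, l1 (toR (f i)) := by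
  have : toR (∑ i ∈ s, f i) = ∑ i ∈ s, toR (f i) := by simp [toR]
  rw [this]; exact l1_sum _ _

theorem PRep.add {M M' : ℝ} {F F' : MvPolynomial σ ℝ} (h : PRep θ D M F) (h' : PRep θ D M' F') :
    PRep θ D (M + M') (F + F') := by
  obtain ⟨G, h1, h2⟩ := h
  obtain ⟨G', h1', h2'⟩ := h'
  refine ⟨fun l => G l + G' l, ?_, ?_⟩
  · refine (Finset.sum_le_sum fun l _ => l1_toR_add (G l) (G' l)).trans ?_
    rw [Finset.sum_add_distrib]
    exact add_le_add h1 h1'
  · rw [h2, h2', ← Finset.sum_add_distrib]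
    refine Finset.sum_congr rfl fun l _ => ?_
    simp only [toR, map_add]
    ring

theorem PRep.zero : PRep θ D 0 (0 : MvPolynomial σ ℝ) := by
  refine ⟨fun _ => 0, ?_, ?_⟩
  · simp [toR, l1_zero]
  · simp [toR]

theorem PRep.sum {ι : Type*} (s : Finset ι) (f : ι → MvPolynomial σ ℝ) (M : ι → ℝ)
    (h : ∀ i ∈ s, PRep θ D (M i) (f i)) : PRep θ D (∑ i ∈ s, M i) (∑ i ∈ s, f i) := by
  classical
  induction s using Finset.induction_on with
  | empty => simpa using PRep.zero
  | insert a s ha ih =>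
    rw [Finset.sum_insert ha, Finset.sum_insert ha]
    exact (h a (Finset.mem_insert_self a s)).add
      (ih fun i hi => h i (Finset.mem_insert_of_mem hi))

theorem PRep.one (hD : 1 ≤ D) : PRep θ D 1 (1 : MvPolynomial σ ℝ) := by
  classical
  refine ⟨Pi.single ⟨0, hD⟩ 1, ?_, ?_⟩
  · rw [Finset.sum_eq_single (⟨0, hD⟩ : Fin D)]
    · rw [Pi.single_eq_same]
      have : (1 : MvPolynomial σ ℤ) = C 1 := by simp
      rw [this, l1_toR_C]
      simp
    · intro l _ hl
      rw [Pi.single_eq_of_ne hl]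
      simp [toR, l1_zero]
    · intro h; exact absurd (Finset.mem_univ _) h
  · rw [Finset.sum_eq_single (⟨0, hD⟩ : Fin D)]
    · rw [Pi.single_eq_same]
      simp [toR]
    · intro l _ hl
      rw [Pi.single_eq_of_ne hl]
      simp [toR]
    · intro h; exact absurd (Finset.mem_univ _) h

theorem PRep.C_mul_X {M α : ℝ} (hα : Rep θ D M α) (s : σ) :
    PRep θ D (D * M) (C α * X s : MvPolynomial σ ℝ) := by
  obtain ⟨a, ha, rfl⟩ := hα
  refine ⟨fun l => C (a l) * X s, ?_, ?_⟩
  · have : ∀ l ∈ (Finset.univ : Finset (Fin D)),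
        l1 (toR (C (a l) * X s : MvPolynomial σ ℤ)) ≤ M := by
      intro l _
      refine (l1_toR_mul _ _).trans ?_
      rw [l1_toR_C]
      have h1 : toR (X s : MvPolynomial σ ℤ) = X s := by simp [toR]
      rw [h1, l1_X, mul_one]
      exact ha l
    refine (Finset.sum_le_sum this).trans ?_
    rw [Finset.sum_const, Finset.card_univ, Fintype.card_fin, nsmul_eq_mul]
  · rw [map_sum, Finset.sum_mul]
    refine Finset.sum_congr rfl fun l _ => ?_
    have : toR (C (a l) * X s : MvPolynomial σ ℤ) = C (a l : ℝ) * X s := by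
      rw [← toR_C]
      simp only [toR, map_mul, map_X]
    rw [this, map_mul]
    ring

theorem PRep.mul (hA : AlgData θ D C₀) {M M' : ℝ} {F F' : MvPolynomial σ ℝ}
    (h : PRep θ D M F) (h' : PRep θ D M' F') :
    PRep θ D (D * C₀ * (M * M')) (F * F') := by
  classical
  obtain ⟨G, h1, h2⟩ := h
  obtain ⟨G', h1', h2'⟩ := h'
  have hpow : ∀ l : Fin D, Rep θ D 1 (θ ^ (l : ℕ)) := by
    intro l
    refine ⟨Pi.single l 1, ?_, ?_⟩
    · intro k
      by_cases hk : k = l
      · subst hk; simp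
      · rw [Pi.single_eq_of_ne hk]; simp
    · rw [Finset.sum_eq_single l]
      · simp
      · intro k _ hk
        rw [Pi.single_eq_of_ne hk]; simp
      · intro h; exact absurd (Finset.mem_univ _) h
  have hmul : ∀ l k : Fin D, ∃ a : Fin D → ℤ, (∀ s, |(a s : ℝ)| ≤ C₀) ∧
      θ ^ (l : ℕ) * θ ^ (k : ℕ) = ∑ s, (a s : ℝ) * θ ^ (s : ℕ) := by
    intro l k
    have := hA.mul 1 1 _ _ zero_le_one zero_le_one (hpow l) (hpow k)
    rw [mul_one, mul_one] at this
    exact this
  choose a ha hae using hmul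
  have hn : ∀ G : Fin D → MvPolynomial σ ℤ, ∀ l, 0 ≤ l1 (toR (G l)) := fun G l => l1_nonneg _
  refine ⟨fun s => ∑ l, ∑ k, C (a l k s) * (G l * G' k), ?_, ?_⟩
  · have hC0 : 0 ≤ C₀ := zero_le_one.trans hA.hC
    have hs : ∀ s ∈ (Finset.univ : Finset (Fin D)),
        l1 (toR (∑ l, ∑ k, C (a l k s) * (G l * G' k))) ≤ C₀ * (M * M') := by
      intro s _
      refine (l1_toR_sum _ _).trans ?_
      have : ∀ l ∈ (Finset.univ : Finset (Fin D)),
          l1 (toR (∑ k, C (a l k s) * (G l * G' k))) ≤ C₀ * (l1 (toR (G l)) * M') := by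
        intro l _
        refine (l1_toR_sum _ _).trans ?_
        have : ∀ k ∈ (Finset.univ : Finset (Fin D)), l1 (toR (C (a l k s) * (G l * G' k))) ≤
            C₀ * (l1 (toR (G l)) * l1 (toR (G' k))) := by
          intro k _
          refine (l1_toR_mul _ _).trans ?_
          rw [l1_toR_C]
          have e1 := ha l k s
          have e2 := l1_toR_mul (G l) (G' k)
          have e3 : 0 ≤ l1 (toR (G l * G' k)) := l1_nonneg _
          calc |(a l k s : ℝ)| * l1 (toR (G l * G' k)) ≤ C₀ * l1 (toR (G l * G' k)) :=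
                mul_le_mul_of_nonneg_right e1 e3
            _ ≤ C₀ * (l1 (toR (G l)) * l1 (toR (G' k))) := mul_le_mul_of_nonneg_left e2 hC0
        refine (Finset.sum_le_sum this).trans ?_
        rw [← Finset.mul_sum, ← Finset.mul_sum]
        exact mul_le_mul_of_nonneg_left (mul_le_mul_of_nonneg_left h1' (hn G l)) hC0
      refine (Finset.sum_le_sum this).trans ?_
      rw [← Finset.mul_sum, ← Finset.sum_mul]
      refine mul_le_mul_of_nonneg_left (mul_le_mul_of_nonneg_right h1 ?_) hC0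
      exact (Finset.sum_nonneg fun l _ => hn G' l).trans h1'
    refine (Finset.sum_le_sum hs).trans ?_
    rw [Finset.sum_const, Finset.card_univ, Fintype.card_fin, nsmul_eq_mul]
    exact le_of_eq (by ring)
  · rw [h2, h2', Finset.sum_mul_sum]
    have : ∀ l k : Fin D, (C (θ ^ (l : ℕ)) * toR (G l)) * (C (θ ^ (k : ℕ)) * toR (G' k)) =
        ∑ s : Fin D, C (θ ^ (s : ℕ)) * (C ((a l k s : ℝ)) * (toR (G l) * toR (G' k))) := by
      intro l k
      calc (C (θ ^ (l : ℕ)) * toR (G l)) * (C (θ ^ (k : ℕ)) * toR (G' k))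
          = C (θ ^ (l : ℕ) * θ ^ (k : ℕ)) * (toR (G l) * toR (G' k)) := by
            rw [map_mul]; ring
        _ = C (∑ s, (a l k s : ℝ) * θ ^ (s : ℕ)) * (toR (G l) * toR (G' k)) := by rw [hae]
        _ = ∑ s : Fin D, C (θ ^ (s : ℕ)) * (C ((a l k s : ℝ)) * (toR (G l) * toR (G' k))) := by
            rw [map_sum, Finset.sum_mul]
            refine Finset.sum_congr rfl fun s _ => ?_
            rw [map_mul]; ring
    simp only [this]
    rw [Finset.sum_congr rfl fun l _ => Finset.sum_comm, Finset.sum_comm]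
    refine Finset.sum_congr rfl fun s _ => ?_
    rw [show toR (∑ l, ∑ k, C (a l k s) * (G l * G' k)) =
      ∑ l, ∑ k, C ((a l k s : ℝ)) * (toR (G l) * toR (G' k)) by
        simp only [← toR_C]
        simp only [toR, map_sum, map_mul]]
    rw [Finset.mul_sum]
    refine Finset.sum_congr rfl fun l _ => ?_
    rw [Finset.mul_sum]

end prep

section siegel

attribute [local instance] Matrix.seminormedAddCommGroup

theorem siegel {α β : Type*} [Fintype α] [Fintype β] (A : α → β → ℤ) (H : ℝ) (hH : 1 ≤ H)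
    (hA : ∀ i j, |(A i j : ℝ)| ≤ H) (h2 : 2 * Fintype.card α ≤ Fintype.card β)
    (hβ : 0 < Fintype.card β) :
    ∃ t : β → ℤ, t ≠ 0 ∧ (∀ i, ∑ j, A i j * t j = 0) ∧
      ∀ j, |(t j : ℝ)| ≤ (Fintype.card β : ℝ) * H := by
  have hβ1 : (1 : ℝ) ≤ Fintype.card β := by exact_mod_cast hβ
  rcases Nat.eq_zero_or_pos (Fintype.card α) with h0 | h0
  · haveI : IsEmpty α := Fintype.card_eq_zero_iff.1 h0
    haveI : Nonempty β := Fintype.card_pos_iff.1 hβ
    refine ⟨fun _ => 1, ?_, fun i => isEmptyElim i, fun j => ?_⟩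
    · intro h
      have := congr_fun h (Classical.arbitrary β)
      simp at this
    · simp only [Int.cast_one, abs_one]
      nlinarith
  · obtain ⟨t, ht, hAt, hnt⟩ := Int.Matrix.exists_ne_zero_int_vec_norm_le (Matrix.of A)
      (by omega) h0
    refine ⟨t, ht, fun i => congr_fun hAt i, fun j => ?_⟩
    have h1 : ‖(Matrix.of A : Matrix α β ℤ)‖ ≤ H := by
      rw [Matrix.norm_le_iff (zero_le_one.trans hH)]
      intro i j
      rw [Int.norm_eq_abs]
      exact hA i j
    have h3 : max 1 ‖(Matrix.of A : Matrix α β ℤ)‖ ≤ H := max_le hH h1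
    have h4 : |(t j : ℝ)| ≤ ‖t‖ := by
      have := norm_le_pi_norm t j
      rwa [Int.norm_eq_abs] at this
    refine h4.trans (hnt.trans ?_)
    have hb : (1 : ℝ) ≤ (Fintype.card β : ℝ) * max 1 ‖(Matrix.of A : Matrix α β ℤ)‖ := by
      have := le_max_left 1 ‖(Matrix.of A : Matrix α β ℤ)‖
      nlinarith
    have he : (Fintype.card α : ℝ) / ((Fintype.card β : ℝ) - Fintype.card α) ≤ 1 := by
      have h5 : (2 * Fintype.card α : ℝ) ≤ Fintype.card β := by exact_mod_cast h2
      have h6 : (0 : ℝ) < Fintype.card α := by exact_mod_cast h0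
      rw [div_le_one (by linarith)]
      linarith
    calc ((Fintype.card β : ℝ) * max 1 ‖(Matrix.of A : Matrix α β ℤ)‖) ^
          ((Fintype.card α : ℝ) / ((Fintype.card β : ℝ) - Fintype.card α))
        ≤ ((Fintype.card β : ℝ) * max 1 ‖(Matrix.of A : Matrix α β ℤ)‖) ^ (1 : ℝ) :=
          Real.rpow_le_rpow_of_exponent_le hb he
      _ = (Fintype.card β : ℝ) * max 1 ‖(Matrix.of A : Matrix α β ℤ)‖ := Real.rpow_one _
      _ ≤ (Fintype.card β : ℝ) * H := by
          exact mul_le_mul_of_nonneg_left h3 (by linarith)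

end siegel

section block
variable {m N : ℕ} {R : Type*} [CommSemiring R]

/-- block weight -/
def bw (h : Fin m) : Fin m × Fin N → ℕ := fun s => if s.1 = h then 1 else 0

theorem weight_bw (h : Fin m) (I : Fin m × Fin N →₀ ℕ) :
    Finsupp.weight (bw (N := N) h) I = ∑ j, I (h, j) := by
  rw [Finsupp.weight_apply, Finsupp.sum_fintype _ _ (fun i => by simp), Fintype.sum_prod_type,
    Finset.sum_eq_single h]
  · refine Finset.sum_congr rfl fun j _ => ?_
    simp [bw]
  · intro h' _ hne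
    refine Finset.sum_eq_zero fun j _ => ?_
    simp [bw, hne]
  · intro h'; exact absurd (Finset.mem_univ _) h'

theorem blockHom_iff (r : Fin m → ℕ) (P : MvPolynomial (Fin m × Fin N) R) :
    BlockHom r P ↔ ∀ h, IsWeightedHomogeneous (bw h) P (r h) := by
  constructor
  · intro hP h I hI
    rw [weight_bw]
    exact hP I (mem_support_iff.2 hI) h
  · intro hP I hI h
    rw [← weight_bw]
    exact hP h (mem_support_iff.1 hI)

theorem blockHom_lsub (A : Matrix (Fin N) (Fin N) R) (r : Fin m → ℕ)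
    (P : MvPolynomial (Fin m × Fin N) R) (hP : BlockHom r P) : BlockHom r (lsub A P) := by
  rw [blockHom_iff]
  intro h
  rw [P.as_sum]
  unfold lsub
  rw [map_sum]
  refine IsWeightedHomogeneous.sum _ _ _ fun I hI => ?_
  rw [bind₁_monomial]
  refine IsWeightedHomogeneous.C_mul ?_ _
  have h1 : r h = ∑ s ∈ I.support, I s • bw h s := by
    rw [← hP I hI h, ← weight_bw, Finsupp.weight_apply]
    rfl
  rw [h1]
  refine IsWeightedHomogeneous.prod _ _ _ fun s _ => ?_
  refine IsWeightedHomogeneous.pow ?_ _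
  refine IsWeightedHomogeneous.sum _ _ _ fun i _ => ?_
  refine IsWeightedHomogeneous.C_mul ?_ _
  have := isWeightedHomogeneous_X R (bw (N := N) h) (s.1, i)
  exact this

end block

section prodrep
variable {θ : ℝ} {D : ℕ} {C₀ : ℝ}

theorem prep_prod {σ : Type*} (hA : AlgData θ D C₀) (lin : σ → MvPolynomial σ ℝ) (b B : ℝ)
    (hb : 0 ≤ b) (hlin : ∀ s, PRep θ D b (lin s)) (hB : D * C₀ * b ≤ B) :
    ∀ (n : ℕ) (I : σ →₀ ℕ), I.degree = n → PRep θ D (B ^ n) (∏ s ∈ I.support, lin s ^ I s) := by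
  classical
  intro n
  have hDC : 0 ≤ (D : ℝ) * C₀ := mul_nonneg (Nat.cast_nonneg _) (zero_le_one.trans hA.hC)
  have hB0 : 0 ≤ B := (mul_nonneg hDC hb).trans hB
  induction n with
  | zero =>
    intro I hI
    rw [Finsupp.degree_eq_zero_iff] at hI
    subst hI
    simpa using PRep.one hA.hD
  | succ n ih =>
    intro I hI
    have hne : I ≠ 0 := by
      rintro rfl
      simp at hI
    obtain ⟨s, hs⟩ := Finsupp.support_nonempty_iff.2 hne
    have hs1 : 1 ≤ I s := Nat.one_le_iff_ne_zero.2 (Finsupp.mem_support_iff.1 hs)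
    have hle : Finsupp.single s 1 ≤ I := by
      intro t
      by_cases ht : s = t
      · subst ht; simpa using hs1
      · simp [Finsupp.single_apply, ht]
    set J := I - Finsupp.single s 1 with hJ
    have hIJ : I = J + Finsupp.single s 1 := by rw [hJ, tsub_add_cancel_of_le hle]
    have hJd : J.degree = n := by
      have := congr_arg Finsupp.degree hIJ
      rw [map_add, Finsupp.degree_single, hI] at this
      omega
    have hprod : ∏ t ∈ I.support, lin t ^ I t = (∏ t ∈ J.support, lin t ^ J t) * lin s := by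
      have h1 : ∀ K : σ →₀ ℕ, ∏ t ∈ K.support, lin t ^ K t = K.prod fun t e => lin t ^ e :=
        fun K => rfl
      rw [h1, h1, hIJ, Finsupp.prod_add_index']
      · rw [Finsupp.prod_single_index]
        · rw [pow_one]
        · rw [pow_zero]
      · intro t; rw [pow_zero]
      · intro t e e'; rw [pow_add]
    rw [hprod]
    refine ((ih J hJd).mul hA (hlin s)).mono ?_
    calc (D : ℝ) * C₀ * (B ^ n * b) = B ^ n * (D * C₀ * b) := by ring
      _ ≤ B ^ n * B := mul_le_mul_of_nonneg_left hB (pow_nonneg hB0 n)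
      _ = B ^ (n + 1) := (pow_succ B n).symm

end prodrep

section count

theorem card_antidiag_le (N n : ℕ) :
    (Finset.piAntidiag (univ : Finset (Fin N)) n).card ≤ (2 ^ N) ^ n := by
  have h1 : Finset.piAntidiag (univ : Finset (Fin N)) n ⊆
      Fintype.piFinset (fun _ : Fin N => Finset.range (n + 1)) := by
    intro f hf
    rw [Finset.mem_piAntidiag] at hf
    rw [Fintype.mem_piFinset]
    intro j
    rw [Finset.mem_range, Nat.lt_succ_iff, ← hf.1]
    exact Finset.single_le_sum (f := f) (fun _ _ => Nat.zero_le _) (Finset.mem_univ j)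
  refine (Finset.card_le_card h1).trans ?_
  rw [Fintype.card_piFinset, Finset.prod_const, Finset.card_range, Finset.card_univ,
    Fintype.card_fin, ← pow_mul, mul_comm N n, pow_mul]
  exact Nat.pow_le_pow_left (Nat.lt_two_pow_self) N

theorem card_T_le {m N : ℕ} (r : Fin m → ℕ) :
    (Fintype.piFinset fun h => Finset.piAntidiag (univ : Finset (Fin N)) (r h)).card ≤
      (2 ^ N) ^ (∑ h, r h) := by
  rw [Fintype.card_piFinset, ← Finset.prod_pow_eq_pow_sum]
  exact Finset.prod_le_prod' fun h _ => card_antidiag_le N (r h)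

/-- exponent functions as finitely supported functions -/
noncomputable def toF {m N : ℕ} (I : Fin m → Fin N → ℕ) : Fin m × Fin N →₀ ℕ :=
  Finsupp.equivFunOnFinite.symm (fun s => I s.1 s.2)

theorem toF_apply {m N : ℕ} (I : Fin m → Fin N → ℕ) (s : Fin m × Fin N) :
    toF I s = I s.1 s.2 := rfl

theorem toF_inj {m N : ℕ} {I J : Fin m → Fin N → ℕ} (h : toF I = toF J) : I = J := by
  funext a b
  exact DFunLike.congr_fun h (a, b)

theorem toF_surj {m N : ℕ} (K : Fin m × Fin N →₀ ℕ) : toF (fun h j => K (h, j)) = K := by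
  ext s
  rfl

theorem l1_monomial {σ : Type*} (I : σ →₀ ℕ) (c : ℝ) : l1 (monomial I c) = |c| := by
  classical
  unfold l1
  by_cases hc : c = 0
  · subst hc; simp
  · rw [support_monomial, if_neg hc, Finset.sum_singleton, coeff_monomial, if_pos rfl]

end count

end Aux

open Aux in
theorem aux_poly {θ : ℝ} {D : ℕ} {C₀ : ℝ} (hA : AlgData θ D C₀) (N : ℕ) (hN : 1 ≤ N)
    (L : Matrix (Fin N) (Fin N) ℝ) (M : ℝ) (hM : 1 ≤ M) (hLr : ∀ i j, Rep θ D M (L i j)) (ε : ℝ)
    (hε : 0 < ε) :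
    ∃ m : ℕ, 1 ≤ m ∧ ∃ K : ℝ, 1 ≤ K ∧ ∀ r : Fin m → ℕ, (∀ h, 1 ≤ r h) →
      ∃ P : MvPolynomial (Fin m × Fin N) ℤ, P ≠ 0 ∧ BlockHom r P ∧ GoodSupp r ε P ∧
        GoodSupp r ε (lsub L.adjugate (toR P)) ∧ l1 (toR P) ≤ K ^ (∑ h, r h) := by
  classical
  obtain ⟨M', hM', hadj⟩ := rep_adjugate hA N M hM
  have hAr : ∀ i j, Rep θ D M' (L.adjugate i j) := hadj L hLr
  set b : ℝ := N * (D * M') with hb
  have hb0 : 0 ≤ b := by positivity
  set B : ℝ := max 1 (D * C₀ * b) with hB
  have hB1 : 1 ≤ B := le_max_left _ _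
  have hB2 : D * C₀ * b ≤ B := le_max_right _ _
  obtain ⟨m0, hm0⟩ := exists_nat_ge (4 * D * N / ε ^ 2)
  set m : ℕ := m0 + 1 with hmdef
  have hmε : 4 * D * N ≤ ε ^ 2 * (m : ℝ) := by
    have h1 : 4 * D * N / ε ^ 2 ≤ (m : ℝ) := by rw [hmdef]; push_cast; linarith
    rw [div_le_iff₀ (by positivity)] at h1
    linarith
  set K : ℝ := (2 ^ N) ^ 2 * B with hK
  have hK1 : 1 ≤ K := by
    have : (1 : ℝ) ≤ (2 ^ N) ^ 2 := one_le_pow₀ (one_le_pow₀ (by norm_num))
    rw [hK]; nlinarith
  refine ⟨m, by omega, K, hK1, ?_⟩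
  intro r hr
  set T := Fintype.piFinset fun h : Fin m => Finset.piAntidiag (univ : Finset (Fin N)) (r h)
    with hT
  have hTm : ∀ I, I ∈ T ↔ ∀ h, ∑ j, I h j = r h := by
    intro I
    rw [hT, Fintype.mem_piFinset]
    refine forall_congr' fun h => ?_
    rw [Finset.mem_piAntidiag]
    simp
  set gp : (Fin m → Fin N → ℕ) → Prop :=
    fun I => ∀ j, |∑ h, (I h j : ℝ) / (r h : ℝ) - (m : ℝ) / N| ≤ ε * m with hgp
  set good := T.filter gp with hgood
  set bad := T.filter (fun I => ¬ gp I) with hbad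
  have hcount := count_bad m N hN r hr ε hε
  have hcard : good.card + bad.card = T.card := Finset.card_filter_add_card_filter_not _
  have hNpos : (0 : ℝ) < N := by exact_mod_cast hN
  have hD1 : 1 ≤ D := hA.hD
  have hbadcard : 4 * D * bad.card ≤ T.card := by
    have h1 : (bad.card : ℝ) * (ε ^ 2 * m) ≤ N * (T.card : ℝ) := hcount
    have h2 : (bad.card : ℝ) * (4 * D * N) ≤ (bad.card : ℝ) * (ε ^ 2 * m) :=
      mul_le_mul_of_nonneg_left hmε (Nat.cast_nonneg _)
    have h3 : (4 * D * bad.card : ℝ) * N ≤ (T.card : ℝ) * N := by linarith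
    have h4 := le_of_mul_le_mul_right h3 hNpos
    exact_mod_cast h4
  have hbad4 : 4 * bad.card ≤ T.card := by nlinarith
  have hTpos : 0 < T.card := by
    refine Finset.card_pos.2 ⟨fun h => Pi.single ⟨0, hN⟩ (r h), ?_⟩
    rw [hTm]
    intro h
    simp
  have hdeg : ∀ I ∈ T, (toF I).degree = ∑ h, r h := by
    intro I hI
    rw [Finsupp.degree_eq_sum, Fintype.sum_prod_type]
    refine Finset.sum_congr rfl fun h _ => ?_
    rw [← (hTm I).1 hI h]
    rfl
  have hlin : ∀ s : Fin m × Fin N, PRep θ D b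
      (∑ i, C (L.adjugate s.2 i) * X (s.1, i) : MvPolynomial (Fin m × Fin N) ℝ) := by
    intro s
    have := PRep.sum (θ := θ) (D := D) (Finset.univ : Finset (Fin N))
      (fun i => (C (L.adjugate s.2 i) * X (s.1, i) : MvPolynomial (Fin m × Fin N) ℝ))
      (fun _ => D * M') (fun i _ => PRep.C_mul_X (hAr s.2 i) (s.1, i))
    rwa [Finset.sum_const, Finset.card_univ, Fintype.card_fin, nsmul_eq_mul] at this
  have hrep : ∀ I : Fin m → Fin N → ℕ, ∃ G : Fin D → MvPolynomial (Fin m × Fin N) ℤ, I ∈ T →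
      (∑ l, l1 (toR (G l)) ≤ B ^ (∑ h, r h) ∧
        lsub L.adjugate (monomial (toF I) (1 : ℝ)) = ∑ l : Fin D, C (θ ^ (l : ℕ)) * toR (G l)) := by
    intro I
    by_cases hI : I ∈ T
    · obtain ⟨G, h1, h2⟩ := prep_prod hA
        (fun s : Fin m × Fin N =>
          (∑ i, C (L.adjugate s.2 i) * X (s.1, i) : MvPolynomial (Fin m × Fin N) ℝ))
        b B hb0 hlin hB2 _ (toF I) (hdeg I hI)
      refine ⟨G, fun _ => ⟨h1, ?_⟩⟩
      rw [← h2]
      unfold lsub
      rw [bind₁_monomial, C_1, one_mul]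
    · exact ⟨fun _ => 0, fun h => absurd h hI⟩
  choose G hG using hrep
  obtain ⟨t, ht0, hteq, htle⟩ := siegel
    (fun (J : {J // J ∈ bad} × Fin D) (I : {I // I ∈ good}) => coeff (toF J.1.1) (G I.1 J.2))
    (B ^ (∑ h, r h)) (one_le_pow₀ hB1) (by
      rintro ⟨J, l⟩ ⟨I, hI⟩
      have hIT : I ∈ T := Finset.mem_of_mem_filter I hI
      have h1 := (hG I hIT).1
      have h2 : l1 (toR (G I l)) ≤ ∑ l, l1 (toR (G I l)) :=
        Finset.single_le_sum (f := fun l => l1 (toR (G I l))) (fun l _ => l1_nonneg _)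
          (Finset.mem_univ l)
      have h3 := coeff_le_l1 (toR (G I l)) (toF J.1)
      have h4 : coeff (toF J.1) (toR (G I l)) = ((coeff (toF J.1) (G I l) : ℤ) : ℝ) := by
        simp only [toR, coeff_map]
        rfl
      rw [h4] at h3
      exact h3.trans (h2.trans h1)) (by
      rw [Fintype.card_prod, Fintype.card_coe, Fintype.card_coe, Fintype.card_fin]
      nlinarith) (by
      rw [Fintype.card_coe]; omega)
  set P : MvPolynomial (Fin m × Fin N) ℤ := ∑ I : {I // I ∈ good}, monomial (toF I.1) (t I)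
    with hP
  have hcoeff : ∀ I : {I // I ∈ good}, coeff (toF I.1) P = t I := by
    intro I
    rw [hP, coeff_sum, Finset.sum_eq_single I]
    · rw [coeff_monomial, if_pos rfl]
    · intro I' _ hne
      rw [coeff_monomial, if_neg]
      intro h
      exact hne (Subtype.ext (toF_inj h))
    · intro h; exact absurd (Finset.mem_univ _) h
  have hsupp : ∀ K' ∈ P.support, ∃ I ∈ good, K' = toF I := by
    intro K' hK'
    rw [mem_support_iff, hP, coeff_sum] at hK'
    obtain ⟨I, _, hI⟩ := Finset.exists_ne_zero_of_sum_ne_zero hK'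
    rw [coeff_monomial] at hI
    by_cases h : toF I.1 = K'
    · exact ⟨I.1, I.2, h.symm⟩
    · rw [if_neg h] at hI; exact absurd rfl hI
  have hPhom : BlockHom r P := by
    intro K' hK' h
    obtain ⟨I, hI, rfl⟩ := hsupp K' hK'
    exact (hTm I).1 (Finset.mem_of_mem_filter I hI) h
  have hPR : toR P = ∑ I : {I // I ∈ good}, C ((t I : ℤ) : ℝ) * monomial (toF I.1) (1 : ℝ) := by
    rw [hP]
    simp only [toR, map_sum, map_monomial]
    refine Finset.sum_congr rfl fun I _ => ?_
    rw [C_mul_monomial, mul_one]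
    rfl
  have hPhomR : BlockHom r (toR P) := by
    intro K' hK'
    refine hPhom K' ?_
    rw [mem_support_iff] at hK' ⊢
    intro h
    apply hK'
    simp only [toR, coeff_map, h, map_zero]
  have hlsub : lsub L.adjugate (toR P) =
      ∑ l : Fin D, C (θ ^ (l : ℕ)) * ∑ I : {I // I ∈ good}, C ((t I : ℤ) : ℝ) * toR (G I.1 l) := by
    rw [hPR]
    have h1 : lsub L.adjugate
        (∑ I : {I // I ∈ good}, C ((t I : ℤ) : ℝ) * monomial (toF I.1) (1 : ℝ)) =
        ∑ I : {I // I ∈ good}, C ((t I : ℤ) : ℝ) *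
          lsub L.adjugate (monomial (toF I.1) (1 : ℝ)) := by
      unfold lsub
      rw [map_sum]
      refine Finset.sum_congr rfl fun I _ => ?_
      rw [map_mul, bind₁_C_right]
    rw [h1]
    have h2 : ∀ I : {I // I ∈ good}, lsub L.adjugate (monomial (toF I.1) (1 : ℝ)) =
        ∑ l : Fin D, C (θ ^ (l : ℕ)) * toR (G I.1 l) :=
      fun I => (hG I.1 (Finset.mem_of_mem_filter _ I.2)).2
    simp only [h2, Finset.mul_sum]
    rw [Finset.sum_comm]
    refine Finset.sum_congr rfl fun l _ => Finset.sum_congr rfl fun I _ => ?_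
    ring
  refine ⟨P, ?_, hPhom, ?_, ?_, ?_⟩
  · intro h
    apply ht0
    funext I
    rw [← hcoeff I, h, coeff_zero]
    rfl
  · intro K' hK' j
    obtain ⟨I, hI, rfl⟩ := hsupp K' hK'
    exact (Finset.mem_filter.1 hI).2 j
  · intro K' hK' j
    have hKT := blockHom_lsub L.adjugate r (toR P) hPhomR K' hK'
    set J : Fin m → Fin N → ℕ := fun h j => K' (h, j) with hJ
    have hJK : toF J = K' := toF_surj K'
    have hJT : J ∈ T := (hTm J).2 hKT
    by_contra hcon
    have hJbad : J ∈ bad := by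
      refine Finset.mem_filter.2 ⟨hJT, fun h => hcon (h j)⟩
    rw [mem_support_iff] at hK'
    apply hK'
    rw [hlsub, coeff_sum]
    refine Finset.sum_eq_zero fun l _ => ?_
    rw [coeff_C_mul, coeff_sum]
    have h1 := hteq (⟨J, hJbad⟩, l)
    have h2 : ∑ I : {I // I ∈ good}, coeff K' (C ((t I : ℤ) : ℝ) * toR (G I.1 l)) = 0 := by
      have h3 : ∀ I : {I // I ∈ good}, coeff K' (C ((t I : ℤ) : ℝ) * toR (G I.1 l)) =
          ((coeff (toF J) (G I.1 l) * t I : ℤ) : ℝ) := by
        intro I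
        rw [coeff_C_mul, hJK]
        simp only [toR, coeff_map]
        push_cast
        rw [mul_comm]
        rfl
      simp only [h3]
      rw [← Int.cast_sum, h1, Int.cast_zero]
    rw [h2, mul_zero]
  · have h1 : l1 (toR P) ≤ ∑ I : {I // I ∈ good}, |((t I : ℤ) : ℝ)| := by
      rw [hP]
      refine (l1_toR_sum _ _).trans (Finset.sum_le_sum fun I _ => ?_)
      have : toR (monomial (toF I.1) (t I)) = monomial (toF I.1) ((t I : ℤ) : ℝ) := by
        simp only [toR, map_monomial]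
        rfl
      rw [this, l1_monomial]
    have h2 : ∑ I : {I // I ∈ good}, |((t I : ℤ) : ℝ)| ≤
        (T.card : ℝ) * ((T.card : ℝ) * B ^ (∑ h, r h)) := by
      refine (Finset.sum_le_sum fun I _ => htle I).trans ?_
      rw [Finset.sum_const, Finset.card_univ, nsmul_eq_mul, Fintype.card_coe]
      have hg : (good.card : ℝ) ≤ T.card := by
        have : good.card ≤ T.card := by omega
        exact_mod_cast this
      have hBp : 0 ≤ B ^ (∑ h, r h) := by positivity
      gcongr
    have h3 : (T.card : ℝ) ≤ (2 ^ N) ^ (∑ h, r h) := by exact_mod_cast card_T_le r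
    refine h1.trans (h2.trans ?_)
    have hBp : 0 ≤ B ^ (∑ h, r h) := by positivity
    calc (T.card : ℝ) * ((T.card : ℝ) * B ^ (∑ h, r h))
        ≤ (2 ^ N) ^ (∑ h, r h) * ((2 ^ N) ^ (∑ h, r h) * B ^ (∑ h, r h)) := by gcongr
      _ = K ^ (∑ h, r h) := by
          rw [hK, mul_pow, ← pow_mul, ← pow_mul, ← pow_mul]
          ring

end Pool.Agent.Sub
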