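import Pool.Agent.Lib_MP_10b5ac_nt.Poly

set_option autoImplicit false

/-! Block homogeneous polynomials and linear substitutions. -/

namespace Pool.Agent.Sub

open MvPolynomial Finset

section block
variable {m N : ℕ} {R : Type*} [CommSemiring R]

theorem sum_prod_eq (k : Fin m × Fin N →₀ ℕ) :
    (k.sum fun _ e => e) = ∑ h, ∑ j, k (h, j) := by
  rw [Finsupp.sum_fintype _ _ (fun _ => rfl), Fintype.sum_prod_type]

theorem BlockHom.zero (r : Fin m → ℕ) : BlockHom r (0 : MvPolynomial (Fin m × Fin N) R) := by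
  intro I hI
  simp at hI

theorem BlockHom.add {r : Fin m → ℕ} {P Q : MvPolynomial (Fin m × Fin N) R}
    (hP : BlockHom r P) (hQ : BlockHom r Q) : BlockHom r (P + Q) := by
  classical
  intro I hI
  rcases Finset.mem_union.mp (support_add hI) with h | h
  · exact hP I h
  · exact hQ I h

theorem BlockHom.sum {ι : Type*} {r : Fin m → ℕ} (s : Finset ι)
    (P : ι → MvPolynomial (Fin m × Fin N) R)
    (hP : ∀ i ∈ s, BlockHom r (P i)) : BlockHom r (∑ i ∈ s, P i) := by
  classical
  induction s using Finset.induction_on with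
  | empty => simpa using BlockHom.zero r
  | insert a s ha ih =>
    rw [Finset.sum_insert ha]
    exact (hP a (Finset.mem_insert_self a s)).add
      (ih fun i hi => hP i (Finset.mem_insert_of_mem hi))

theorem BlockHom.mul {r r' : Fin m → ℕ} {P Q : MvPolynomial (Fin m × Fin N) R}
    (hP : BlockHom r P) (hQ : BlockHom r' Q) : BlockHom (r + r') (P * Q) := by
  classical
  intro I hI h
  obtain ⟨I1, h1, I2, h2, rfl⟩ := Finset.mem_add.mp (support_mul P Q hI)
  simp only [Finsupp.add_apply, Finset.sum_add_distrib, Pi.add_apply]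
  rw [hP I1 h1 h, hQ I2 h2 h]

theorem BlockHom.C (c : R) : BlockHom (0 : Fin m → ℕ) (C c : MvPolynomial (Fin m × Fin N) R) := by
  classical
  intro I hI h
  have : I ∈ ({0} : Finset _) := support_monomial_subset hI
  rw [Finset.mem_singleton] at this
  subst this
  simp

theorem BlockHom.one : BlockHom (0 : Fin m → ℕ) (1 : MvPolynomial (Fin m × Fin N) R) := by
  rw [← C_1]
  exact BlockHom.C 1

theorem BlockHom.C_mul {r : Fin m → ℕ} {P : MvPolynomial (Fin m × Fin N) R} (c : R)
    (hP : BlockHom r P) : BlockHom r (MvPolynomial.C c * P) := by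
  have := (BlockHom.C (m := m) (N := N) c).mul hP
  rwa [zero_add] at this

theorem BlockHom.pow {r : Fin m → ℕ} {P : MvPolynomial (Fin m × Fin N) R}
    (hP : BlockHom r P) (n : ℕ) : BlockHom (n • r) (P ^ n) := by
  induction n with
  | zero =>
    rw [zero_smul, pow_zero]
    exact BlockHom.one
  | succ n ih =>
    rw [pow_succ, add_smul, one_smul]
    exact ih.mul hP

theorem BlockHom.prod {ι : Type*} (s : Finset ι) (r : ι → Fin m → ℕ)
    (P : ι → MvPolynomial (Fin m × Fin N) R)
    (hP : ∀ i ∈ s, BlockHom (r i) (P i)) : BlockHom (∑ i ∈ s, r i) (∏ i ∈ s, P i) := by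
  classical
  induction s using Finset.induction_on with
  | empty => simpa using BlockHom.one
  | insert a s ha ih =>
    rw [Finset.sum_insert ha, Finset.prod_insert ha]
    exact (hP a (Finset.mem_insert_self a s)).mul
      (ih fun i hi => hP i (Finset.mem_insert_of_mem hi))

theorem BlockHom.monomial (I : Fin m × Fin N →₀ ℕ) (c : R) :
    BlockHom (fun h => ∑ j, I (h, j)) (monomial I c) := by
  classical
  intro J hJ h
  have : J ∈ ({I} : Finset _) := support_monomial_subset hJ
  rw [Finset.mem_singleton] at this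
  rw [this]

theorem blockHom_lin (h : Fin m) (c : Fin N → R) :
    BlockHom (Pi.single h 1) (∑ i, MvPolynomial.C (c i) * X (h, i) :
      MvPolynomial (Fin m × Fin N) R) := by
  classical
  apply BlockHom.sum
  intro i _
  apply BlockHom.C_mul
  have h1 := BlockHom.monomial (R := R) (Finsupp.single ((h, i) : Fin m × Fin N) 1) 1
  have h2 : (fun h' => ∑ j, (Finsupp.single ((h, i) : Fin m × Fin N) 1) (h', j))
      = (Pi.single h 1 : Fin m → ℕ) := by
    funext h'
    by_cases hh : h' = h
    · subst hh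
      rw [Pi.single_eq_same, Finset.sum_eq_single i]
      · simp
      · intro j _ hj
        rw [Finsupp.single_eq_of_ne]
        intro h
        exact hj (Prod.mk.inj h).2
      · intro h
        exact absurd (Finset.mem_univ _) h
    · rw [Pi.single_eq_of_ne hh]
      apply Finset.sum_eq_zero
      intro j _
      rw [Finsupp.single_eq_of_ne]
      intro h
      exact hh (Prod.mk.inj h).1
  rw [h2] at h1
  exact h1

theorem lsub_monomial (A : Matrix (Fin N) (Fin N) R) (I : Fin m × Fin N →₀ ℕ) (c : R) :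
    lsub A (monomial I c : MvPolynomial (Fin m × Fin N) R) =
      C c * ∏ s ∈ I.support, (∑ i, C (A s.2 i) * X (s.1, i)) ^ (I s) := by
  unfold lsub
  rw [bind₁_monomial]

theorem lsub_sum {ι : Type*} (A : Matrix (Fin N) (Fin N) R) (s : Finset ι)
    (P : ι → MvPolynomial (Fin m × Fin N) R) :
    lsub A (∑ a ∈ s, P a) = ∑ a ∈ s, lsub A (P a) := map_sum _ _ _

theorem lsub_add (A : Matrix (Fin N) (Fin N) R) (P Q : MvPolynomial (Fin m × Fin N) R) :
    lsub A (P + Q) = lsub A P + lsub A Q := map_add _ _ _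

theorem lsub_mul (A : Matrix (Fin N) (Fin N) R) (P Q : MvPolynomial (Fin m × Fin N) R) :
    lsub A (P * Q) = lsub A P * lsub A Q := map_mul _ _ _

theorem lsub_eq_sum (A : Matrix (Fin N) (Fin N) R) (P : MvPolynomial (Fin m × Fin N) R) :
    lsub A P = ∑ I ∈ P.support, C (P.coeff I) *
      ∏ s ∈ I.support, (∑ i, C (A s.2 i) * X (s.1, i)) ^ (I s) := by
  conv_lhs => rw [P.as_sum]
  rw [lsub_sum]
  exact Finset.sum_congr rfl fun I _ => lsub_monomial A I _

theorem blockHom_lsub_monomial (A : Matrix (Fin N) (Fin N) R) (I : Fin m × Fin N →₀ ℕ) (c : R) :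
    BlockHom (fun h => ∑ j, I (h, j)) (lsub A (monomial I c)) := by
  classical
  rw [lsub_monomial]
  apply BlockHom.C_mul
  have h1 := BlockHom.prod I.support (fun s => I s • (Pi.single s.1 1 : Fin m → ℕ))
    (fun s => (∑ i, C (A s.2 i) * X (s.1, i) : MvPolynomial (Fin m × Fin N) R) ^ (I s))
    (fun s _ => (blockHom_lin s.1 (A s.2)).pow (I s))
  have h2 : (∑ s ∈ I.support, I s • (Pi.single s.1 1 : Fin m → ℕ)) =
      (fun h => ∑ j, I (h, j)) := by
    funext h
    rw [Finset.sum_apply]
    have h3 : ∀ s : Fin m × Fin N, (I s • (Pi.single s.1 1 : Fin m → ℕ)) h =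
        if s.1 = h then I s else 0 := by
      intro s
      by_cases hs : s.1 = h
      · simp [hs]
      · simp [hs]
    simp only [h3]
    rw [Finset.sum_subset (Finset.subset_univ I.support), Fintype.sum_prod_type]
    · rw [Finset.sum_eq_single h]
      · simp
      · intro h' _ hh
        simp [hh]
      · intro hh
        exact absurd (Finset.mem_univ _) hh
    · intro s _ hs
      rw [Finsupp.notMem_support_iff.mp hs, ite_self]
  rw [h2] at h1
  exact h1

theorem BlockHom.lsub {r : Fin m → ℕ} {P : MvPolynomial (Fin m × Fin N) R}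
    (A : Matrix (Fin N) (Fin N) R) (hP : BlockHom r P) : BlockHom r (lsub A P) := by
  rw [P.as_sum, lsub_sum]
  apply BlockHom.sum
  intro I hI
  have h1 := blockHom_lsub_monomial A I (P.coeff I)
  have h2 : (fun h => ∑ j, I (h, j)) = r := funext (hP I hI)
  rwa [h2] at h1

theorem BlockHom.map {S : Type*} [CommSemiring S] (f : R →+* S) {r : Fin m → ℕ}
    {P : MvPolynomial (Fin m × Fin N) R} (hP : BlockHom r P) :
    BlockHom r (MvPolynomial.map f P) :=
  fun I hI => hP I (support_map_subset f P hI)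

theorem BlockHom.totalDegree_le {r : Fin m → ℕ} {P : MvPolynomial (Fin m × Fin N) R}
    (hP : BlockHom r P) : P.totalDegree ≤ ∑ h, r h := by
  unfold totalDegree
  apply Finset.sup_le
  intro I hI
  rw [sum_prod_eq]
  exact Finset.sum_le_sum fun h _ => (hP I hI h).le

theorem BlockHom.sum_eq {r : Fin m → ℕ} {P : MvPolynomial (Fin m × Fin N) R}
    (hP : BlockHom r P) {I : Fin m × Fin N →₀ ℕ} (hI : I ∈ P.support) :
    (I.sum fun _ e => e) = ∑ h, r h := by
  rw [sum_prod_eq]
  exact Finset.sum_congr rfl fun h _ => hP I hI h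

theorem BlockHom.le {r : Fin m → ℕ} {P : MvPolynomial (Fin m × Fin N) R}
    (hP : BlockHom r P) {I : Fin m × Fin N →₀ ℕ} (hI : I ∈ P.support) (s : Fin m × Fin N) :
    I s ≤ r s.1 := by
  rw [← hP I hI s.1]
  exact Finset.single_le_sum (f := fun j => I (s.1, j)) (fun _ _ => Nat.zero_le _)
    (Finset.mem_univ s.2)

end block

section size
variable {m N : ℕ}

theorem l1_lsub_monomial (A : Matrix (Fin N) (Fin N) ℝ) (B : ℝ)
    (hB : ∀ j, ∑ i, |A j i| ≤ B) (I : Fin m × Fin N →₀ ℕ) (c : ℝ) :
    l1 (lsub A (monomial I c)) ≤ |c| * B ^ (I.sum fun _ e => e) := by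
  rw [lsub_monomial]
  refine (l1_mul _ _).trans ?_
  rw [l1_C]
  apply mul_le_mul_of_nonneg_left _ (abs_nonneg c)
  refine (l1_prod _ _).trans ?_
  have h1 : B ^ (I.sum fun _ e => e) = ∏ s ∈ I.support, B ^ (I s) := by
    unfold Finsupp.sum
    rw [← Finset.prod_pow_eq_pow_sum]
  rw [h1]
  apply Finset.prod_le_prod
  · intro s _
    exact l1_nonneg _
  · intro s _
    refine (l1_pow _ _).trans ?_
    apply pow_le_pow_left₀ (l1_nonneg _)
    refine (l1_sum _ _).trans ((Finset.sum_le_sum ?_).trans (hB s.2))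
    intro i _
    refine (l1_mul _ _).trans ?_
    rw [l1_C, l1_X, mul_one]

theorem l1_lsub_le (A : Matrix (Fin N) (Fin N) ℝ) (B : ℝ)
    (hB : ∀ j, ∑ i, |A j i| ≤ B) (r : Fin m → ℕ) (P : MvPolynomial (Fin m × Fin N) ℝ)
    (hP : BlockHom r P) : l1 (lsub A P) ≤ B ^ (∑ h, r h) * l1 P := by
  conv_lhs => rw [P.as_sum]
  rw [lsub_sum]
  refine (l1_sum _ _).trans ?_
  have h1 : B ^ (∑ h, r h) * l1 P = ∑ I ∈ P.support, |P.coeff I| * B ^ (∑ h, r h) := by
    unfold l1
    rw [← Finset.sum_mul, mul_comm]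
  rw [h1]
  apply Finset.sum_le_sum
  intro I hI
  have h2 := l1_lsub_monomial A B hB I (P.coeff I)
  rwa [hP.sum_eq hI] at h2

/-- scaling identity for block homogeneous polynomials -/
theorem bind₁_scale {R : Type*} [CommSemiring R] (c : R)
    (u : Fin m × Fin N → MvPolynomial (Fin m × Fin N) R) (r : Fin m → ℕ)
    (P : MvPolynomial (Fin m × Fin N) R) (hP : BlockHom r P) :
    bind₁ (fun s => C c * u s) P = C (c ^ (∑ h, r h)) * bind₁ u P := by
  conv_lhs => rw [P.as_sum]
  conv_rhs => rw [P.as_sum]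
  rw [map_sum, map_sum, Finset.mul_sum]
  apply Finset.sum_congr rfl
  intro I hI
  rw [bind₁_monomial, bind₁_monomial]
  have h1 : ∏ s ∈ I.support, (C c * u s) ^ (I s) =
      C (c ^ (∑ h, r h)) * ∏ s ∈ I.support, u s ^ (I s) := by
    simp only [mul_pow, Finset.prod_mul_distrib]
    congr 1
    rw [Finset.prod_pow_eq_pow_sum, C_pow]
    congr 1
    exact hP.sum_eq hI
  rw [h1]
  ring

/-- `Δ^(∑ r) • P(x+Z) = P~(L(x + Z))` with `P~ (Y) = P (adj(L) Y)` -/
theorem lsub_tay_lsub {R : Type*} [CommRing R] (L : Matrix (Fin N) (Fin N) R) (r : Fin m → ℕ)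
    (P : MvPolynomial (Fin m × Fin N) R) (hP : BlockHom r P) (x : Fin m × Fin N → R) :
    lsub L (tay (fun s : Fin m × Fin N => ∑ j, L s.2 j * x (s.1, j)) (lsub L.adjugate P)) =
      C (L.det ^ (∑ h, r h)) * tay x P := by
  unfold tay
  rw [← bind₁_scale L.det _ r P hP]
  unfold lsub
  rw [bind₁_bind₁, bind₁_bind₁]
  congr 2
  funext s
  simp only [map_sum, map_mul, map_add, bind₁_C_right, bind₁_X_right]
  have h1 : ∀ i : Fin N, (∑ j, (C (L i j) : MvPolynomial (Fin m × Fin N) R) * C (x (s.1, j))) +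
      ∑ j, C (L i j) * X (s.1, j) = ∑ j, C (L i j) * (C (x (s.1, j)) + X (s.1, j)) := by
    intro i
    rw [← Finset.sum_add_distrib]
    apply Finset.sum_congr rfl
    intro j _
    ring
  simp only [h1]
  have h2 : ∀ j : Fin N, ∑ i, L.adjugate s.2 i * L i j = if s.2 = j then L.det else 0 := by
    intro j
    have := congrFun (congrFun (Matrix.adjugate_mul L) s.2) j
    rw [Matrix.mul_apply] at this
    rw [this, Matrix.smul_apply, Matrix.one_apply]
    split_ifs <;> simp
  calc ∑ i, (C (L.adjugate s.2 i) : MvPolynomial (Fin m × Fin N) R) *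
        ∑ j, C (L i j) * (C (x (s.1, j)) + X (s.1, j))
      = ∑ j, C (∑ i, L.adjugate s.2 i * L i j) * (C (x (s.1, j)) + X (s.1, j)) := by
        simp only [Finset.mul_sum, map_sum, Finset.sum_mul]
        rw [Finset.sum_comm]
        apply Finset.sum_congr rfl
        intro j _
        apply Finset.sum_congr rfl
        intro i _
        rw [map_mul]
        ring
    _ = C L.det * (C (x s) + X s) := by
        simp only [h2]
        rw [Finset.sum_eq_single s.2]
        · rw [if_pos rfl]
        · intro j _ hj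
          rw [if_neg (Ne.symm hj)]
          simp
        · intro h
          exact absurd (Finset.mem_univ _) h

end size

end Pool.Agent.Sub
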