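import Pool.Agent.Lib_MP_10b5ac_nt.Alg

set_option autoImplicit false

/-! MP_10b5ac_nt, piece D2: hyperplanes of small height. -/

namespace Pool.Agent.Sub

open Finset Filter

/-- rows: `u`, then the `g l` -/
def cA {K : Type*} {n : ℕ} (u : Fin (n + 1) → K) (g : Fin n → Fin (n + 1) → K) :
    Matrix (Fin (n + 1)) (Fin (n + 1)) K :=
  Matrix.of (Fin.cons u g : Fin (n + 1) → Fin (n + 1) → K)

/-- cofactors along the row `0` -/
def cW {K : Type*} [CommRing K] {n : ℕ} (g : Fin n → Fin (n + 1) → K) (j : Fin (n + 1)) : K :=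
  (-1) ^ (j : ℕ) * (Matrix.of fun l l' => g l (j.succAbove l') : Matrix (Fin n) (Fin n) K).det

theorem cA_det {K : Type*} [CommRing K] {n : ℕ} (u : Fin (n + 1) → K)
    (g : Fin n → Fin (n + 1) → K) : (cA u g).det = ∑ j, u j * cW g j := by
  rw [Matrix.det_succ_row_zero]
  refine Finset.sum_congr rfl fun j _ => ?_
  have h1 : cA u g 0 j = u j := rfl
  have h2 : (cA u g).submatrix Fin.succ j.succAbove =
      (Matrix.of fun l l' => g l (j.succAbove l') : Matrix (Fin n) (Fin n) K) := by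
    ext l l'
    rfl
  rw [h1, h2, cW]
  ring

theorem cA_vanish {K : Type*} [Field K] {n : ℕ} (u a : Fin (n + 1) → K)
    (g : Fin n → Fin (n + 1) → K) (ha : a ≠ 0) (hag : ∀ l, ∑ j, a j * g l j = 0)
    (hau : ∑ j, a j * u j = 0) : (cA u g).det = 0 := by
  refine Matrix.exists_mulVec_eq_zero_iff.1 ⟨a, ha, ?_⟩
  funext i
  refine Fin.cases ?_ (fun l => ?_) i
  · show ∑ j, u j * a j = 0
    rw [← hau]
    exact Finset.sum_congr rfl fun j _ => mul_comm _ _
  · show ∑ j, g l j * a j = 0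
    rw [← hag l]
    exact Finset.sum_congr rfl fun j _ => mul_comm _ _

theorem cA_prop {K : Type*} [Field K] {n : ℕ} (u v a : Fin (n + 1) → K)
    (g : Fin n → Fin (n + 1) → K) (ha : a ≠ 0) (hag : ∀ l, ∑ j, a j * g l j = 0) :
    (∑ j, a j * u j) * (cA v g).det = (∑ j, a j * v j) * (cA u g).det := by
  have h := cA_vanish (fun j => (∑ j, a j * u j) * v j - (∑ j, a j * v j) * u j) a g ha hag (by
    simp only [mul_sub, Finset.sum_sub_distrib]
    rw [sub_eq_zero]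
    calc ∑ i, a i * ((∑ j, a j * u j) * v i) = (∑ j, a j * u j) * ∑ i, a i * v i := by
          rw [Finset.mul_sum]; exact Finset.sum_congr rfl fun i _ => by ring
      _ = ∑ i, a i * ((∑ j, a j * v j) * u i) := by
          rw [mul_comm, Finset.mul_sum]; exact Finset.sum_congr rfl fun i _ => by ring)
  rw [cA_det] at h
  rw [cA_det, cA_det, Finset.mul_sum, Finset.mul_sum, ← sub_eq_zero, ← Finset.sum_sub_distrib, ← h]
  exact Finset.sum_congr rfl fun i _ => by ring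

theorem cA_single {K : Type*} [CommRing K] {n : ℕ} (g : Fin n → Fin (n + 1) → K)
    (j : Fin (n + 1)) : (cA (Pi.single j 1) g).det = cW g j := by
  rw [cA_det, Finset.sum_eq_single j]
  · rw [Pi.single_eq_same, one_mul]
  · intro i _ hi
    rw [Pi.single_eq_of_ne hi, zero_mul]
  · intro h; exact absurd (Finset.mem_univ j) h

theorem cA_adj {n : ℕ} (L : Matrix (Fin (n + 1)) (Fin (n + 1)) ℝ) (hL : L.det ≠ 0)
    (g : Fin n → Fin (n + 1) → ℝ) (i : Fin (n + 1)) :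
    (cA (fun j => L.adjugate j i) g).det = cW (fun l i' => ∑ j, L i' j * g l j) i := by
  have h1 : cA (fun j => L.adjugate j i) g * L.transpose =
      cA (L.det • Pi.single i 1) (fun l i' => ∑ j, L i' j * g l j) := by
    ext k i'
    rw [Matrix.mul_apply]
    refine Fin.cases ?_ (fun l => ?_) k
    · show ∑ j, L.adjugate j i * L i' j = (L.det • (Pi.single i 1 : Fin (n + 1) → ℝ)) i'
      have h2 := congrFun (congrFun (Matrix.mul_adjugate L) i') i
      rw [Matrix.mul_apply] at h2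
      calc ∑ j, L.adjugate j i * L i' j = ∑ j, L i' j * L.adjugate j i :=
            Finset.sum_congr rfl fun j _ => mul_comm _ _
        _ = _ := by
            rw [h2]
            by_cases h : i' = i
            · subst h; simp
            · simp [h]
    · show ∑ j, g l j * L i' j = ∑ j, L i' j * g l j
      exact Finset.sum_congr rfl fun j _ => mul_comm _ _
  have h2 := congrArg Matrix.det h1
  rw [Matrix.det_mul, Matrix.det_transpose] at h2
  have h3 : (cA (L.det • Pi.single i 1) (fun l i' => ∑ j, L i' j * g l j)).det =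
      L.det * (cA (Pi.single i 1) (fun l i' => ∑ j, L i' j * g l j)).det := by
    rw [cA_det, cA_det, Finset.mul_sum]
    exact Finset.sum_congr rfl fun j _ => by rw [Pi.smul_apply, smul_eq_mul]; ring
  rw [h3, cA_single, mul_comm] at h2
  exact mul_left_cancel₀ hL h2

theorem cW_bound {n : ℕ} (h : Fin n → Fin (n + 1) → ℝ) (c : Fin (n + 1) → ℝ)
    (hc : ∀ l i, |h l i| ≤ c i) (i : Fin (n + 1)) :
    |cW h i| ≤ n.factorial * ∏ l, c (i.succAbove l) := by
  rw [cW, abs_mul, abs_pow, abs_neg, abs_one, one_pow, one_mul, Matrix.det_apply]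
  refine (Finset.abs_sum_le_sum_abs _ _).trans ?_
  calc ∑ σ : Equiv.Perm (Fin n), |Equiv.Perm.sign σ • ∏ l, (Matrix.of fun l l' =>
          h l (i.succAbove l') : Matrix (Fin n) (Fin n) ℝ) (σ l) l|
      ≤ ∑ σ : Equiv.Perm (Fin n), ∏ l, c (i.succAbove l) := by
        refine Finset.sum_le_sum fun σ _ => ?_
        have h1 : |Equiv.Perm.sign σ • ∏ l, (Matrix.of fun l l' =>
          h l (i.succAbove l') : Matrix (Fin n) (Fin n) ℝ) (σ l) l| =
            ∏ l, |h (σ l) (i.succAbove l)| := by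
          rw [← Finset.abs_prod]
          rcases Int.units_eq_one_or (Equiv.Perm.sign σ) with h2 | h2
          · rw [h2, one_smul]; rfl
          · rw [h2, Units.neg_smul, one_smul, abs_neg]; rfl
        rw [h1]
        exact Finset.prod_le_prod (fun _ _ => abs_nonneg _) fun l _ => hc _ _
    _ = n.factorial * ∏ l, c (i.succAbove l) := by
        rw [Finset.sum_const, Finset.card_univ, Fintype.card_perm, Fintype.card_fin, nsmul_eq_mul]

theorem cW_dvd {n : ℕ} (b : ℕ) (g : Fin n → Fin (n + 1) → ℤ) (nn : Fin (n + 1) → ℕ)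
    (hdiv : ∀ l j, ((b : ℤ) ^ nn j) ∣ g l j) (j : Fin (n + 1)) :
    (∏ l, (b : ℤ) ^ nn (j.succAbove l)) ∣ cW g j := by
  choose h hh using hdiv
  rw [cW]
  refine Dvd.dvd.mul_left ?_ _
  have h1 : (Matrix.of fun l l' => g l (j.succAbove l') : Matrix (Fin n) (Fin n) ℤ) =
      Matrix.of fun l l' => (b : ℤ) ^ nn (j.succAbove l') *
        (Matrix.of fun l l' => h l (j.succAbove l') : Matrix (Fin n) (Fin n) ℤ) l l' := by
    ext l l'
    exact hh _ _
  rw [h1, Matrix.det_mul_row]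
  exact dvd_mul_right _ _

theorem cW_map {R S : Type*} [CommRing R] [CommRing S] (f : R →+* S) {n : ℕ}
    (g : Fin n → Fin (n + 1) → R) (j : Fin (n + 1)) :
    f (cW g j) = cW (fun l j => f (g l j)) j := by
  rw [cW, cW, map_mul, map_pow, map_neg, map_one, RingHom.map_det]
  rfl

theorem cW_ne_zero {n : ℕ} (g : Fin n → Fin (n + 1) → ℤ)
    (hli : LinearIndependent ℚ (fun l => cv (g l))) (a : Fin (n + 1) → ℤ)
    (hag : ∀ l, ∑ j, a j * g l j = 0) (j : Fin (n + 1)) (hj : a j ≠ 0) : cW g j ≠ 0 := by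
  have h1 : ∃ u : Fin (n + 1) → ℚ, u ∉ Submodule.span ℚ (Set.range fun l => cv (g l)) := by
    by_contra hcon
    push Not at hcon
    have h2 : Submodule.span ℚ (Set.range fun l => cv (g l)) = ⊤ := by
      rw [eq_top_iff]; intro u _; exact hcon u
    have h3 := finrank_span_eq_card hli
    rw [h2, finrank_top, Module.finrank_fin_fun, Fintype.card_fin] at h3
    omega
  obtain ⟨u, hu⟩ := h1
  have h2 : LinearIndependent ℚ (Fin.cons u (fun l => cv (g l)) : Fin (n + 1) → Fin (n + 1) → ℚ) :=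
    linearIndependent_finCons.2 ⟨hli, hu⟩
  have h3 : (cA u (fun l => cv (g l))).det ≠ 0 := by
    have h4 : IsUnit (cA u (fun l => cv (g l))) := Matrix.linearIndependent_rows_iff_isUnit.1 h2
    exact ((Matrix.isUnit_iff_isUnit_det _).1 h4).ne_zero
  have h4 := cA_prop (cv (Pi.single j 1)) u (cv a) (fun l => cv (g l)) (by
    intro h; apply hj
    have := congrFun h j
    simpa [cv] using this) (fun l => by
    have := hag l
    simp only [cv]
    exact_mod_cast this)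
  have h5 : ∑ j', cv a j' * cv (Pi.single j 1) j' = (a j : ℚ) := by
    rw [Finset.sum_eq_single j]
    · simp [cv]
    · intro i _ hi
      simp [cv, hi]
    · intro h; exact absurd (Finset.mem_univ j) h
  have h6 : (cv (Pi.single j 1) : Fin (n + 1) → ℚ) = Pi.single j 1 := by
    funext i
    by_cases h : i = j
    · subst h; simp [cv]
    · simp [cv, h]
  rw [h5, h6, cA_single] at h4
  intro h7
  have h8 : cW (fun l => cv (g l)) j = ((cW g j : ℤ) : ℚ) :=
    (cW_map (Int.castRingHom ℚ) g j).symm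
  rw [h8, h7, Int.cast_zero, mul_zero] at h4
  have hj' : (a j : ℚ) ≠ 0 := by exact_mod_cast hj
  exact (mul_ne_zero hj' h3) h4

theorem caseA_star {θ : ℝ} {D : ℕ} {C₀ : ℝ} (hA : AlgData θ D C₀) (b n : ℕ) (hb : 2 ≤ b)
    (L : Matrix (Fin (n + 1)) (Fin (n + 1)) ℝ) (hL : L.det ≠ 0) (M' : ℝ) (hM' : 1 ≤ M')
    (hadj : ∀ i j, Rep θ D M' (L.adjugate i j)) (x y : ℝ) (hx : 1 ≤ x) (hy : 0 < y)
    (nn : Fin (n + 1) → ℕ) (B : Fin (n + 1) → ℝ) (hB : ∀ i, 0 < B i)
    (hvol : ∏ i, B i ≤ (b : ℝ) ^ (∑ j, nn j)) (g : Fin n → Fin (n + 1) → ℤ)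
    (hdiv : ∀ l j, ((b : ℤ) ^ nn j) ∣ g l j)
    (hsmall : ∀ l i, |∑ j, L i j * (g l j : ℝ)| ≤ B i * y)
    (hli : LinearIndependent ℚ (fun l => cv (g l)))
    (a : Fin (n + 1) → ℤ) (hag : ∀ l, ∑ j, a j * g l j = 0)
    (hsize : ∀ j, |(a j : ℝ)| ≤ x) (i j : Fin (n + 1))
    (hi : ∑ j, (a j : ℝ) * L.adjugate j i ≠ 0) (hj : a j ≠ 0) :
    B i * y ≤ (C₀ * (((n + 1 : ℕ) : ℝ) * M') ^ D * n.factorial) * (x ^ (D + 1) * y ^ (n + 1)) *
      (b : ℝ) ^ nn j := by
  have hb0 : (0 : ℝ) < b := by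
    have : (2 : ℝ) ≤ b := by exact_mod_cast hb
    linarith
  set α : ℝ := ∑ j, (a j : ℝ) * L.adjugate j i with hα
  set Pj : ℝ := ∏ l, (b : ℝ) ^ nn (j.succAbove l) with hPj
  have hPj0 : 0 < Pj := Finset.prod_pos fun l _ => pow_pos hb0 _
  -- the integer minor
  have h1 : Pj ≤ |((cW g j : ℤ) : ℝ)| := by
    have h2 := cW_dvd b g nn hdiv j
    have h3 := cW_ne_zero g hli a hag j hj
    have h4 := Int.le_of_dvd (abs_pos.2 h3) ((dvd_abs _ _).2 h2)
    have h5 : ((∏ l, (b : ℤ) ^ nn (j.succAbove l) : ℤ) : ℝ) ≤ ((|cW g j| : ℤ) : ℝ) := by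
      exact_mod_cast h4
    push_cast at h5
    exact h5
  -- the proportionality
  have h2 : α * ((cW g j : ℤ) : ℝ) =
      (a j : ℝ) * cW (fun l i' => ∑ j, L i' j * (g l j : ℝ)) i := by
    have h3 := cA_prop (K := ℝ) (fun j => L.adjugate j i) (Pi.single j 1) (fun j => (a j : ℝ))
      (fun l j => (g l j : ℝ)) (by
        intro h
        apply hj
        have := congrFun h j
        simpa using this) (fun l => by exact_mod_cast hag l)
    rw [cA_single, cA_adj L hL] at h3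
    have h4 : ∑ j', (a j' : ℝ) * (Pi.single j 1 : Fin (n + 1) → ℝ) j' = (a j : ℝ) := by
      rw [Finset.sum_eq_single j]
      · rw [Pi.single_eq_same, mul_one]
      · intro i _ hi
        rw [Pi.single_eq_of_ne hi, mul_zero]
      · intro h; exact absurd (Finset.mem_univ j) h
    rw [h4] at h3
    rw [← h3]
    congr 1
    exact cW_map (Int.castRingHom ℝ) g j
  have h3 := cW_bound (fun l i' => ∑ j, L i' j * (g l j : ℝ)) (fun i' => B i' * y) hsmall i
  rw [Finset.prod_mul_distrib, Finset.prod_const, Finset.card_univ, Fintype.card_fin] at h3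
  -- Liouville
  have h4 : 1 ≤ C₀ * (((n + 1 : ℕ) : ℝ) * M' * x) ^ D * |α| := by
    refine hA.liou _ _ ?_ ?_ hi
    · have h5 : (1 : ℝ) ≤ ((n + 1 : ℕ) : ℝ) := by exact_mod_cast Nat.succ_pos n
      have h6 : (1 : ℝ) ≤ ((n + 1 : ℕ) : ℝ) * M' := one_le_mul_of_one_le_of_one_le h5 hM'
      exact one_le_mul_of_one_le_of_one_le h6 hx
    · have h5 : Rep θ D (∑ _j : Fin (n + 1), x * M') α := by
        rw [hα]
        refine rep_sum _ _ _ fun j _ => ?_
        exact ((hadj j i).int_mul (a j)).mono (mul_le_mul_of_nonneg_right (hsize j) (by linarith))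
      rw [Finset.sum_const, Finset.card_univ, Fintype.card_fin, nsmul_eq_mul] at h5
      have e : ((n + 1 : ℕ) : ℝ) * M' * x = ((n + 1 : ℕ) : ℝ) * (x * M') := by ring
      rw [e]
      exact h5
  set Bi : ℝ := ∏ l, B (i.succAbove l) with hBi
  have hBi0 : 0 < Bi := Finset.prod_pos fun l _ => hB _
  have hprodB : ∏ i, B i = B i * Bi := Fin.prod_univ_succAbove B i
  have hprodn : (b : ℝ) ^ (∑ j, nn j) = (b : ℝ) ^ nn j * Pj := by
    rw [Fin.sum_univ_succAbove nn j, pow_add, hPj, ← Finset.prod_pow_eq_pow_sum]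
  rw [hprodB, hprodn] at hvol
  have hC : 0 < C₀ := lt_of_lt_of_le one_pos hA.hC
  have hfac : (0 : ℝ) < n.factorial := by exact_mod_cast n.factorial_pos
  have hNM : (0 : ℝ) < ((n + 1 : ℕ) : ℝ) * M' := by positivity
  have hx0 : 0 < x := by linarith
  -- combination
  have h5 : Pj ≤ C₀ * (((n + 1 : ℕ) : ℝ) * M' * x) ^ D * (x * (n.factorial * (Bi * y ^ n))) := by
    calc Pj ≤ |((cW g j : ℤ) : ℝ)| := h1
      _ = 1 * |((cW g j : ℤ) : ℝ)| := (one_mul _).symm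
      _ ≤ C₀ * (((n + 1 : ℕ) : ℝ) * M' * x) ^ D * |α| * |((cW g j : ℤ) : ℝ)| :=
          mul_le_mul_of_nonneg_right h4 (abs_nonneg _)
      _ = C₀ * (((n + 1 : ℕ) : ℝ) * M' * x) ^ D * |α * ((cW g j : ℤ) : ℝ)| := by
          rw [abs_mul]; ring
      _ ≤ C₀ * (((n + 1 : ℕ) : ℝ) * M' * x) ^ D * (x * (n.factorial * (Bi * y ^ n))) := by
          apply mul_le_mul_of_nonneg_left _ (by positivity)
          rw [h2, abs_mul]
          exact mul_le_mul (hsize j) h3 (abs_nonneg _) hx0.le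
  have h6 : Pj * (B i * y) ≤ Pj * ((C₀ * (((n + 1 : ℕ) : ℝ) * M') ^ D * n.factorial) *
      (x ^ (D + 1) * y ^ (n + 1)) * (b : ℝ) ^ nn j) := by
    calc Pj * (B i * y) ≤ C₀ * (((n + 1 : ℕ) : ℝ) * M' * x) ^ D *
          (x * (n.factorial * (Bi * y ^ n))) * (B i * y) :=
          mul_le_mul_of_nonneg_right h5 (mul_nonneg (hB i).le hy.le)
      _ = (C₀ * (((n + 1 : ℕ) : ℝ) * M') ^ D * n.factorial) *
          (x ^ (D + 1) * y ^ (n + 1)) * (B i * Bi) := by rw [mul_pow]; ring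
      _ ≤ (C₀ * (((n + 1 : ℕ) : ℝ) * M') ^ D * n.factorial) *
          (x ^ (D + 1) * y ^ (n + 1)) * ((b : ℝ) ^ nn j * Pj) :=
          mul_le_mul_of_nonneg_left hvol (by positivity)
      _ = _ := by ring
  exact le_of_mul_le_mul_left h6 hPj0

theorem caseA_pigeon {β : Type*} [Finite β] (F : ℕ → β) :
    ∃ v, ∃ᶠ e in atTop, F e = v := by
  by_contra hcon
  push Not at hcon
  have h1 : ∀ᶠ e in atTop, ∀ v, F e ≠ v := by
    rw [eventually_all]
    intro v
    exact hcon v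
  obtain ⟨e, he⟩ := h1.exists
  exact he _ rfl

theorem caseA_aux {θ : ℝ} {D : ℕ} {C₀ : ℝ} (hA : AlgData θ D C₀) (b n : ℕ) (hb : 2 ≤ b)
    (L : Matrix (Fin (n + 1)) (Fin (n + 1)) ℝ) (hL : L.det ≠ 0) (M : ℝ) (hM : 1 ≤ M)
    (hLr : ∀ i j, Rep θ D M (L i j)) (δ η' : ℝ) (hδ : 0 < δ) (hη' : 0 < η')
    (hηδ : (D + 1) * η' < ((n + 1 : ℕ) : ℝ) * δ)
    (q : ℕ → ℕ) (hq : Tendsto q atTop atTop) (nn : ℕ → Fin (n + 1) → ℕ)
    (B : ℕ → Fin (n + 1) → ℝ)
    (hB : ∀ e i, 0 < B e i) (hvol : ∀ e, ∏ i, B e i ≤ (b : ℝ) ^ (∑ j, nn e j))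
    (g : ℕ → Fin n → Fin (n + 1) → ℤ) (hdiv : ∀ e l j, ((b : ℤ) ^ nn e j) ∣ g e l j)
    (hsmall : ∀ e l i, |∑ j, L i j * (g e l j : ℝ)| ≤ B e i * (b : ℝ) ^ (-(δ * (q e : ℝ))))
    (hli : ∀ e, LinearIndependent ℚ (fun l => cv (g e l)))
    (a : ℕ → Fin (n + 1) → ℤ) (hag : ∀ e l, ∑ j, a e j * g e l j = 0) (ha0 : ∀ e, a e ≠ 0)
    (hsize : ∀ e j, |(a e j : ℝ)| ≤ (b : ℝ) ^ (η' * (q e : ℝ))) :
    ∃ e₀, ∃ᶠ e in atTop, ∀ l, ∑ j, a e₀ j * g e l j = 0 := by
  classical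
  have hb1 : (1 : ℝ) < b := by
    have : (2 : ℝ) ≤ b := by exact_mod_cast hb
    linarith
  have hb0 : (0 : ℝ) < b := by linarith
  obtain ⟨M', hM', hadj'⟩ := rep_adjugate hA (n + 1) M hM
  have hadj := hadj' L hLr
  set α : ℕ → Fin (n + 1) → ℝ := fun e i => ∑ j, (a e j : ℝ) * L.adjugate j i with hα
  obtain ⟨v, hv⟩ := caseA_pigeon (fun e =>
    ((Finset.univ.filter fun i => α e i ≠ 0), (Finset.univ.filter fun j => a e j ≠ 0)))
  obtain ⟨e₀, he₀⟩ := hv.exists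
  set K : ℝ := C₀ * (((n + 1 : ℕ) : ℝ) * M') ^ D * n.factorial with hK
  have hC : 0 < C₀ := lt_of_lt_of_le one_pos hA.hC
  have hfac : (0 : ℝ) < n.factorial := by exact_mod_cast n.factorial_pos
  have hK0 : 0 < K := by positivity
  set A₀ : ℝ := ∑ i, |α e₀ i| with hA₀
  have hA₀0 : 0 ≤ A₀ := Finset.sum_nonneg fun _ _ => abs_nonneg _
  set ε : ℝ := ((n + 1 : ℕ) : ℝ) * δ - (D + 1) * η' with hε
  have hε0 : 0 < ε := by rw [hε]; linarith
  -- the error term
  have hxy : ∀ e, ((b : ℝ) ^ (η' * (q e : ℝ))) ^ (D + 1) *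
      ((b : ℝ) ^ (-(δ * (q e : ℝ)))) ^ (n + 1) = (b : ℝ) ^ (-(ε * (q e : ℝ))) := by
    intro e
    rw [← Real.rpow_natCast, ← Real.rpow_natCast, ← Real.rpow_mul hb0.le, ← Real.rpow_mul hb0.le,
      ← Real.rpow_add hb0]
    congr 1
    rw [hε]
    push_cast
    ring
  have htend : Tendsto (fun e => (b : ℝ) ^ (-(ε * (q e : ℝ)))) atTop (nhds 0) := by
    have h1 : Tendsto (fun e => ε * (q e : ℝ)) atTop atTop :=
      Tendsto.const_mul_atTop hε0 (tendsto_natCast_atTop_atTop.comp hq)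
    have h2 := (tendsto_rpow_atBot_of_base_gt_one (b : ℝ) hb1).comp (tendsto_neg_atTop_atBot.comp h1)
    exact h2
  have hev : ∀ᶠ e in atTop, A₀ * K * (b : ℝ) ^ (-(ε * (q e : ℝ))) < |L.det| := by
    have h1 : Tendsto (fun e => A₀ * K * (b : ℝ) ^ (-(ε * (q e : ℝ)))) atTop
        (nhds (A₀ * K * 0)) := htend.const_mul _
    rw [mul_zero] at h1
    exact h1.eventually (gt_mem_nhds (abs_pos.2 hL))
  refine ⟨e₀, (hv.and_eventually hev).mono ?_⟩
  rintro e ⟨he, hsm⟩ l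
  rw [← he₀] at he
  have hS1 : ∀ i, α e i ≠ 0 ↔ α e₀ i ≠ 0 := by
    intro i
    have := congrArg (fun t => i ∈ t.1) he
    simpa using this
  have hS2 : ∀ j, a e j ≠ 0 ↔ a e₀ j ≠ 0 := by
    intro j
    have := congrArg (fun t => j ∈ t.2) he
    simpa using this
  by_contra hT
  -- the minimizer
  obtain ⟨j₁, hj₁⟩ : ∃ j, a e j ≠ 0 := by
    by_contra hcon
    push Not at hcon
    exact ha0 e (funext hcon)
  obtain ⟨js, hjs, hmin⟩ := Finset.exists_min_image (Finset.univ.filter fun j => a e j ≠ 0)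
    (fun j => nn e j) ⟨j₁, by simp [hj₁]⟩
  have hjs' : a e js ≠ 0 := by simpa using hjs
  have hmin' : ∀ j, a e j ≠ 0 → nn e js ≤ nn e j := fun j hj => hmin j (by simp [hj])
  have hdvd : ((b : ℤ) ^ nn e js) ∣ ∑ j, a e₀ j * g e l j := by
    refine Finset.dvd_sum fun j _ => ?_
    by_cases hj : a e₀ j = 0
    · rw [hj, zero_mul]; exact dvd_zero _
    · have := hmin' j ((hS2 j).2 hj)
      exact Dvd.dvd.mul_left ((pow_dvd_pow _ this).trans (hdiv e l j)) _
  have hlow : (b : ℝ) ^ nn e js ≤ |((∑ j, a e₀ j * g e l j : ℤ) : ℝ)| := by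
    have h4 := Int.le_of_dvd (abs_pos.2 hT) ((dvd_abs _ _).2 hdvd)
    have h5 : (((b : ℤ) ^ nn e js : ℤ) : ℝ) ≤ ((|∑ j, a e₀ j * g e l j| : ℤ) : ℝ) := by
      exact_mod_cast h4
    push_cast at h5
    push_cast
    exact h5
  have hid : L.det * ((∑ j, a e₀ j * g e l j : ℤ) : ℝ) =
      ∑ i, α e₀ i * ∑ j, L i j * (g e l j : ℝ) := by
    have h1 : ∀ j j', ∑ i, L.adjugate j i * L i j' = L.det * (if j = j' then 1 else 0) := by
      intro j j'
      have h2 := congrFun (congrFun (Matrix.adjugate_mul L) j) j'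
      rw [Matrix.mul_apply] at h2
      rw [h2]
      by_cases h : j = j'
      · subst h; simp
      · simp [h]
    push_cast
    rw [hα]
    calc L.det * ∑ j, (a e₀ j : ℝ) * (g e l j : ℝ)
        = ∑ j, ∑ j', (a e₀ j : ℝ) * (L.det * (if j = j' then 1 else 0)) * (g e l j' : ℝ) := by
          rw [Finset.mul_sum]
          refine Finset.sum_congr rfl fun j _ => ?_
          rw [Finset.sum_eq_single j]
          · rw [if_pos rfl]; ring
          · intro j' _ hj'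
            rw [if_neg (Ne.symm hj')]; ring
          · intro h; exact absurd (Finset.mem_univ j) h
      _ = ∑ j, ∑ j', ∑ i, (a e₀ j : ℝ) * L.adjugate j i * (L i j' * (g e l j' : ℝ)) := by
          refine Finset.sum_congr rfl fun j _ => Finset.sum_congr rfl fun j' _ => ?_
          rw [← h1 j j', Finset.mul_sum, Finset.sum_mul]
          exact Finset.sum_congr rfl fun i _ => by ring
      _ = ∑ j, ∑ i, ∑ j', (a e₀ j : ℝ) * L.adjugate j i * (L i j' * (g e l j' : ℝ)) :=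
          Finset.sum_congr rfl fun j _ => Finset.sum_comm
      _ = ∑ i, ∑ j, ∑ j', (a e₀ j : ℝ) * L.adjugate j i * (L i j' * (g e l j' : ℝ)) :=
          Finset.sum_comm
      _ = ∑ i, (∑ j, (a e₀ j : ℝ) * L.adjugate j i) * ∑ j', L i j' * (g e l j' : ℝ) :=
          Finset.sum_congr rfl fun i _ => (Finset.sum_mul_sum _ _ _ _).symm
  have hupp : |L.det| * |((∑ j, a e₀ j * g e l j : ℤ) : ℝ)| ≤
      A₀ * (K * (b : ℝ) ^ (-(ε * (q e : ℝ))) * (b : ℝ) ^ nn e js) := by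
    rw [← abs_mul, hid, hA₀, Finset.sum_mul]
    refine (Finset.abs_sum_le_sum_abs _ _).trans (Finset.sum_le_sum fun i _ => ?_)
    rw [abs_mul]
    by_cases hi : α e₀ i = 0
    · rw [hi, abs_zero, zero_mul, zero_mul]
    · refine mul_le_mul_of_nonneg_left ((hsmall e l i).trans ?_) (abs_nonneg _)
      have h1 := caseA_star hA b n hb L hL M' hM' hadj ((b : ℝ) ^ (η' * (q e : ℝ)))
        ((b : ℝ) ^ (-(δ * (q e : ℝ))))
        (Real.one_le_rpow hb1.le (mul_nonneg hη'.le (Nat.cast_nonneg _)))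
        (Real.rpow_pos_of_pos hb0 _) (nn e) (B e) (hB e) (hvol e) (g e) (hdiv e) (hsmall e)
        (hli e) (a e) (hag e) (hsize e) i js ((hS1 i).2 hi) hjs'
      rw [hxy] at h1
      exact h1
  have hbn : (0 : ℝ) < (b : ℝ) ^ nn e js := pow_pos hb0 _
  have h1 : |L.det| * (b : ℝ) ^ nn e js ≤
      (A₀ * K * (b : ℝ) ^ (-(ε * (q e : ℝ)))) * (b : ℝ) ^ nn e js := by
    calc |L.det| * (b : ℝ) ^ nn e js ≤ |L.det| * |((∑ j, a e₀ j * g e l j : ℤ) : ℝ)| :=
          mul_le_mul_of_nonneg_left hlow (abs_nonneg _)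
      _ ≤ _ := hupp
      _ = _ := by ring
  exact absurd (le_of_mul_le_mul_right h1 hbn) (not_le_of_gt hsm)

theorem caseA {θ : ℝ} {D : ℕ} {C₀ : ℝ} (hA : AlgData θ D C₀) (b N : ℕ) (hb : 2 ≤ b)
    (hN : 2 ≤ N) (L : Matrix (Fin N) (Fin N) ℝ) (hL : L.det ≠ 0) (M : ℝ) (hM : 1 ≤ M)
    (hLr : ∀ i j, Rep θ D M (L i j)) (δ η' : ℝ) (hδ : 0 < δ) (hη' : 0 < η')
    (hηδ : (D + 1) * η' < N * δ)
    (q : ℕ → ℕ) (hq : Tendsto q atTop atTop) (n : ℕ → Fin N → ℕ) (B : ℕ → Fin N → ℝ)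
    (hB : ∀ e i, 0 < B e i) (hvol : ∀ e, ∏ i, B e i ≤ (b : ℝ) ^ (∑ j, n e j))
    (g : ℕ → Fin (N - 1) → Fin N → ℤ) (hdiv : ∀ e l j, ((b : ℤ) ^ n e j) ∣ g e l j)
    (hsmall : ∀ e l i, |∑ j, L i j * (g e l j : ℝ)| ≤ B e i * (b : ℝ) ^ (-(δ * (q e : ℝ))))
    (hli : ∀ e, LinearIndependent ℚ (fun l => cv (g e l)))
    (a : ℕ → Fin N → ℤ) (hag : ∀ e l, ∑ j, a e j * g e l j = 0) (ha0 : ∀ e, a e ≠ 0)
    (hsize : ∀ e j, |(a e j : ℝ)| ≤ (b : ℝ) ^ (η' * (q e : ℝ))) :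
    ∃ e₀, ∃ᶠ e in atTop, ∀ l, ∑ j, a e₀ j * g e l j = 0 := by
  obtain ⟨n', rfl⟩ : ∃ n', N = n' + 1 := ⟨N - 1, by omega⟩
  exact caseA_aux hA b n' hb L hL M hM hLr δ η' hδ hη' hηδ q hq n B hB hvol g hdiv hsmall hli a hag
    ha0 hsize

end Pool.Agent.Sub
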