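import Pool.Agent.Lib_MP_10b5ac_nt.Defs

set_option autoImplicit false
set_option linter.unusedVariables false

/-! F1: compound matrices (Cauchy-Binet). -/

namespace Pool.Agent.Sub

open Finset

theorem mem_enum_range {p n : ℕ} (S : Fin p ↪o Fin n) (i : Fin n) :
    i ∈ (Set.powersetCard.ofFinEmbEquiv S).val ↔ i ∈ Set.range S := by
  rw [← Set.powersetCard.mem_ofFinEmbEquiv_iff_mem_range, Set.powersetCard.mem_coe_iff]

theorem minor_one {R : Type*} [CommRing R] (n p : ℕ) (S T : Fin p ↪o Fin n) :
    minor p (1 : Matrix (Fin n) (Fin n) R) S T = if S = T then 1 else 0 := by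
  classical
  unfold minor
  split_ifs with h
  · subst h
    rw [Matrix.submatrix_one _ S.injective, Matrix.det_one]
  · have hex : ∃ c, S c ∉ Set.range T := by
      by_contra hcon
      push Not at hcon
      apply h
      apply Set.powersetCard.ofFinEmbEquiv.injective
      apply Subtype.ext
      apply Finset.eq_of_subset_of_card_le
      · intro i hi
        rw [mem_enum_range] at hi ⊢
        obtain ⟨c, rfl⟩ := hi
        exact hcon c
      · have h1 := (Set.powersetCard.ofFinEmbEquiv S).prop
        have h2 := (Set.powersetCard.ofFinEmbEquiv T).prop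
        rw [Set.powersetCard.mem_iff] at h1 h2
        rw [h1, h2]
    obtain ⟨c, hc⟩ := hex
    apply Matrix.det_eq_zero_of_row_eq_zero c
    intro j
    simp only [Matrix.submatrix_apply]
    apply Matrix.one_apply_ne
    intro hcj
    exact hc ⟨j, hcj.symm⟩

theorem cmp_one {R : Type*} [CommRing R] (n p : ℕ) : cmp p (1 : Matrix (Fin n) (Fin n) R) = 1 := by
  ext J I
  simp only [cmp, minor_one, Matrix.one_apply, EmbeddingLike.apply_eq_iff_eq]

/-- Cauchy-Binet -/
theorem minor_mul {R : Type*} [CommRing R] (n p : ℕ) (A B : Matrix (Fin n) (Fin n) R)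
    (S T : Fin p ↪o Fin n) :
    minor p (A * B) S T = ∑ K : Fin p ↪o Fin n, minor p A S K * minor p B K T := by
  classical
  -- the alternating map v ↦ det (v * B restricted to T)
  let g : (Fin n → R) [⋀^Fin p]→ₗ[R] R :=
    (Matrix.detRowAlternating (n := Fin p) (R := R)).compLinearMap
      ((LinearMap.funLeft R R T).comp (Matrix.vecMulLinear B))
  have hg : ∀ v : Fin p → Fin n → R, g v = Matrix.det (fun a c => (Matrix.vecMul (v a) B) (T c)) := by
    intro v
    rfl
  let G := exteriorPower.alternatingMapLinearEquiv g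
  have hG : ∀ v, G (exteriorPower.ιMulti R p v) = g v :=
    fun v => exteriorPower.alternatingMapLinearEquiv_apply_ιMulti g v
  let b := Pi.basisFun R (Fin n)
  have h1 : minor p (A * B) S T = g (fun a => A (S a)) := by
    rw [hg]
    rfl
  rw [h1, ← hG, ← (b.exteriorPower p).sum_repr (exteriorPower.ιMulti R p fun a => A (S a)), map_sum,
    ← Equiv.sum_comp (Set.powersetCard.ofFinEmbEquiv (I := Fin n) (n := p))]
  apply Finset.sum_congr rfl
  intro K _
  rw [map_smul, smul_eq_mul, exteriorPower.basis_repr_apply,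
    exteriorPower.ιMultiDual_apply_ιMulti, exteriorPower.basis_apply, exteriorPower.ιMulti_family,
    hG, hg, Equiv.symm_apply_apply]
  congr 1
  unfold minor
  congr 1
  ext a c
  simp [b, Matrix.vecMul, dotProduct, Pi.single_apply]

theorem cmp_mul {R : Type*} [CommRing R] (n p : ℕ) (A B : Matrix (Fin n) (Fin n) R) :
    cmp p (A * B) = cmp p A * cmp p B := by
  ext J I
  rw [Matrix.mul_apply]
  simp only [cmp, minor_mul]
  rw [← Equiv.sum_comp (enum p n)]

theorem cmp_diagonal {R : Type*} [CommRing R] (n p : ℕ) (d : Fin n → R) :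
    cmp p (Matrix.diagonal d) = Matrix.diagonal (fun J => ∏ a, d (enum p n J a)) := by
  ext J I
  have h : minor p (Matrix.diagonal d) (enum p n J) (enum p n I) =
      (∏ a, d (enum p n J a)) * minor p (1 : Matrix (Fin n) (Fin n) R) (enum p n J) (enum p n I) := by
    unfold minor
    rw [← Matrix.det_mul_column]
    congr 1
    ext a c
    simp only [Matrix.submatrix_apply, Matrix.of_apply, Matrix.diagonal_apply, Matrix.one_apply]
    split_ifs <;> simp
  simp only [cmp]
  rw [h, minor_one, Matrix.diagonal_apply]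
  simp only [EmbeddingLike.apply_eq_iff_eq]
  split_ifs <;> simp

theorem cmp_map {R S : Type*} [CommRing R] [CommRing S] (f : R →+* S) (n p : ℕ)
    (A : Matrix (Fin n) (Fin n) R) : cmp p (A.map f) = (cmp p A).map f := by
  ext J I
  simp only [cmp, minor, Matrix.map_apply]
  rw [RingHom.map_det]
  rfl

theorem cmp_bound (n p : ℕ) (A : Matrix (Fin n) (Fin n) ℝ) (u v : Fin n → ℝ)
    (hu : ∀ i, 0 ≤ u i) (hv : ∀ i, 0 ≤ v i) (hA : ∀ i j, |A i j| ≤ u i * v j)
    (J I : Fin (n.choose p)) :
    |cmp p A J I| ≤ p.factorial * ((∏ a, u (enum p n J a)) * ∏ a, v (enum p n I a)) := by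
  simp only [cmp, minor]
  rw [Matrix.det_apply]
  refine (Finset.abs_sum_le_sum_abs _ _).trans ?_
  have : ∀ σ ∈ (Finset.univ : Finset (Equiv.Perm (Fin p))),
      |Equiv.Perm.sign σ • ∏ i, (A.submatrix (enum p n J) (enum p n I)) (σ i) i| ≤
        (∏ a, u (enum p n J a)) * ∏ a, v (enum p n I a) := by
    intro σ _
    have h1 : |Equiv.Perm.sign σ • ∏ i, (A.submatrix (enum p n J) (enum p n I)) (σ i) i| =
        ∏ i, |(A.submatrix (enum p n J) (enum p n I)) (σ i) i| := by
      rcases Int.units_eq_one_or (Equiv.Perm.sign σ) with h | h <;> rw [h] <;>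
        simp [Finset.abs_prod]
    rw [h1]
    have h2 : (∏ a, u (enum p n J a)) = ∏ a, u (enum p n J (σ a)) :=
      (Equiv.prod_comp σ (fun a => u (enum p n J a))).symm
    rw [h2, ← Finset.prod_mul_distrib]
    apply Finset.prod_le_prod
    · intro i _
      exact abs_nonneg _
    · intro i _
      exact hA _ _
  refine (Finset.sum_le_sum this).trans ?_
  rw [Finset.sum_const, Finset.card_univ, Fintype.card_perm, Fintype.card_fin, nsmul_eq_mul]

theorem prod_enum (n p : ℕ) (hp : 1 ≤ p) (d : Fin n → ℝ) :
    ∏ J : Fin (n.choose p), ∏ a, d (enum p n J a) = (∏ i, d i) ^ ((n - 1).choose (p - 1)) := by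
  classical
  have h1 : ∏ J : Fin (n.choose p), ∏ a, d (enum p n J a) =
      ∏ S : Fin p ↪o Fin n, ∏ a, d (S a) :=
    Equiv.prod_comp (enum p n) (fun S => ∏ a, d (S a))
  have h2 : ∀ S : Fin p ↪o Fin n, ∏ a, d (S a) =
      ∏ i, if i ∈ (Set.powersetCard.ofFinEmbEquiv S).val then d i else 1 := by
    intro S
    rw [Finset.prod_ite_mem, Finset.univ_inter]
    have : (Set.powersetCard.ofFinEmbEquiv S).val = Finset.univ.map S.toEmbedding := by
      ext i
      rw [mem_enum_range]
      simp
    rw [this, Finset.prod_map]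
    rfl
  have h3 : ∏ S : Fin p ↪o Fin n, ∏ a, d (S a) =
      ∏ s ∈ (Finset.univ : Finset (Fin n)).powersetCard p, ∏ i, if i ∈ s then d i else 1 := by
    rw [Finset.prod_congr rfl (fun S _ => h2 S)]
    refine Finset.prod_bij (fun S _ => (Set.powersetCard.ofFinEmbEquiv S).val) ?_ ?_ ?_ ?_
    · intro S _
      rw [Finset.mem_powersetCard]
      refine ⟨Finset.subset_univ _, ?_⟩
      have := (Set.powersetCard.ofFinEmbEquiv S).prop
      rwa [Set.powersetCard.mem_iff] at this
    · intro S _ T _ h
      exact Set.powersetCard.ofFinEmbEquiv.injective (Subtype.ext h)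
    · intro s hs
      rw [Finset.mem_powersetCard] at hs
      obtain ⟨S, hS⟩ := Set.powersetCard.ofFinEmbEquiv.surjective
        (⟨s, Set.powersetCard.mem_iff.mpr hs.2⟩ : Set.powersetCard (Fin n) p)
      exact ⟨S, Finset.mem_univ _, by rw [hS]⟩
    · intro S _
      rfl
  rw [h1, h3, Finset.prod_comm, ← Finset.prod_pow]
  apply Finset.prod_congr rfl
  intro i _
  rw [Finset.prod_ite, Finset.prod_const_one, mul_one, Finset.prod_const]
  congr 1
  have h4 : ((Finset.univ : Finset (Fin n)).powersetCard p).filter (fun s => i ∈ s) =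
      (((Finset.univ : Finset (Fin n)).erase i).powersetCard (p - 1)).image (insert i) := by
    ext s
    simp only [Finset.mem_filter, Finset.mem_powersetCard, Finset.mem_image]
    constructor
    · rintro ⟨⟨_, hc⟩, hi⟩
      refine ⟨s.erase i, ⟨Finset.erase_subset_erase _ (Finset.subset_univ _), ?_⟩,
        Finset.insert_erase hi⟩
      rw [Finset.card_erase_of_mem hi, hc]
    · rintro ⟨t, ⟨ht, hc⟩, rfl⟩
      have hi : i ∉ t := fun h => by simpa using ht h
      refine ⟨⟨Finset.subset_univ _, ?_⟩, Finset.mem_insert_self _ _⟩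
      rw [Finset.card_insert_of_notMem hi, hc]
      omega
  rw [h4, Finset.card_image_of_injOn, Finset.card_powersetCard, Finset.card_erase_of_mem
    (Finset.mem_univ _), Finset.card_univ, Fintype.card_fin]
  intro s hs t ht hst
  have hs' : i ∉ s := fun h => by
    have := (Finset.mem_powersetCard.mp hs).1 h
    simp at this
  have ht' : i ∉ t := fun h => by
    have := (Finset.mem_powersetCard.mp ht).1 h
    simp at this
  have hst' : insert i s = insert i t := hst
  rw [← Finset.erase_insert hs', ← Finset.erase_insert ht', hst']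

end Pool.Agent.Sub
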