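import Pool.Agent.Lib_MP_10b5ac_nt.Mink2

set_option autoImplicit false

/-! Piece E3: Davenport's lemma (uses the successive minima of piece E2). -/

namespace Pool.Agent.Sub

open Finset

/-- The ordering lemma: functionals on a flag of subspaces. -/
theorem dav_order {V : Type*} [AddCommGroup V] [Module ℝ V] [FiniteDimensional ℝ V]
    (S : ℕ → Submodule ℝ V) (hS : Monotone S) (hd : ∀ k, Module.finrank ℝ (S k) ≤ k) (N : ℕ) :
    ∀ (m : Fin N → V →ₗ[ℝ] ℝ), ∃ π : Equiv.Perm (Fin N), ∀ k ≤ N, ∀ y ∈ S k,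
      ∑ j, |m j y| ≤ 2 ^ (N - k) * ∑ j, if (π j : ℕ) < k then |m j y| else 0 := by
  induction N with
  | zero =>
    intro m
    exact ⟨Equiv.refl _, fun k _ y _ => by simp⟩
  | succ N ih =>
    intro m
    -- a nontrivial relation on `S N`
    obtain ⟨g, hg, hne⟩ : ∃ g : Fin (N + 1) → ℝ, (∀ y ∈ S N, ∑ i, g i * m i y = 0) ∧
        ∃ i, g i ≠ 0 := by
      have hnl : ¬ LinearIndependent ℝ (fun i => (m i).comp (S N).subtype) := by
        intro hl
        have h1 := hl.fintype_card_le_finrank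
        rw [Fintype.card_fin] at h1
        have h2 : Module.finrank ℝ (↥(S N) →ₗ[ℝ] ℝ) = Module.finrank ℝ (S N) := by
          have := Subspace.dual_finrank_eq (K := ℝ) (V := S N)
          exact this
        have h3 := hd N
        omega
      obtain ⟨g, hg, hne⟩ := Fintype.not_linearIndependent_iff.1 hnl
      refine ⟨g, fun y hy => ?_, hne⟩
      have := congrArg (fun f => f (⟨y, hy⟩ : S N)) hg
      simpa using this
    obtain ⟨js, -, hjs⟩ := Finset.exists_max_image Finset.univ (fun i => |g i|) ⟨0, mem_univ _⟩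
    have hpos : 0 < |g js| := by
      obtain ⟨i, hi⟩ := hne
      exact lt_of_lt_of_le (abs_pos.2 hi) (hjs i (mem_univ _))
    have hkey : ∀ y ∈ S N, |m js y| ≤ ∑ i, |m (js.succAbove i) y| := by
      intro y hy
      have h1 := hg y hy
      rw [Fin.sum_univ_succAbove _ js] at h1
      have h2 : |g js| * |m js y| ≤ |g js| * ∑ i, |m (js.succAbove i) y| := by
        rw [← abs_mul, eq_neg_of_add_eq_zero_left h1, abs_neg, Finset.mul_sum]
        refine (Finset.abs_sum_le_sum_abs _ _).trans (Finset.sum_le_sum fun i _ => ?_)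
        rw [abs_mul]
        exact mul_le_mul_of_nonneg_right (hjs _ (mem_univ _)) (abs_nonneg _)
      exact le_of_mul_le_mul_left h2 hpos
    obtain ⟨π', hπ'⟩ := ih (fun i => m (js.succAbove i))
    refine ⟨(finSuccEquiv' js).trans ((Equiv.optionCongr π').trans
      (finSuccEquiv' (Fin.last N)).symm), ?_⟩
    intro k hk y hy
    set π : Equiv.Perm (Fin (N + 1)) := (finSuccEquiv' js).trans ((Equiv.optionCongr π').trans
      (finSuccEquiv' (Fin.last N)).symm) with hπ
    have hp1 : π js = Fin.last N := by simp [hπ]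
    have hp2 : ∀ i, π (js.succAbove i) = (π' i).castSucc := by
      intro i
      simp [hπ]
    rcases Nat.lt_or_ge N k with hlt | hge
    · have hkN : k = N + 1 := by omega
      subst hkN
      have : ∀ j, (π j : ℕ) < N + 1 := fun j => (π j).2
      simp [this]
    · have hyN : y ∈ S N := hS hge hy
      have h1 := hπ' k hge y hy
      rw [Fin.sum_univ_succAbove _ js, Fin.sum_univ_succAbove _ js, hp1]
      have h2 : ¬ ((Fin.last N : Fin (N + 1)) : ℕ) < k := by simpa using hge
      rw [if_neg h2, zero_add]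
      have h3 : ∀ i, (if (π (js.succAbove i) : ℕ) < k then |m (js.succAbove i) y| else 0)
          = if (π' i : ℕ) < k then |m (js.succAbove i) y| else 0 := by
        intro i
        rw [hp2]
        rfl
      simp_rw [h3]
      have h4 : (2 : ℝ) ^ (N + 1 - k) = 2 * 2 ^ (N - k) := by
        rw [Nat.succ_sub hge, pow_succ]
        ring
      rw [h4]
      have h5 := hkey y hyN
      linarith

theorem dav_cv_mem_real {N k : ℕ} (v : Fin k → Fin N → ℤ) (i : ℕ) (x : Fin N → ℚ)
    (hx : x ∈ spn v i) : (fun j => ((x j : ℚ) : ℝ)) ∈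
      Submodule.span ℝ ((fun l => rv (v l)) '' {l : Fin k | (l : ℕ) < i}) := by
  unfold spn at hx
  induction hx using Submodule.span_induction with
  | mem x h =>
    obtain ⟨l, hl, rfl⟩ := h
    have : (fun j => ((cv (v l) j : ℚ) : ℝ)) = rv (v l) := by
      funext j
      simp [cv, rv]
    rw [this]
    exact Submodule.subset_span ⟨l, hl, rfl⟩
  | zero =>
    have : (fun j : Fin N => (((0 : Fin N → ℚ) j : ℚ) : ℝ)) = 0 := by
      funext j
      simp
    rw [this]
    exact Submodule.zero_mem _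
  | add x y _ _ h1 h2 =>
    have : (fun j : Fin N => (((x + y) j : ℚ) : ℝ))
        = (fun j => ((x j : ℚ) : ℝ)) + (fun j => ((y j : ℚ) : ℝ)) := by
      funext j
      simp
    rw [this]
    exact Submodule.add_mem _ h1 h2
  | smul a x _ h1 =>
    have : (fun j : Fin N => (((a • x) j : ℚ) : ℝ))
        = (a : ℝ) • (fun j => ((x j : ℚ) : ℝ)) := by
      funext j
      simp
    rw [this]
    exact Submodule.smul_mem _ _ h1

theorem dav_spn_mono {N k : ℕ} (v : Fin k → Fin N → ℤ) : Monotone (spn v) := by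
  intro i j hij
  unfold spn
  exact Submodule.span_mono (Set.image_mono fun l hl => lt_of_lt_of_le hl hij)

theorem dav_finrank_spn_le {N k : ℕ} (v : Fin k → Fin N → ℤ) (i : ℕ) :
    Module.finrank ℚ (spn v i) ≤ i := by
  classical
  unfold spn
  have h1 := finrank_span_finset_le_card (R := ℚ)
    (((univ : Finset (Fin k)).filter fun l : Fin k => (l : ℕ) < i).image (fun l : Fin k => cv (v l)))
  have h2 : ((((univ : Finset (Fin k)).filter fun l : Fin k => (l : ℕ) < i).image
      (fun l => cv (v l)) : Finset (Fin N → ℚ)) : Set (Fin N → ℚ))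
      = (fun l => cv (v l)) '' {l : Fin k | (l : ℕ) < i} := by
    ext x
    simp
  rw [Set.finrank, h2] at h1
  refine h1.trans (Finset.card_image_le.trans ?_)
  have h3 : (((univ : Finset (Fin k)).filter fun l : Fin k => (l : ℕ) < i).image
      (fun l : Fin k => (l : ℕ))) ⊆ Finset.range i := by
    intro x
    simp only [mem_image, mem_filter, mem_univ, true_and, Finset.mem_range]
    rintro ⟨l, hl, rfl⟩
    exact hl
  have h4 := Finset.card_le_card h3
  rw [Finset.card_image_of_injective _ Fin.val_injective, Finset.card_range] at h4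
  exact h4

theorem dav_finrank_real_le {N k : ℕ} (v : Fin k → Fin N → ℤ) (i : ℕ) :
    Module.finrank ℝ (Submodule.span ℝ ((fun l => rv (v l)) '' {l : Fin k | (l : ℕ) < i})) ≤ i := by
  classical
  have h1 := finrank_span_finset_le_card (R := ℝ)
    (((univ : Finset (Fin k)).filter fun l : Fin k => (l : ℕ) < i).image (fun l : Fin k => rv (v l)))
  have h2 : ((((univ : Finset (Fin k)).filter fun l : Fin k => (l : ℕ) < i).image
      (fun l => rv (v l)) : Finset (Fin N → ℝ)) : Set (Fin N → ℝ))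
      = (fun l => rv (v l)) '' {l : Fin k | (l : ℕ) < i} := by
    ext x
    simp
  rw [Set.finrank, h2] at h1
  refine h1.trans (Finset.card_image_le.trans ?_)
  have h3 : (((univ : Finset (Fin k)).filter fun l : Fin k => (l : ℕ) < i).image
      (fun l : Fin k => (l : ℕ))) ⊆ Finset.range i := by
    intro x
    simp only [mem_image, mem_filter, mem_univ, true_and, Finset.mem_range]
    rintro ⟨l, hl, rfl⟩
    exact hl
  have h4 := Finset.card_le_card h3
  rw [Finset.card_image_of_injective _ Fin.val_injective, Finset.card_range] at h4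
  exact h4

theorem dav_nrm_nonneg {N : ℕ} (M : Matrix (Fin N) (Fin N) ℝ) (y : Fin N → ℤ) : 0 ≤ nrm M y :=
  norm_nonneg _

theorem dav_spn_top {N : ℕ} (v : Fin N → Fin N → ℤ) (hv : LinearIndependent ℚ (fun l => cv (v l)))
    (x : Fin N → ℚ) : x ∈ spn v N := by
  have h1 : Submodule.span ℚ (Set.range (fun l => cv (v l))) = ⊤ := by
    apply hv.span_eq_top_of_card_eq_finrank'
    simp
  have h2 : spn v N = Submodule.span ℚ (Set.range (fun l => cv (v l))) := by
    unfold spn
    congr 1
    ext y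
    simp
  rw [h2, h1]
  trivial

theorem davenport (N : ℕ) (hN : 1 ≤ N) (c : ℝ) (hc : 0 < c) : ∃ C : ℝ, 1 ≤ C ∧
    ∀ (M : Matrix (Fin N) (Fin N) ℝ), M.det ≠ 0 →
    ∀ (v : Fin N → Fin N → ℤ), LinearIndependent ℚ (fun l => cv (v l)) →
    ∀ ν : Fin N → ℝ, (∀ i, 0 < ν i) → Monotone ν →
      (∀ (i : Fin N) (y : Fin N → ℤ), cv y ∉ spn v i → c * ν i ≤ nrm M y) →
      c * |M.det| ≤ ∏ i, ν i →
    ∀ ρ : Fin N → ℝ, (∀ i, 0 < ρ i) → Antitone ρ → Monotone (fun i => ρ i * ν i) →
      ∃ (π : Equiv.Perm (Fin N)) (g : Fin N → Fin N → ℤ),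
        LinearIndependent ℚ (fun l => cv (g l)) ∧
        (∀ i, nrm (Matrix.diagonal (fun j => ρ (π j)) * M) (g i) ≤ C * (ρ i * ν i)) ∧
        (∀ (i : Fin N) (y : Fin N → ℤ), cv y ∉ spn v i →
          ρ i * ν i ≤ C * nrm (Matrix.diagonal (fun j => ρ (π j)) * M) y) := by
  obtain ⟨C0, hC0, hmink⟩ := mink2 N hN
  set C1 : ℝ := max 1 (2 ^ N * N / c) with hC1
  have hC1one : 1 ≤ C1 := le_max_left _ _
  have hC1pos : 0 < C1 := lt_of_lt_of_le one_pos hC1one
  have hC2 : 2 ^ N * N / c ≤ C1 := le_max_right _ _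
  refine ⟨C1 + C0 / c * C1 ^ (N - 1), ?_, ?_⟩
  · have : 0 ≤ C0 / c * C1 ^ (N - 1) := by positivity
    linarith
  intro M hM v hv ν hν hνm hlow hdet ρ hρ hρa hρν
  -- the real flag
  set S : ℕ → Submodule ℝ (Fin N → ℝ) := fun i =>
    Submodule.span ℝ ((fun l => rv (v l)) '' {l : Fin N | (l : ℕ) < i}) with hSdef
  have hSm : Monotone S := by
    intro i j hij
    exact Submodule.span_mono (Set.image_mono fun l hl => lt_of_lt_of_le hl hij)
  obtain ⟨π, hπ⟩ := dav_order S hSm (fun k => dav_finrank_real_le v k) N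
    (fun j => (LinearMap.proj j).comp M.mulVecLin)
  set M' : Matrix (Fin N) (Fin N) ℝ := Matrix.diagonal (fun j => ρ (π j)) * M with hM'
  have hM'v : ∀ (x : Fin N → ℝ) (j : Fin N), M'.mulVec x j = ρ (π j) * M.mulVec x j := by
    intro x j
    rw [hM', ← Matrix.mulVec_mulVec, Matrix.mulVec_diagonal]
  -- lower bounds
  have hlower : ∀ (i : Fin N) (y : Fin N → ℤ), cv y ∉ spn v i → ρ i * ν i ≤ C1 * nrm M' y := by
    classical
    intro i y hy
    have hex : ∃ k, cv y ∈ spn v k := ⟨N, dav_spn_top v hv _⟩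
    have hk := Nat.find_spec hex
    set k := Nat.find hex with hkdef
    have hkN : k ≤ N := Nat.find_min' hex (dav_spn_top v hv _)
    have hik : (i : ℕ) < k := by
      by_contra hcon
      exact hy (dav_spn_mono v (not_lt.1 hcon) hk)
    obtain ⟨k', hk'⟩ : ∃ k', k = k' + 1 := ⟨k - 1, by omega⟩
    have hk'N : k' < N := by omega
    have hnot : cv y ∉ spn v k' := Nat.find_min hex (by omega)
    have hl := hlow ⟨k', hk'N⟩ y hnot
    have hyS : rv y ∈ S k := by
      have := dav_cv_mem_real v k (cv y) hk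
      have h2 : (fun j => ((cv y j : ℚ) : ℝ)) = rv y := by
        funext j
        simp [cv, rv]
      rw [h2] at this
      exact this
    have hord := hπ k hkN (rv y) hyS
    simp only [LinearMap.comp_apply, Matrix.mulVecLin_apply, LinearMap.proj_apply] at hord
    have hn1 : nrm M y ≤ ∑ j, |M.mulVec (rv y) j| := by
      unfold nrm
      rw [pi_norm_le_iff_of_nonneg (Finset.sum_nonneg fun j _ => abs_nonneg _)]
      intro j
      exact Finset.single_le_sum (f := fun j => |M.mulVec (rv y) j|)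
        (fun j _ => abs_nonneg _) (mem_univ j)
    have hρk := hρ ⟨k', hk'N⟩
    have hn2 : (∑ j, if (π j : ℕ) < k then |M.mulVec (rv y) j| else 0)
        ≤ N * (nrm M' y / ρ ⟨k', hk'N⟩) := by
      have : ∀ j ∈ (univ : Finset (Fin N)),
          (if (π j : ℕ) < k then |M.mulVec (rv y) j| else 0) ≤ nrm M' y / ρ ⟨k', hk'N⟩ := by
        intro j _
        split_ifs with hj
        · rw [le_div_iff₀ hρk]
          have h1 : ρ ⟨k', hk'N⟩ ≤ ρ (π j) := hρa (by
            rw [Fin.le_def]
            simp only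
            omega)
          have h2 : |M'.mulVec (rv y) j| ≤ nrm M' y := norm_le_pi_norm (M'.mulVec (rv y)) j
          rw [hM'v, abs_mul, abs_of_pos (hρ _)] at h2
          calc |M.mulVec (rv y) j| * ρ ⟨k', hk'N⟩ ≤ |M.mulVec (rv y) j| * ρ (π j) :=
                mul_le_mul_of_nonneg_left h1 (abs_nonneg _)
            _ = ρ (π j) * |M.mulVec (rv y) j| := mul_comm _ _
            _ ≤ _ := h2
        · exact div_nonneg (dav_nrm_nonneg _ _) hρk.le
      have h3 := Finset.sum_le_card_nsmul _ _ _ this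
      simpa [nsmul_eq_mul] using h3
    have hpow : (2 : ℝ) ^ (N - k) ≤ 2 ^ N := pow_le_pow_right₀ one_le_two (Nat.sub_le _ _)
    have hsum0 : 0 ≤ (∑ j, if (π j : ℕ) < k then |M.mulVec (rv y) j| else 0) :=
      Finset.sum_nonneg fun j _ => by
        split_ifs
        · exact abs_nonneg _
        · exact le_rfl
    have h4 : c * ν ⟨k', hk'N⟩ ≤ 2 ^ N * (N * (nrm M' y / ρ ⟨k', hk'N⟩)) := by
      refine hl.trans (hn1.trans (hord.trans ?_))
      exact mul_le_mul hpow hn2 hsum0 (by positivity)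
    have h5 : ρ ⟨k', hk'N⟩ * ν ⟨k', hk'N⟩ ≤ (2 ^ N * N / c) * nrm M' y := by
      have h6 : 2 ^ N * (N * (nrm M' y / ρ ⟨k', hk'N⟩))
          = (2 ^ N * N * nrm M' y) / ρ ⟨k', hk'N⟩ := by ring
      rw [h6, le_div_iff₀ hρk] at h4
      rw [div_mul_eq_mul_div, le_div_iff₀ hc]
      linarith
    have h6 : ρ i * ν i ≤ ρ ⟨k', hk'N⟩ * ν ⟨k', hk'N⟩ := hρν (by
      rw [Fin.le_def]
      simp only
      omega)
    exact h6.trans (h5.trans (mul_le_mul_of_nonneg_right hC2 (dav_nrm_nonneg _ _)))
  -- upper bounds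
  have hdetM' : M'.det = (∏ j, ρ j) * M.det := by
    rw [hM', Matrix.det_mul, Matrix.det_diagonal, Equiv.prod_comp π ρ]
  have hρprod : 0 < ∏ j, ρ j := Finset.prod_pos fun j _ => hρ j
  obtain ⟨g, hgl, hgm, -, hg2, -⟩ := hmink M' (by
    rw [hdetM']
    exact mul_ne_zero hρprod.ne' hM)
  have hglow : ∀ i, ρ i * ν i ≤ C1 * nrm M' (g i) := by
    intro i
    obtain ⟨l, hli, hl⟩ : ∃ l : Fin N, l ≤ i ∧ cv (g l) ∉ spn v i := by
      by_contra hcon
      push Not at hcon
      have h1 : LinearIndependent ℚ (fun l : Fin ((i : ℕ) + 1) =>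
          (⟨cv (g (Fin.castLE i.2 l)), hcon _ (by
            rw [Fin.le_def]
            simp only [Fin.val_castLE]
            omega)⟩ : spn v i)) := by
        have h2 : LinearIndependent ℚ (fun l : Fin ((i : ℕ) + 1) => cv (g (Fin.castLE i.2 l))) :=
          hgl.comp _ (Fin.castLE_injective _)
        exact LinearIndependent.of_comp (spn v i).subtype h2
      have h3 := h1.fintype_card_le_finrank
      rw [Fintype.card_fin] at h3
      have h4 := dav_finrank_spn_le v i
      omega
    exact (hlower i (g l) hl).trans (mul_le_mul_of_nonneg_left (hgm hli) hC1pos.le)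
  refine ⟨π, g, hgl, ?_, ?_⟩
  · intro i
    have hprod : ∏ l, nrm M' (g l) = nrm M' (g i) * ∏ l ∈ univ.erase i, nrm M' (g l) :=
      (Finset.mul_prod_erase _ _ (mem_univ i)).symm
    have hprod2 : (∏ l ∈ univ.erase i, (ρ l * ν l)) ≤
        C1 ^ (N - 1) * ∏ l ∈ univ.erase i, nrm M' (g l) := by
      have h1 : (∏ l ∈ univ.erase i, (ρ l * ν l)) ≤
          ∏ l ∈ univ.erase i, (C1 * nrm M' (g l)) :=
        Finset.prod_le_prod (fun l _ => (mul_pos (hρ l) (hν l)).le) (fun l _ => hglow l)
      have h2 : (∏ l ∈ univ.erase i, (C1 * nrm M' (g l)))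
          = C1 ^ (N - 1) * ∏ l ∈ univ.erase i, nrm M' (g l) := by
        rw [Finset.prod_mul_distrib, Finset.prod_const, Finset.card_erase_of_mem (mem_univ i),
          Finset.card_univ, Fintype.card_fin]
      rw [h2] at h1
      exact h1
    have hpp : 0 < ∏ l ∈ univ.erase i, (ρ l * ν l) :=
      Finset.prod_pos fun l _ => mul_pos (hρ l) (hν l)
    have hall : (∏ l, (ρ l * ν l)) = (ρ i * ν i) * ∏ l ∈ univ.erase i, (ρ l * ν l) :=
      (Finset.mul_prod_erase _ _ (mem_univ i)).symm
    have hdet2 : |M'.det| ≤ (∏ l, (ρ l * ν l)) / c := by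
      rw [hdetM', abs_mul, abs_of_pos hρprod, le_div_iff₀ hc, Finset.prod_mul_distrib]
      calc (∏ j, ρ j) * |M.det| * c = (∏ j, ρ j) * (c * |M.det|) := by ring
        _ ≤ _ := mul_le_mul_of_nonneg_left hdet hρprod.le
    have h7 : nrm M' (g i) * ∏ l ∈ univ.erase i, (ρ l * ν l) ≤
        (C0 / c * C1 ^ (N - 1) * (ρ i * ν i)) * ∏ l ∈ univ.erase i, (ρ l * ν l) := by
      calc nrm M' (g i) * ∏ l ∈ univ.erase i, (ρ l * ν l)
          ≤ nrm M' (g i) * (C1 ^ (N - 1) * ∏ l ∈ univ.erase i, nrm M' (g l)) :=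
            mul_le_mul_of_nonneg_left hprod2 (dav_nrm_nonneg _ _)
        _ = C1 ^ (N - 1) * ∏ l, nrm M' (g l) := by
            rw [hprod]
            ring
        _ ≤ C1 ^ (N - 1) * (C0 * |M'.det|) :=
            mul_le_mul_of_nonneg_left hg2 (by positivity)
        _ ≤ C1 ^ (N - 1) * (C0 * ((∏ l, (ρ l * ν l)) / c)) := by
            apply mul_le_mul_of_nonneg_left _ (by positivity)
            exact mul_le_mul_of_nonneg_left hdet2 (by positivity)
        _ = _ := by
            rw [hall]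
            ring
    have h8 := le_of_mul_le_mul_right h7 hpp
    have h9 : 0 ≤ C1 * (ρ i * ν i) := mul_nonneg hC1pos.le (mul_pos (hρ i) (hν i)).le
    rw [add_mul]
    linarith
  · intro i y hy
    have h1 := hlower i y hy
    have h2 : 0 ≤ C0 / c * C1 ^ (N - 1) * nrm M' y :=
      mul_nonneg (by positivity) (dav_nrm_nonneg _ _)
    rw [add_mul]
    linarith

end Pool.Agent.Sub
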