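import Mathlib

set_option autoImplicit false

/-! Shared definitions for the formalisation of the (parametric, `b`-adic) Subspace theorem
(problem MP_10b5ac_nt). -/

namespace Pool.Agent.Sub

open MvPolynomial Finset

/-- `α = ∑_{l<D} a_l θ^l` with integers `a_l`, `|a_l| ≤ M`. -/
def Rep (θ : ℝ) (D : ℕ) (M : ℝ) (α : ℝ) : Prop :=
  ∃ a : Fin D → ℤ, (∀ l, |(a l : ℝ)| ≤ M) ∧ α = ∑ l, (a l : ℝ) * θ ^ (l : ℕ)

/-- Data of a real algebraic integer `θ` of degree `D`: multiplication and Liouville constants. -/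
structure AlgData (θ : ℝ) (D : ℕ) (C : ℝ) : Prop where
  hD : 1 ≤ D
  hC : 1 ≤ C
  hθ : Rep θ D C θ
  mul : ∀ M M' α β : ℝ, 0 ≤ M → 0 ≤ M' → Rep θ D M α → Rep θ D M' β →
    Rep θ D (C * M * M') (α * β)
  liou : ∀ M α : ℝ, 1 ≤ M → Rep θ D M α → α ≠ 0 → 1 ≤ C * M ^ D * |α|

/-- Hasse-Taylor expansion at `x`: the polynomial `Z ↦ P (x + Z)`. -/
noncomputable def tay {σ R : Type*} [CommSemiring R] (x : σ → R) (P : MvPolynomial σ R) :
    MvPolynomial σ R :=
  bind₁ (fun s => C (x s) + X s) P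

/-- Hasse derivative of multi-index `i`. -/
noncomputable def hd {σ R : Type*} [CommSemiring R] (i : σ →₀ ℕ) (P : MvPolynomial σ R) :
    MvPolynomial σ R :=
  ∑ I ∈ P.support, monomial (I - i) (P.coeff I * ((i.prod fun s j => (I s).choose j : ℕ) : R))

/-- sum of the absolute values of the coefficients -/
noncomputable def l1 {σ : Type*} (P : MvPolynomial σ ℝ) : ℝ := ∑ I ∈ P.support, |P.coeff I|

/-- an integer polynomial seen as a real polynomial -/
noncomputable abbrev toR {σ : Type*} (P : MvPolynomial σ ℤ) : MvPolynomial σ ℝ :=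
  map (Int.castRingHom ℝ) P

/-- an integer polynomial seen as a rational polynomial -/
noncomputable abbrev toQ {σ : Type*} (P : MvPolynomial σ ℤ) : MvPolynomial σ ℚ :=
  map (Int.castRingHom ℚ) P

/-- homogeneous of degree `r h` in the `h`-th block of variables -/
def BlockHom {m N : ℕ} {R : Type*} [CommSemiring R] (r : Fin m → ℕ)
    (P : MvPolynomial (Fin m × Fin N) R) : Prop :=
  ∀ I ∈ P.support, ∀ h, ∑ j, I (h, j) = r h

/-- weighted order of a multi-index -/
noncomputable def wt {m N : ℕ} (r : Fin m → ℕ) (I : Fin m × Fin N →₀ ℕ) : ℝ :=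
  ∑ h, (∑ j, (I (h, j) : ℝ)) / (r h : ℝ)

/-- all monomials have, for every `j`, average exponent of the `j`-th variables close to `1/N` -/
def GoodSupp {m N : ℕ} {R : Type*} [CommSemiring R] (r : Fin m → ℕ) (ε : ℝ)
    (P : MvPolynomial (Fin m × Fin N) R) : Prop :=
  ∀ I ∈ P.support, ∀ j, |∑ h, (I (h, j) : ℝ) / (r h : ℝ) - (m : ℝ) / N| ≤ ε * m

/-- linear substitution `X (h, j) ↦ ∑ i, A j i * X (h, i)` in every block -/
noncomputable def lsub {m N : ℕ} {R : Type*} [CommSemiring R] (A : Matrix (Fin N) (Fin N) R)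
    (P : MvPolynomial (Fin m × Fin N) R) : MvPolynomial (Fin m × Fin N) R :=
  bind₁ (fun s : Fin m × Fin N => ∑ i, C (A s.2 i) * X (s.1, i)) P

/-- integer vector as a rational vector -/
def cv {ι : Type*} (y : ι → ℤ) : ι → ℚ := fun j => (y j : ℚ)

/-- integer vector as a real vector -/
def rv {ι : Type*} (y : ι → ℤ) : ι → ℝ := fun j => (y j : ℝ)

/-- the norm `‖M y‖_∞` on integer vectors -/
noncomputable def nrm {N : ℕ} (M : Matrix (Fin N) (Fin N) ℝ) (y : Fin N → ℤ) : ℝ :=
  ‖M.mulVec (rv y)‖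

/-- rational span of the integer vectors `g l` with `l < i` -/
def spn {N k : ℕ} (g : Fin k → Fin N → ℤ) (i : ℕ) : Submodule ℚ (Fin N → ℚ) :=
  Submodule.span ℚ ((fun l => cv (g l)) '' {l : Fin k | (l : ℕ) < i})

/-- the minor of `A` with rows `S` and columns `T` (both listed increasingly) -/
noncomputable def minor {R : Type*} [CommRing R] {n : ℕ} (p : ℕ) (A : Matrix (Fin n) (Fin n) R)
    (S T : Fin p ↪o Fin n) : R := (A.submatrix S T).det

/-- a numbering of the increasing maps `Fin p → Fin n` -/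
noncomputable def enum (p n : ℕ) : Fin (n.choose p) ≃ (Fin p ↪o Fin n) :=
  Fintype.equivOfCardEq (by
    rw [Fintype.card_fin, ← Nat.card_eq_fintype_card, Nat.card_congr Set.powersetCard.ofFinEmbEquiv,
      Set.powersetCard.card, Nat.card_eq_fintype_card, Fintype.card_fin])

/-- the compound matrix -/
noncomputable def cmp {R : Type*} [CommRing R] {n : ℕ} (p : ℕ) (A : Matrix (Fin n) (Fin n) R) :
    Matrix (Fin (n.choose p)) (Fin (n.choose p)) R :=
  fun J I => minor p A (enum p n J) (enum p n I)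

/-- the concatenation constant -/
noncomputable def xi (b : ℕ) (a : ℕ → ℕ) : ℝ :=
  ∑' n : ℕ, (a n : ℝ) / (b : ℝ) ^ (∑ i ∈ Finset.range (n + 1), (Nat.digits b (a i)).length)

end Pool.Agent.Sub
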