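import Pool.Agent.Lib_MP_10b5ac_nt.RothLemma

set_option autoImplicit false

namespace Pool.Agent.Sub

open MvPolynomial Finset

section arith

theorem gcd_prod_dvd {ι : Type*} [DecidableEq ι] (n : ℕ) (hn : 0 < n) (s : Finset ι) (b : ι → ℕ) :
    n ∣ Nat.gcd n (s.gcd b) * ∏ j ∈ s, (n / Nat.gcd n (b j)) := by
  induction s using Finset.induction_on with
  | empty => simp
  | insert j s hj ih =>
    rw [Finset.prod_insert hj, Finset.gcd_insert]
    set D := s.gcd b
    set Q := ∏ j ∈ s, (n / Nat.gcd n (b j))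
    set g := Nat.gcd n (b j) with hg
    have hgn : g ∣ n := Nat.gcd_dvd_left _ _
    obtain ⟨c, hc⟩ := hgn
    have hgpos : 0 < g := Nat.gcd_pos_of_pos_left _ hn
    have hdiv : n / g = c := by rw [hc]; exact Nat.mul_div_cancel_left c hgpos
    rw [hdiv]
    have e1 : Nat.gcd n (GCDMonoid.gcd (b j) D) = Nat.gcd (Nat.gcd n D) g := by
      show Nat.gcd n (Nat.gcd (b j) D) = Nat.gcd (Nat.gcd n D) g
      apply Nat.dvd_antisymm
      · apply Nat.dvd_gcd
        · apply Nat.dvd_gcd (Nat.gcd_dvd_left _ _)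
          exact (Nat.gcd_dvd_right _ _).trans (Nat.gcd_dvd_right _ _)
        · apply Nat.dvd_gcd (Nat.gcd_dvd_left _ _)
          exact (Nat.gcd_dvd_right _ _).trans (Nat.gcd_dvd_left _ _)
      · apply Nat.dvd_gcd
        · exact (Nat.gcd_dvd_left _ _).trans (Nat.gcd_dvd_left _ _)
        · apply Nat.dvd_gcd
          · exact (Nat.gcd_dvd_right _ _).trans (Nat.gcd_dvd_right _ _)
          · exact (Nat.gcd_dvd_left _ _).trans (Nat.gcd_dvd_right _ _)
    rw [e1]
    have e2 : Nat.gcd (Nat.gcd n D) g * (c * Q) = Nat.gcd (Nat.gcd n D * Q * c) (n * Q) := by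
      rw [show Nat.gcd n D * Q * c = Nat.gcd n D * (c * Q) by ring,
        show n * Q = g * (c * Q) by rw [← mul_assoc, ← hc], Nat.gcd_mul_right]
    rw [e2]
    exact Nat.dvd_gcd (ih.mul_right _) (Dvd.intro _ rfl)

theorem exists_kap' (N : ℕ) (hN : 2 ≤ N) (a : Fin N → ℤ) (hgcd : univ.gcd a = 1) (κ : Fin N)
    (hκ : a κ ≠ 0) : ∃ κ', κ' ≠ κ ∧
      (a κ).natAbs ≤ ((a κ).natAbs / Nat.gcd (a κ).natAbs (a κ').natAbs) ^ (N - 1) := by
  classical
  by_contra hcon
  push Not at hcon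
  set n := (a κ).natAbs with hn
  have hn0 : 0 < n := Int.natAbs_pos.mpr hκ
  set b : Fin N → ℕ := fun j => (a j).natAbs with hb
  have h1 := gcd_prod_dvd n hn0 (univ.erase κ) b
  have hD : Nat.gcd n ((univ.erase κ).gcd b) = 1 := by
    set D := Nat.gcd n ((univ.erase κ).gcd b) with hD
    have h2 : ∀ j, (D : ℤ) ∣ a j := by
      intro j
      rw [Int.natCast_dvd]
      by_cases hj : j = κ
      · rw [hj]; exact Nat.gcd_dvd_left _ _
      · exact (Nat.gcd_dvd_right _ _).trans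
          (Finset.gcd_dvd (f := b) (Finset.mem_erase.mpr ⟨hj, Finset.mem_univ j⟩))
    have h3 : (D : ℤ) ∣ univ.gcd a := Finset.dvd_gcd fun j _ => h2 j
    rw [hgcd] at h3
    have := Int.natCast_dvd.mp h3
    simpa using this
  rw [hD, one_mul] at h1
  have hcard : (univ.erase κ : Finset (Fin N)).card = N - 1 := by
    rw [Finset.card_erase_of_mem (Finset.mem_univ _), Finset.card_univ, Fintype.card_fin]
  have hne : (univ.erase κ : Finset (Fin N)).Nonempty := by
    rw [← Finset.card_pos, hcard]; omega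
  have hpos : ∀ j, 0 < n / Nat.gcd n (b j) := fun j =>
    Nat.div_pos (Nat.le_of_dvd hn0 (Nat.gcd_dvd_left _ _)) (Nat.gcd_pos_of_pos_left _ hn0)
  have h4 : ∏ j ∈ univ.erase κ, (n / Nat.gcd n (b j)) ^ (N - 1) < ∏ _j ∈ univ.erase κ, n := by
    apply Finset.prod_lt_prod_of_nonempty
    · intro j _; exact pow_pos (hpos j) _
    · intro j hj; exact hcon j (Finset.ne_of_mem_erase hj)
    · exact hne
  rw [Finset.prod_const, hcard, Finset.prod_pow] at h4
  have h5 : ∏ j ∈ univ.erase κ, (n / Nat.gcd n (b j)) < n := lt_of_pow_lt_pow_left₀ _ (Nat.zero_le _) h4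
  have h6 : n ≤ ∏ j ∈ univ.erase κ, (n / Nat.gcd n (b j)) :=
    Nat.le_of_dvd (Finset.prod_pos fun j _ => hpos j) h1
  omega

end arith

section tayfin

variable {σ : Type*} [Fintype σ]

theorem coeff_tay_fin {R : Type*} [CommSemiring R] (x : σ → R) (P : MvPolynomial σ R)
    (k : σ →₀ ℕ) (S : Finset (σ →₀ ℕ)) (hS : P.support ⊆ S) :
    coeff k (tay x P) = ∑ I ∈ S, P.coeff I *
      (((∏ s, (I s).choose (k s) : ℕ) : R) * ∏ s, x s ^ (I s - k s)) := by
  rw [coeff_tay]
  rw [← Finset.sum_subset hS]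
  · apply Finset.sum_congr rfl
    intro I _
    rw [Finsupp.prod_fintype _ _ (fun s => by simp), Finsupp.prod_fintype _ _ (fun s => by simp)]
    rfl
  · intro I _ hI
    rw [notMem_support_iff.mp hI, zero_mul]

end tayfin

section main

variable {m N : ℕ}

/-- exponents of the `κ`-variables -/
noncomputable def eI (κ : Fin m → Fin N) (I : Fin m × Fin N →₀ ℕ) : Fin m →₀ ℕ :=
  Finsupp.equivFunOnFinite.symm (fun h => I (h, κ h))

theorem eI_apply (κ : Fin m → Fin N) (I : Fin m × Fin N →₀ ℕ) (h : Fin m) :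
    eI κ I h = I (h, κ h) := rfl

/-- exponents of the other variables -/
noncomputable def oI (κ κ' : Fin m → Fin N) (I : Fin m × Fin N →₀ ℕ) : Fin m × Fin N →₀ ℕ :=
  Finsupp.equivFunOnFinite.symm (fun s => if s.2 = κ s.1 ∨ s.2 = κ' s.1 then 0 else I s)

theorem oI_apply (κ κ' : Fin m → Fin N) (I : Fin m × Fin N →₀ ℕ) (s : Fin m × Fin N) :
    oI κ κ' I s = if s.2 = κ s.1 ∨ s.2 = κ' s.1 then 0 else I s := rfl

theorem eo_inj (κ κ' : Fin m → Fin N) (r : Fin m → ℕ)
    {I J : Fin m × Fin N →₀ ℕ} (hI : ∀ h, ∑ j, I (h, j) = r h) (hJ : ∀ h, ∑ j, J (h, j) = r h)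
    (he : eI κ I = eI κ J) (ho : oI κ κ' I = oI κ κ' J) : I = J := by
  classical
  have hk : ∀ h, I (h, κ h) = J (h, κ h) := fun h => by
    have := DFunLike.congr_fun he h
    simpa [eI_apply] using this
  have hoth : ∀ h j, j ≠ κ' h → I (h, j) = J (h, j) := by
    intro h j hj
    by_cases hj' : j = κ h
    · rw [hj']; exact hk h
    · have := DFunLike.congr_fun ho (h, j)
      simpa [oI_apply, hj, hj'] using this
  ext ⟨h, j⟩
  by_cases hj : j = κ' h
  · have h1 := hI h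
    rw [← hJ h, ← Finset.add_sum_erase _ _ (Finset.mem_univ (κ' h)),
      ← Finset.add_sum_erase _ _ (Finset.mem_univ (κ' h))] at h1
    have h2 : ∑ j ∈ univ.erase (κ' h), I (h, j) = ∑ j ∈ univ.erase (κ' h), J (h, j) :=
      Finset.sum_congr rfl fun j hj => hoth h j (Finset.ne_of_mem_erase hj)
    rw [hj]
    omega
  · exact hoth h j hj

/-- the coefficient of the monomial with exponents `K` in the other variables, with the
`κ'`-variables set to one -/
noncomputable def fK (κ κ' : Fin m → Fin N) (P : MvPolynomial (Fin m × Fin N) ℤ)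
    (K : Fin m × Fin N →₀ ℕ) : MvPolynomial (Fin m) ℤ :=
  ∑ I ∈ P.support.filter (fun I => oI κ κ' I = K), monomial (eI κ I) (P.coeff I)

theorem fK_ne_zero (κ κ' : Fin m → Fin N) (r : Fin m → ℕ) (P : MvPolynomial (Fin m × Fin N) ℤ)
    (hP : BlockHom r P) (I0 : Fin m × Fin N →₀ ℕ) (hI0 : I0 ∈ P.support) :
    fK κ κ' P (oI κ κ' I0) ≠ 0 := by
  classical
  intro h0
  have h1 : coeff (eI κ I0) (fK κ κ' P (oI κ κ' I0)) = P.coeff I0 := by
    unfold fK
    rw [coeff_sum, Finset.sum_eq_single I0]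
    · rw [coeff_monomial, if_pos rfl]
    · intro I hI hne
      rw [coeff_monomial, if_neg]
      intro he
      rw [Finset.mem_filter] at hI
      exact hne (eo_inj κ κ' r (hP I hI.1) (hP I0 hI0) he hI.2)
    · intro h
      exfalso
      apply h
      rw [Finset.mem_filter]
      exact ⟨hI0, rfl⟩
  rw [h0, coeff_zero] at h1
  exact (mem_support_iff.mp hI0) h1.symm

theorem degreeOf_fK (κ κ' : Fin m → Fin N) (r : Fin m → ℕ) (P : MvPolynomial (Fin m × Fin N) ℤ)
    (hP : BlockHom r P) (K : Fin m × Fin N →₀ ℕ) (h : Fin m) :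
    (fK κ κ' P K).degreeOf h ≤ r h := by
  classical
  unfold fK
  refine (degreeOf_sum_le _ _ _).trans ?_
  apply Finset.sup_le
  intro I hI
  rw [degreeOf_le_iff]
  intro e he
  have he' := support_monomial_subset he
  rw [Finset.mem_singleton] at he'
  rw [he', eI_apply, ← hP I (Finset.mem_filter.mp hI).1 h]
  exact Finset.single_le_sum (f := fun j => I (h, j)) (fun _ _ => Nat.zero_le _) (Finset.mem_univ _)

theorem l1_monomial_le {σ : Type*} (e : σ →₀ ℕ) (c : ℝ) : l1 (monomial e c) ≤ |c| := by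
  classical
  unfold l1
  refine (Finset.sum_le_sum_of_subset_of_nonneg support_monomial_subset
    (fun _ _ _ => abs_nonneg _)).trans ?_
  simp

theorem l1_fK (κ κ' : Fin m → Fin N) (P : MvPolynomial (Fin m × Fin N) ℤ)
    (K : Fin m × Fin N →₀ ℕ) : l1 (toR (fK κ κ' P K)) ≤ l1 (toR P) := by
  classical
  have e1 : toR (fK κ κ' P K) = ∑ I ∈ P.support.filter (fun I => oI κ κ' I = K),
      monomial (eI κ I) ((P.coeff I : ℤ) : ℝ) := by
    unfold fK toR
    rw [map_sum]
    apply Finset.sum_congr rfl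
    intro I _
    rw [map_monomial, eq_intCast]
  rw [e1]
  refine (l1_sum _ _).trans ?_
  refine (Finset.sum_le_sum fun I _ => l1_monomial_le _ _).trans ?_
  refine le_trans (le_of_eq ?_) (sum_abs_coeff_le_l1 (toR P)
    (P.support.filter (fun I => oI κ κ' I = K)) (fun I => I) (fun _ _ _ _ h => h))
  apply Finset.sum_congr rfl
  intro I _
  rw [coeff_map, eq_intCast]

theorem tay_monomial_coeff {R : Type*} [CommSemiring R] {σ : Type*} [Fintype σ] (x : σ → R)
    (e : σ →₀ ℕ) (c : R) (k : σ →₀ ℕ) :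
    coeff k (tay x (monomial e c)) =
      c * (((∏ s, (e s).choose (k s) : ℕ) : R) * ∏ s, x s ^ (e s - k s)) := by
  classical
  rw [coeff_tay_fin x _ k {e} support_monomial_subset, Finset.sum_singleton, coeff_monomial,
    if_pos rfl]

theorem tay_sum_gr {R ι : Type*} [CommSemiring R] {σ : Type*} (x : σ → R) (s : Finset ι)
    (P : ι → MvPolynomial σ R) : tay x (∑ i ∈ s, P i) = ∑ i ∈ s, tay x (P i) := by
  unfold tay
  rw [map_sum]

/-- product over all variables of something supported at the `κ`-variables -/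
theorem prod_kap {M : Type*} [CommMonoid M] (κ : Fin m → Fin N) (y : Fin m × Fin N → M) :
    ∏ s, (if s.2 = κ s.1 then y s else 1) = ∏ h, y (h, κ h) := by
  classical
  rw [Fintype.prod_prod_type]
  apply Finset.prod_congr rfl
  intro h _
  simp

/-- the generic point of the hyperplanes, as polynomials in the other variables -/
noncomputable def genPt (κ κ' : Fin m → Fin N) (a : Fin m → Fin N → ℤ) (s : Fin m × Fin N) :
    MvPolynomial (Fin m × Fin N) ℚ :=
  if s.2 = κ s.1 then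
    C (-(a s.1 (κ' s.1) : ℚ) / a s.1 (κ s.1)) +
      ∑ j ∈ univ.filter (fun j => j ≠ κ s.1 ∧ j ≠ κ' s.1),
        C (-(a s.1 j : ℚ) / a s.1 (κ s.1)) * X (s.1, j)
  else if s.2 = κ' s.1 then 1 else X s

theorem genPt_mem (κ κ' : Fin m → Fin N) (hκ : ∀ h, κ' h ≠ κ h) (a : Fin m → Fin N → ℤ)
    (ha : ∀ h, a h (κ h) ≠ 0) (z : Fin m × Fin N → ℚ) (h : Fin m) :
    ∑ j, (a h j : ℚ) * eval z (genPt κ κ' a (h, j)) = 0 := by
  classical
  have ha' : (a h (κ h) : ℚ) ≠ 0 := by exact_mod_cast ha h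
  rw [← Finset.add_sum_erase _ _ (Finset.mem_univ (κ h)),
    ← Finset.add_sum_erase _ _ (Finset.mem_erase.mpr ⟨hκ h, Finset.mem_univ (κ' h)⟩)]
  have e1 : eval z (genPt κ κ' a (h, κ h)) = (-(a h (κ' h) : ℚ) / a h (κ h)) +
      ∑ j ∈ univ.filter (fun j => j ≠ κ h ∧ j ≠ κ' h), (-(a h j : ℚ) / a h (κ h)) * z (h, j) := by
    simp [genPt]
  have e2 : eval z (genPt κ κ' a (h, κ' h)) = 1 := by
    simp [genPt, hκ h]
  have e3 : ∑ j ∈ (univ.erase (κ h)).erase (κ' h), (a h j : ℚ) * eval z (genPt κ κ' a (h, j))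
      = ∑ j ∈ univ.filter (fun j => j ≠ κ h ∧ j ≠ κ' h), (a h j : ℚ) * z (h, j) := by
    have e4 : (univ.erase (κ h)).erase (κ' h) = univ.filter (fun j => j ≠ κ h ∧ j ≠ κ' h) := by
      ext j
      simp [and_comm]
    rw [e4]
    apply Finset.sum_congr rfl
    intro j hj
    rw [Finset.mem_filter] at hj
    simp [genPt, hj.2.1, hj.2.2]
  rw [e1, e2, e3, mul_add, Finset.mul_sum]
  have e5 : ∀ j, (a h (κ h) : ℚ) * ((-(a h j : ℚ) / a h (κ h)) * z (h, j))
      = - ((a h j : ℚ) * z (h, j)) := by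
    intro j; field_simp
  simp_rw [e5]
  rw [Finset.sum_neg_distrib]
  field_simp
  ring

/-- the key coefficient -/
theorem coeff_genPt (κ κ' : Fin m → Fin N) (hκ : ∀ h, κ' h ≠ κ h) (a : Fin m → Fin N → ℤ)
    (P : MvPolynomial (Fin m × Fin N) ℤ) (K : Fin m × Fin N →₀ ℕ)
    (hmin : ∀ I ∈ P.support, oI κ κ' I ≤ K → oI κ κ' I = K) (i : Fin m →₀ ℕ)
    (k : Fin m × Fin N →₀ ℕ) (hk : ∀ s : Fin m × Fin N, k s = if s.2 = κ s.1 then i s.1 else 0) :
    coeff K (coeff k (tay (genPt κ κ' a) (map C (toQ P))))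
      = coeff i (tay (fun h => -(a h (κ' h) : ℚ) / a h (κ h)) (toQ (fK κ κ' P K))) := by
  classical
  rw [coeff_tay_fin (genPt κ κ' a) _ k P.support
    ((support_map_subset _ _).trans (support_map_subset _ _)), coeff_sum]
  -- one term
  have hterm : ∀ I ∈ P.support, coeff K (coeff I (map C (toQ P)) *
      (((∏ s, (I s).choose (k s) : ℕ) : MvPolynomial (Fin m × Fin N) ℚ) *
        ∏ s, genPt κ κ' a s ^ (I s - k s))) =
      if oI κ κ' I = K then ((P.coeff I : ℤ) : ℚ) * (((∏ h, (eI κ I h).choose (i h) : ℕ) : ℚ) *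
        ∏ h, (-(a h (κ' h) : ℚ) / a h (κ h)) ^ (eI κ I h - i h)) else 0 := by
    intro I hI
    have e1 : ∏ s, genPt κ κ' a s ^ (I s - k s)
        = (∏ h, genPt κ κ' a (h, κ h) ^ (I (h, κ h) - i h)) * monomial (oI κ κ' I) 1 := by
      rw [← prod_kap κ (fun s => genPt κ κ' a s ^ (I s - i s.1)), monomial_eq, C_1, one_mul,
        Finsupp.prod_fintype _ _ (fun s => by simp), ← Finset.prod_mul_distrib]
      apply Finset.prod_congr rfl
      intro s _
      rw [hk s]
      by_cases h1 : s.2 = κ s.1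
      · simp [h1, oI_apply]
      · by_cases h2 : s.2 = κ' s.1
        · simp [h2, oI_apply, genPt, hκ]
        · simp [h1, h2, oI_apply, genPt]
    have e2 : (∏ s, (I s).choose (k s) : ℕ) = ∏ h, (eI κ I h).choose (i h) := by
      have : ∀ s, (I s).choose (k s) = if s.2 = κ s.1 then (I s).choose (i s.1) else 1 := by
        intro s
        rw [hk s]
        split_ifs <;> simp
      simp_rw [this]
      rw [prod_kap κ (fun s => (I s).choose (i s.1))]
      rfl
    rw [coeff_map, coeff_map, eq_intCast, coeff_C_mul, e1, e2]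
    rw [show ((∏ h, (eI κ I h).choose (i h) : ℕ) : MvPolynomial (Fin m × Fin N) ℚ)
      = C ((∏ h, (eI κ I h).choose (i h) : ℕ) : ℚ) by simp, coeff_C_mul, coeff_mul_monomial', mul_one]
    by_cases hle : oI κ κ' I ≤ K
    · have heq := hmin I hI hle
      rw [if_pos hle, if_pos heq, heq, tsub_self]
      congr 2
      rw [← constantCoeff_eq, map_prod]
      apply Finset.prod_congr rfl
      intro h _
      rw [map_pow, eI_apply]
      congr 1
      simp [genPt]
    · rw [if_neg hle, if_neg (fun h => hle h.le), mul_zero, mul_zero]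
  rw [Finset.sum_congr rfl hterm, ← Finset.sum_filter]
  have e3 : toQ (fK κ κ' P K) = ∑ I ∈ P.support.filter (fun I => oI κ κ' I = K),
      monomial (eI κ I) ((P.coeff I : ℤ) : ℚ) := by
    unfold fK toQ
    rw [map_sum]
    apply Finset.sum_congr rfl
    intro I _
    rw [map_monomial, eq_intCast]
  rw [e3, tay_sum_gr, coeff_sum]
  apply Finset.sum_congr rfl
  intro I _
  rw [tay_monomial_coeff]

end main

/-- **Roth lemma for hyperplanes.** -/
theorem gen_roth (m N : ℕ) (hN : 2 ≤ N) (ε : ℝ) (hε : 0 < ε) : ∃ ω : ℝ, 0 < ω ∧ ω ≤ 1 ∧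
    ∃ K : ℝ, 1 ≤ K ∧
    ∀ r : Fin m → ℕ, (∀ h, 1 ≤ r h) → (∀ h h', h < h' → (r h : ℝ) ≤ ω * r h') →
    ∀ P : MvPolynomial (Fin m × Fin N) ℤ, P ≠ 0 → BlockHom r P →
    ∀ a : Fin m → Fin N → ℤ, (∀ h, Finset.univ.gcd (a h) = 1) →
      (∀ h, ∃ j, K ^ (∑ h', r h') * l1 (toR P) ≤ (|(a h j : ℝ)|) ^ (ω * (r h : ℝ))) →
      ∃ k : Fin m × Fin N →₀ ℕ, wt r k < ε ∧ ∃ x : Fin m × Fin N → ℚ,
        (∀ h, ∑ j, (a h j : ℚ) * x (h, j) = 0) ∧ coeff k (tay x (toQ P)) ≠ 0 := by
  classical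
  obtain ⟨ω₀, hω0, hω1, K, hK, H⟩ := roth_lemma m ε hε
  have hN1 : (1 : ℝ) ≤ ((N - 1 : ℕ) : ℝ) := by
    have : 1 ≤ N - 1 := by omega
    exact_mod_cast this
  have hN0 : (0 : ℝ) < ((N - 1 : ℕ) : ℝ) := by linarith
  have hωle : ω₀ / ((N - 1 : ℕ) : ℝ) ≤ ω₀ := div_le_self hω0.le hN1
  refine ⟨ω₀ / ((N - 1 : ℕ) : ℝ), by positivity, hωle.trans hω1, K, hK, ?_⟩
  intro r hr hrω P hP hBH a hgcd hsize
  -- the pivot indices
  have hne : Nonempty (Fin N) := ⟨⟨0, by omega⟩⟩
  have hmax : ∀ h, ∃ κ : Fin N, ∀ j, |a h j| ≤ |a h κ| := fun h =>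
    Finite.exists_max (fun j => |a h j|)
  choose κ hκmax using hmax
  have hκ0 : ∀ h, a h (κ h) ≠ 0 := by
    intro h h0
    have h1 : ∀ j, a h j = 0 := fun j => by
      have := hκmax h j
      rw [h0, abs_zero] at this
      exact abs_eq_zero.mp (le_antisymm this (abs_nonneg _))
    have h2 : univ.gcd (a h) = 0 := Finset.gcd_eq_zero_iff.mpr fun j _ => h1 j
    rw [hgcd h] at h2
    exact one_ne_zero h2
  have hex := fun h => exists_kap' N hN (a h) (hgcd h) (κ h) (hκ0 h)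
  choose κ' hκ' hκ'le using hex
  -- the primitive pair
  set g : Fin m → ℕ := fun h => Nat.gcd (a h (κ h)).natAbs (a h (κ' h)).natAbs with hg
  have hgpos : ∀ h, 0 < g h := fun h =>
    Nat.gcd_pos_of_pos_left _ (Int.natAbs_pos.mpr (hκ0 h))
  have hgd : ∀ h, ((g h : ℕ) : ℤ) ∣ a h (κ h) := fun h => Int.natCast_dvd.mpr (Nat.gcd_dvd_left _ _)
  have hgd' : ∀ h, ((g h : ℕ) : ℤ) ∣ a h (κ' h) := fun h =>
    Int.natCast_dvd.mpr (Nat.gcd_dvd_right _ _)
  choose q hq using hgd
  choose p hp using hgd'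
  have hq0 : ∀ h, q h ≠ 0 := by
    intro h h0
    apply hκ0 h
    rw [hq h, h0, mul_zero]
  have hcop : ∀ h, IsCoprime (-p h) (q h) := by
    intro h
    rw [IsCoprime.neg_left_iff, Int.isCoprime_iff_gcd_eq_one]
    have h1 : Int.gcd (a h (κ' h)) (a h (κ h)) = g h := by
      rw [Int.gcd_comm]; rfl
    have h2 : Int.gcd (a h (κ' h)) (a h (κ h)) = g h * Int.gcd (p h) (q h) := by
      rw [hp h, hq h, Int.gcd_mul_left]
      simp
    rw [h1] at h2
    have h3 := hgpos h
    exact (Nat.mul_right_cancel_iff h3).mp (by rw [one_mul, mul_comm]; exact h2.symm)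
  have hratio : ∀ h, (-(a h (κ' h) : ℚ)) / a h (κ h) = ((-p h : ℤ) : ℚ) / q h := by
    intro h
    have h3 : ((g h : ℕ) : ℚ) ≠ 0 := by have := hgpos h; positivity
    have h4 : (q h : ℚ) ≠ 0 := by exact_mod_cast hq0 h
    have h1 : (a h (κ' h) : ℚ) = (g h : ℚ) * p h := by exact_mod_cast hp h
    have h2 : (a h (κ h) : ℚ) = (g h : ℚ) * q h := by exact_mod_cast hq h
    rw [h1, h2]
    push_cast
    field_simp
  have hqsize : ∀ h, (|(a h (κ h) : ℝ)|) ≤ ((max |-p h| |q h| : ℤ) : ℝ) ^ (N - 1) := by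
    intro h
    have h1 : (a h (κ h)).natAbs / g h = (q h).natAbs := by
      have h2 : (a h (κ h)).natAbs = g h * (q h).natAbs := by
        conv_lhs => rw [hq h]
        rw [Int.natAbs_mul, Int.natAbs_natCast]
      rw [h2]
      exact Nat.mul_div_cancel_left _ (hgpos h)
    have h3 := hκ'le h
    rw [show Nat.gcd (a h (κ h)).natAbs (a h (κ' h)).natAbs = g h from rfl, h1] at h3
    have h4 : (((a h (κ h)).natAbs : ℕ) : ℝ) ≤ (((q h).natAbs : ℕ) : ℝ) ^ (N - 1) := by
      exact_mod_cast h3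
    have h5 : (((a h (κ h)).natAbs : ℕ) : ℝ) = |(a h (κ h) : ℝ)| := by
      rw [Nat.cast_natAbs, Int.cast_abs]
    have h6 : (((q h).natAbs : ℕ) : ℝ) = ((|q h| : ℤ) : ℝ) := by
      rw [Nat.cast_natAbs]
    rw [h5, h6] at h4
    refine h4.trans ?_
    apply pow_le_pow_left₀ (by exact_mod_cast abs_nonneg (q h))
    exact_mod_cast le_max_right |-p h| |q h|
  have hM1 : ∀ h, (1 : ℝ) ≤ ((max |-p h| |q h| : ℤ) : ℝ) := by
    intro h
    have h1 := Int.one_le_abs (hq0 h)
    have h2 : (1 : ℤ) ≤ max |-p h| |q h| := h1.trans (le_max_right _ _)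
    exact_mod_cast h2
  -- the minimal exponent
  obtain ⟨I0, hI0, hI0min⟩ := Finset.exists_min_image P.support
    (fun I => (oI κ κ' I).degree) (support_nonempty.mpr hP)
  set Kx := oI κ κ' I0 with hKx
  have hmin : ∀ I ∈ P.support, oI κ κ' I ≤ Kx → oI κ κ' I = Kx := by
    intro I hI hle
    have h1 := hI0min I hI
    obtain ⟨d, hd⟩ := exists_add_of_le hle
    rw [hd, map_add] at h1
    have h2 : d.degree = 0 := by omega
    rw [Finsupp.degree_eq_zero_iff] at h2
    rw [hd, h2, add_zero]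
  have hfK := fK_ne_zero κ κ' r P hBH I0 hI0
  -- Roth lemma
  obtain ⟨i, hi, hi0⟩ := H r hr
    (fun h h' hh => (hrω h h' hh).trans (mul_le_mul_of_nonneg_right hωle (Nat.cast_nonneg _)))
    (fK κ κ' P Kx) hfK (fun h => degreeOf_fK κ κ' r P hBH Kx h) (fun h => -p h) q hcop hq0
    (fun h => by
      obtain ⟨j, hj⟩ := hsize h
      have h1 : K ^ (∑ h', r h') * l1 (toR (fK κ κ' P Kx)) ≤ K ^ (∑ h', r h') * l1 (toR P) :=
        mul_le_mul_of_nonneg_left (l1_fK κ κ' P Kx) (by positivity)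
      refine h1.trans (hj.trans ?_)
      have h2 : |(a h j : ℝ)| ≤ ((max |-p h| |q h| : ℤ) : ℝ) ^ (N - 1) := by
        refine le_trans ?_ (hqsize h)
        exact_mod_cast hκmax h j
      have h3 : (0 : ℝ) ≤ ω₀ / ((N - 1 : ℕ) : ℝ) * (r h : ℝ) := by positivity
      refine (Real.rpow_le_rpow (abs_nonneg _) h2 h3).trans (le_of_eq ?_)
      rw [← Real.rpow_natCast, ← Real.rpow_mul (by linarith [hM1 h])]
      congr 1
      field_simp)
  -- conclusion
  set k : Fin m × Fin N →₀ ℕ :=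
    Finsupp.equivFunOnFinite.symm (fun s => if s.2 = κ s.1 then i s.1 else 0) with hk
  have hkap : ∀ s : Fin m × Fin N, k s = if s.2 = κ s.1 then i s.1 else 0 := fun s => rfl
  refine ⟨k, ?_, ?_⟩
  · have : wt r k = ∑ h, (i h : ℝ) / (r h : ℝ) := by
      unfold wt
      apply Finset.sum_congr rfl
      intro h _
      congr 1
      simp only [hkap]
      push_cast
      simp
    rw [this]
    exact hi
  · by_contra hcon
    push Not at hcon
    have hG : coeff k (tay (genPt κ κ' a) (map C (toQ P))) = 0 := by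
      apply MvPolynomial.funext
      intro z
      rw [map_zero]
      have h1 := hcon (fun s => eval z (genPt κ κ' a s)) (genPt_mem κ κ' hκ' a hκ0 z)
      have h2 : tay (fun s => eval z (genPt κ κ' a s)) (map (eval z) (map C (toQ P)))
          = map (eval z) (tay (genPt κ κ' a) (map C (toQ P))) := tay_map _ _ _
      have h3 : map (eval z) (map C (toQ P)) = toQ P := by
        rw [MvPolynomial.map_map]
        have : (eval z).comp C = RingHom.id ℚ := by
          ext; simp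
        rw [this, MvPolynomial.map_id]
      rw [h3] at h2
      rw [h2, coeff_map] at h1
      exact h1
    have h4 := coeff_genPt κ κ' hκ' a P Kx hmin i k hkap
    rw [hG, coeff_zero] at h4
    apply hi0
    have h5 : (fun h => ((-p h : ℤ) : ℚ) / q h) = (fun h => -(a h (κ' h) : ℚ) / a h (κ h)) := by
      funext h; exact (hratio h).symm
    rw [h5]
    exact h4.symm

end Pool.Agent.Sub
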