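import Pool.Agent.Lib_MP_10b5ac_nt.Defs
import Pool.Agent.Lib_MP_10b5ac_nt.Poly

set_option autoImplicit false

/-! Piece C1: vanishing on a grid with multiplicities. -/

namespace Pool.Agent.Sub

open MvPolynomial Finset

/-- the one-variable statement for polynomials -/
theorem grid_one_poly (A τ R : ℕ) (h : R < (A + 1) * (τ + 1)) (f : Polynomial ℚ)
    (hf : f.natDegree ≤ R)
    (h0 : ∀ c ≤ A, ∀ k ≤ τ, (Polynomial.taylor (c : ℚ) f).coeff k = 0) : f = 0 := by
  by_contra hne
  have hdvd : ∀ c ∈ Finset.range (A + 1),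
      (Polynomial.X - Polynomial.C (c : ℚ)) ^ (τ + 1) ∣ f := by
    intro c hc
    have hc' : c ≤ A := Nat.lt_succ_iff.mp (Finset.mem_range.mp hc)
    have h1 : (Polynomial.X : Polynomial ℚ) ^ (τ + 1) ∣ Polynomial.taylor (c : ℚ) f := by
      rw [Polynomial.X_pow_dvd_iff]
      intro d hd
      exact h0 c hc' d (Nat.lt_succ_iff.mp hd)
    have h2 := map_dvd (Polynomial.taylorAlgHom (-(c : ℚ))) h1
    have h3 : Polynomial.taylorAlgHom (-(c : ℚ)) (Polynomial.taylor (c : ℚ) f) = f := by
      show Polynomial.taylor (-(c : ℚ)) (Polynomial.taylor (c : ℚ) f) = f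
      rw [Polynomial.taylor_taylor]
      simp
    rw [h3, map_pow] at h2
    have h4 : Polynomial.taylorAlgHom (-(c : ℚ)) (Polynomial.X : Polynomial ℚ)
        = Polynomial.X - Polynomial.C (c : ℚ) := by
      show Polynomial.taylor (-(c : ℚ)) Polynomial.X = _
      rw [Polynomial.taylor_X]
      simp [sub_eq_add_neg]
    rwa [h4] at h2
  have hprod : (∏ c ∈ Finset.range (A + 1),
      (Polynomial.X - Polynomial.C (c : ℚ)) ^ (τ + 1)) ∣ f := by
    apply Finset.prod_dvd_of_coprime _ hdvd
    intro c hc c' hc' hcc'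
    apply IsCoprime.pow
    apply Polynomial.isCoprime_X_sub_C_of_isUnit_sub
    rw [isUnit_iff_ne_zero, sub_ne_zero]
    exact fun e => hcc' (by exact_mod_cast e)
  have hdeg := Polynomial.natDegree_le_of_dvd hprod hne
  rw [Polynomial.natDegree_prod_of_monic] at hdeg
  · have : ∀ c ∈ Finset.range (A + 1),
        ((Polynomial.X - Polynomial.C (c : ℚ)) ^ (τ + 1)).natDegree = τ + 1 := by
      intro c _
      rw [Polynomial.natDegree_pow, Polynomial.natDegree_X_sub_C, mul_one]
    rw [Finset.sum_congr rfl this] at hdeg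
    simp only [Finset.sum_const, Finset.card_range, smul_eq_mul] at hdeg
    omega
  · intro c _
    exact (Polynomial.monic_X_sub_C _).pow _

/-- one-variable dual functionals -/
theorem grid_one (A τ R : ℕ) (h : R < (A + 1) * (τ + 1)) (J : ℕ) (hJ : J ≤ R) :
    ∃ L : ℕ × ℕ → ℚ, ∀ n ≤ R,
      ∑ p ∈ Finset.range (A + 1) ×ˢ Finset.range (τ + 1),
        L p * (((n.choose p.2 : ℕ) : ℚ) * (p.1 : ℚ) ^ (n - p.2)) = if n = J then 1 else 0 := by
  classical
  let Φ : (Fin (R + 1) → ℚ) →ₗ[ℚ] (Fin (A + 1) × Fin (τ + 1) → ℚ) :=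
    { toFun := fun v p => ∑ n : Fin (R + 1), v n *
        ((((n : ℕ).choose p.2 : ℕ) : ℚ) * ((p.1 : ℕ) : ℚ) ^ ((n : ℕ) - (p.2 : ℕ)))
      map_add' := by
        intro v w
        funext p
        simp [add_mul, Finset.sum_add_distrib]
      map_smul' := by
        intro a v
        funext p
        simp [Finset.mul_sum, mul_assoc] }
  have hinj : Function.Injective Φ := by
    rw [← LinearMap.ker_eq_bot, LinearMap.ker_eq_bot']
    intro v hv
    have hf : (∑ n : Fin (R + 1), Polynomial.C (v n) * Polynomial.X ^ (n : ℕ)) = 0 := by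
      apply grid_one_poly A τ R h
      · apply Polynomial.natDegree_sum_le_of_forall_le
        intro n _
        refine (Polynomial.natDegree_C_mul_X_pow_le _ _).trans ?_
        exact Nat.lt_succ_iff.mp n.2
      · intro c hc k hk
        have := congrFun hv (⟨c, Nat.lt_succ_iff.mpr hc⟩, ⟨k, Nat.lt_succ_iff.mpr hk⟩)
        rw [Polynomial.taylor_coeff]
        simp only [Φ, LinearMap.coe_mk, AddHom.coe_mk, Pi.zero_apply] at this
        rw [map_sum, Polynomial.eval_finsetSum]
        rw [← this]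
        apply Finset.sum_congr rfl
        intro n _
        rw [Polynomial.C_mul_X_pow_eq_monomial]
        rw [Polynomial.hasseDeriv_monomial, Polynomial.eval_monomial]
        ring
    funext n
    have := congrArg (fun q => Polynomial.coeff q (n : ℕ)) hf
    simp only [Polynomial.finsetSum_coeff, Polynomial.coeff_C_mul, Polynomial.coeff_X_pow,
      Polynomial.coeff_zero, mul_ite, mul_one, mul_zero] at this
    rw [Finset.sum_eq_single n] at this
    · simpa using this
    · intro b _ hb
      rw [if_neg]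
      exact fun e => hb (Fin.ext e.symm)
    · intro hn
      exact absurd (Finset.mem_univ n) hn
  obtain ⟨Ψ, hΨ⟩ := LinearMap.exists_leftInverse_of_injective Φ (LinearMap.ker_eq_bot.mpr hinj)
  refine ⟨fun p => if hp : p.1 < A + 1 ∧ p.2 < τ + 1 then
    Ψ (Pi.single ((⟨p.1, hp.1⟩, ⟨p.2, hp.2⟩) : Fin (A + 1) × Fin (τ + 1)) 1)
      ⟨J, Nat.lt_succ_iff.mpr hJ⟩ else 0, ?_⟩
  intro n hn
  have hn' : n < R + 1 := Nat.lt_succ_iff.mpr hn
  have h1 : Ψ (Φ (Pi.single ⟨n, hn'⟩ 1)) = Pi.single ⟨n, hn'⟩ 1 := by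
    have := LinearMap.congr_fun hΨ (Pi.single ⟨n, hn'⟩ 1)
    simpa using this
  have h2 : Φ (Pi.single ⟨n, hn'⟩ 1) = ∑ p : Fin (A + 1) × Fin (τ + 1),
      (((n.choose p.2 : ℕ) : ℚ) * ((p.1 : ℕ) : ℚ) ^ (n - (p.2 : ℕ))) • Pi.single p (1 : ℚ) := by
    funext p
    simp only [Φ, LinearMap.coe_mk, AddHom.coe_mk, Finset.sum_apply, Pi.smul_apply, smul_eq_mul]
    rw [Finset.sum_eq_single (⟨n, hn'⟩ : Fin (R + 1)), Finset.sum_eq_single p]
    · simp
    · intro b _ hb
      rw [Pi.single_eq_of_ne (Ne.symm hb), mul_zero]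
    · intro hp
      exact absurd (Finset.mem_univ p) hp
    · intro b _ hb
      rw [Pi.single_eq_of_ne hb, zero_mul]
    · intro hp
      exact absurd (Finset.mem_univ _) hp
  have h3 := congrFun h1 ⟨J, Nat.lt_succ_iff.mpr hJ⟩
  rw [h2, map_sum, Finset.sum_apply] at h3
  have h4 : (Pi.single (⟨n, hn'⟩ : Fin (R + 1)) (1 : ℚ) : Fin (R + 1) → ℚ)
      ⟨J, Nat.lt_succ_iff.mpr hJ⟩ = if n = J then 1 else 0 := by
    by_cases e : n = J
    · subst e
      simp
    · rw [if_neg e, Pi.single_eq_of_ne]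
      intro e'
      exact e (by simpa using (congrArg Fin.val e').symm)
  rw [← h4, ← h3]
  rw [Finset.sum_product, Finset.sum_range, Fintype.sum_prod_type]
  apply Finset.sum_congr rfl
  intro c _
  rw [Finset.sum_range]
  apply Finset.sum_congr rfl
  intro k _
  show (if hp : (c : ℕ) < A + 1 ∧ (k : ℕ) < τ + 1 then
    Ψ (Pi.single ((⟨(c : ℕ), hp.1⟩, ⟨(k : ℕ), hp.2⟩) : Fin (A + 1) × Fin (τ + 1)) 1)
      ⟨J, Nat.lt_succ_iff.mpr hJ⟩ else 0) * _ = _
  rw [dif_pos ⟨c.2, k.2⟩, map_smul, Pi.smul_apply, smul_eq_mul, mul_comm]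

/-- Taylor coefficients as a sum of products -/
theorem coeff_tay_prod {σ : Type*} [Fintype σ] (x : σ → ℚ) (G : MvPolynomial σ ℚ) (k : σ →₀ ℕ) :
    coeff k (tay x G) =
      ∑ I ∈ G.support, G.coeff I * ∏ s, (((I s).choose (k s) : ℕ) : ℚ) * x s ^ (I s - k s) := by
  classical
  rw [coeff_tay]
  apply Finset.sum_congr rfl
  intro I _
  congr 1
  rw [Finset.prod_mul_distrib]
  congr 1
  · rw [Finsupp.prod, Nat.cast_prod]
    apply Finset.prod_subset (Finset.subset_univ _)
    intro s _ hs
    rw [Finsupp.notMem_support_iff.mp hs, Nat.choose_zero_right, Nat.cast_one]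
  · rw [Finsupp.prod]
    rw [Finset.prod_subset (Finset.subset_univ _)]
    · apply Finset.prod_congr rfl
      intro s _
      rw [Finsupp.tsub_apply]
    · intro s _ hs
      rw [Finsupp.notMem_support_iff.mp hs, pow_zero]

theorem grid_vanish {σ : Type*} [Finite σ] (G : MvPolynomial σ ℚ) (A : ℕ) (τ R : σ → ℕ)
    (hR : ∀ s, G.degreeOf s ≤ R s) (hA : ∀ s, R s < (A + 1) * (τ s + 1))
    (h : ∀ c : σ → ℕ, (∀ s, c s ≤ A) → ∀ k : σ →₀ ℕ, (∀ s, k s ≤ τ s) →
      coeff k (tay (fun s => (c s : ℚ)) G) = 0) : G = 0 := by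
  classical
  have := Fintype.ofFinite σ
  ext J
  rw [coeff_zero]
  by_cases hJ : ∀ s, J s ≤ R s
  swap
  · by_contra hne
    apply hJ
    intro s
    exact (monomial_le_degreeOf s (mem_support_iff.mpr hne)).trans (hR s)
  choose L hL using fun s => grid_one A (τ s) (R s) (hA s) (J s) (hJ s)
  have key : ∑ p ∈ Fintype.piFinset (fun s => Finset.range (A + 1) ×ˢ Finset.range (τ s + 1)),
      (∏ s, L s (p s)) * coeff (Finsupp.equivFunOnFinite.symm (fun s => (p s).2))
        (tay (fun s => (((p s).1 : ℕ) : ℚ)) G) = coeff J G := by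
    calc _ = ∑ p ∈ Fintype.piFinset (fun s => Finset.range (A + 1) ×ˢ Finset.range (τ s + 1)),
          ∑ I ∈ G.support, G.coeff I * ∏ s, (L s (p s) *
            ((((I s).choose (p s).2 : ℕ) : ℚ) * (((p s).1 : ℕ) : ℚ) ^ (I s - (p s).2))) := by
          apply Finset.sum_congr rfl
          intro p _
          rw [coeff_tay_prod, Finset.mul_sum]
          apply Finset.sum_congr rfl
          intro I _
          simp only [Finsupp.equivFunOnFinite_symm_apply_apply]
          have e : ∏ s, (L s (p s) *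
              ((((I s).choose (p s).2 : ℕ) : ℚ) * (((p s).1 : ℕ) : ℚ) ^ (I s - (p s).2)))
              = (∏ s, L s (p s)) * ∏ s,
              ((((I s).choose (p s).2 : ℕ) : ℚ) * (((p s).1 : ℕ) : ℚ) ^ (I s - (p s).2)) :=
            Finset.prod_mul_distrib
          rw [e]
          ring
      _ = ∑ I ∈ G.support, G.coeff I * ∏ s, (if I s = J s then (1 : ℚ) else 0) := by
          rw [Finset.sum_comm]
          apply Finset.sum_congr rfl
          intro I hI
          rw [← Finset.mul_sum]
          congr 1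
          rw [← Finset.prod_univ_sum (fun s => Finset.range (A + 1) ×ˢ Finset.range (τ s + 1))
            (fun s q => L s q *
            ((((I s).choose q.2 : ℕ) : ℚ) * ((q.1 : ℕ) : ℚ) ^ (I s - q.2)))]
          apply Finset.prod_congr rfl
          intro s _
          exact hL s (I s) ((monomial_le_degreeOf s hI).trans (hR s))
      _ = coeff J G := by
          have h1 : ∀ I : σ →₀ ℕ, (∏ s, (if I s = J s then (1 : ℚ) else 0))
              = if I = J then 1 else 0 := by
            intro I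
            by_cases e : I = J
            · subst e
              simp
            · rw [if_neg e]
              obtain ⟨s, hs⟩ := not_forall.mp (fun hh => e (Finsupp.ext hh))
              exact Finset.prod_eq_zero (Finset.mem_univ s) (if_neg hs)
          simp_rw [h1, mul_ite, mul_one, mul_zero]
          rw [Finset.sum_ite_eq']
          split_ifs with hh
          · rfl
          · exact (notMem_support_iff.mp hh).symm
  rw [← key]
  apply Finset.sum_eq_zero
  intro p hp
  rw [Fintype.mem_piFinset] at hp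
  rw [h (fun s => (p s).1), mul_zero]
  · intro s
    exact Nat.lt_succ_iff.mp (Finset.mem_range.mp (Finset.mem_product.mp (hp s)).1)
  · intro s
    simp only [Finsupp.equivFunOnFinite_symm_apply_apply]
    exact Nat.lt_succ_iff.mp (Finset.mem_range.mp (Finset.mem_product.mp (hp s)).2)

end Pool.Agent.Sub
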