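import Pool.Agent.Lib_MP_10b5ac_nt.Compound

set_option autoImplicit false
set_option linter.unusedVariables false

/-! F2: the last row of the compound matrix determines the span of the last rows. -/

namespace Pool.Agent.Sub

open Finset

/-- A minor with distinct, not necessarily increasing columns is up to sign an increasing one. -/
theorem det_submatrix_eq_zero {n p : ℕ} (T : Matrix (Fin n) (Fin n) ℚ) (S : Fin p → Fin n)
    (f : Fin p → Fin n) (hf : Function.Injective f)
    (h : ∀ g : Fin p ↪o Fin n, Set.range g = Set.range f → (T.submatrix S g).det = 0) :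
    (T.submatrix S f).det = 0 := by
  let σ := Tuple.sort f
  have hm : StrictMono (f ∘ σ) :=
    (Tuple.monotone_sort f).strictMono_of_injective (hf.comp σ.injective)
  have h0 := h (OrderEmbedding.ofStrictMono _ hm) (by
    simp only [OrderEmbedding.coe_ofStrictMono]
    rw [Set.range_comp, σ.surjective.range_eq, Set.image_univ])
  simp only [OrderEmbedding.coe_ofStrictMono] at h0
  have h1 : (T.submatrix S (f ∘ σ)) = (T.submatrix S f).submatrix id σ := by
    ext i j
    rfl
  rw [h1, Matrix.det_permute'] at h0
  rcases Int.units_eq_one_or (Equiv.Perm.sign σ) with h2 | h2 <;> rw [h2] at h0 <;> simpa using h0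

theorem block_zero (n p : ℕ) (hpn : p ≤ n) (T : Matrix (Fin n) (Fin n) ℚ) (hT : T.det ≠ 0)
    (J₀ : Fin (n.choose p)) (hJ₀ : ∀ a : Fin p, ((enum p n J₀ a : Fin n) : ℕ) = n - p + a)
    (h : ∀ I, I ≠ J₀ → cmp p T J₀ I = 0) :
    ∀ i j : Fin n, n - p ≤ (i : ℕ) → (j : ℕ) < n - p → T i j = 0 := by
  classical
  intro i j hi hj
  -- the diagonal minor is non-zero
  have hD : cmp p T J₀ J₀ ≠ 0 := by
    intro h0
    have hrow : ∀ I, cmp p T J₀ I = 0 := by
      intro I
      by_cases hI : I = J₀
      · rw [hI, h0]
      · exact h I hI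
    have hinv : T * T⁻¹ = 1 := Matrix.mul_nonsing_inv T (isUnit_iff_ne_zero.mpr hT)
    have h1 : (cmp p T * cmp p T⁻¹) J₀ J₀ = 1 := by
      rw [← cmp_mul, hinv, cmp_one, Matrix.one_apply_eq]
    rw [Matrix.mul_apply, Finset.sum_eq_zero (fun I _ => by rw [hrow, zero_mul])] at h1
    exact zero_ne_one h1
  set S : Fin p ↪o Fin n := enum p n J₀ with hS
  -- the matrix of the last rows and columns
  let A : Matrix (Fin p) (Fin p) ℚ := T.submatrix S S
  have hA : A.det ≠ 0 := hD
  let b : Fin p → ℚ := fun a => T (S a) j
  have hjS : j ∉ Set.range S := by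
    rintro ⟨a, ha⟩
    have := hJ₀ a
    rw [ha] at this
    omega
  have hcr : Matrix.cramer A b = 0 := by
    ext c
    rw [Matrix.cramer_apply, Pi.zero_apply]
    have h1 : A.updateCol c b = T.submatrix S (Function.update S c j) := by
      ext a a'
      simp only [Matrix.updateCol_apply, Matrix.submatrix_apply, Function.update_apply, A, b]
      split_ifs <;> rfl
    rw [h1]
    apply det_submatrix_eq_zero
    · intro a a' haa
      by_cases h1 : a = c <;> by_cases h2 : a' = c
      · rw [h1, h2]
      · subst h1
        rw [Function.update_self, Function.update_of_ne h2] at haa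
        exact absurd ⟨a', haa.symm⟩ hjS
      · subst h2
        rw [Function.update_self, Function.update_of_ne h1] at haa
        exact absurd ⟨a, haa⟩ hjS
      · rw [Function.update_of_ne h1, Function.update_of_ne h2] at haa
        exact S.injective haa
    · intro g hg
      have h2 := h ((enum p n).symm g) (by
        intro hgJ
        have h3 : g = S := by rw [hS, ← hgJ, Equiv.apply_symm_apply]
        apply hjS
        rw [← h3, hg]
        exact ⟨c, Function.update_self _ _ _⟩)
      simpa [cmp, minor] using h2
  have h1 := Matrix.mulVec_cramer A b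
  rw [hcr, Matrix.mulVec_zero] at h1
  -- i is in the range of S
  have hip : (i : ℕ) - (n - p) < p := by
    have := i.isLt
    omega
  have hi2 : S ⟨(i : ℕ) - (n - p), hip⟩ = i := by
    apply Fin.ext
    rw [hJ₀]
    simp only
    omega
  have h2 := congrFun h1 ⟨(i : ℕ) - (n - p), hip⟩
  simp only [Pi.zero_apply, Pi.smul_apply, smul_eq_mul, b] at h2
  rw [hi2] at h2
  exact (mul_eq_zero.mp h2.symm).resolve_left hA

end Pool.Agent.Sub
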