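import Pool.Agent.Lib_MP_10b5ac_nt.Defs

set_option autoImplicit false

/-! Piece H2: the concatenation constant of a sequence of polynomial growth is irrational. -/

namespace Pool.Agent.Sub

open MvPolynomial Finset Filter

/-- number of base-`b` digits of the first `n` terms -/
noncomputable def sdig (b : ℕ) (a : ℕ → ℕ) (n : ℕ) : ℕ :=
  ∑ i ∈ Finset.range n, (Nat.digits b (a i)).length

/-- the tail `b ^ (sdig n) * xi - (integer)` -/
noncomputable def tau (b : ℕ) (a : ℕ → ℕ) (n : ℕ) : ℝ :=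
  (b : ℝ) ^ sdig b a n * ∑' m : ℕ, (a (m + n) : ℝ) / (b : ℝ) ^ sdig b a (m + n + 1)

theorem sdig_zero (b : ℕ) (a : ℕ → ℕ) : sdig b a 0 = 0 := by simp [sdig]

theorem sdig_succ (b : ℕ) (a : ℕ → ℕ) (n : ℕ) :
    sdig b a (n + 1) = sdig b a n + (Nat.digits b (a n)).length := by
  simp [sdig, Finset.sum_range_succ]

theorem xi_eq (b : ℕ) (a : ℕ → ℕ) :
    xi b a = ∑' n : ℕ, (a n : ℝ) / (b : ℝ) ^ sdig b a (n + 1) := rfl

section
variable {b : ℕ} (hb : 2 ≤ b) (a : ℕ → ℕ)
include hb

theorem sdig_term_le (n : ℕ) : (a n : ℝ) / (b : ℝ) ^ sdig b a (n + 1) ≤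
    1 / (b : ℝ) ^ sdig b a n - 1 / (b : ℝ) ^ sdig b a (n + 1) := by
  have hb0 : (0 : ℝ) < b := by positivity
  have hlt : a n < b ^ (Nat.digits b (a n)).length := Nat.lt_base_pow_length_digits hb
  have hle : (a n : ℝ) + 1 ≤ (b : ℝ) ^ (Nat.digits b (a n)).length := by
    exact_mod_cast hlt
  have h1 : (1 : ℝ) / (b : ℝ) ^ sdig b a n
      = (b : ℝ) ^ (Nat.digits b (a n)).length / (b : ℝ) ^ sdig b a (n + 1) := by
    rw [sdig_succ, pow_add]
    field_simp
  rw [h1, ← sub_div]
  refine div_le_div_of_nonneg_right ?_ (by positivity)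
  linarith

theorem sdig_sum_le (n m : ℕ) :
    ∑ i ∈ Finset.range m, (a (i + n) : ℝ) / (b : ℝ) ^ sdig b a (i + n + 1) ≤
      1 / (b : ℝ) ^ sdig b a n := by
  have hb0 : (0 : ℝ) < b := by positivity
  have key : ∑ i ∈ Finset.range m, (a (i + n) : ℝ) / (b : ℝ) ^ sdig b a (i + n + 1) ≤
      1 / (b : ℝ) ^ sdig b a n - 1 / (b : ℝ) ^ sdig b a (m + n) := by
    induction m with
    | zero => simp
    | succ m ih =>
      rw [Finset.sum_range_succ]
      have h := sdig_term_le hb a (m + n)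
      have e : m + 1 + n = m + n + 1 := by ring
      rw [e]
      linarith
  have : (0 : ℝ) ≤ 1 / (b : ℝ) ^ sdig b a (m + n) := by positivity
  linarith

theorem summable_xi : Summable (fun n : ℕ => (a n : ℝ) / (b : ℝ) ^ sdig b a (n + 1)) := by
  refine summable_of_sum_range_le (c := 1 / (b : ℝ) ^ sdig b a 0) (fun n => by positivity) ?_
  intro n
  simpa using sdig_sum_le hb a 0 n

theorem summable_tail (n : ℕ) :
    Summable (fun m : ℕ => (a (m + n) : ℝ) / (b : ℝ) ^ sdig b a (m + n + 1)) :=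
  (summable_nat_add_iff (f := fun n : ℕ => (a n : ℝ) / (b : ℝ) ^ sdig b a (n + 1)) n).2
    (summable_xi hb a)

theorem tau_le_one (n : ℕ) : tau b a n ≤ 1 := by
  have hb0 : (0 : ℝ) < b := by positivity
  have h : ∑' m : ℕ, (a (m + n) : ℝ) / (b : ℝ) ^ sdig b a (m + n + 1) ≤
      1 / (b : ℝ) ^ sdig b a n :=
    Real.tsum_le_of_sum_range_le (fun m => by positivity) (sdig_sum_le hb a n)
  unfold tau
  calc (b : ℝ) ^ sdig b a n * ∑' m : ℕ, (a (m + n) : ℝ) / (b : ℝ) ^ sdig b a (m + n + 1)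
      ≤ (b : ℝ) ^ sdig b a n * (1 / (b : ℝ) ^ sdig b a n) :=
        mul_le_mul_of_nonneg_left h (by positivity)
    _ = 1 := by field_simp

theorem tau_nonneg (n : ℕ) : 0 ≤ tau b a n := by
  unfold tau
  refine mul_nonneg (by positivity) (tsum_nonneg fun m => by positivity)

theorem tau_pos (hpos : ∀ n, 0 < a n) (n : ℕ) : 0 < tau b a n := by
  have hb0 : (0 : ℝ) < b := by positivity
  unfold tau
  refine mul_pos (by positivity) ?_
  have h0 : 0 < (a (0 + n) : ℝ) / (b : ℝ) ^ sdig b a (0 + n + 1) := by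
    have := hpos (0 + n)
    positivity
  exact (summable_tail hb a n).tsum_pos (fun m => by positivity) 0 h0

theorem tau_rec (n : ℕ) :
    (b : ℝ) ^ (Nat.digits b (a n)).length * tau b a n = a n + tau b a (n + 1) := by
  have hb0 : (0 : ℝ) < b := by positivity
  unfold tau
  rw [(summable_tail hb a n).tsum_eq_zero_add]
  have e : ∀ m : ℕ, m + 1 + n = m + (n + 1) := fun m => by ring
  simp only [e, zero_add]
  rw [mul_add, mul_add, sdig_succ, pow_add]
  congr 1
  · field_simp
  · ring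

/-- the tail is `b ^ (sdig n) * xi` minus an integer -/
theorem tau_eq (n : ℕ) : ∃ p : ℤ, (b : ℝ) ^ sdig b a n * xi b a = p + tau b a n := by
  induction n with
  | zero =>
    refine ⟨0, ?_⟩
    rw [xi_eq]
    simp [tau, sdig_zero]
  | succ n ih =>
    obtain ⟨p, hp⟩ := ih
    refine ⟨(b : ℤ) ^ (Nat.digits b (a n)).length * p + a n, ?_⟩
    have h := tau_rec hb a n
    rw [sdig_succ, pow_add]
    calc (b : ℝ) ^ sdig b a n * (b : ℝ) ^ (Nat.digits b (a n)).length * xi b a
        = (b : ℝ) ^ (Nat.digits b (a n)).length * ((b : ℝ) ^ sdig b a n * xi b a) := by ring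
      _ = (b : ℝ) ^ (Nat.digits b (a n)).length * p +
          (b : ℝ) ^ (Nat.digits b (a n)).length * tau b a n := by rw [hp]; ring
      _ = _ := by rw [h]; push_cast; ring

end

/-- digit lengths grow at most linearly in the exponent -/
theorem length_le_of_growth {b : ℕ} (hb : 2 ≤ b) (a : ℕ → ℕ) (C h : ℕ)
    (hgr : ∀ n, a n ≤ C * (n + 1) ^ h) (n t : ℕ) (hn : n + 1 ≤ b ^ t) :
    (Nat.digits b (a n)).length ≤ C + t * h := by
  have hb1 : 1 < b := by omega
  rw [Nat.digits_length_le_iff hb1]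
  have h1 : C < b ^ C := Nat.lt_pow_self hb1
  have h2 : (n + 1) ^ h ≤ b ^ (t * h) := by
    rw [pow_mul]
    exact Nat.pow_le_pow_left hn h
  calc a n ≤ C * (n + 1) ^ h := hgr n
    _ ≤ C * b ^ (t * h) := Nat.mul_le_mul_left _ h2
    _ < b ^ C * b ^ (t * h) := Nat.mul_lt_mul_of_pos_right h1 (by positivity)
    _ = b ^ (C + t * h) := by rw [pow_add]

theorem xi_irrational (b : ℕ) (hb : 2 ≤ b) (a : ℕ → ℕ) (hmono : StrictMono a)
    (hpos : ∀ n, 0 < a n) (C h : ℕ) (hgr : ∀ n, a n ≤ C * (n + 1) ^ h) : Irrational (xi b a) := by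
  rintro ⟨x, hx⟩
  have hb0 : (0 : ℝ) < b := by positivity
  set v : ℕ := x.den with hv
  have hvpos : 0 < v := x.den_pos
  have hvR : (0 : ℝ) < v := by exact_mod_cast hvpos
  have hxv : (v : ℝ) * xi b a = (x.num : ℝ) := by
    rw [← hx]
    have : (v : ℚ) * x = x.num := by
      rw [hv, mul_comm]
      exact Rat.mul_den_eq_num x
    exact_mod_cast this
  -- v * tau is a natural number in [1, v]
  have hint : ∀ n, ∃ t : ℕ, t ∈ Finset.Icc 1 v ∧ (v : ℝ) * tau b a n = t := by
    intro n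
    obtain ⟨p, hp⟩ := tau_eq hb a n
    have h1 : (v : ℝ) * tau b a n = (((b : ℤ) ^ sdig b a n * x.num - v * p : ℤ) : ℝ) := by
      have : tau b a n = (b : ℝ) ^ sdig b a n * xi b a - p := by rw [hp]; ring
      rw [this]
      push_cast
      rw [← hxv]
      ring
    set z : ℤ := (b : ℤ) ^ sdig b a n * x.num - v * p with hz
    have hzpos : (0 : ℝ) < z := by
      rw [← h1]
      exact mul_pos hvR (tau_pos hb a hpos n)
    have hzle : (z : ℝ) ≤ v := by
      rw [← h1]
      calc (v : ℝ) * tau b a n ≤ v * 1 := mul_le_mul_of_nonneg_left (tau_le_one hb a n) hvR.le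
        _ = v := mul_one _
    have hzpos' : 0 < z := by exact_mod_cast hzpos
    have hzle' : z ≤ v := by exact_mod_cast hzle
    refine ⟨z.toNat, ?_, ?_⟩
    · rw [Finset.mem_Icc]
      omega
    · rw [h1]
      have : ((z.toNat : ℤ) : ℝ) = (z : ℝ) := by
        rw [Int.toNat_of_nonneg hzpos'.le]
      exact_mod_cast this.symm
  choose t ht ht' using hint
  -- injectivity
  have hinj : ∀ n m, t n = t m → (Nat.digits b (a n)).length = (Nat.digits b (a m)).length →
      n = m := by
    intro n m h1 h2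
    have h3 : tau b a n = tau b a m := by
      have e1 := ht' n
      have e2 := ht' m
      rw [h1] at e1
      have : (v : ℝ) * tau b a n = v * tau b a m := by rw [e1, e2]
      exact mul_left_cancel₀ hvR.ne' this
    have r1 := tau_rec hb a n
    have r2 := tau_rec hb a m
    rw [h3, h2, r2] at r1
    have p1 := tau_pos hb a hpos (n + 1)
    have p2 := tau_pos hb a hpos (m + 1)
    have q1 := tau_le_one hb a (n + 1)
    have q2 := tau_le_one hb a (m + 1)
    have h4 : (a m : ℝ) < a n + 1 := by linarith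
    have h5 : (a n : ℝ) < a m + 1 := by linarith
    have h4' : a m < a n + 1 := by exact_mod_cast h4
    have h5' : a n < a m + 1 := by exact_mod_cast h5
    exact hmono.injective (by omega)
  -- counting
  set s : ℕ := v * (C + 2 * h + 2) with hs
  have hlen : ∀ n < b ^ (2 * s), (Nat.digits b (a n)).length ≤ C + 2 * s * h := by
    intro n hn
    exact length_le_of_growth hb a C h hgr n (2 * s) hn
  have hcard : (Finset.range (b ^ (2 * s))).card ≤
      (Finset.Icc 1 v ×ˢ Finset.range (C + 2 * s * h + 1)).card := by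
    refine Finset.card_le_card_of_injOn (fun n => (t n, (Nat.digits b (a n)).length)) ?_ ?_
    · intro n hn
      rw [Finset.mem_coe, Finset.mem_range] at hn
      have := hlen n hn
      rw [Finset.mem_coe, Finset.mem_product, Finset.mem_range]
      exact ⟨ht n, by simp only; omega⟩
    · intro n _ m _ hnm
      have h1 := Prod.mk.inj hnm
      exact hinj n m h1.1 h1.2
  rw [Finset.card_product, Finset.card_range, Finset.card_range, Nat.card_Icc,
    Nat.add_sub_cancel] at hcard
  have h1 : s + 1 ≤ 2 ^ s := Nat.lt_two_pow_self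
  have h2 : 2 ^ s * 2 ^ s ≤ b ^ (2 * s) := by
    rw [← pow_add, ← two_mul]
    exact Nat.pow_le_pow_left hb _
  have h3 : (s + 1) * (s + 1) ≤ b ^ (2 * s) := (Nat.mul_le_mul h1 h1).trans h2
  have h4 : v * (C + 2 * s * h + 1) ≤ s * (s + 1) := by
    rw [hs]
    have : C + 2 * (v * (C + 2 * h + 2)) * h + 1 ≤
        (C + 2 * h + 2) * (v * (C + 2 * h + 2) + 1) := by
      set w := v * (C + 2 * h + 2) with hw
      nlinarith [Nat.zero_le w, Nat.zero_le C, Nat.zero_le h, Nat.zero_le (w * C)]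
    calc v * (C + 2 * (v * (C + 2 * h + 2)) * h + 1)
        ≤ v * ((C + 2 * h + 2) * (v * (C + 2 * h + 2) + 1)) := Nat.mul_le_mul_left _ this
      _ = _ := by ring
  have h5 : (s + 1) * (s + 1) ≤ s * (s + 1) := h3.trans (hcard.trans h4)
  nlinarith [Nat.zero_le s]

end Pool.Agent.Sub
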