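import Pool.Agent.Lib_MP_10b5ac_nt.Block

set_option autoImplicit false
set_option linter.unusedVariables false

/-! A3: size versus divisibility for an auxiliary polynomial. -/

namespace Pool.Agent.Sub

open MvPolynomial Finset

/-- coefficient of `lsub L G` in terms of the coefficients of `G` with the same block degrees -/
theorem abs_coeff_lsub_le {m N : ℕ} (L : Matrix (Fin N) (Fin N) ℝ) (B : ℝ) (hB1 : 1 ≤ B)
    (hB : ∀ j, ∑ i, |L j i| ≤ B) (r : Fin m → ℕ) (G : MvPolynomial (Fin m × Fin N) ℝ)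
    (hG : ∀ k' ∈ G.support, ∀ s : Fin m × Fin N, k' s ≤ r s.1)
    (hG2 : ∀ k' ∈ G.support, (k'.sum fun _ e => e) ≤ ∑ h, r h)
    (k : Fin m × Fin N →₀ ℕ) (W : ℝ) (hW : 0 ≤ W)
    (hGW : ∀ k' : Fin m × Fin N →₀ ℕ, (∀ h, ∑ j, k' (h, j) = ∑ j, k (h, j)) → |coeff k' G| ≤ W) :
    |coeff k (lsub L G)| ≤ (2 : ℝ) ^ (N * ∑ h, r h) * (W * B ^ (∑ h, r h)) := by
  classical
  conv_lhs => rw [G.as_sum]
  rw [lsub_sum, coeff_sum]
  refine (Finset.abs_sum_le_sum_abs _ _).trans ?_
  have h1 : ∀ k' ∈ G.support, |coeff k (lsub L (monomial k' (coeff k' G)))| ≤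
      W * B ^ (∑ h, r h) := by
    intro k' hk'
    by_cases hkk : ∀ h, ∑ j, k' (h, j) = ∑ j, k (h, j)
    · refine (coeff_le_l1 _ _).trans ((l1_lsub_monomial L B hB k' _).trans ?_)
      apply mul_le_mul (hGW k' hkk) _ (by positivity) hW
      exact pow_le_pow_right₀ hB1 (hG2 k' hk')
    · have h0 : coeff k (lsub L (monomial k' (coeff k' G))) = 0 := by
        by_contra hne
        have := blockHom_lsub_monomial L k' (coeff k' G) k (mem_support_iff.mpr hne)
        exact hkk fun h => (this h).symm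
      rw [h0, abs_zero]
      positivity
  refine (Finset.sum_le_sum h1).trans ?_
  rw [Finset.sum_const, nsmul_eq_mul]
  apply mul_le_mul_of_nonneg_right _ (by positivity)
  -- counting
  have h2 : G.support.card ≤ 2 ^ (N * ∑ h, r h) := by
    have h3 : G.support.card ≤ (Fintype.piFinset fun s : Fin m × Fin N =>
        Finset.range (r s.1 + 1)).card := by
      apply Finset.card_le_card_of_injOn
        (fun (k' : Fin m × Fin N →₀ ℕ) => (fun s => k' s : Fin m × Fin N → ℕ))
      · intro k' hk'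
        rw [Finset.mem_coe, Fintype.mem_piFinset]
        intro s
        rw [Finset.mem_range]
        have := hG k' hk' s
        exact Nat.lt_succ_of_le this
      · intro a _ b _ hab
        exact Finsupp.ext fun s => congrFun hab s
    refine h3.trans ?_
    rw [Fintype.card_piFinset]
    simp only [Finset.card_range]
    rw [Fintype.prod_prod_type]
    simp only [Finset.prod_const, Finset.card_univ, Fintype.card_fin]
    rw [Finset.mul_sum, ← Finset.prod_pow_eq_pow_sum]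
    apply Finset.prod_le_prod'
    intro h _
    rw [mul_comm N, pow_mul]
    apply Nat.pow_le_pow_left
    exact Nat.lt_two_pow_self
  exact_mod_cast h2

theorem key_vanish (N : ℕ) (hN : 1 ≤ N) (L : Matrix (Fin N) (Fin N) ℝ) (hL : L.det ≠ 0) (K : ℝ)
    (hK : 1 ≤ K) : ∃ K' : ℝ, 1 ≤ K' ∧
    ∀ (m : ℕ) (r : Fin m → ℕ) (P : MvPolynomial (Fin m × Fin N) ℤ), BlockHom r P →
      l1 (toR P) ≤ K ^ (∑ h, r h) →
      ∀ (b E : ℕ) (T : ℝ) (x : Fin m × Fin N → ℤ) (n : Fin m × Fin N → ℕ)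
        (Y : Fin m × Fin N → ℝ) (k : Fin m × Fin N →₀ ℕ),
        0 ≤ T → (∀ s, ((b : ℤ) ^ n s) ∣ x s) →
        (∀ s : Fin m × Fin N, |∑ j, L s.2 j * (x (s.1, j) : ℝ)| ≤ Y s) →
        (∀ I ∈ P.support, k ≤ I → E ≤ (I - k).sum fun s e => n s * e) →
        (∀ J ∈ (lsub L.adjugate (toR P)).support, ∀ k' : Fin m × Fin N →₀ ℕ, k' ≤ J →
          (∀ h, ∑ j, k' (h, j) = ∑ j, k (h, j)) → ((J - k').prod fun s e => Y s ^ e) ≤ T) →
        coeff k (tay x P) = 0 ∨ (b : ℝ) ^ E ≤ K' ^ (∑ h, r h) * T := by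
  -- bounds for the rows of `L` and its adjugate
  set B : ℝ := 1 + ∑ j, ∑ i, |L j i| with hBdef
  set A : ℝ := 1 + ∑ j, ∑ i, |L.adjugate j i| with hAdef
  have hB1 : 1 ≤ B := by
    rw [hBdef]
    have : 0 ≤ ∑ j, ∑ i, |L j i| := Finset.sum_nonneg fun j _ => Finset.sum_nonneg fun i _ =>
      abs_nonneg _
    linarith
  have hA1 : 1 ≤ A := by
    rw [hAdef]
    have : 0 ≤ ∑ j, ∑ i, |L.adjugate j i| := Finset.sum_nonneg fun j _ =>
      Finset.sum_nonneg fun i _ => abs_nonneg _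
    linarith
  have hB : ∀ j, ∑ i, |L j i| ≤ B := by
    intro j
    have := Finset.single_le_sum (f := fun j => ∑ i, |L j i|)
      (fun j _ => Finset.sum_nonneg fun i _ => abs_nonneg _) (Finset.mem_univ j)
    rw [hBdef]
    linarith
  have hA : ∀ j, ∑ i, |L.adjugate j i| ≤ A := by
    intro j
    have := Finset.single_le_sum (f := fun j => ∑ i, |L.adjugate j i|)
      (fun j _ => Finset.sum_nonneg fun i _ => abs_nonneg _) (Finset.mem_univ j)
    rw [hAdef]
    linarith
  have hD : 0 < |L.det| := abs_pos.mpr hL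
  refine ⟨max 1 (2 ^ N * 2 * K * A * B / |L.det|), le_max_left _ _, ?_⟩
  intro m r P hP hPK b E T x n Y k hT hx hY hE hT'
  by_cases hk : coeff k (tay x P) = 0
  · exact Or.inl hk
  right
  set S : ℕ := ∑ h, r h with hS
  -- lower bound
  have hdvd := dvd_coeff_tay b E P x n hx k hE
  have hlow : (b : ℝ) ^ E ≤ |((coeff k (tay x P) : ℤ) : ℝ)| := by
    have h1 : (b : ℤ) ^ E ≤ |coeff k (tay x P)| :=
      Int.le_of_dvd (abs_pos.mpr hk) ((dvd_abs _ _).mpr hdvd)
    exact_mod_cast h1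
  -- the real polynomial
  have hPR : BlockHom r (toR P) := hP.map _
  set y : Fin m × Fin N → ℝ := fun s => ∑ j, L s.2 j * ((x (s.1, j) : ℤ) : ℝ) with hy
  set Pt := lsub L.adjugate (toR P) with hPt
  have hPtB : BlockHom r Pt := hPR.lsub _
  have hid := lsub_tay_lsub L r (toR P) hPR (fun s => ((x s : ℤ) : ℝ))
  have hmap : tay (fun s => ((x s : ℤ) : ℝ)) (toR P) = toR (tay x P) :=
    tay_map (Int.castRingHom ℝ) x P
  have hcoef : coeff k (lsub L (tay y Pt)) = L.det ^ S * ((coeff k (tay x P) : ℤ) : ℝ) := by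
    rw [hy, hPt]
    rw [hid, coeff_C_mul, hmap]
    congr 1
  have hl1Pt : l1 Pt ≤ A ^ S * K ^ S :=
    (l1_lsub_le L.adjugate A hA r _ hPR).trans
      (mul_le_mul_of_nonneg_left hPK (by positivity))
  have hYy : ∀ s, |y s| ≤ Y s := hY
  -- support of the Taylor polynomial
  have hsupp : ∀ k' ∈ (tay y Pt).support, ∃ J ∈ Pt.support, k' ≤ J := by
    intro k' hk'
    by_contra hcon
    push Not at hcon
    apply mem_support_iff.mp hk'
    rw [coeff_tay]
    apply Finset.sum_eq_zero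
    intro J hJ
    rw [choose_prod_eq_zero J k' (hcon J hJ)]
    simp
  have hbound := abs_coeff_lsub_le L B hB1 hB r (tay y Pt)
    (fun k' hk' s => by
      obtain ⟨J, hJ, hle⟩ := hsupp k' hk'
      exact (hle s).trans (hPtB.le hJ s))
    (fun k' hk' => by
      obtain ⟨J, hJ, hle⟩ := hsupp k' hk'
      rw [← hPtB.sum_eq hJ, sum_prod_eq, sum_prod_eq]
      exact Finset.sum_le_sum fun h _ => Finset.sum_le_sum fun j _ => hle (h, j))
    k (2 ^ S * (A ^ S * K ^ S) * T) (by positivity)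
    (fun k' hk' => by
      refine (abs_coeff_tay Pt S hPtB.totalDegree_le y Y hYy T k'
        (fun J hJ hle => hT' J hJ k' hle hk') hT).trans ?_
      apply mul_le_mul_of_nonneg_right _ hT
      exact mul_le_mul_of_nonneg_left hl1Pt (by positivity))
  rw [hcoef, abs_mul, abs_pow] at hbound
  have h5 : |L.det| ^ S * (b : ℝ) ^ E ≤
      2 ^ (N * S) * (2 ^ S * (A ^ S * K ^ S) * T * B ^ S) :=
    (mul_le_mul_of_nonneg_left hlow (by positivity)).trans hbound
  have h6 : (b : ℝ) ^ E ≤ (2 ^ N * 2 * K * A * B / |L.det|) ^ S * T := by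
    rw [div_pow, div_mul_eq_mul_div, le_div_iff₀ (by positivity), mul_comm]
    refine h5.trans (le_of_eq ?_)
    rw [pow_mul]
    simp only [mul_pow]
    ring
  refine h6.trans ?_
  apply mul_le_mul_of_nonneg_right _ hT
  exact pow_le_pow_left₀ (by positivity) (le_max_right _ _) _

end Pool.Agent.Sub
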