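import Pool.Agent.Lib_MP_10b5ac_nt.Defs

set_option autoImplicit false
set_option linter.unusedVariables false

/-! E1: Minkowski's first theorem for linear forms. -/

namespace Pool.Agent.Sub

open MeasureTheory

theorem mink1 (N : ℕ) (hN : 1 ≤ N) (M : Matrix (Fin N) (Fin N) ℝ) (hM : M.det ≠ 0) :
    ∃ y : Fin N → ℤ, y ≠ 0 ∧ nrm M y ^ N ≤ 2 ^ N * |M.det| := by
  classical
  have hd : 0 < |M.det| := abs_pos.mpr hM
  obtain ⟨s, hs0, hs⟩ : ∃ s : ℝ, 0 ≤ s ∧ s ^ N = |M.det| := by
    refine ⟨|M.det| ^ ((N : ℝ)⁻¹), by positivity, ?_⟩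
    rw [← Real.rpow_natCast, ← Real.rpow_mul hd.le, inv_mul_cancel₀, Real.rpow_one]
    exact_mod_cast (by omega : N ≠ 0)
  set b := Pi.basisFun ℝ (Fin N) with hb
  set f : (Fin N → ℝ) →ₗ[ℝ] (Fin N → ℝ) := Matrix.toLin' M with hf
  have hdet : LinearMap.det f = M.det := by rw [hf, LinearMap.det_toLin']
  have hdet0 : LinearMap.det f ≠ 0 := by rw [hdet]; exact hM
  have hfund := ZSpan.isAddFundamentalDomain' b (volume : Measure (Fin N → ℝ))
  have hvolF : (volume : Measure (Fin N → ℝ)) (ZSpan.fundamentalDomain b) = 1 := by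
    rw [ZSpan.volume_fundamentalDomain]
    have : (Matrix.of ⇑b : Matrix (Fin N) (Fin N) ℝ) = 1 := by
      ext i j
      simp [hb, Pi.basisFun_apply, Matrix.one_apply, Pi.single_apply, eq_comm]
    rw [this]
    simp
  have hvolS : (volume : Measure (Fin N → ℝ)) (f ⁻¹' Metric.closedBall 0 (2 * s))
      = ENNReal.ofReal |(M.det)⁻¹| * ENNReal.ofReal ((2 * (2 * s)) ^ N) := by
    rw [Measure.addHaar_preimage_linearMap _ hdet0, hdet, Real.volume_pi_closedBall _ (by positivity),
      Fintype.card_fin]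
  have : Countable (Submodule.span ℤ (Set.range b)).toAddSubgroup := by
    have : Countable (Submodule.span ℤ (Set.range b)) := inferInstance
    exact this
  have key := exists_ne_zero_mem_lattice_of_measure_mul_two_pow_lt_measure
    (μ := (volume : Measure (Fin N → ℝ))) (s := f ⁻¹' Metric.closedBall 0 (2 * s)) (L := (Submodule.span ℤ (Set.range b)).toAddSubgroup) hfund ?_ ?_ ?_
  · obtain ⟨x, hx0, hx⟩ := key
    have hmem : (x : Fin N → ℝ) ∈ Submodule.span ℤ (Set.range b) := x.2
    rw [b.mem_span_iff_repr_mem ℤ] at hmem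
    choose y hy using hmem
    have hxy : (x : Fin N → ℝ) = rv y := by
      ext j
      have := hy j
      simp only [hb, Pi.basisFun_repr] at this
      rw [← this]
      simp [rv]
    refine ⟨y, ?_, ?_⟩
    · rintro rfl
      apply hx0
      apply Subtype.ext
      rw [hxy]
      ext j
      simp [rv]
    · have h1 : nrm M y ≤ 2 * s := by
        rw [hxy] at hx
        simpa [nrm, hf] using hx
      calc nrm M y ^ N ≤ (2 * s) ^ N := pow_le_pow_left₀ (norm_nonneg _) h1 N
        _ = 2 ^ N * |M.det| := by rw [mul_pow, hs]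
  · intro x hx
    simpa using hx
  · exact (convex_closedBall 0 (2 * s)).linear_preimage f
  · rw [hvolF, hvolS, one_mul, ← ENNReal.ofReal_mul (by positivity)]
    have e1 : |(M.det)⁻¹| * (2 * (2 * s)) ^ N = 4 ^ N := by
      rw [abs_inv, mul_pow, mul_pow, hs]
      field_simp
      rw [← pow_mul, mul_comm, pow_mul]; norm_num
    rw [e1, Module.finrank_pi, Fintype.card_fin]
    have e2 : (2 : ENNReal) ^ N = ENNReal.ofReal (2 ^ N) := by
      rw [ENNReal.ofReal_pow (by norm_num)]; norm_num
    rw [e2]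
    apply (ENNReal.ofReal_lt_ofReal_iff (by positivity)).mpr
    exact pow_lt_pow_left₀ (by norm_num) (by norm_num) (by omega)

end Pool.Agent.Sub
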