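import Pool.Agent.Lib_MP_10b5ac_nt.Mink1

set_option autoImplicit false
set_option linter.unusedVariables false

/-! E2: successive minima and Minkowski's second theorem (with a weak constant). -/

namespace Pool.Agent.Sub

open Finset

theorem nrm_nonneg {N : ℕ} (M : Matrix (Fin N) (Fin N) ℝ) (y : Fin N → ℤ) : 0 ≤ nrm M y :=
  norm_nonneg _

theorem finite_nrm_le {N : ℕ} (M : Matrix (Fin N) (Fin N) ℝ) (hM : M.det ≠ 0) (R : ℝ) :
    {y : Fin N → ℤ | nrm M y ≤ R}.Finite := by
  have hu : IsUnit M.det := isUnit_iff_ne_zero.mpr hM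
  obtain ⟨K, hK0, hK⟩ : ∃ K : ℝ, 0 ≤ K ∧ ∀ x : Fin N → ℝ, ‖M⁻¹.mulVec x‖ ≤ K * ‖x‖ := by
    let f : (Fin N → ℝ) →L[ℝ] (Fin N → ℝ) := LinearMap.toContinuousLinearMap (Matrix.toLin' M⁻¹)
    refine ⟨‖f‖, norm_nonneg _, fun x => ?_⟩
    have := f.le_opNorm x
    simpa [f] using this
  apply (Set.finite_Icc (fun _ : Fin N => (-⌈K * R⌉ : ℤ)) (fun _ => ⌈K * R⌉)).subset
  intro y hy
  have hy' : nrm M y ≤ R := hy
  have h1 : ∀ j, |(y j : ℝ)| ≤ K * R := by
    intro j
    have h2 : M⁻¹.mulVec (M.mulVec (rv y)) = rv y := by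
      rw [Matrix.mulVec_mulVec, Matrix.nonsing_inv_mul _ hu, Matrix.one_mulVec]
    have h3 := hK (M.mulVec (rv y))
    rw [h2] at h3
    have h4 : ‖rv y j‖ ≤ ‖rv y‖ := norm_le_pi_norm (rv y) j
    rw [Real.norm_eq_abs] at h4
    calc |(y j : ℝ)| ≤ ‖rv y‖ := h4
      _ ≤ K * ‖M.mulVec (rv y)‖ := h3
      _ ≤ K * R := mul_le_mul_of_nonneg_left hy' hK0
  rw [Set.mem_Icc]
  constructor
  · intro j
    have h2 := (abs_le.mp (h1 j)).1
    have h3 : (K * R) ≤ (⌈K * R⌉ : ℝ) := Int.le_ceil _
    show (-⌈K * R⌉ : ℤ) ≤ y j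
    have : (-(⌈K * R⌉ : ℤ) : ℝ) ≤ (y j : ℝ) := by linarith
    exact_mod_cast this
  · intro j
    have h2 := (abs_le.mp (h1 j)).2
    have h3 : (K * R) ≤ (⌈K * R⌉ : ℝ) := Int.le_ceil _
    show y j ≤ (⌈K * R⌉ : ℤ)
    have : (y j : ℝ) ≤ (⌈K * R⌉ : ℝ) := by linarith
    exact_mod_cast this

theorem spn_snoc {N k : ℕ} (g : Fin k → Fin N → ℤ) (y : Fin N → ℤ) (i : ℕ) (hi : i ≤ k) :
    spn (Fin.snoc g y : Fin (k + 1) → Fin N → ℤ) i = spn g i := by
  unfold spn
  congr 1
  ext v
  simp only [Set.mem_image, Set.mem_ofPred_eq]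
  constructor
  · rintro ⟨l, hl, rfl⟩
    refine ⟨⟨l, by omega⟩, hl, ?_⟩
    have : l = Fin.castSucc (⟨l, by omega⟩ : Fin k) := rfl
    conv_rhs => rw [this]
    rw [Fin.snoc_castSucc]
  · rintro ⟨l, hl, rfl⟩
    exact ⟨l.castSucc, hl, by rw [Fin.snoc_castSucc]⟩

theorem spn_full {N k : ℕ} (g : Fin k → Fin N → ℤ) :
    spn g k = Submodule.span ℚ (Set.range fun l => cv (g l)) := by
  unfold spn
  congr 1
  ext v
  simp only [Set.mem_image, Set.mem_ofPred_eq, Set.mem_range]
  constructor
  · rintro ⟨l, _, rfl⟩; exact ⟨l, rfl⟩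
  · rintro ⟨l, rfl⟩; exact ⟨l, l.2, rfl⟩

theorem spn_mono {N k : ℕ} (g : Fin k → Fin N → ℤ) {i j : ℕ} (h : i ≤ j) : spn g i ≤ spn g j := by
  apply Submodule.span_mono
  apply Set.image_mono
  intro l hl
  exact lt_of_lt_of_le hl h

theorem spn_zero {N k : ℕ} (g : Fin k → Fin N → ℤ) : spn g 0 = ⊥ := by
  unfold spn
  simp

/-- there is an integer vector outside of any proper subspace -/
theorem exists_cv_notMem {N : ℕ} (W : Submodule ℚ (Fin N → ℚ)) (hW : W ≠ ⊤) :
    ∃ y : Fin N → ℤ, cv y ∉ W := by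
  by_contra hcon
  push Not at hcon
  apply hW
  rw [eq_top_iff, ← (Pi.basisFun ℚ (Fin N)).span_eq, Submodule.span_le]
  rintro _ ⟨j, rfl⟩
  have := hcon (Pi.single j 1)
  have h2 : cv (Pi.single j 1 : Fin N → ℤ) = (Pi.basisFun ℚ (Fin N)) j := by
    ext i
    simp [cv, Pi.single_apply]
  rw [h2] at this
  exact this

theorem exists_minima {N : ℕ} (M : Matrix (Fin N) (Fin N) ℝ) (hM : M.det ≠ 0) (k : ℕ)
    (hk : k ≤ N) : ∃ g : Fin k → Fin N → ℤ, LinearIndependent ℚ (fun l => cv (g l)) ∧
      (∀ i : Fin k, cv (g i) ∉ spn g i) ∧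
      ∀ (i : Fin k) (y : Fin N → ℤ), cv y ∉ spn g i → nrm M (g i) ≤ nrm M y := by
  induction k with
  | zero => exact ⟨fun i => i.elim0, linearIndependent_empty_type, fun i => i.elim0,
      fun i => i.elim0⟩
  | succ k ih =>
    obtain ⟨g, hli, hnot, hmin⟩ := ih (by omega)
    have hne : spn g k ≠ ⊤ := by
      rw [spn_full]
      intro htop
      have h1 : Module.finrank ℚ (Submodule.span ℚ (Set.range fun l => cv (g l))) ≤ k := by
        have := finrank_range_le_card (R := ℚ) (b := fun l => cv (g l))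
        simpa [Set.finrank] using this
      rw [htop, finrank_top] at h1
      simp at h1
      omega
    obtain ⟨y₀, hy₀⟩ := exists_cv_notMem _ hne
    have hfin : ({y : Fin N → ℤ | nrm M y ≤ nrm M y₀} ∩ {y | cv y ∉ spn g k}).Finite :=
      (finite_nrm_le M hM _).inter_of_left _
    obtain ⟨y₁, hy₁, hy₁min⟩ := Set.exists_min_image _ (nrm M) hfin
      ⟨y₀, by exact le_refl (nrm M y₀), hy₀⟩
    have hbest : ∀ y, cv y ∉ spn g k → nrm M y₁ ≤ nrm M y := by
      intro y hy
      by_cases h : nrm M y ≤ nrm M y₀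
      · exact hy₁min y ⟨h, hy⟩
      · push Not at h
        exact (hy₁.1 : nrm M y₁ ≤ nrm M y₀).trans h.le
    refine ⟨Fin.snoc g y₁, ?_, ?_, ?_⟩
    · have hfun : (fun l => cv ((Fin.snoc g y₁ : Fin (k + 1) → Fin N → ℤ) l))
          = (Fin.snoc (fun l => cv (g l)) (cv y₁) : Fin (k + 1) → Fin N → ℚ) := by
        funext l
        refine Fin.lastCases ?_ (fun l => ?_) l
        · simp
        · simp
      rw [hfun, linearIndependent_finSnoc]
      refine ⟨hli, ?_⟩
      rw [← spn_full]
      exact hy₁.2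
    · intro i
      rw [spn_snoc _ _ _ (by omega)]
      refine Fin.lastCases ?_ (fun l => ?_) i
      · simpa using hy₁.2
      · simpa using hnot l
    · intro i y hy
      rw [spn_snoc _ _ _ (by omega)] at hy
      revert hy
      refine Fin.lastCases ?_ (fun l => ?_) i
      · intro hy
        simpa using hbest y (by simpa using hy)
      · intro hy
        simpa using hmin l y (by simpa using hy)

/-- each nonzero integer vector has a level -/
theorem exists_level {N : ℕ} (g : Fin N → Fin N → ℤ) (hli : LinearIndependent ℚ fun l => cv (g l))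
    (y : Fin N → ℤ) (hy : y ≠ 0) : ∃ k : Fin N, cv y ∉ spn g k ∧ cv y ∈ spn g (k + 1) := by
  classical
  have h0 : cv y ∉ spn g 0 := by
    rw [spn_zero, Submodule.mem_bot]
    intro h
    apply hy
    funext j
    have := congrFun h j
    simpa [cv] using this
  have htop : cv y ∈ spn g N := by
    rw [spn_full]
    have : Submodule.span ℚ (Set.range fun l => cv (g l)) = ⊤ := by
      apply hli.span_eq_top_of_card_eq_finrank'
      simp
    rw [this]
    trivial
  have hex : ∃ n, cv y ∈ spn g n := ⟨N, htop⟩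
  have hpos : 0 < Nat.find hex := by
    rw [Nat.pos_iff_ne_zero]
    intro h
    have := Nat.find_spec hex
    rw [h] at this
    exact h0 this
  have hle : Nat.find hex ≤ N := Nat.find_min' hex htop
  refine ⟨⟨Nat.find hex - 1, by omega⟩, ?_, ?_⟩
  · exact Nat.find_min hex (by show Nat.find hex - 1 < Nat.find hex; omega)
  · have := Nat.find_spec hex
    have e : Nat.find hex - 1 + 1 = Nat.find hex := by omega
    show cv y ∈ spn g (Nat.find hex - 1 + 1)
    rw [e]
    exact this

/-- the orthogonalising matrix -/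
theorem exists_orth {N : ℕ} (M : Matrix (Fin N) (Fin N) ℝ) (g : Fin N → Fin N → ℤ) :
    ∃ U : Matrix (Fin N) (Fin N) ℝ, |U.det| = 1 ∧
      (∀ i j : Fin N, j < i → (U.mulVec (M.mulVec (rv (g j)))) i = 0) ∧
      ∀ w : Fin N → ℝ, ∑ i, (U.mulVec w i) ^ 2 = ∑ i, w i ^ 2 := by
  classical
  let f : Fin N → EuclideanSpace ℝ (Fin N) := fun l => WithLp.toLp 2 (M.mulVec (rv (g l)))
  have hfr : Module.finrank ℝ (EuclideanSpace ℝ (Fin N)) = Fintype.card (Fin N) := by simp
  let u := InnerProductSpace.gramSchmidtOrthonormalBasis hfr f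
  let U : Matrix (Fin N) (Fin N) ℝ := fun i j => (u i) j
  have hU : ∀ (w : Fin N → ℝ) (i : Fin N),
      U.mulVec w i = inner ℝ (u i) (WithLp.toLp 2 w : EuclideanSpace ℝ (Fin N)) := by
    intro w i
    rw [PiLp.inner_apply]
    simp only [Matrix.mulVec, dotProduct, U]
    apply Finset.sum_congr rfl
    intro j _
    simp [mul_comm]
  have hUU : U * U.transpose = 1 := by
    ext i j
    rw [Matrix.mul_apply]
    have h1 := orthonormal_iff_ite.mp u.orthonormal i j
    rw [PiLp.inner_apply] at h1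
    rw [Matrix.one_apply, ← h1]
    apply Finset.sum_congr rfl
    intro k _
    simp [U, Matrix.transpose_apply, mul_comm]
  refine ⟨U, ?_, ?_, ?_⟩
  · have h1 : U.det * U.det = 1 := by
      have := congrArg Matrix.det hUU
      rwa [Matrix.det_mul, Matrix.det_transpose, Matrix.det_one] at this
    have h2 : |U.det| * |U.det| = 1 := by rw [← abs_mul, h1, abs_one]
    nlinarith [abs_nonneg U.det]
  · intro i j hij
    rw [hU]
    exact InnerProductSpace.gramSchmidtOrthonormalBasis_inv_triangular hfr f hij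
  · intro w
    have h1 := u.sum_sq_norm_inner_right (WithLp.toLp 2 w : EuclideanSpace ℝ (Fin N))
    have h2 : ‖(WithLp.toLp 2 w : EuclideanSpace ℝ (Fin N))‖ ^ 2 = ∑ i, w i ^ 2 := by
      rw [EuclideanSpace.norm_sq_eq]
      simp
    rw [← h2, ← h1]
    apply Finset.sum_congr rfl
    intro i _
    rw [hU, Real.norm_eq_abs, sq_abs]

/-- integer determinants: a rationally independent integer family has real determinant at least one -/
theorem one_le_abs_det {N : ℕ} (g : Fin N → Fin N → ℤ)
    (hli : LinearIndependent ℚ fun l => cv (g l)) :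
    1 ≤ |Matrix.det (fun i j => ((g i j : ℤ) : ℝ) : Matrix (Fin N) (Fin N) ℝ)| := by
  have hQ : Matrix.det (fun i j => ((g i j : ℤ) : ℚ) : Matrix (Fin N) (Fin N) ℚ) ≠ 0 := by
    have h1 : LinearIndependent ℚ (Matrix.row (fun i j => ((g i j : ℤ) : ℚ) :
        Matrix (Fin N) (Fin N) ℚ)) := hli
    have h2 := Matrix.linearIndependent_rows_iff_isUnit.mp h1
    have h3 := (Matrix.isUnit_iff_isUnit_det _).mp h2
    exact h3.ne_zero
  have e1 : Matrix.det (fun i j => ((g i j : ℤ) : ℚ) : Matrix (Fin N) (Fin N) ℚ)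
      = ((Matrix.det (fun i j => g i j : Matrix (Fin N) (Fin N) ℤ) : ℤ) : ℚ) := by
    have := (Int.castRingHom ℚ).map_det (fun i j => g i j : Matrix (Fin N) (Fin N) ℤ)
    simp only [eq_intCast] at this
    rw [this]
    rfl
  have e2 : Matrix.det (fun i j => ((g i j : ℤ) : ℝ) : Matrix (Fin N) (Fin N) ℝ)
      = ((Matrix.det (fun i j => g i j : Matrix (Fin N) (Fin N) ℤ) : ℤ) : ℝ) := by
    have := (Int.castRingHom ℝ).map_det (fun i j => g i j : Matrix (Fin N) (Fin N) ℤ)
    simp only [eq_intCast] at this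
    rw [this]
    rfl
  rw [e2]
  rw [e1] at hQ
  have h4 : Matrix.det (fun i j => g i j : Matrix (Fin N) (Fin N) ℤ) ≠ 0 := by
    intro h
    apply hQ
    rw [h]
    simp
  have h5 := Int.one_le_abs h4
  exact_mod_cast h5

theorem mink2 (N : ℕ) (hN : 1 ≤ N) : ∃ C : ℝ, 1 ≤ C ∧ ∀ M : Matrix (Fin N) (Fin N) ℝ,
    M.det ≠ 0 → ∃ g : Fin N → Fin N → ℤ, LinearIndependent ℚ (fun l => cv (g l)) ∧
      Monotone (fun i => nrm M (g i)) ∧
      (∀ (i : Fin N) (y : Fin N → ℤ), cv y ∉ spn g i → nrm M (g i) ≤ nrm M y) ∧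
      ∏ i, nrm M (g i) ≤ C * |M.det| ∧ |M.det| ≤ C * ∏ i, nrm M (g i) := by
  classical
  refine ⟨max ((2 * N : ℝ) ^ N) (N.factorial : ℝ), ?_, ?_⟩
  · apply le_max_of_le_right
    exact_mod_cast Nat.one_le_iff_ne_zero.mpr (Nat.factorial_ne_zero N)
  intro M hM
  obtain ⟨g, hli, hnot, hmin⟩ := exists_minima M hM N le_rfl
  have hmono : Monotone (fun i => nrm M (g i)) := by
    intro i j hij
    apply hmin i
    intro hmem
    exact hnot j (spn_mono g hij hmem)
  have hdetpos : 0 < |M.det| := abs_pos.mpr hM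
  have hinj : ∀ y : Fin N → ℤ, y ≠ 0 → 0 < nrm M y := by
    intro y hy
    rcases (nrm_nonneg M y).lt_or_eq with h | h
    · exact h
    · exfalso
      have h0 : M.mulVec (rv y) = 0 := norm_eq_zero.mp h.symm
      have h1 := Matrix.eq_zero_of_mulVec_eq_zero hM h0
      apply hy
      funext j
      have := congrFun h1 j
      simpa [rv] using this
  have hg0 : ∀ i, g i ≠ 0 := by
    intro i h
    apply hnot i
    rw [h]
    have : cv (0 : Fin N → ℤ) = 0 := by ext; simp [cv]
    rw [this]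
    exact Submodule.zero_mem _
  have hlam : ∀ i, 0 < nrm M (g i) := fun i => hinj _ (hg0 i)
  have hprod : 0 < ∏ i, nrm M (g i) := Finset.prod_pos fun i _ => hlam i
  refine ⟨g, hli, hmono, hmin, ?_, ?_⟩
  · -- upper bound for the product
    obtain ⟨U, hU1, hUtri, hUiso⟩ := exists_orth M g
    set D : Matrix (Fin N) (Fin N) ℝ := Matrix.diagonal (fun i => (nrm M (g i))⁻¹) with hD
    have hdetT : (D * U * M).det = (∏ i, nrm M (g i))⁻¹ * U.det * M.det := by
      rw [Matrix.det_mul, Matrix.det_mul, hD, Matrix.det_diagonal, Finset.prod_inv_distrib]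
    have habs : |(D * U * M).det| = (∏ i, nrm M (g i))⁻¹ * |M.det| := by
      rw [hdetT, abs_mul, abs_mul, hU1, mul_one, abs_of_pos (inv_pos.mpr hprod)]
    have hT0 : (D * U * M).det ≠ 0 := by
      rw [← abs_pos, habs]
      positivity
    obtain ⟨y, hy0, hy⟩ := mink1 N hN (D * U * M) hT0
    rw [habs] at hy
    obtain ⟨k, hk1, hk2⟩ := exists_level g hli y hy0
    have hwk : nrm M (g k) ≤ nrm M y := hmin k y hk1
    set w : Fin N → ℝ := M.mulVec (rv y) with hw
    set c : Fin N → ℝ := U.mulVec w with hc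
    have hTy : (D * U * M).mulVec (rv y) = fun i => (nrm M (g i))⁻¹ * c i := by
      rw [← Matrix.mulVec_mulVec, ← hw, ← Matrix.mulVec_mulVec, ← hc, hD]
      ext i
      rw [Matrix.mulVec_diagonal]
    have hc0 : ∀ i, k < i → c i = 0 := by
      intro i hi
      let φ : (Fin N → ℚ) →ₗ[ℚ] ℝ :=
        { toFun := fun x => U.mulVec (M.mulVec (fun j => (x j : ℝ))) i
          map_add' := by
            intro x y
            have : (fun j => ((x + y) j : ℝ)) = (fun j => (x j : ℝ)) + fun j => (y j : ℝ) := by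
              ext j; simp
            rw [this, Matrix.mulVec_add, Matrix.mulVec_add]
            rfl
          map_smul' := by
            intro a x
            have : (fun j => ((a • x) j : ℝ)) = (a : ℝ) • (fun j => (x j : ℝ)) := by
              ext j; simp
            rw [this, Matrix.mulVec_smul, Matrix.mulVec_smul]
            simp [Rat.smul_def] }
      have hle : spn g (k + 1) ≤ LinearMap.ker φ := by
        unfold spn
        rw [Submodule.span_le]
        rintro _ ⟨l, hl, rfl⟩
        have hl' : (l : ℕ) < k + 1 := hl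
        have hli' : l < i := by
          have : (k : ℕ) < i := hi
          show (l : ℕ) < i
          omega
        have h1 := hUtri i l hli'
        show φ (cv (g l)) = 0
        have h2 : φ (cv (g l)) = U.mulVec (M.mulVec (rv (g l))) i := by
          show U.mulVec (M.mulVec (fun j => ((cv (g l) j : ℚ) : ℝ))) i = _
          have : (fun j => ((cv (g l) j : ℚ) : ℝ)) = rv (g l) := by
            ext j; simp [cv, rv]
          rw [this]
        rw [h2, h1]
      have h3 := hle hk2
      have h4 : φ (cv y) = 0 := h3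
      have h5 : φ (cv y) = c i := by
        show U.mulVec (M.mulVec (fun j => ((cv y j : ℚ) : ℝ))) i = _
        have : (fun j => ((cv y j : ℚ) : ℝ)) = rv y := by
          ext j; simp [cv, rv]
        rw [this]
      rw [← h5, h4]
    set ν := nrm (D * U * M) y with hν
    have hν0 : 0 ≤ ν := nrm_nonneg _ _
    have hci : ∀ i, (c i) ^ 2 ≤ (nrm M (g k)) ^ 2 * ν ^ 2 := by
      intro i
      by_cases hik : k < i
      · rw [hc0 i hik, zero_pow two_ne_zero]
        positivity
      · have hik' : i ≤ k := not_lt.mp hik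
        have h1 : |(nrm M (g i))⁻¹ * c i| ≤ ν := by
          have h0 : |(D * U * M).mulVec (rv y) i| ≤ nrm (D * U * M) y :=
            norm_le_pi_norm ((D * U * M).mulVec (rv y)) i
          rw [hTy] at h0
          exact h0
        have h2 : |c i| ≤ nrm M (g i) * ν := by
          rw [abs_mul, abs_of_pos (inv_pos.mpr (hlam i))] at h1
          rwa [inv_mul_le_iff₀ (hlam i)] at h1
        have h3 : |c i| ≤ nrm M (g k) * ν := h2.trans
          (mul_le_mul_of_nonneg_right (hmono hik') hν0)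
        calc (c i) ^ 2 = |c i| ^ 2 := (sq_abs _).symm
          _ ≤ (nrm M (g k) * ν) ^ 2 := pow_le_pow_left₀ (abs_nonneg _) h3 2
          _ = _ := by ring
    have hsum : (nrm M y) ^ 2 ≤ ∑ i, w i ^ 2 := by
      have hne : (Finset.univ : Finset (Fin N)).Nonempty := ⟨k, Finset.mem_univ _⟩
      obtain ⟨i, hi⟩ : ∃ i, nrm M y = |w i| := by
        have : Nonempty (Fin N) := ⟨k⟩
        obtain ⟨i, hi⟩ := Finite.exists_max (fun i => |w i|)
        refine ⟨i, le_antisymm ?_ ?_⟩
        · apply (pi_norm_le_iff_of_nonneg (abs_nonneg _)).mpr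
          intro j
          exact hi j
        · exact norm_le_pi_norm w i
      rw [hi, sq_abs]
      exact Finset.single_le_sum (f := fun i => w i ^ 2) (fun j _ => sq_nonneg _)
        (Finset.mem_univ i)
    have hmain : (nrm M y) ^ 2 ≤ N * ((nrm M (g k)) ^ 2 * ν ^ 2) := by
      calc (nrm M y) ^ 2 ≤ ∑ i, w i ^ 2 := hsum
        _ = ∑ i, c i ^ 2 := (hUiso w).symm
        _ ≤ ∑ _i : Fin N, (nrm M (g k)) ^ 2 * ν ^ 2 := Finset.sum_le_sum fun i _ => hci i
        _ = _ := by simp
    have h6 : 1 ≤ N * ν ^ 2 := by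
      have h7 : (nrm M (g k)) ^ 2 ≤ (nrm M y) ^ 2 := pow_le_pow_left₀ (hlam k).le hwk 2
      have h8 : (nrm M (g k)) ^ 2 * 1 ≤ (nrm M (g k)) ^ 2 * (N * ν ^ 2) := by nlinarith
      exact le_of_mul_le_mul_left h8 (pow_pos (hlam k) 2)
    have hN1 : (1 : ℝ) ≤ N := by exact_mod_cast hN
    have h9 : 1 ≤ N * ν := by
      have h10 : 1 ≤ (N * ν) ^ 2 := by
        calc (1 : ℝ) ≤ N * ν ^ 2 := h6
          _ ≤ N ^ 2 * ν ^ 2 := by
            apply mul_le_mul_of_nonneg_right _ (sq_nonneg _)
            nlinarith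
          _ = _ := by ring
      by_contra hlt
      push Not at hlt
      have : (N * ν) ^ 2 < 1 := by
        have h0 : 0 ≤ N * ν := by positivity
        nlinarith
      linarith
    have h11 : 1 ≤ (N : ℝ) ^ N * ν ^ N := by
      rw [← mul_pow]
      exact one_le_pow₀ h9
    have h12 : 1 ≤ (2 * N : ℝ) ^ N * ((∏ i, nrm M (g i))⁻¹ * |M.det|) := by
      calc (1 : ℝ) ≤ (N : ℝ) ^ N * ν ^ N := h11
        _ ≤ (N : ℝ) ^ N * (2 ^ N * ((∏ i, nrm M (g i))⁻¹ * |M.det|)) :=
          mul_le_mul_of_nonneg_left hy (by positivity)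
        _ = _ := by rw [mul_pow]; ring
    have h13 : ∏ i, nrm M (g i) ≤ (2 * N : ℝ) ^ N * |M.det| := by
      have := mul_le_mul_of_nonneg_left h12 hprod.le
      rw [mul_one] at this
      calc ∏ i, nrm M (g i) ≤ _ := this
        _ = _ := by
          field_simp
    exact h13.trans (mul_le_mul_of_nonneg_right (le_max_left _ _) hdetpos.le)
  · -- lower bound for the product
    set G : Matrix (Fin N) (Fin N) ℝ := fun i j => ((g i j : ℤ) : ℝ) with hG
    have h1 : 1 ≤ |G.det| := one_le_abs_det g hli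
    have h2 : |(M * G.transpose).det| = |M.det| * |G.det| := by
      rw [Matrix.det_mul, Matrix.det_transpose, abs_mul]
    have h3 : |(M * G.transpose).det| ≤ (N.factorial : ℝ) * ∏ i, nrm M (g i) := by
      rw [Matrix.det_apply]
      calc |∑ σ : Equiv.Perm (Fin N), Equiv.Perm.sign σ • ∏ i, (M * G.transpose) (σ i) i|
          ≤ ∑ σ : Equiv.Perm (Fin N), |Equiv.Perm.sign σ • ∏ i, (M * G.transpose) (σ i) i| :=
            Finset.abs_sum_le_sum_abs _ _
        _ ≤ ∑ σ : Equiv.Perm (Fin N), ∏ i, nrm M (g i) := by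
            apply Finset.sum_le_sum
            intro σ _
            have h4 : |Equiv.Perm.sign σ • ∏ i, (M * G.transpose) (σ i) i|
                = ∏ i, |(M * G.transpose) (σ i) i| := by
              rw [← Finset.abs_prod]
              rcases Int.units_eq_one_or (Equiv.Perm.sign σ) with h | h
              · rw [h, one_smul]
              · rw [h]
                simp
            rw [h4]
            apply Finset.prod_le_prod
            · intro i _; exact abs_nonneg _
            · intro i _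
              have h5 : (M * G.transpose) (σ i) i = (M.mulVec (rv (g i))) (σ i) := by
                rw [Matrix.mul_apply]
                rfl
              rw [h5]
              exact norm_le_pi_norm (M.mulVec (rv (g i))) (σ i)
        _ = _ := by
            rw [Finset.sum_const, Finset.card_univ, Fintype.card_perm, Fintype.card_fin,
              nsmul_eq_mul]
    calc |M.det| = |M.det| * 1 := (mul_one _).symm
      _ ≤ |M.det| * |G.det| := mul_le_mul_of_nonneg_left h1 hdetpos.le
      _ = |(M * G.transpose).det| := h2.symm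
      _ ≤ (N.factorial : ℝ) * ∏ i, nrm M (g i) := h3
      _ ≤ _ := mul_le_mul_of_nonneg_right (le_max_right _ _) hprod.le

end Pool.Agent.Sub
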