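import Pool.Agent.Lib_MP_10b5ac_nt.Alg

set_option autoImplicit false

/-! H5: no algebraic irrational number has the approximations produced by H4. -/

namespace Pool.Agent.Sub

open Finset Filter Topology

/-- A real polynomial `∑ g_j Y^j` that is `O(1 / Y)` frequently along `Y = b ^ s e` is zero. -/
theorem coeff_zero_of_small (b : ℕ) (hb : 2 ≤ b) (d : ℕ) (g : Fin (d + 1) → ℝ) (C : ℝ)
    (s : ℕ → ℕ) (hs : StrictMono s)
    (h : ∃ᶠ e in atTop, |∑ j, g j * ((b : ℝ) ^ (s e)) ^ (j : ℕ)| * (b : ℝ) ^ (s e) ≤ C) :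
    ∀ j, g j = 0 := by
  set P : Polynomial ℝ := ∑ j, Polynomial.C (g j) * Polynomial.X ^ (j : ℕ) with hP
  have hev : ∀ y, P.eval y = ∑ j, g j * y ^ (j : ℕ) := by
    intro y
    rw [hP, Polynomial.eval_finsetSum]
    simp
  have hP0 : P = 0 := by
    by_contra hne
    have hdeg : 0 < (P * Polynomial.X).degree := by
      rw [Polynomial.degree_mul_X]
      have := Polynomial.degree_eq_natDegree hne
      rw [this]
      exact_mod_cast Nat.succ_pos _
    have ht := (P * Polynomial.X).abs_tendsto_atTop hdeg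
    have hb1 : (1 : ℝ) < b := by exact_mod_cast (by omega : 1 < b)
    have ht2 : Tendsto (fun e => (b : ℝ) ^ (s e)) atTop atTop :=
      (tendsto_pow_atTop_atTop_of_one_lt hb1).comp hs.tendsto_atTop
    have ht3 := (ht.comp ht2).eventually (eventually_gt_atTop C)
    obtain ⟨e, he1, he2⟩ := (h.and_eventually ht3).exists
    simp only [Function.comp_apply, Polynomial.eval_mul, Polynomial.eval_X, abs_mul] at he2
    rw [hev, abs_of_pos (by positivity : (0 : ℝ) < (b : ℝ) ^ (s e))] at he2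
    linarith
  intro j
  have h1 : P.coeff (j : ℕ) = g j := by
    rw [hP, Polynomial.finsetSum_coeff, Finset.sum_eq_single j]
    · simp
    · intro i _ hij
      rw [Polynomial.coeff_C_mul_X_pow, if_neg]
      intro h
      exact hij (Fin.ext h.symm)
    · intro h
      exact absurd (mem_univ _) h
  rw [← h1, hP0, Polynomial.coeff_zero]

/-- The statement of the parametric Subspace theorem (theorem `subspace` of the skeleton). -/
def SubspaceStmt : Prop :=
  ∀ {θ : ℝ} {D : ℕ} {C₀ : ℝ} (_ : AlgData θ D C₀) (b n : ℕ) (_ : 2 ≤ b)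
    (_ : 2 ≤ n) (L : Matrix (Fin n) (Fin n) ℝ) (_ : L.det ≠ 0) (M : ℝ) (_ : 1 ≤ M)
    (_ : ∀ i j, Rep θ D M (L i j)) (δ : ℝ) (_ : 0 < δ) (C : ℝ)
    (q : ℕ → ℕ) (_ : Tendsto q atTop atTop) (ex : ℕ → Fin n → ℕ) (B : ℕ → Fin n → ℝ)
    (_ : ∀ e i, 0 < B e i) (_ : ∀ e, ∏ i, B e i = (b : ℝ) ^ (∑ j, ex e j))
    (_ : ∀ e j, (ex e j : ℝ) ≤ C * q e)
    (_ : ∀ e i, (b : ℝ) ^ (-(C * (q e : ℝ))) ≤ B e i)
    (_ : ∀ e i, B e i ≤ (b : ℝ) ^ (C * (q e : ℝ)))
    (x : ℕ → Fin n → ℤ) (_ : ∀ e, x e ≠ 0) (_ : ∀ e j, ((b : ℤ) ^ ex e j) ∣ x e j)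
    (_ : ∀ e i, |∑ j, L i j * (x e j : ℝ)| ≤ B e i * (b : ℝ) ^ (-(δ * (q e : ℝ)))),
    ∃ z : Fin n → ℤ, z ≠ 0 ∧ ∃ᶠ e in atTop, ∑ j, z j * x e j = 0

/-- `no_alg_approx` from the Subspace theorem; `no_alg_approx := no_alg_approx_of subspace`. -/
theorem no_alg_approx_of (hsub : SubspaceStmt) (ξ : ℝ) (hξ : IsAlgebraic ℚ ξ) (hirr : Irrational ξ) (b : ℕ) (hb : 2 ≤ b)
    (d : ℕ) (c : Fin (d + 1) → ℤ) (hc : c ≠ 0) (T : ℕ) (C : ℝ) (r s : ℕ → ℕ) (p : ℕ → ℤ)
    (hs : StrictMono s) (hr : ∀ e, r e ≤ T * s e)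
    (h : ∀ e, |(∑ j, (c j : ℝ) * (b : ℝ) ^ (r e + s e * (j : ℕ))) * ξ - p e|
        ≤ C * (b : ℝ) ^ (-(s e : ℝ))) : False := by
  obtain ⟨v, D, C₀, hv, hA⟩ := exists_algData ξ hξ
  have hb0 : (0 : ℝ) < b := by exact_mod_cast (by omega : 0 < b)
  have hb1 : (1 : ℝ) < b := by exact_mod_cast (by omega : 1 < b)
  have hC0 : 0 ≤ C := by
    have h1 := (abs_nonneg _).trans (h 0)
    have h2 : (0 : ℝ) < (b : ℝ) ^ (-(s 0 : ℝ)) := Real.rpow_pos_of_pos hb0 _
    exact nonneg_of_mul_nonneg_left h1 h2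
  -- parameters
  set δ : ℝ := 1 / (2 * ((d : ℝ) + 2)) with hδ
  have hd2 : (0 : ℝ) < (d : ℝ) + 2 := by positivity
  have hδ0 : 0 < δ := by rw [hδ]; positivity
  have hδ1 : δ * ((d : ℝ) + 2) = 1 / 2 := by rw [hδ]; field_simp
  -- shift
  have hlarge : ∃ e₀, ∀ e, e₀ ≤ e → (v : ℝ) * C ≤ (b : ℝ) ^ ((s e : ℝ) / 2) := by
    have ht : Tendsto (fun e => (b : ℝ) ^ ((s e : ℝ) / 2)) atTop atTop := by
      have h1 : Tendsto (fun e => ((s e : ℝ) / 2)) atTop atTop :=
        (tendsto_natCast_atTop_atTop.comp hs.tendsto_atTop).atTop_div_const (by norm_num)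
      exact (tendsto_rpow_atTop_of_base_gt_one _ hb1).comp h1
    exact eventually_atTop.1 (ht.eventually (eventually_ge_atTop _))
  obtain ⟨e₀, he₀⟩ := hlarge
  -- the matrix of linear forms
  set L : Matrix (Fin (d + 2)) (Fin (d + 2)) ℝ :=
    Fin.snoc (fun i : Fin (d + 1) => (Pi.single i.castSucc 1 : Fin (d + 2) → ℝ))
      (Fin.snoc (fun j : Fin (d + 1) => (c j : ℝ) * ((v : ℝ) * ξ)) (-(v : ℝ))) with hLdef
  have hL1 : ∀ (i : Fin (d + 1)) (j : Fin (d + 2)), L i.castSucc j = if j = i.castSucc then 1 else 0 := by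
    intro i j
    rw [hLdef, Fin.snoc_castSucc, Pi.single_apply]
  have hL2 : ∀ j : Fin (d + 1), L (Fin.last _) j.castSucc = (c j : ℝ) * ((v : ℝ) * ξ) := by
    intro j
    rw [hLdef, Fin.snoc_last, Fin.snoc_castSucc]
  have hL3 : L (Fin.last _) (Fin.last _) = -(v : ℝ) := by
    rw [hLdef, Fin.snoc_last, Fin.snoc_last]
  have hdet : L.det ≠ 0 := by
    rw [Matrix.det_of_isLowerTriangular, Fin.prod_univ_castSucc, hL3]
    · simp only [hL1, if_true, Finset.prod_const_one, one_mul]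
      exact neg_ne_zero.2 (by exact_mod_cast hv.ne')
    · intro i j hij
      have hij' : i < j := hij
      rcases Fin.eq_castSucc_or_eq_last i with ⟨i', rfl⟩ | rfl
      · rw [hL1, if_neg hij'.ne']
      · exact absurd hij' (not_lt.2 (Fin.le_last j))
  -- heights
  have hM : ∃ M : ℝ, 1 ≤ M ∧ ∀ i j, Rep ((v : ℝ) * ξ) D M (L i j) := by
    have h1 : ∀ i j, ∃ M : ℝ, Rep ((v : ℝ) * ξ) D M (L i j) := by
      intro i j
      rcases Fin.eq_castSucc_or_eq_last i with ⟨i', rfl⟩ | rfl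
      · rw [hL1]
        split_ifs
        · exact ⟨_, by simpa using rep_int hA 1⟩
        · exact ⟨_, by simpa using rep_int hA 0⟩
      · rcases Fin.eq_castSucc_or_eq_last j with ⟨j', rfl⟩ | rfl
        · rw [hL2]
          exact ⟨_, hA.hθ.int_mul (c j')⟩
        · rw [hL3]
          exact ⟨_, by simpa using (rep_int hA (v : ℤ)).neg⟩
    choose M hM using h1
    refine ⟨1 + ∑ i, ∑ j, |M i j|, ?_, fun i j => (hM i j).mono ?_⟩
    · have : 0 ≤ ∑ i, ∑ j, |M i j| := by positivity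
      linarith
    · have h2 : |M i j| ≤ ∑ j', |M i j'| :=
        Finset.single_le_sum (fun j' _ => abs_nonneg (M i j')) (mem_univ j)
      have h3 : ∑ j', |M i j'| ≤ ∑ i', ∑ j', |M i' j'| :=
        Finset.single_le_sum (f := fun i' => ∑ j', |M i' j'|)
          (fun i' _ => Finset.sum_nonneg fun j' _ => abs_nonneg (M i' j')) (mem_univ i)
      have := le_abs_self (M i j)
      linarith
  obtain ⟨M, hM1, hMr⟩ := hM
  -- data
  set q : ℕ → ℕ := fun e => s (e + e₀) with hq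
  set ex : ℕ → Fin (d + 2) → ℕ := fun e =>
    Fin.snoc (fun j : Fin (d + 1) => r (e + e₀) + s (e + e₀) * (j : ℕ)) 0 with hex
  set B : ℕ → Fin (d + 2) → ℝ := fun e =>
    Fin.snoc (fun j : Fin (d + 1) => (b : ℝ) ^ (((r (e + e₀) + s (e + e₀) * (j : ℕ) : ℕ) : ℝ) +
      δ * (s (e + e₀) : ℝ))) ((b : ℝ) ^ (-(((d : ℝ) + 1) * (δ * (s (e + e₀) : ℝ))))) with hB
  set x : ℕ → Fin (d + 2) → ℤ := fun e =>
    Fin.snoc (fun j : Fin (d + 1) => (b : ℤ) ^ (r (e + e₀) + s (e + e₀) * (j : ℕ)))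
      (p (e + e₀)) with hx
  have hex1 : ∀ e (j : Fin (d + 1)), ex e j.castSucc = r (e + e₀) + s (e + e₀) * (j : ℕ) := by
    intro e j
    simp only [hex, Fin.snoc_castSucc]
  have hex2 : ∀ e, ex e (Fin.last _) = 0 := by
    intro e
    simp only [hex, Fin.snoc_last]
  have hB1 : ∀ e (j : Fin (d + 1)), B e j.castSucc =
      (b : ℝ) ^ (((r (e + e₀) + s (e + e₀) * (j : ℕ) : ℕ) : ℝ) + δ * (s (e + e₀) : ℝ)) := by
    intro e j
    simp only [hB, Fin.snoc_castSucc]
  have hB2 : ∀ e, B e (Fin.last _) = (b : ℝ) ^ (-(((d : ℝ) + 1) * (δ * (s (e + e₀) : ℝ)))) := by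
    intro e
    simp only [hB, Fin.snoc_last]
  have hx1 : ∀ e (j : Fin (d + 1)), x e j.castSucc =
      (b : ℤ) ^ (r (e + e₀) + s (e + e₀) * (j : ℕ)) := by
    intro e j
    simp only [hx, Fin.snoc_castSucc]
  have hx2 : ∀ e, x e (Fin.last _) = p (e + e₀) := by
    intro e
    simp only [hx, Fin.snoc_last]
  have hexb : ∀ e (j : Fin (d + 1)), ((r (e + e₀) + s (e + e₀) * (j : ℕ) : ℕ) : ℝ) ≤
      ((T : ℝ) + d) * s (e + e₀) := by
    intro e j
    have h1 := hr (e + e₀)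
    have h2 : (j : ℕ) ≤ d := Nat.lt_succ_iff.1 j.2
    have h3 : r (e + e₀) + s (e + e₀) * (j : ℕ) ≤ (T + d) * s (e + e₀) := by nlinarith
    calc ((r (e + e₀) + s (e + e₀) * (j : ℕ) : ℕ) : ℝ) ≤ (((T + d) * s (e + e₀) : ℕ) : ℝ) := by
          exact_mod_cast h3
      _ = ((T : ℝ) + d) * s (e + e₀) := by push_cast; ring
  have hδle : δ * ((d : ℝ) + 1) ≤ 1 := by nlinarith
  have hδle1 : δ ≤ 1 := by nlinarith [(Nat.cast_nonneg d : (0 : ℝ) ≤ d)]
  have key := hsub hA b (d + 2) hb (by omega) L hdet M hM1 hMr δ hδ0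
    ((T : ℝ) + d + 1) q
    ((hs.tendsto_atTop).comp (tendsto_add_atTop_nat e₀)) ex B
    (by
      intro e i
      rcases Fin.eq_castSucc_or_eq_last i with ⟨i', rfl⟩ | rfl
      · rw [hB1]
        exact Real.rpow_pos_of_pos hb0 _
      · rw [hB2]
        exact Real.rpow_pos_of_pos hb0 _)
    (by
      intro e
      have hsum : ∑ j, ex e j = ∑ j : Fin (d + 1), (r (e + e₀) + s (e + e₀) * (j : ℕ)) := by
        rw [Fin.sum_univ_castSucc, hex2]
        simp only [hex1, add_zero]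
      rw [Fin.prod_univ_castSucc, hB2, hsum]
      simp only [hB1]
      rw [← Real.rpow_sum_of_pos hb0, ← Real.rpow_add hb0, ← Real.rpow_natCast]
      congr 1
      rw [Nat.cast_sum, Finset.sum_add_distrib]
      simp only [Finset.sum_const, Finset.card_univ, Fintype.card_fin, nsmul_eq_mul]
      push_cast
      ring)
    (by
      intro e j
      have hs0 : (0 : ℝ) ≤ s (e + e₀) := Nat.cast_nonneg _
      rcases Fin.eq_castSucc_or_eq_last j with ⟨j', rfl⟩ | rfl
      · rw [hex1]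
        refine (hexb e j').trans ?_
        simp only [hq]
        nlinarith
      · rw [hex2, Nat.cast_zero]
        positivity)
    (by
      intro e i
      have hs0 : (0 : ℝ) ≤ s (e + e₀) := Nat.cast_nonneg _
      rcases Fin.eq_castSucc_or_eq_last i with ⟨i', rfl⟩ | rfl
      · rw [hB1]
        apply Real.rpow_le_rpow_of_exponent_le hb1.le
        have h1 : (0 : ℝ) ≤ ((T : ℝ) + d + 1) * (q e : ℝ) := by positivity
        have h2 : (0 : ℝ) ≤ ((r (e + e₀) + s (e + e₀) * (i' : ℕ) : ℕ) : ℝ) + δ * s (e + e₀) := by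
          positivity
        linarith
      · rw [hB2]
        apply Real.rpow_le_rpow_of_exponent_le hb1.le
        simp only [hq]
        have h1 : (0 : ℝ) ≤ T := Nat.cast_nonneg _
        have h2 : (0 : ℝ) ≤ d := Nat.cast_nonneg _
        have h3 : ((d : ℝ) + 1) * (δ * (s (e + e₀) : ℝ)) ≤ 1 * s (e + e₀) := by
          rw [← mul_assoc, mul_comm ((d : ℝ) + 1) δ]
          exact mul_le_mul_of_nonneg_right hδle hs0
        nlinarith)
    (by
      intro e i
      have hs0 : (0 : ℝ) ≤ s (e + e₀) := Nat.cast_nonneg _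
      rcases Fin.eq_castSucc_or_eq_last i with ⟨i', rfl⟩ | rfl
      · rw [hB1]
        apply Real.rpow_le_rpow_of_exponent_le hb1.le
        have h1 := hexb e i'
        simp only [hq]
        nlinarith
      · rw [hB2]
        apply Real.rpow_le_rpow_of_exponent_le hb1.le
        have h1 : (0 : ℝ) ≤ ((T : ℝ) + d + 1) * (q e : ℝ) := by positivity
        have h2 : (0 : ℝ) ≤ ((d : ℝ) + 1) * (δ * (s (e + e₀) : ℝ)) := by positivity
        linarith)
    x
    (by
      intro e h0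
      have h1 := congrFun h0 (Fin.castSucc 0)
      rw [hx1] at h1
      have h2 : (b : ℤ) ≠ 0 := by exact_mod_cast (by omega : b ≠ 0)
      exact pow_ne_zero _ h2 h1)
    (by
      intro e j
      rcases Fin.eq_castSucc_or_eq_last j with ⟨j', rfl⟩ | rfl
      · rw [hex1, hx1]
      · rw [hex2, pow_zero]
        exact one_dvd _)
    (by
      intro e i
      have hs0 : (0 : ℝ) ≤ s (e + e₀) := Nat.cast_nonneg _
      rcases Fin.eq_castSucc_or_eq_last i with ⟨i', rfl⟩ | rfl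
      · rw [hB1, ← Real.rpow_add hb0]
        simp only [hL1, ite_mul, one_mul, zero_mul, Finset.sum_ite_eq', mem_univ, if_true, hx1]
        push_cast
        rw [abs_of_pos (by positivity), ← Real.rpow_natCast]
        apply le_of_eq
        congr 1
        simp only [hq]
        push_cast
        ring
      · rw [hB2, ← Real.rpow_add hb0, Fin.sum_univ_castSucc, hL3, hx2]
        simp only [hL2, hx1]
        have h1 : ∑ j : Fin (d + 1), (c j : ℝ) * ((v : ℝ) * ξ) *
            (((b : ℤ) ^ (r (e + e₀) + s (e + e₀) * (j : ℕ)) : ℤ) : ℝ) + -(v : ℝ) * (p (e + e₀) : ℝ) =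
            (v : ℝ) * ((∑ j, (c j : ℝ) * (b : ℝ) ^ (r (e + e₀) + s (e + e₀) * (j : ℕ))) * ξ -
              p (e + e₀)) := by
          rw [mul_sub, Finset.sum_mul, Finset.mul_sum]
          congr 1
          · refine Finset.sum_congr rfl fun j _ => ?_
            push_cast
            ring
          · ring
        rw [h1, abs_mul, abs_of_nonneg (Nat.cast_nonneg v : (0 : ℝ) ≤ v)]
        have h2 := mul_le_mul_of_nonneg_left (h (e + e₀)) (Nat.cast_nonneg v : (0 : ℝ) ≤ v)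
        refine h2.trans ?_
        rw [← mul_assoc]
        have h3 := mul_le_mul_of_nonneg_right (he₀ (e + e₀) (Nat.le_add_left _ _))
          (Real.rpow_pos_of_pos hb0 (-(s (e + e₀) : ℝ))).le
        refine h3.trans ?_
        rw [← Real.rpow_add hb0]
        apply le_of_eq
        congr 1
        simp only [hq]
        have h4 : ((d : ℝ) + 1) * (δ * (s (e + e₀) : ℝ)) + δ * s (e + e₀) =
            (δ * ((d : ℝ) + 2)) * s (e + e₀) := by ring
        have h5 : -(((d : ℝ) + 1) * (δ * (s (e + e₀) : ℝ))) + -(δ * s (e + e₀)) =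
            -((δ * ((d : ℝ) + 2)) * s (e + e₀)) := by linarith
        rw [h5, hδ1]
        ring)
  obtain ⟨z, hz0, hz⟩ := key
  -- the relation polynomial
  set zl : ℤ := z (Fin.last _) with hzl
  have hg := coeff_zero_of_small b hb d (fun j => (zl : ℝ) * (c j * ξ) + z j.castSucc)
    (|(zl : ℝ)| * C) (fun e => s (e + e₀)) (fun a b hab => hs (by omega)) (by
      refine hz.mono fun e he => ?_
      have h1 := congrArg (Int.cast : ℤ → ℝ) he
      rw [Fin.sum_univ_castSucc, hx2, ← hzl] at h1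
      simp only [hx1] at h1
      push_cast at h1
      have hbr : (0 : ℝ) < (b : ℝ) ^ (r (e + e₀)) := by positivity
      have hbr1 : (1 : ℝ) ≤ (b : ℝ) ^ (r (e + e₀)) := one_le_pow₀ hb1.le
      have h2 : (b : ℝ) ^ (r (e + e₀)) * ∑ j : Fin (d + 1), ((zl : ℝ) * (c j * ξ) +
          z j.castSucc) * ((b : ℝ) ^ (s (e + e₀))) ^ (j : ℕ) = (zl : ℝ) *
          ((∑ j, (c j : ℝ) * (b : ℝ) ^ (r (e + e₀) + s (e + e₀) * (j : ℕ))) * ξ -
            p (e + e₀)) := by
        have h3 : (zl : ℝ) * (p (e + e₀) : ℝ) =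
            -∑ j : Fin (d + 1), (z j.castSucc : ℝ) *
              (b : ℝ) ^ (r (e + e₀) + s (e + e₀) * (j : ℕ)) := by linarith
        rw [mul_sub, h3, sub_neg_eq_add, Finset.sum_mul, Finset.mul_sum, Finset.mul_sum,
          ← Finset.sum_add_distrib]
        refine Finset.sum_congr rfl fun j _ => ?_
        rw [pow_add, pow_mul]
        ring
      have h4 : (b : ℝ) ^ (r (e + e₀)) * |∑ j : Fin (d + 1), ((zl : ℝ) * (c j * ξ) +
          z j.castSucc) * ((b : ℝ) ^ (s (e + e₀))) ^ (j : ℕ)| ≤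
          |(zl : ℝ)| * (C * (b : ℝ) ^ (-(s (e + e₀) : ℝ))) := by
        have h4' : ∀ y : ℝ, (b : ℝ) ^ (r (e + e₀)) * |y| = |(b : ℝ) ^ (r (e + e₀)) * y| := by
          intro y
          rw [abs_mul, abs_of_pos hbr]
        rw [h4', h2, abs_mul]
        exact mul_le_mul_of_nonneg_left (h _) (abs_nonneg _)
      have h5 : |∑ j : Fin (d + 1), ((zl : ℝ) * (c j * ξ) +
          z j.castSucc) * ((b : ℝ) ^ (s (e + e₀))) ^ (j : ℕ)| ≤
          |(zl : ℝ)| * (C * (b : ℝ) ^ (-(s (e + e₀) : ℝ))) :=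
        (le_mul_of_one_le_left (abs_nonneg _) hbr1).trans h4
      have h6 := mul_le_mul_of_nonneg_right h5
        (by positivity : (0 : ℝ) ≤ (b : ℝ) ^ (s (e + e₀)))
      refine h6.trans (le_of_eq ?_)
      have h7 : (b : ℝ) ^ (-(s (e + e₀) : ℝ)) * (b : ℝ) ^ (s (e + e₀)) = 1 := by
        rw [← Real.rpow_natCast, ← Real.rpow_add hb0, neg_add_cancel, Real.rpow_zero]
      linear_combination (|(zl : ℝ)| * C) * h7)
  by_cases hzl0 : zl = 0
  · apply hz0
    funext i
    rcases Fin.eq_castSucc_or_eq_last i with ⟨i', rfl⟩ | rfl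
    · have h1 := hg i'
      simp only [hzl0, Int.cast_zero, zero_mul, zero_add] at h1
      exact_mod_cast h1
    · exact hzl0
  · obtain ⟨j, hj⟩ : ∃ j, c j ≠ 0 := by
      by_contra hcon
      push Not at hcon
      exact hc (funext hcon)
    have h1 := hg j
    apply hirr
    refine ⟨-(z j.castSucc : ℚ) / ((zl : ℚ) * (c j : ℚ)), ?_⟩
    push_cast
    have h2 : (zl : ℝ) ≠ 0 := by exact_mod_cast hzl0
    have h3 : (c j : ℝ) ≠ 0 := by exact_mod_cast hj
    rw [div_eq_iff (mul_ne_zero h2 h3)]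
    linarith

end Pool.Agent.Sub
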