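import Pool.Agent.Lib_MP_10b5ac_nt.Defs

set_option autoImplicit false

/-! MP_10b5ac_nt, piece B1: Gauss lemma in one variable. -/

namespace Pool.Agent.Sub

open Polynomial in
theorem one_var (W : Polynomial ℤ) (hW : W ≠ 0) (p q : ℤ) (hpq : IsCoprime p q) (hq : q ≠ 0)
    (k : ℕ) (hk : ∀ i < k, Polynomial.eval ((p : ℚ) / q)
      (Polynomial.hasseDeriv i (W.map (Int.castRingHom ℚ))) = 0) :
    ((max |p| |q| : ℤ) : ℝ) ^ k ≤ ∑ i ∈ W.support, |(W.coeff i : ℝ)| := by
  have hq' : (q : ℚ) ≠ 0 := by exact_mod_cast hq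
  -- the linear polynomial
  obtain ⟨l, hl⟩ : ∃ l : ℤ[X], l = C q * X - C p := ⟨_, rfl⟩
  have hlc0 : l.coeff 0 = -p := by
    rw [hl, coeff_sub, mul_coeff_zero, coeff_X_zero, mul_zero, coeff_C_zero, zero_sub]
  have hlc1 : l.coeff 1 = q := by
    rw [hl, coeff_sub, coeff_C_mul, coeff_X_one, coeff_C_succ, mul_one, sub_zero]
  have hl0 : l ≠ 0 := by
    intro h
    rw [h, coeff_zero] at hlc1
    exact hq hlc1.symm
  have hlprim : l.IsPrimitive := by
    rw [isPrimitive_iff_isUnit_of_C_dvd]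
    intro r hr
    rw [C_dvd_iff_dvd_coeff] at hr
    have h0 := hr 0
    have h1 := hr 1
    rw [hlc0] at h0
    rw [hlc1] at h1
    exact hpq.isUnit_of_dvd' ((dvd_neg).1 h0) h1
  have hlkprim : ∀ j, (l ^ j).IsPrimitive := by
    intro j
    induction j with
    | zero => rw [pow_zero]; exact isPrimitive_one
    | succ j ih => rw [pow_succ]; exact ih.mul hlprim
  have hdvdQ : (l ^ k).map (Int.castRingHom ℚ) ∣ W.map (Int.castRingHom ℚ) := by
    have h1 : (X - C ((p : ℚ) / q)) ^ k ∣ W.map (Int.castRingHom ℚ) := by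
      rw [X_sub_C_pow_dvd_iff]
      have h2 : (W.map (Int.castRingHom ℚ)).comp (X + C ((p : ℚ) / q)) =
          taylor ((p : ℚ) / q) (W.map (Int.castRingHom ℚ)) := (taylor_apply _ _).symm
      rw [h2, X_pow_dvd_iff]
      intro d hd
      rw [taylor_coeff]
      exact hk d hd
    have h2 : (l ^ k).map (Int.castRingHom ℚ) = C ((q : ℚ) ^ k) * (X - C ((p : ℚ) / q)) ^ k := by
      rw [Polynomial.map_pow, C_pow, ← mul_pow]
      congr 1
      rw [hl, Polynomial.map_sub, Polynomial.map_mul, Polynomial.map_X, Polynomial.map_C,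
        Polynomial.map_C, mul_sub, ← C_mul, mul_div_cancel₀ _ hq']
      rfl
    rw [h2]
    obtain ⟨Z, hZ⟩ := h1
    refine ⟨C (((q : ℚ) ^ k)⁻¹) * Z, ?_⟩
    have h3 : C ((q : ℚ) ^ k) * (X - C ((p : ℚ) / q)) ^ k * (C (((q : ℚ) ^ k)⁻¹) * Z) =
        (C ((q : ℚ) ^ k) * C (((q : ℚ) ^ k)⁻¹)) * ((X - C ((p : ℚ) / q)) ^ k * Z) := by ring
    rw [h3, ← C_mul, mul_inv_cancel₀ (pow_ne_zero _ hq'), C_1, one_mul]
    exact hZ
  have hdvd : l ^ k ∣ W :=
    (IsPrimitive.Int.dvd_iff_map_cast_dvd_map_cast _ _ (hlkprim k)).2 hdvdQ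
  obtain ⟨V, hV⟩ := hdvd
  have hV0 : V ≠ 0 := by rintro rfl; rw [mul_zero] at hV; exact hW hV
  have hbound : ∀ i, W.coeff i ≠ 0 → |(W.coeff i : ℝ)| ≤ ∑ i ∈ W.support, |(W.coeff i : ℝ)| :=
    fun i hi => Finset.single_le_sum (f := fun i => |(W.coeff i : ℝ)|)
      (fun _ _ => abs_nonneg _) (mem_support_iff.2 hi)
  have hqk : (|q| : ℝ) ^ k ≤ ∑ i ∈ W.support, |(W.coeff i : ℝ)| := by
    have h1 : W.leadingCoeff = q ^ k * V.leadingCoeff := by
      rw [hV, leadingCoeff_mul, leadingCoeff_pow]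
      congr 2
      have hdeg : l.natDegree = 1 := by
        rw [hl, sub_eq_add_neg, ← C_neg]
        exact natDegree_linear hq
      rw [leadingCoeff, hdeg, hlc1]
    have h2 : |(W.leadingCoeff : ℝ)| ≤ ∑ i ∈ W.support, |(W.coeff i : ℝ)| :=
      hbound _ (leadingCoeff_ne_zero.2 hW)
    refine le_trans ?_ h2
    rw [h1]
    push_cast
    rw [abs_mul, abs_pow]
    have h3 : (1 : ℝ) ≤ |(V.leadingCoeff : ℝ)| := by
      have := Int.one_le_abs (leadingCoeff_ne_zero.2 hV0)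
      exact_mod_cast this
    nlinarith [pow_nonneg (abs_nonneg (q : ℝ)) k]
  have hpk : p ≠ 0 → (|p| : ℝ) ^ k ≤ ∑ i ∈ W.support, |(W.coeff i : ℝ)| := by
    intro hp
    have htl : l.trailingCoeff = -p := by
      rw [trailingCoeff_eq_coeff_zero (by rw [hlc0]; exact neg_ne_zero.2 hp), hlc0]
    have htk : ∀ j, (l ^ j).trailingCoeff = (-p) ^ j := by
      intro j
      induction j with
      | zero =>
        rw [pow_zero, pow_zero, trailingCoeff_eq_coeff_zero (by rw [coeff_one_zero]; exact one_ne_zero),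
          coeff_one_zero]
      | succ j ih => rw [pow_succ, trailingCoeff_mul, ih, htl, pow_succ]
    have h1 : W.trailingCoeff = (-p) ^ k * V.trailingCoeff := by
      rw [hV, trailingCoeff_mul, htk]
    have h2 : |(W.trailingCoeff : ℝ)| ≤ ∑ i ∈ W.support, |(W.coeff i : ℝ)| :=
      hbound _ (trailingCoeff_nonzero_iff_nonzero.2 hW)
    refine le_trans ?_ h2
    rw [h1]
    push_cast
    rw [abs_mul, abs_pow, abs_neg]
    have h3 : (1 : ℝ) ≤ |(V.trailingCoeff : ℝ)| := by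
      have := Int.one_le_abs (trailingCoeff_nonzero_iff_nonzero.2 hV0)
      exact_mod_cast this
    nlinarith [pow_nonneg (abs_nonneg (p : ℝ)) k]
  rcases le_total |p| |q| with h | h
  · rw [max_eq_right h]
    push_cast
    exact hqk
  · rw [max_eq_left h]
    push_cast
    apply hpk
    rintro rfl
    rw [abs_zero] at h
    exact hq (abs_eq_zero.1 (le_antisymm h (abs_nonneg q)))

end Pool.Agent.Sub
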