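import Pool.Agent.Lib_MP_10b5ac_nt.Grid

set_option autoImplicit false

/-! Piece C2: from grids to subspaces. -/

namespace Pool.Agent.Sub

open MvPolynomial Finset

section
variable {m N N' : ℕ}

/-- block weight -/
def bw (m N : ℕ) : Fin m × Fin N → (Fin m → ℕ) := fun s => Pi.single s.1 1

theorem weight_bw (I : Fin m × Fin N →₀ ℕ) (h : Fin m) :
    Finsupp.weight (bw m N) I h = ∑ j, I (h, j) := by
  classical
  have h0 : Finsupp.weight (bw m N) I = ∑ s, I s • bw m N s := by
    rw [Finsupp.weight_apply, Finsupp.sum_fintype _ _ (fun i => zero_smul ℕ (bw m N i))]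
  rw [h0, Finset.sum_apply, Fintype.sum_prod_type]
  simp only [bw, Pi.smul_apply, smul_eq_mul, Pi.single_apply, mul_ite, mul_one, mul_zero]
  rw [Finset.sum_eq_single h]
  · simp
  · intro b _ hb
    simp [Ne.symm hb]
  · intro hh
    exact absurd (Finset.mem_univ h) hh

/-- the linear forms -/
noncomputable def lf (g : Fin m → Fin N' → Fin N → ℤ) (s : Fin m × Fin N) :
    MvPolynomial (Fin m × Fin N') ℚ :=
  ∑ l, C (g s.1 l s.2 : ℚ) * X (s.1, l)

theorem lf_hom (g : Fin m → Fin N' → Fin N → ℤ) (s : Fin m × Fin N) :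
    IsWeightedHomogeneous (bw m N') (lf g s) (bw m N s) := by
  unfold lf
  apply IsWeightedHomogeneous.sum
  intro l _
  have h1 := (isWeightedHomogeneous_C (bw m N') (g s.1 l s.2 : ℚ)).mul
    (isWeightedHomogeneous_X ℚ (bw m N') (s.1, l))
  rw [zero_add] at h1
  exact h1

theorem prod_lf_hom (g : Fin m → Fin N' → Fin N → ℤ) (k : Fin m × Fin N →₀ ℕ) :
    IsWeightedHomogeneous (bw m N') (k.prod fun s e => lf g s ^ e)
      (Finsupp.weight (bw m N) k) := by
  rw [Finsupp.weight_apply]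
  exact IsWeightedHomogeneous.prod _ _ _ (fun s _ => (lf_hom g s).pow _)

/-- coefficient of the substituted polynomial -/
theorem coeff_bind_lf (g : Fin m → Fin N' → Fin N → ℤ) (Q : MvPolynomial (Fin m × Fin N) ℚ)
    (κ : Fin m × Fin N' →₀ ℕ) (hne : coeff κ (bind₁ (lf g) Q) ≠ 0) :
    ∃ k ∈ Q.support, ∀ h, ∑ j, k (h, j) = ∑ l, κ (h, l) := by
  classical
  rw [bind₁, aeval_def, eval₂_eq, coeff_sum] at hne
  obtain ⟨k, hk, hk'⟩ := Finset.exists_ne_zero_of_sum_ne_zero hne
  refine ⟨k, hk, ?_⟩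
  rw [algebraMap_eq, coeff_C_mul] at hk'
  have h1 := prod_lf_hom g k (right_ne_zero_of_mul hk')
  intro h
  have h2 := congrFun h1 h
  rw [weight_bw, weight_bw] at h2
  exact h2.symm

theorem tay_bind_lf (g : Fin m → Fin N' → Fin N → ℤ) (Q : MvPolynomial (Fin m × Fin N) ℚ)
    (c : Fin m × Fin N' → ℚ) :
    tay c (bind₁ (lf g) Q) =
      bind₁ (lf g) (tay (fun s : Fin m × Fin N => ∑ l, c (s.1, l) * (g s.1 l s.2 : ℚ)) Q) := by
  unfold tay
  rw [bind₁_bind₁, bind₁_bind₁]
  congr 1
  congr 1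
  funext s
  rw [map_add, bind₁_C_right, bind₁_X_right]
  unfold lf
  rw [map_sum, map_sum, ← Finset.sum_add_distrib]
  apply Finset.sum_congr rfl
  intro l _
  rw [map_mul, bind₁_C_right, bind₁_X_right, mul_add, ← C_mul, mul_comm (c (s.1, l))]

end

theorem vanish_on_V {m N N' : ℕ} (r : Fin m → ℕ) (hr : ∀ h, 1 ≤ r h)
    (P : MvPolynomial (Fin m × Fin N) ℤ) (hP : BlockHom r P) (g : Fin m → Fin N' → Fin N → ℤ)
    (A : ℕ) (τ : Fin m → ℕ) (hτ : ∀ h, r h < (A + 1) * (τ h + 1)) (t : ℝ)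
    (h : ∀ c : Fin m → Fin N' → ℕ, (∀ h l, c h l ≤ A) → ∀ k : Fin m × Fin N →₀ ℕ,
      wt r k ≤ t + ∑ h, (N' : ℝ) * τ h / r h →
      coeff k (tay (fun s : Fin m × Fin N => ∑ l, (c s.1 l : ℤ) * g s.1 l s.2) P) = 0) :
    ∀ k : Fin m × Fin N →₀ ℕ, wt r k ≤ t → ∀ z : Fin m → Fin N' → ℚ,
      coeff k (tay (fun s : Fin m × Fin N => ∑ l, z s.1 l * (g s.1 l s.2 : ℚ)) (toQ P)) = 0 := by
  classical
  intro k hk z
  have hG : bind₁ (lf g) (hd k (toQ P)) = 0 := by
    apply grid_vanish _ A (fun s => τ s.1) (fun s => r s.1)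
    · intro s
      rw [degreeOf_le_iff]
      intro κ hκ
      obtain ⟨k', hk', he⟩ := coeff_bind_lf g _ κ (mem_support_iff.mp hκ)
      have h1 : κ s ≤ ∑ l, κ (s.1, l) := by
        have : κ s = κ (s.1, s.2) := rfl
        rw [this]
        exact Finset.single_le_sum (f := fun l => κ (s.1, l)) (fun _ _ => Nat.zero_le _)
          (Finset.mem_univ s.2)
      refine h1.trans ?_
      rw [← he s.1]
      -- k' = I - k
      have h2 : ∃ I ∈ P.support, k' = I - k := by
        have h3 : coeff k' (hd k (toQ P)) ≠ 0 := mem_support_iff.mp hk'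
        unfold hd at h3
        rw [coeff_sum] at h3
        obtain ⟨I, hI, hI'⟩ := Finset.exists_ne_zero_of_sum_ne_zero h3
        refine ⟨I, support_map_subset _ _ hI, ?_⟩
        rw [coeff_monomial] at hI'
        by_contra hcon
        exact hI' (if_neg (fun e => hcon e.symm))
      obtain ⟨I, hI, rfl⟩ := h2
      rw [← hP I hI s.1]
      apply Finset.sum_le_sum
      intro j _
      rw [Finsupp.tsub_apply]
      exact Nat.sub_le _ _
    · intro s
      exact hτ s.1
    · intro c hc κ hκ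
      rw [tay_bind_lf]
      by_contra hne
      obtain ⟨k', hk', he⟩ := coeff_bind_lf g _ κ hne
      rw [mem_support_iff] at hk'
      apply hk'
      rw [coeff_tay_hd]
      have h1 : coeff (k + k') (tay (fun s : Fin m × Fin N =>
          ∑ l, (c (s.1, l) : ℤ) * g s.1 l s.2) P) = 0 := by
        apply h (fun h l => c (h, l)) (fun h l => hc (h, l))
        have h2 : wt r (k + k') = wt r k + ∑ h, (∑ j, (k' (h, j) : ℝ)) / (r h : ℝ) := by
          unfold wt
          rw [← Finset.sum_add_distrib]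
          apply Finset.sum_congr rfl
          intro h _
          rw [← add_div, ← Finset.sum_add_distrib]
          simp only [Finsupp.add_apply, Nat.cast_add]
        rw [h2]
        apply add_le_add hk
        apply Finset.sum_le_sum
        intro h _
        apply div_le_div_of_nonneg_right _ (Nat.cast_nonneg _)
        have h3 : (∑ j, (k' (h, j) : ℝ)) = ((∑ l, κ (h, l) : ℕ) : ℝ) := by
          rw [← he h]
          push_cast
          rfl
        rw [h3]
        have h4 : ∑ l, κ (h, l) ≤ N' * τ h := by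
          calc ∑ l, κ (h, l) ≤ ∑ _l : Fin N', τ h := Finset.sum_le_sum (fun l _ => hκ (h, l))
            _ = N' * τ h := by simp
        calc ((∑ l, κ (h, l) : ℕ) : ℝ) ≤ ((N' * τ h : ℕ) : ℝ) := by exact_mod_cast h4
          _ = (N' : ℝ) * τ h := by push_cast; rfl
      have h5 : tay (fun s : Fin m × Fin N => ∑ l, ((c (s.1, l) : ℕ) : ℚ) * (g s.1 l s.2 : ℚ)) (toQ P)
          = map (Int.castRingHom ℚ) (tay (fun s : Fin m × Fin N =>
          ∑ l, (c (s.1, l) : ℤ) * g s.1 l s.2) P) := by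
        rw [← tay_map]
        congr 1
        funext s
        simp
      rw [h5, coeff_map, h1, map_zero, mul_zero]
  have h1 : eval (fun s : Fin m × Fin N' => z s.1 s.2) (bind₁ (lf g) (hd k (toQ P))) = 0 := by
    rw [hG, map_zero]
  rw [← eval_hd]
  rw [← h1]
  have h2 : (eval (fun s : Fin m × Fin N' => z s.1 s.2)) (bind₁ (lf g) (hd k (toQ P)))
      = eval (fun s => eval (fun s : Fin m × Fin N' => z s.1 s.2) (lf g s)) (hd k (toQ P)) := by
    rw [eval, eval₂Hom_bind₁]
    rfl
  rw [h2]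
  congr 2
  funext s
  unfold lf
  rw [map_sum]
  apply Finset.sum_congr rfl
  intro l _
  rw [map_mul, eval_C, eval_X, mul_comm]

end Pool.Agent.Sub
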