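import Mathlib
import Pool.Agent.Lib_MP_10b5ac_nt.AuxPoly
import Pool.Agent.Lib_MP_10b5ac_nt.GenRoth
import Pool.Agent.Lib_MP_10b5ac_nt.KeyVanish
import Pool.Agent.Lib_MP_10b5ac_nt.VanishV

set_option autoImplicit false

/-! Piece D1 (helper89): the Roth machine. -/

namespace Pool.Agent.Sub

open MvPolynomial Finset

/-! ### block homogeneity of linear substitutions -/

theorem rm_weight {m N : ℕ} (h : Fin m) (I : Fin m × Fin N →₀ ℕ) :
    Finsupp.weight (fun s : Fin m × Fin N => if s.1 = h then 1 else 0) I = ∑ j, I (h, j) := by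
  rw [Finsupp.weight_apply, Finsupp.sum_fintype _ _ (by simp), Fintype.sum_prod_type,
    Finset.sum_eq_single h]
  · simp
  · intro b _ hb
    simp [hb]
  · intro h'; exact absurd (Finset.mem_univ h) h'

theorem rm_blockHom_iff {m N : ℕ} {R : Type*} [CommSemiring R] (r : Fin m → ℕ)
    (P : MvPolynomial (Fin m × Fin N) R) : BlockHom r P ↔
      ∀ h, IsWeightedHomogeneous (fun s : Fin m × Fin N => if s.1 = h then 1 else 0) P (r h) := by
  constructor
  · intro hP h I hI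
    rw [rm_weight]
    exact hP I (mem_support_iff.mpr hI) h
  · intro hP I hI h
    rw [← rm_weight]
    exact hP h (mem_support_iff.mp hI)

theorem rm_blockHom_map {m N : ℕ} (r : Fin m → ℕ) (P : MvPolynomial (Fin m × Fin N) ℤ)
    (hP : BlockHom r P) : BlockHom r (toR P) := by
  intro I hI h
  exact hP I (support_map_subset _ _ hI) h

theorem rm_blockHom_lsub {m N : ℕ} {R : Type*} [CommRing R] (A : Matrix (Fin N) (Fin N) R)
    (r : Fin m → ℕ) (P : MvPolynomial (Fin m × Fin N) R) (hP : BlockHom r P) :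
    BlockHom r (lsub A P) := by
  rw [rm_blockHom_iff]
  intro h
  unfold lsub
  rw [bind₁, aeval_def, eval₂_eq']
  apply IsWeightedHomogeneous.sum
  intro I hI
  have h1 : ∏ s, (∑ i, C (A s.2 i) * X (s.1, i) : MvPolynomial (Fin m × Fin N) R) ^ I s =
      ∏ s, (∑ i, C (A s.2 i) * X (s.1, i) : MvPolynomial (Fin m × Fin N) R) ^ I s := rfl
  have h2 : IsWeightedHomogeneous (fun s : Fin m × Fin N => if s.1 = h then 1 else 0)
      (∏ s, (∑ i, C (A s.2 i) * X (s.1, i) : MvPolynomial (Fin m × Fin N) R) ^ I s)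
      (∑ s : Fin m × Fin N, I s • (if s.1 = h then 1 else 0)) := by
    apply IsWeightedHomogeneous.prod
    intro s _
    apply IsWeightedHomogeneous.pow
    apply IsWeightedHomogeneous.sum
    intro i _
    have h3 := (isWeightedHomogeneous_C (fun s : Fin m × Fin N => if s.1 = h then 1 else 0)
      (A s.2 i)).mul (isWeightedHomogeneous_X R
        (fun s : Fin m × Fin N => if s.1 = h then 1 else 0) (s.1, i))
    rw [zero_add] at h3
    exact h3
  have h4 : (∑ s : Fin m × Fin N, I s • (if s.1 = h then 1 else 0)) = r h := by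
    rw [Fintype.sum_prod_type, Finset.sum_eq_single h]
    · simp only [if_true, smul_eq_mul, mul_one]
      exact hP I hI h
    · intro b _ hb
      simp [hb]
    · intro h'; exact absurd (Finset.mem_univ h) h'
  rw [h4] at h2
  have h5 := (isWeightedHomogeneous_C (σ := Fin m × Fin N)
    (fun s : Fin m × Fin N => if s.1 = h then 1 else 0) (coeff I P)).mul h2
  rw [zero_add] at h5
  exact h5

/-! ### hyperplanes -/

theorem rm_hyperplane {N : ℕ} (a : Fin N → ℤ) (ha : a ≠ 0) (g : Fin (N - 1) → Fin N → ℤ)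
    (hli : LinearIndependent ℚ (fun l => cv (g l))) (hag : ∀ l, ∑ j, a j * g l j = 0)
    (x : Fin N → ℚ) (hx : ∑ j, (a j : ℚ) * x j = 0) :
    ∃ z : Fin (N - 1) → ℚ, ∀ j, x j = ∑ l, z l * (g l j : ℚ) := by
  set φ : Module.Dual ℚ (Fin N → ℚ) := ∑ j, (a j : ℚ) • LinearMap.proj j with hφ
  have hφa : ∀ y, φ y = ∑ j, (a j : ℚ) * y j := by
    intro y
    rw [hφ, LinearMap.sum_apply]
    rfl
  have hφ0 : φ ≠ 0 := by
    intro h0
    apply ha
    funext j
    have h1 := hφa (Pi.single j 1)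
    rw [h0] at h1
    simp [Pi.single_apply] at h1
    have h2 : (a j : ℚ) = 0 := h1.symm
    exact_mod_cast h2
  have hfr := Module.Dual.finrank_ker_add_one_of_ne_zero hφ0
  rw [Module.finrank_fin_fun] at hfr
  have hsub : Submodule.span ℚ (Set.range (fun l => cv (g l))) = LinearMap.ker φ := by
    apply Submodule.eq_of_le_of_finrank_le
    · rw [Submodule.span_le]
      rintro _ ⟨l, rfl⟩
      rw [SetLike.mem_coe, LinearMap.mem_ker, hφa]
      have h1 := hag l
      change ∑ j, (a j : ℚ) * (g l j : ℚ) = 0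
      exact_mod_cast h1
    · rw [finrank_span_eq_card hli, Fintype.card_fin]
      omega
  have hxk : x ∈ Submodule.span ℚ (Set.range (fun l => cv (g l))) := by
    rw [hsub, LinearMap.mem_ker, hφa, hx]
  rw [Submodule.mem_span_range_iff_exists_fun] at hxk
  obtain ⟨z, hz⟩ := hxk
  refine ⟨z, fun j => ?_⟩
  rw [← hz, Finset.sum_apply]
  rfl

/-! ### the two exponent estimates -/

theorem rm_lower {m N : ℕ} (r q : Fin m → ℕ) (R ε η : ℝ) (hr : ∀ h, 1 ≤ r h)
    (hR : 0 ≤ R) (hη : 0 ≤ η) (h1 : ∀ h, R ≤ q h * r h) (h2 : ∀ h, (q h : ℝ) * r h ≤ 2 * R)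
    (ν : Fin N → ℝ) (hν : ∀ j, 0 ≤ ν j) (n : Fin m → Fin N → ℕ)
    (hn : ∀ h j, |(n h j : ℝ) - ν j * q h| ≤ η * q h) (I k : Fin m → Fin N → ℕ)
    (hkI : ∀ h j, k h j ≤ I h j) (hI : ∀ h, ∑ j, I h j = r h)
    (hgood : ∀ j, |∑ h, (I h j : ℝ) / (r h : ℝ) - (m : ℝ) / N| ≤ ε * m)
    (hk : ∑ h, (∑ j, (k h j : ℝ)) / (r h : ℝ) ≤ 2 * ε * m) :
    R * m * ((∑ j, ν j) / N - 3 * ε * (∑ j, ν j) - 2 * η) ≤
      ∑ h, ∑ j, (n h j : ℝ) * ((I h j : ℝ) - k h j) := by
  have hr' : ∀ h, (0 : ℝ) < r h := fun h => by exact_mod_cast hr h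
  have key : ∀ h j, R * (ν j * ((I h j : ℝ) / r h)) - R * (ν j * ((k h j : ℝ) / r h)) -
      η * (q h * I h j) ≤ (n h j : ℝ) * ((I h j : ℝ) - k h j) := by
    intro h j
    have e1 : (0 : ℝ) ≤ (I h j : ℝ) - k h j := by
      have := hkI h j
      have : (k h j : ℝ) ≤ I h j := by exact_mod_cast this
      linarith
    have e2 : ν j * q h - η * q h ≤ n h j := by
      have := (abs_le.mp (hn h j)).1
      linarith
    have e3 : (ν j * q h - η * q h) * ((I h j : ℝ) - k h j) ≤ (n h j : ℝ) * ((I h j : ℝ) - k h j) :=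
      mul_le_mul_of_nonneg_right e2 e1
    have e4 : R * ((I h j : ℝ) / r h) - R * ((k h j : ℝ) / r h) ≤ q h * ((I h j : ℝ) - k h j) := by
      have e5 : R * ((I h j : ℝ) / r h) - R * ((k h j : ℝ) / r h) = R * (((I h j : ℝ) - k h j) / r h) := by
        ring
      have e6 : (q h : ℝ) * ((I h j : ℝ) - k h j) = (q h * r h) * (((I h j : ℝ) - k h j) / r h) := by
        have := (hr' h).ne'
        field_simp
      rw [e5, e6]
      exact mul_le_mul_of_nonneg_right (h1 h) (div_nonneg e1 (hr' h).le)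
    have e7 : ν j * (R * ((I h j : ℝ) / r h) - R * ((k h j : ℝ) / r h)) ≤
        ν j * (q h * ((I h j : ℝ) - k h j)) := mul_le_mul_of_nonneg_left e4 (hν j)
    have e8 : η * (q h * ((I h j : ℝ) - k h j)) ≤ η * (q h * I h j) := by
      apply mul_le_mul_of_nonneg_left _ hη
      apply mul_le_mul_of_nonneg_left _ (Nat.cast_nonneg _)
      have : (0 : ℝ) ≤ k h j := Nat.cast_nonneg _
      linarith
    nlinarith [e3, e7, e8]
  have hsum : ∑ h, ∑ j, (R * (ν j * ((I h j : ℝ) / r h)) - R * (ν j * ((k h j : ℝ) / r h)) -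
      η * (q h * I h j)) ≤ ∑ h, ∑ j, (n h j : ℝ) * ((I h j : ℝ) - k h j) :=
    Finset.sum_le_sum (fun h _ => Finset.sum_le_sum (fun j _ => key h j))
  refine le_trans ?_ hsum
  simp only [Finset.sum_sub_distrib]
  have s1 : ∑ h, ∑ j, R * (ν j * ((I h j : ℝ) / r h)) =
      R * ∑ j, ν j * ∑ h, (I h j : ℝ) / r h := by
    rw [Finset.sum_comm, Finset.mul_sum]
    apply Finset.sum_congr rfl; intro j _
    rw [Finset.mul_sum, Finset.mul_sum]
  have s2 : ∑ h, ∑ j, R * (ν j * ((k h j : ℝ) / r h)) =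
      R * ∑ j, ν j * ∑ h, (k h j : ℝ) / r h := by
    rw [Finset.sum_comm, Finset.mul_sum]
    apply Finset.sum_congr rfl; intro j _
    rw [Finset.mul_sum, Finset.mul_sum]
  have s3 : ∑ h, ∑ j, η * ((q h : ℝ) * I h j) ≤ η * (m * (2 * R)) := by
    have : ∑ h, ∑ j, η * ((q h : ℝ) * I h j) = ∑ h, η * ((q h : ℝ) * r h) := by
      apply Finset.sum_congr rfl; intro h _
      rw [← Finset.mul_sum, ← Finset.mul_sum, ← hI h]
      push_cast; rfl
    rw [this, ← Finset.mul_sum]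
    apply mul_le_mul_of_nonneg_left _ hη
    calc ∑ h, (q h : ℝ) * r h ≤ ∑ h : Fin m, 2 * R := Finset.sum_le_sum (fun h _ => h2 h)
      _ = m * (2 * R) := by rw [Finset.sum_const, Finset.card_univ, Fintype.card_fin, nsmul_eq_mul]
  have s4 : ∀ j, (m : ℝ) / N - ε * m ≤ ∑ h, (I h j : ℝ) / r h := by
    intro j
    have := (abs_le.mp (hgood j)).1
    linarith
  have s5 : ∀ j, ∑ h, (k h j : ℝ) / r h ≤ 2 * ε * m := by
    intro j
    refine le_trans ?_ hk
    apply Finset.sum_le_sum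
    intro h _
    apply div_le_div_of_nonneg_right _ (hr' h).le
    exact Finset.single_le_sum (f := fun j => (k h j : ℝ)) (fun _ _ => Nat.cast_nonneg _)
      (Finset.mem_univ j)
  have s6 : (∑ j, ν j) * ((m : ℝ) / N - ε * m) ≤ ∑ j, ν j * ∑ h, (I h j : ℝ) / r h := by
    rw [Finset.sum_mul]
    exact Finset.sum_le_sum (fun j _ => mul_le_mul_of_nonneg_left (s4 j) (hν j))
  have s7 : ∑ j, ν j * ∑ h, (k h j : ℝ) / r h ≤ (∑ j, ν j) * (2 * ε * m) := by
    rw [Finset.sum_mul]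
    exact Finset.sum_le_sum (fun j _ => mul_le_mul_of_nonneg_left (s5 j) (hν j))
  have s8 := mul_le_mul_of_nonneg_left s6 hR
  have s9 := mul_le_mul_of_nonneg_left s7 hR
  rw [s1, s2]
  have e : R * m * ((∑ j, ν j) / N - 3 * ε * (∑ j, ν j) - 2 * η) =
    R * ((∑ j, ν j) * ((m : ℝ) / N - ε * m)) - R * ((∑ j, ν j) * (2 * ε * m)) -
      η * (m * (2 * R)) := by ring
  rw [e]
  linarith

theorem rm_upper {m N : ℕ} (r q : Fin m → ℕ) (R ε B : ℝ) (hr : ∀ h, 1 ≤ r h)
    (hR : 0 ≤ R) (hB : 0 ≤ B) (h1 : ∀ h, R ≤ q h * r h)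
    (h2 : ∀ h, (q h : ℝ) * r h ≤ R + ε * R)
    (c : Fin N → ℝ) (hc : ∀ i, |c i| ≤ B) (J k : Fin m → Fin N → ℕ)
    (hkJ : ∀ h j, k h j ≤ J h j) (hJ : ∀ h, ∑ j, J h j = r h)
    (hgood : ∀ j, |∑ h, (J h j : ℝ) / (r h : ℝ) - (m : ℝ) / N| ≤ ε * m)
    (hk : ∑ h, (∑ j, (k h j : ℝ)) / (r h : ℝ) ≤ 2 * ε * m) :
    ∑ h, ∑ j, (c j * q h) * ((J h j : ℝ) - k h j) ≤
      R * m * ((∑ j, c j) / N + B * ε * (N + 3)) := by
  have hr' : ∀ h, (0 : ℝ) < r h := fun h => by exact_mod_cast hr h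
  have key : ∀ h j, (c j * q h) * ((J h j : ℝ) - k h j) ≤
      R * (c j * ((J h j : ℝ) / r h)) + R * (B * ((k h j : ℝ) / r h)) +
      B * (ε * R) * ((J h j : ℝ) / r h) := by
    intro h j
    have e1 : (0 : ℝ) ≤ (J h j : ℝ) - k h j := by
      have := hkJ h j
      have : (k h j : ℝ) ≤ J h j := by exact_mod_cast this
      linarith
    set u : ℝ := ((J h j : ℝ) - k h j) / r h with hu
    have hu0 : 0 ≤ u := div_nonneg e1 (hr' h).le
    have e2 : (c j * q h) * ((J h j : ℝ) - k h j) = c j * (q h * r h) * u := by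
      rw [hu]
      have := (hr' h).ne'
      field_simp
    set s : ℝ := q h * r h - R with hs
    have hs0 : 0 ≤ s := by rw [hs]; linarith [h1 h]
    have hs1 : s ≤ ε * R := by rw [hs]; linarith [h2 h]
    have e3 : c j * (q h * r h) * u = c j * R * u + c j * s * u := by rw [hs]; ring
    have e4 : c j * s * u ≤ B * (ε * R) * u := by
      apply mul_le_mul_of_nonneg_right _ hu0
      calc c j * s ≤ |c j| * s := mul_le_mul_of_nonneg_right (le_abs_self _) hs0
        _ ≤ B * s := mul_le_mul_of_nonneg_right (hc j) hs0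
        _ ≤ B * (ε * R) := mul_le_mul_of_nonneg_left hs1 hB
    have e5 : u ≤ (J h j : ℝ) / r h := by
      rw [hu]
      apply div_le_div_of_nonneg_right _ (hr' h).le
      have : (0 : ℝ) ≤ k h j := Nat.cast_nonneg _
      linarith
    have e6 : B * (ε * R) * u ≤ B * (ε * R) * ((J h j : ℝ) / r h) := by
      apply mul_le_mul_of_nonneg_left e5
      exact mul_nonneg hB (le_trans hs0 hs1)
    have e7 : c j * R * u = R * (c j * ((J h j : ℝ) / r h)) - R * (c j * ((k h j : ℝ) / r h)) := by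
      rw [hu]; ring
    have e8 : - (R * (c j * ((k h j : ℝ) / r h))) ≤ R * (B * ((k h j : ℝ) / r h)) := by
      rw [← mul_neg]
      apply mul_le_mul_of_nonneg_left _ hR
      have : (0 : ℝ) ≤ (k h j : ℝ) / r h := div_nonneg (Nat.cast_nonneg _) (hr' h).le
      have h9 := (abs_le.mp (hc j)).1
      nlinarith
    rw [e2, e3, e7]
    linarith
  have hsum : ∑ h, ∑ j, (c j * q h) * ((J h j : ℝ) - k h j) ≤
      ∑ h, ∑ j, (R * (c j * ((J h j : ℝ) / r h)) + R * (B * ((k h j : ℝ) / r h)) +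
      B * (ε * R) * ((J h j : ℝ) / r h)) :=
    Finset.sum_le_sum (fun h _ => Finset.sum_le_sum (fun j _ => key h j))
  refine le_trans hsum ?_
  simp only [Finset.sum_add_distrib]
  have s1 : ∑ h, ∑ j, R * (c j * ((J h j : ℝ) / r h)) =
      R * ∑ j, c j * ∑ h, (J h j : ℝ) / r h := by
    rw [Finset.sum_comm, Finset.mul_sum]
    apply Finset.sum_congr rfl; intro j _
    rw [Finset.mul_sum, Finset.mul_sum]
  have s2 : ∑ h, ∑ j, R * (B * ((k h j : ℝ) / r h)) ≤ R * (B * (2 * ε * m)) := by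
    have : ∑ h, ∑ j, R * (B * ((k h j : ℝ) / r h)) =
        R * (B * ∑ h, (∑ j, (k h j : ℝ)) / (r h : ℝ)) := by
      simp only [Finset.mul_sum, Finset.sum_div]
    rw [this]
    exact mul_le_mul_of_nonneg_left (mul_le_mul_of_nonneg_left hk hB) hR
  have s3 : ∑ h, ∑ j, B * (ε * R) * ((J h j : ℝ) / r h) = B * (ε * R) * m := by
    have : ∀ h, ∑ j, B * (ε * R) * ((J h j : ℝ) / r h) = B * (ε * R) := by
      intro h
      rw [← Finset.mul_sum, ← Finset.sum_div]
      have e : ∑ j, (J h j : ℝ) = r h := by rw [← hJ h]; push_cast; rfl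
      rw [e, div_self (hr' h).ne', mul_one]
    simp only [this]
    rw [Finset.sum_const, Finset.card_univ, Fintype.card_fin, nsmul_eq_mul]
    ring
  have s4 : ∑ j, c j * ∑ h, (J h j : ℝ) / r h ≤ (∑ j, c j) * ((m : ℝ) / N) + N * (B * (ε * m)) := by
    have e : ∀ j, c j * ∑ h, (J h j : ℝ) / r h ≤ c j * ((m : ℝ) / N) + B * (ε * m) := by
      intro j
      have e1 : c j * ∑ h, (J h j : ℝ) / r h = c j * ((m : ℝ) / N) +
          c j * (∑ h, (J h j : ℝ) / r h - (m : ℝ) / N) := by ring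
      rw [e1]
      have e2 : c j * (∑ h, (J h j : ℝ) / r h - (m : ℝ) / N) ≤ B * (ε * m) := by
        calc c j * (∑ h, (J h j : ℝ) / r h - (m : ℝ) / N)
            ≤ |c j * (∑ h, (J h j : ℝ) / r h - (m : ℝ) / N)| := le_abs_self _
          _ = |c j| * |∑ h, (J h j : ℝ) / r h - (m : ℝ) / N| := abs_mul _ _
          _ ≤ B * (ε * m) := mul_le_mul (hc j) (hgood j) (abs_nonneg _) hB
      linarith
    calc ∑ j, c j * ∑ h, (J h j : ℝ) / r h ≤ ∑ j, (c j * ((m : ℝ) / N) + B * (ε * m)) :=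
          Finset.sum_le_sum (fun j _ => e j)
      _ = (∑ j, c j) * ((m : ℝ) / N) + N * (B * (ε * m)) := by
          rw [Finset.sum_add_distrib, ← Finset.sum_mul, Finset.sum_const, Finset.card_univ,
            Fintype.card_fin, nsmul_eq_mul]
  have s5 := mul_le_mul_of_nonneg_left s4 hR
  rw [s1, s3]
  have e : R * m * ((∑ j, c j) / N + B * ε * (N + 3)) =
      R * ((∑ j, c j) * ((m : ℝ) / N) + N * (B * (ε * m))) + R * (B * (2 * ε * m)) +
      B * (ε * R) * m := by ring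
  rw [e]
  linarith

/-! ### the machine -/

theorem roth_machine {θ : ℝ} {D : ℕ} {C₀ : ℝ} (hA : AlgData θ D C₀) (b N : ℕ) (hb : 2 ≤ b)
    (hN : 2 ≤ N) (L : Matrix (Fin N) (Fin N) ℝ) (hL : L.det ≠ 0) (M : ℝ) (hM : 1 ≤ M)
    (hLr : ∀ i j, Rep θ D M (L i j)) (ν β : Fin N → ℝ) (hν : ∀ j, 0 ≤ ν j)
    (hsum : ∑ i, β i ≤ ∑ j, ν j) (δ : ℝ) (hδ : 0 < δ) (η' : ℝ) (hη' : 0 < η') :
    ∃ η : ℝ, 0 < η ∧ ∃ (κ q₀ : ℝ) (m : ℕ), 
      ∀ (q : Fin m → ℕ) (n : Fin m → Fin N → ℕ) (g : Fin m → Fin (N - 1) → Fin N → ℤ)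
        (a : Fin m → Fin N → ℤ),
        (∀ h, q₀ ≤ q h) → (∀ h h', h < h' → κ * q h' ≤ q h) →
        (∀ h j, |(n h j : ℝ) - ν j * q h| ≤ η * q h) →
        (∀ h l j, ((b : ℤ) ^ n h j) ∣ g h l j) →
        (∀ h l i, |∑ j, L i j * (g h l j : ℝ)| ≤ (b : ℝ) ^ ((β i - δ) * (q h : ℝ))) →
        (∀ h, LinearIndependent ℚ (fun l => cv (g h l))) →
        (∀ h, Finset.univ.gcd (a h) = 1) → (∀ h l, ∑ j, a h j * g h l j = 0) →
        (∀ h, ∃ j, (b : ℝ) ^ (η' * (q h : ℝ)) ≤ |(a h j : ℝ)|) → False := by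
  classical
  have hN1 : 1 ≤ N := by omega
  have hNr : (0 : ℝ) < N := by exact_mod_cast hN1
  have hNr1 : (1 : ℝ) ≤ N := by exact_mod_cast hN1
  have hb1 : (1 : ℝ) < b := by exact_mod_cast (by omega : 1 < b)
  have hb0 : (0 : ℝ) < b := by linarith
  have hsν : 0 ≤ ∑ j, ν j := Finset.sum_nonneg (fun j _ => hν j)
  have hsβ : 0 ≤ ∑ i, |β i| := Finset.sum_nonneg (fun j _ => abs_nonneg _)
  set B : ℝ := 1 + ∑ i, |β i| + δ + ∑ j, ν j with hB
  have hB0 : 0 < B := by linarith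
  have hB1 : ∑ j, ν j ≤ B := by linarith
  have hBc : ∀ i, |β i - δ| ≤ B := by
    intro i
    have h1 : |β i| ≤ ∑ i, |β i| :=
      Finset.single_le_sum (f := fun i => |β i|) (fun _ _ => abs_nonneg _) (Finset.mem_univ i)
    calc |β i - δ| ≤ |β i| + |δ| := abs_sub _ _
      _ = |β i| + δ := by rw [abs_of_pos hδ]
      _ ≤ B := by linarith
  set ε : ℝ := min 1 (δ / (4 * (N + 6) * B)) with hε
  have hε0 : 0 < ε := lt_min one_pos (by positivity)
  have hε1 : ε ≤ 1 := min_le_left _ _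
  have hεδ : ε * (B * (N + 6)) ≤ δ / 4 := by
    have h1 : ε ≤ δ / (4 * (N + 6) * B) := min_le_right _ _
    rw [le_div_iff₀ (by positivity)] at h1
    linarith
  obtain ⟨m, hm, K₁, hK₁, haux⟩ := aux_poly hA N hN1 L M hM hLr ε hε0
  have hmr : (0 : ℝ) < m := by exact_mod_cast hm
  obtain ⟨ω, hω, hω1, K₂, hK₂, hroth⟩ := gen_roth m N hN (ε * m) (by positivity)
  obtain ⟨K', hK', hkey⟩ := key_vanish N hN1 L hL K₁ hK₁
  set A : ℕ := ⌈(N : ℝ) / ε⌉₊ with hAdef
  have hA1 : (N : ℝ) / ε ≤ A := Nat.le_ceil _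
  have hNε : (1 : ℝ) ≤ (N : ℝ) / ε := by
    rw [le_div_iff₀ hε0]; linarith
  have hAr : (1 : ℝ) ≤ A := le_trans hNε hA1
  have hCA : (1 : ℝ) ≤ N * A := one_le_mul_of_one_le_of_one_le hNr1 hAr
  set cA : ℝ := Real.logb b (N * A) with hcA
  have hcA0 : 0 ≤ cA := Real.logb_nonneg hb1 hCA
  have hcAe : (b : ℝ) ^ cA = N * A := Real.rpow_logb hb0 hb1.ne' (by linarith)
  set κ' : ℝ := Real.logb b K' with hκ'
  have hκ'0 : 0 ≤ κ' := Real.logb_nonneg hb1 hK'
  have hκ'e : (b : ℝ) ^ κ' = K' := Real.rpow_logb hb0 hb1.ne' (by linarith)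
  have hKK : (1 : ℝ) ≤ K₂ * K₁ := one_le_mul_of_one_le_of_one_le hK₂ hK₁
  set lg : ℝ := Real.logb b (K₂ * K₁) with hlg
  have hlg0 : 0 ≤ lg := Real.logb_nonneg hb1 hKK
  have hlge : (b : ℝ) ^ lg = K₂ * K₁ := Real.rpow_logb hb0 hb1.ne' (by linarith)
  set q₀ : ℝ := 1 + 16 * (κ' + cA) / δ + 2 * m * lg / (η' * ω) with hq₀
  have hq₀1 : 1 ≤ q₀ := by
    have h1 : 0 ≤ 16 * (κ' + cA) / δ := by positivity
    have h2 : 0 ≤ 2 * m * lg / (η' * ω) := by positivity
    linarith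
  have hq₀2 : 16 * (κ' + cA) ≤ δ * q₀ := by
    have h1 : 16 * (κ' + cA) / δ ≤ q₀ := by
      have h2 : 0 ≤ 2 * m * lg / (η' * ω) := by positivity
      linarith
    rw [div_le_iff₀ hδ] at h1
    linarith
  have hq₀3 : 2 * m * lg ≤ η' * ω * q₀ := by
    have h1 : 2 * m * lg / (η' * ω) ≤ q₀ := by
      have h2 : 0 ≤ 16 * (κ' + cA) / δ := by positivity
      linarith
    rw [div_le_iff₀ (by positivity)] at h1
    linarith
  refine ⟨δ / 8, by positivity, 2 / ω, q₀, m, ?_⟩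
  intro q n g a hq hqq hn hdiv hsmall hli hgcd horth ha
  have hq1 : ∀ h, (1 : ℝ) ≤ q h := fun h => le_trans hq₀1 (hq h)
  have hq0 : ∀ h, (0 : ℝ) < q h := fun h => lt_of_lt_of_le one_pos (hq1 h)
  -- the parameter R
  set R : ℝ := (∑ h, (q h : ℝ)) / ε + 8 / (m * δ) with hR
  have hsq : 0 ≤ ∑ h, (q h : ℝ) := Finset.sum_nonneg (fun h _ => Nat.cast_nonneg _)
  have hR0 : 0 < R := by positivity
  have hqR : ∀ h, (q h : ℝ) ≤ ε * R := by
    intro h
    have h1 : (q h : ℝ) ≤ ∑ h, (q h : ℝ) :=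
      Finset.single_le_sum (f := fun h => (q h : ℝ)) (fun _ _ => Nat.cast_nonneg _)
        (Finset.mem_univ h)
    have h2 : (∑ h, (q h : ℝ)) / ε ≤ R := by
      have : (0 : ℝ) ≤ 8 / (m * δ) := by positivity
      linarith
    rw [div_le_iff₀ hε0] at h2
    linarith
  have hqR' : ∀ h, (q h : ℝ) ≤ R := by
    intro h
    have h1 := hqR h
    have h2 := mul_le_mul_of_nonneg_right hε1 hR0.le
    linarith
  have hRm : 8 ≤ R * m * δ := by
    have h1 : 8 / (m * δ) ≤ R := by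
      have : 0 ≤ (∑ h, (q h : ℝ)) / ε := by positivity
      linarith
    rw [div_le_iff₀ (by positivity)] at h1
    linarith
  set r : Fin m → ℕ := fun h => ⌈R / q h⌉₊ with hr
  have hr1 : ∀ h, R / q h ≤ r h := fun h => Nat.le_ceil _
  have hr2 : ∀ h, (r h : ℝ) < R / q h + 1 := fun h =>
    Nat.ceil_lt_add_one (div_nonneg hR0.le (hq0 h).le)
  have hrpos : ∀ h, 1 ≤ r h := by
    intro h
    have h1 : 0 < R / q h := div_pos hR0 (hq0 h)
    have h2 := hr1 h
    have h3 : (0 : ℝ) < r h := lt_of_lt_of_le h1 h2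
    exact_mod_cast h3
  have hrr : ∀ h, (0 : ℝ) < r h := fun h => by exact_mod_cast hrpos h
  have f1 : ∀ h, R ≤ q h * r h := by
    intro h
    have h2 := hr1 h
    rw [div_le_iff₀ (hq0 h)] at h2
    linarith
  have f2 : ∀ h, (q h : ℝ) * r h ≤ R + q h := by
    intro h
    have h1 := (mul_le_mul_of_nonneg_left (hr2 h).le (hq0 h).le)
    have h2 : (q h : ℝ) * (R / q h + 1) = R + q h := by
      have := (hq0 h).ne'
      field_simp
    linarith
  have f3 : ∀ h, (q h : ℝ) * r h ≤ R + ε * R := fun h => by linarith [f2 h, hqR h]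
  have f4 : ∀ h, (q h : ℝ) * r h ≤ 2 * R := fun h => by linarith [f2 h, hqR' h]
  have f5 : ∀ h, (r h : ℝ) ≤ 2 * R / q₀ := by
    intro h
    rw [le_div_iff₀ (by linarith)]
    have h1 := mul_le_mul_of_nonneg_left (hq h) (hrr h).le
    linarith [f4 h]
  have hsr : ((∑ h, r h : ℕ) : ℝ) ≤ m * (2 * R / q₀) := by
    push_cast
    calc ∑ h, (r h : ℝ) ≤ ∑ h : Fin m, 2 * R / q₀ := Finset.sum_le_sum (fun h _ => f5 h)
      _ = m * (2 * R / q₀) := by
        rw [Finset.sum_const, Finset.card_univ, Fintype.card_fin, nsmul_eq_mul]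
  have hrω : ∀ h h', h < h' → (r h : ℝ) ≤ ω * r h' := by
    intro h h' hh
    have h1 := hqq h h' hh
    have h2 : (r h : ℝ) ≤ 2 * R / q h := by
      rw [le_div_iff₀ (hq0 h)]; linarith [f4 h]
    have h3 : 2 * R / q h ≤ ω * (R / q h') := by
      rw [div_le_iff₀ (hq0 h)]
      have h4 : 2 / ω * q h' ≤ q h := h1
      have h5 : ω * (R / q h') * (2 / ω * q h') = 2 * R := by
        have e1 := (hq0 h').ne'
        have e2 := hω.ne'
        field_simp
      have h6 : ω * (R / q h') * (2 / ω * q h') ≤ ω * (R / q h') * q h := by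
        apply mul_le_mul_of_nonneg_left h4
        have := hq0 h'
        positivity
      linarith
    have h4 := mul_le_mul_of_nonneg_left (hr1 h') hω.le
    linarith
  -- the auxiliary polynomial
  obtain ⟨P, hP0, hPb, hPg, hPg', hPl⟩ := haux r hrpos
  -- Roth
  have hl1nn : 0 ≤ l1 (toR P) := Finset.sum_nonneg (fun _ _ => abs_nonneg _)
  obtain ⟨k, hk, x, hxa, hkx⟩ := hroth r hrpos hrω P hP0 hPb a hgcd (by
    intro h
    obtain ⟨j, hj⟩ := ha h
    refine ⟨j, ?_⟩
    have e1 : K₂ ^ (∑ h', r h') * l1 (toR P) ≤ (b : ℝ) ^ (lg * ((∑ h', r h' : ℕ) : ℝ)) := by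
      rw [Real.rpow_mul hb0.le, hlge, Real.rpow_natCast, mul_pow]
      exact mul_le_mul_of_nonneg_left hPl (by positivity)
    have e2 : (b : ℝ) ^ (lg * ((∑ h', r h' : ℕ) : ℝ)) ≤ (b : ℝ) ^ ((η' * q h) * (ω * r h)) := by
      rw [Real.rpow_le_rpow_left_iff hb1]
      have e3 : lg * ((∑ h', r h' : ℕ) : ℝ) ≤ lg * (m * (2 * R / q₀)) :=
        mul_le_mul_of_nonneg_left hsr hlg0
      have e4 : lg * (m * (2 * R / q₀)) ≤ η' * ω * R := by
        have e5 : lg * (m * (2 * R / q₀)) = (2 * m * lg) * R / q₀ := by ring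
        rw [e5, div_le_iff₀ (by linarith)]
        have e6 := mul_le_mul_of_nonneg_right hq₀3 hR0.le
        linarith
      have e6 : η' * ω * R ≤ (η' * q h) * (ω * r h) := by
        have e7 : (η' * q h) * (ω * r h) = η' * ω * (q h * r h) := by ring
        rw [e7]
        exact mul_le_mul_of_nonneg_left (f1 h) (by positivity)
      linarith
    have e3 : (b : ℝ) ^ ((η' * q h) * (ω * r h)) ≤ |(a h j : ℝ)| ^ (ω * (r h : ℝ)) := by
      rw [Real.rpow_mul hb0.le]
      apply Real.rpow_le_rpow (by positivity) hj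
      exact mul_nonneg hω.le (Nat.cast_nonneg _)
    exact le_trans e1 (le_trans e2 e3))
  -- the point x lies in the span of the g's
  have hane : ∀ h, a h ≠ 0 := by
    intro h h0
    have h1 := hgcd h
    have h2 : Finset.univ.gcd (a h) = 0 := by
      rw [h0]
      exact Finset.gcd_eq_zero_iff.mpr (fun _ _ => rfl)
    rw [h2] at h1
    exact zero_ne_one h1
  have hz : ∀ h, ∃ z : Fin (N - 1) → ℚ, ∀ j, x (h, j) = ∑ l, z l * (g h l j : ℚ) := fun h =>
    rm_hyperplane (a h) (hane h) (g h) (hli h) (horth h) (fun j => x (h, j)) (hxa h)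
  choose z hz using hz
  -- the grid
  set τ : Fin m → ℕ := fun h => ⌊ε * r h / N⌋₊ with hτ
  have hτ1 : ∀ h, (τ h : ℝ) ≤ ε * r h / N := fun h => Nat.floor_le (by positivity)
  have hτ2 : ∀ h, ε * r h / N < τ h + 1 := fun h => Nat.lt_floor_add_one _
  have hgrid : ∀ h, r h < (A + 1) * (τ h + 1) := by
    intro h
    have h1 : (r h : ℝ) < (A + 1) * (τ h + 1) := by
      have h2 : (r h : ℝ) = (N / ε) * (ε * r h / N) := by
        field_simp
      rw [h2]
      have h3 : (N : ℝ) / ε * (ε * r h / N) ≤ A * (ε * r h / N) :=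
        mul_le_mul_of_nonneg_right hA1 (by positivity)
      have h4 : (A : ℝ) * (ε * r h / N) ≤ A * (τ h + 1) :=
        mul_le_mul_of_nonneg_left (hτ2 h).le (by linarith)
      have h5 : (0 : ℝ) < τ h + 1 := by positivity
      linarith
    exact_mod_cast h1
  have hvan := vanish_on_V r hrpos P hPb g A τ hgrid (ε * m) (by
    intro c hc k hk
    -- weighted order of k
    have hwt : wt r k ≤ 2 * ε * m := by
      refine le_trans hk ?_
      have h1 : ∑ h, ((N - 1 : ℕ) : ℝ) * τ h / r h ≤ ∑ h : Fin m, ε := by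
        apply Finset.sum_le_sum
        intro h _
        rw [div_le_iff₀ (hrr h)]
        have h2 : ((N - 1 : ℕ) : ℝ) ≤ N := by exact_mod_cast Nat.sub_le N 1
        have h3 : ((N - 1 : ℕ) : ℝ) * τ h ≤ N * (ε * r h / N) :=
          mul_le_mul h2 (hτ1 h) (Nat.cast_nonneg _) hNr.le
        have h4 : (N : ℝ) * (ε * r h / N) = ε * r h := by field_simp
        linarith
      rw [Finset.sum_const, Finset.card_univ, Fintype.card_fin, nsmul_eq_mul] at h1
      linarith
    have hwt' : ∑ h, (∑ j, (k (h, j) : ℝ)) / (r h : ℝ) ≤ 2 * ε * m := hwt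
    -- the data for key_vanish
    set X : Fin m × Fin N → ℤ := fun s => ∑ l, (c s.1 l : ℤ) * g s.1 l s.2 with hX
    set y : Fin m × Fin N → ℝ := fun s => cA + (β s.2 - δ) * q s.1 with hy
    set Er : ℝ := R * m * ((∑ j, ν j) / N - 3 * ε * (∑ j, ν j) - 2 * (δ / 8)) with hEr
    set Tr : ℝ := cA * ((∑ h, r h : ℕ) : ℝ) +
      R * m * ((∑ j, (β j - δ)) / N + B * ε * (N + 3)) with hTr
    have hlow : ∀ I ∈ P.support, k ≤ I →
        Er ≤ ((I - k).sum fun s e => n s.1 s.2 * e : ℕ) := by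
      intro I hI hkI
      have h1 := rm_lower r q R ε (δ / 8) hrpos hR0.le (by positivity) f1 f4 ν hν n hn
        (fun h j => I (h, j)) (fun h j => k (h, j)) (fun h j => hkI (h, j)) (fun h => hPb I hI h)
        (fun j => hPg I hI j) hwt'
      refine le_trans h1 (le_of_eq ?_)
      rw [Finsupp.sum_fintype _ _ (by simp), Fintype.sum_prod_type, Nat.cast_sum]
      apply Finset.sum_congr rfl; intro h _
      rw [Nat.cast_sum]
      apply Finset.sum_congr rfl; intro j _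
      rw [Nat.cast_mul, Finsupp.tsub_apply, Nat.cast_sub (hkI (h, j))]
    have hup : ∀ J ∈ (lsub L.adjugate (toR P)).support, ∀ k' : Fin m × Fin N →₀ ℕ, k' ≤ J →
        (∀ h, ∑ j, k' (h, j) = ∑ j, k (h, j)) →
        ((J - k').prod fun s e => ((b : ℝ) ^ y s) ^ e) ≤ (b : ℝ) ^ Tr := by
      intro J hJ k' hkJ hkk
      have hJb : BlockHom r (lsub L.adjugate (toR P)) :=
        rm_blockHom_lsub _ r _ (rm_blockHom_map r P hPb)
      have hwk : ∑ h, (∑ j, (k' (h, j) : ℝ)) / (r h : ℝ) ≤ 2 * ε * m := by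
        refine le_trans (le_of_eq ?_) hwt'
        apply Finset.sum_congr rfl; intro h _
        have := hkk h
        have h3 : (∑ j, (k' (h, j) : ℝ)) = ∑ j, (k (h, j) : ℝ) := by exact_mod_cast this
        rw [h3]
      have h1 := rm_upper r q R ε B hrpos hR0.le hB0.le f1 f3 (fun i => β i - δ) hBc
        (fun h j => J (h, j)) (fun h j => k' (h, j)) (fun h j => hkJ (h, j))
        (fun h => hJb J hJ h) (fun j => hPg' J hJ j) hwk
      have h2 : ((J - k').prod fun s e => ((b : ℝ) ^ y s) ^ e) =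
          (b : ℝ) ^ (∑ h, ∑ j, (cA + (β j - δ) * q h) * ((J (h, j) : ℝ) - k' (h, j))) := by
        rw [Finsupp.prod_fintype _ _ (by simp), Fintype.prod_prod_type,
          Real.rpow_sum_of_pos hb0]
        apply Finset.prod_congr rfl; intro h _
        rw [Real.rpow_sum_of_pos hb0]
        apply Finset.prod_congr rfl; intro j _
        rw [Real.rpow_mul hb0.le, ← Real.rpow_natCast, Finsupp.tsub_apply,
          Nat.cast_sub (hkJ (h, j))]
      rw [h2, Real.rpow_le_rpow_left_iff hb1]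
      have h3 : ∑ h, ∑ j, (cA + (β j - δ) * q h) * ((J (h, j) : ℝ) - k' (h, j)) =
          ∑ h, ∑ j, cA * ((J (h, j) : ℝ) - k' (h, j)) +
          ∑ h, ∑ j, ((β j - δ) * q h) * ((J (h, j) : ℝ) - k' (h, j)) := by
        simp only [add_mul, Finset.sum_add_distrib]
      have h4 : ∑ h, ∑ j, cA * ((J (h, j) : ℝ) - k' (h, j)) ≤ cA * ((∑ h, r h : ℕ) : ℝ) := by
        simp only [← Finset.mul_sum]
        apply mul_le_mul_of_nonneg_left _ hcA0
        push_cast
        apply Finset.sum_le_sum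
        intro h _
        have h5 : ∑ j, (J (h, j) : ℝ) = r h := by
          rw [← hJb J hJ h]; push_cast; rfl
        rw [Finset.sum_sub_distrib, h5]
        have : 0 ≤ ∑ j, (k' (h, j) : ℝ) := Finset.sum_nonneg (fun _ _ => Nat.cast_nonneg _)
        linarith
      rw [h3]
      linarith
    have hYb : ∀ s : Fin m × Fin N, |∑ j, L s.2 j * (X (s.1, j) : ℝ)| ≤ (b : ℝ) ^ y s := by
      intro s
      have h1 : ∑ j, L s.2 j * (X (s.1, j) : ℝ) =
          ∑ l, (c s.1 l : ℝ) * ∑ j, L s.2 j * (g s.1 l j : ℝ) := by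
        have e : ∀ j, L s.2 j * (X (s.1, j) : ℝ) =
            ∑ l, (c s.1 l : ℝ) * (L s.2 j * (g s.1 l j : ℝ)) := by
          intro j
          simp only [hX]
          push_cast
          rw [Finset.mul_sum]
          apply Finset.sum_congr rfl; intro l _
          ring
        simp only [e]
        rw [Finset.sum_comm]
        apply Finset.sum_congr rfl; intro l _
        rw [← Finset.mul_sum]
      rw [h1]
      calc |∑ l, (c s.1 l : ℝ) * ∑ j, L s.2 j * (g s.1 l j : ℝ)|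
          ≤ ∑ l, |(c s.1 l : ℝ) * ∑ j, L s.2 j * (g s.1 l j : ℝ)| := Finset.abs_sum_le_sum_abs _ _
        _ ≤ ∑ l : Fin (N - 1), (A : ℝ) * (b : ℝ) ^ ((β s.2 - δ) * (q s.1 : ℝ)) := by
            apply Finset.sum_le_sum
            intro l _
            rw [abs_mul, Nat.abs_cast]
            apply mul_le_mul _ (hsmall s.1 l s.2) (abs_nonneg _) (Nat.cast_nonneg _)
            exact_mod_cast hc s.1 l
        _ = ((N - 1 : ℕ) : ℝ) * (A * (b : ℝ) ^ ((β s.2 - δ) * (q s.1 : ℝ))) := by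
            rw [Finset.sum_const, Finset.card_univ, Fintype.card_fin, nsmul_eq_mul]
        _ ≤ N * (A * (b : ℝ) ^ ((β s.2 - δ) * (q s.1 : ℝ))) := by
            apply mul_le_mul_of_nonneg_right _ (by positivity)
            exact_mod_cast Nat.sub_le N 1
        _ = (b : ℝ) ^ y s := by
            rw [hy]
            change _ = (b : ℝ) ^ (cA + (β s.2 - δ) * q s.1)
            rw [Real.rpow_add hb0, hcAe, mul_assoc]
    have hdivX : ∀ s : Fin m × Fin N, ((b : ℤ) ^ n s.1 s.2) ∣ X s := by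
      intro s
      apply Finset.dvd_sum
      intro l _
      exact Dvd.dvd.mul_left (hdiv s.1 l s.2) _
    have hres := hkey m r P hPb hPl b ⌊Er⌋₊ ((b : ℝ) ^ Tr) X (fun s => n s.1 s.2)
      (fun s => (b : ℝ) ^ y s) k (by positivity) hdivX hYb (by
        intro I hI hkI
        exact Nat.floor_le_of_le (hlow I hI hkI)) hup
    rcases hres with h0 | hbad
    · exact h0
    · exfalso
      -- compare exponents
      have h1 : (b : ℝ) ^ (⌊Er⌋₊ : ℝ) ≤ (b : ℝ) ^ (κ' * ((∑ h, r h : ℕ) : ℝ) + Tr) := by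
        rw [Real.rpow_natCast, Real.rpow_add hb0, Real.rpow_mul hb0.le, hκ'e, Real.rpow_natCast]
        exact hbad
      rw [Real.rpow_le_rpow_left_iff hb1] at h1
      have h2 := Nat.lt_floor_add_one Er
      have h3 : (κ' + cA) * ((∑ h, r h : ℕ) : ℝ) ≤ R * m * δ / 8 := by
        have e1 := mul_le_mul_of_nonneg_left hsr (add_nonneg hκ'0 hcA0)
        have e2 : (κ' + cA) * (m * (2 * R / q₀)) ≤ R * m * δ / 8 := by
          have e3 : (κ' + cA) * (m * (2 * R / q₀)) = (16 * (κ' + cA)) * (m * R) / 8 / q₀ := by ring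
          rw [e3, div_le_iff₀ (by linarith)]
          have e4 := mul_le_mul_of_nonneg_right hq₀2 (by positivity : (0 : ℝ) ≤ m * R)
          linarith
        linarith
      have h4 : (∑ j, (β j - δ)) / (N : ℝ) = (∑ j, β j) / N - δ := by
        rw [Finset.sum_sub_distrib, Finset.sum_const, Finset.card_univ, Fintype.card_fin,
          nsmul_eq_mul, sub_div, mul_div_cancel_left₀ _ hNr.ne']
      have h5 : (∑ j, β j) / (N : ℝ) ≤ (∑ j, ν j) / N := div_le_div_of_nonneg_right hsum hNr.le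
      rw [hTr, h4] at h1
      have h6 : Er - 1 < κ' * ((∑ h, r h : ℕ) : ℝ) + (cA * ((∑ h, r h : ℕ) : ℝ) +
          R * m * ((∑ j, β j) / N - δ + B * ε * (N + 3))) := by linarith
      have hRm0 : 0 < R * m := by positivity
      have h7 : R * m * ((∑ j, β j) / N - δ + B * ε * (N + 3)) ≤
          R * m * ((∑ j, ν j) / N - δ + B * ε * (N + 3)) :=
        mul_le_mul_of_nonneg_left (by linarith) hRm0.le
      have h8 : 3 * ε * (∑ j, ν j) + B * ε * (N + 3) ≤ δ / 4 := by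
        have e1 : 3 * ε * (∑ j, ν j) ≤ 3 * ε * B := mul_le_mul_of_nonneg_left hB1 (by positivity)
        have e2 : 3 * ε * B + B * ε * (N + 3) = ε * (B * (N + 6)) := by ring
        linarith
      have h9 := mul_le_mul_of_nonneg_left h8 hRm0.le
      rw [hEr] at h6
      linarith)
  -- contradiction
  have h1 := hvan k hk.le z
  apply hkx
  rw [← h1]
  congr 2
  funext s
  exact hz s.1 s.2

end Pool.Agent.Sub
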