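import Pool.Agent.Lib_MP_10b5ac_nt.CaseA
import Pool.Agent.Lib_MP_10b5ac_nt.RothMachine

set_option autoImplicit false

/-! Piece D3: the penultimate minimum (assembly of D1 and D2 with a compactness argument). -/

namespace Pool.Agent.Sub

open Finset Filter Topology

/-- A primitive integral normal vector of `N - 1` integer vectors. -/
theorem pen_normal (N : ℕ) (hN : 2 ≤ N) (g : Fin (N - 1) → Fin N → ℤ) :
    ∃ a : Fin N → ℤ, Finset.univ.gcd a = 1 ∧ ∀ l, ∑ j, a j * g l j = 0 := by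
  classical
  -- rational solution
  obtain ⟨x, hx, hx0⟩ : ∃ x : Fin N → ℚ, (∀ l, ∑ j, (g l j : ℚ) * x j = 0) ∧ x ≠ 0 := by
    have h1 : LinearMap.ker (Matrix.mulVecLin (Matrix.of fun l j => (g l j : ℚ))) ≠ ⊥ := by
      apply LinearMap.ker_ne_bot_of_finrank_lt
      simp
      omega
    obtain ⟨x, hx, hx0⟩ := Submodule.exists_mem_ne_zero_of_ne_bot h1
    refine ⟨x, fun l => ?_, hx0⟩
    have := congrFun (LinearMap.mem_ker.1 hx) l
    simpa [Matrix.mulVec, dotProduct] using this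
  -- clear denominators
  set d : ℕ := ∏ j, (x j).den with hd
  have hd0 : (d : ℚ) ≠ 0 := by
    rw [hd]
    exact_mod_cast Finset.prod_ne_zero_iff.2 fun j _ => (x j).den_nz
  have hz : ∀ j, ∃ z : ℤ, (z : ℚ) = d * x j := by
    intro j
    refine ⟨(x j).num * ∏ i ∈ univ.erase j, ((x i).den : ℤ), ?_⟩
    have h1 : (d : ℚ) = (x j).den * ∏ i ∈ univ.erase j, ((x i).den : ℚ) := by
      rw [hd]
      push_cast
      exact (Finset.mul_prod_erase _ _ (mem_univ j)).symm
    have h2 : (x j) * (x j).den = (x j).num := Rat.mul_den_eq_num _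
    rw [h1]
    push_cast
    rw [← h2]
    ring
  choose z hz using hz
  have hzg : ∀ l, ∑ j, z j * g l j = 0 := by
    intro l
    have : ((∑ j, z j * g l j : ℤ) : ℚ) = 0 := by
      push_cast
      have h1 : ∑ j, (z j : ℚ) * (g l j : ℚ) = d * ∑ j, (g l j : ℚ) * x j := by
        rw [Finset.mul_sum]
        refine Finset.sum_congr rfl fun j _ => ?_
        rw [hz]
        ring
      rw [h1, hx l, mul_zero]
    exact_mod_cast this
  have hz0 : z ≠ 0 := by
    intro h
    apply hx0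
    funext j
    have := hz j
    rw [h] at this
    simp only [Pi.zero_apply, Int.cast_zero] at this
    have h2 := mul_eq_zero.1 this.symm
    exact h2.resolve_left hd0
  obtain ⟨a, ha, hgcd⟩ := Finset.extract_gcd z (s := (univ : Finset (Fin N))) ⟨⟨0, by omega⟩, mem_univ _⟩
  refine ⟨a, hgcd, fun l => ?_⟩
  have hg0 : univ.gcd z ≠ 0 := by
    intro h
    apply hz0
    funext j
    exact Finset.gcd_eq_zero_iff.1 h j (mem_univ j)
  have h1 : univ.gcd z * ∑ j, a j * g l j = 0 := by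
    rw [← hzg l, Finset.mul_sum]
    refine Finset.sum_congr rfl fun j _ => ?_
    conv_rhs => rw [ha j (mem_univ j)]
    ring
  exact (mul_eq_zero.1 h1).resolve_left hg0

theorem pen_ne_zero {N : ℕ} (a : Fin N → ℤ) (h : Finset.univ.gcd a = 1) : a ≠ 0 := by
  intro h0
  have : Finset.univ.gcd a = 0 := by
    rw [Finset.gcd_eq_zero_iff]
    intro j _
    rw [h0]
    rfl
  rw [this] at h
  exact zero_ne_one h

/-- fast growing sequences inside an eventual set -/
theorem pen_seq (q : ℕ → ℕ) (hq : Tendsto q atTop atTop) (P : ℕ → Prop) (hP : ∀ᶠ e in atTop, P e)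
    (κ : ℝ) (m : ℕ) : ∃ f : Fin m → ℕ, (∀ h, P (f h)) ∧
      ∀ h h', h < h' → κ * q (f h') ≤ q (f h) := by
  have hqr : Tendsto (fun e => (q e : ℝ)) atTop atTop :=
    tendsto_natCast_atTop_atTop.comp hq
  have hnext : ∀ x : ℕ, ∃ e, P e ∧ max κ 1 * q x ≤ q e := by
    intro x
    exact (hP.and (hqr.eventually_ge_atTop (max κ 1 * q x))).exists
  choose next hn1 hn2 using hnext
  set F : ℕ → ℕ := fun k => Nat.rec (next 0) (fun _ x => next x) k with hF
  have hF0 : ∀ k, F (k + 1) = next (F k) := fun k => rfl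
  have hFP : ∀ k, P (F k) := by
    intro k
    cases k with
    | zero => exact hn1 0
    | succ k =>
      rw [hF0]
      exact hn1 _
  have hstep : ∀ k, max κ 1 * q (F k) ≤ q (F (k + 1)) := by
    intro k
    rw [hF0]
    exact hn2 _
  have hone : (1 : ℝ) ≤ max κ 1 := le_max_right _ _
  have hmono : Monotone (fun k => (q (F k) : ℝ)) := by
    apply monotone_nat_of_le_succ
    intro k
    refine le_trans ?_ (hstep k)
    have : (0 : ℝ) ≤ q (F k) := Nat.cast_nonneg _
    nlinarith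
  refine ⟨fun h => F (Fin.rev h : Fin m), fun h => hFP _, fun h h' hlt => ?_⟩
  have h1 : ((Fin.rev h' : Fin m) : ℕ) + 1 ≤ (Fin.rev h : Fin m) := by
    have := Fin.rev_lt_rev.2 hlt
    exact this
  have h2 := hmono h1
  simp only at h2
  refine le_trans ?_ h2
  refine le_trans ?_ (hstep _)
  exact mul_le_mul_of_nonneg_right (le_max_left _ _) (Nat.cast_nonneg _)

theorem penultimate {θ : ℝ} {D : ℕ} {C₀ : ℝ} (hA : AlgData θ D C₀) (b N : ℕ) (hb : 2 ≤ b)
    (hN : 2 ≤ N) (L : Matrix (Fin N) (Fin N) ℝ) (hL : L.det ≠ 0) (M : ℝ) (hM : 1 ≤ M)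
    (hLr : ∀ i j, Rep θ D M (L i j)) (δ : ℝ) (hδ : 0 < δ) (C : ℝ)
    (q : ℕ → ℕ) (hq : Tendsto q atTop atTop) (n : ℕ → Fin N → ℕ) (B : ℕ → Fin N → ℝ)
    (hB : ∀ e i, 0 < B e i) (hvol : ∀ e, ∏ i, B e i ≤ (b : ℝ) ^ (∑ j, n e j))
    (hn : ∀ e j, (n e j : ℝ) ≤ C * q e)
    (hB1 : ∀ e i, (b : ℝ) ^ (-(C * (q e : ℝ))) ≤ B e i)
    (hB2 : ∀ e i, B e i ≤ (b : ℝ) ^ (C * (q e : ℝ)))
    (g : ℕ → Fin (N - 1) → Fin N → ℤ) (hdiv : ∀ e l j, ((b : ℤ) ^ n e j) ∣ g e l j)
    (hsmall : ∀ e l i, |∑ j, L i j * (g e l j : ℝ)| ≤ B e i * (b : ℝ) ^ (-(δ * (q e : ℝ))))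
    (hli : ∀ e, LinearIndependent ℚ (fun l => cv (g e l))) :
    ∃ a : Fin N → ℤ, a ≠ 0 ∧ ∃ᶠ e in atTop, ∀ l, ∑ j, a j * g e l j = 0 := by
  have hbR : (1 : ℝ) < b := by
    have : (2 : ℝ) ≤ b := by exact_mod_cast hb
    linarith
  have hb0 : (0 : ℝ) < b := by linarith
  have hNR : (0 : ℝ) < N := by
    have : (2 : ℝ) ≤ N := by exact_mod_cast hN
    linarith
  have hD0 : (0 : ℝ) < D + 1 := by positivity
  choose a hagcd hag using fun e => pen_normal N hN (g e)
  set η' : ℝ := N * δ / (2 * (D + 1)) with hη'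
  have hη'pos : 0 < η' := by positivity
  have hηδ : (D + 1) * η' < N * δ := by
    have h1 : (D + 1) * η' = N * δ / 2 := by
      rw [hη']
      field_simp
    rw [h1]
    have : 0 < N * δ := by positivity
    linarith
  by_cases hcase : ∃ᶠ e in atTop, ∀ j, |(a e j : ℝ)| ≤ (b : ℝ) ^ (η' * (q e : ℝ))
  · -- case A
    obtain ⟨φ, hφ, hφP⟩ := extraction_of_frequently_atTop hcase
    obtain ⟨e₀, he₀⟩ := caseA hA b N hb hN L hL M hM hLr δ η' hδ hη'pos hηδ
      (q ∘ φ) (hq.comp hφ.tendsto_atTop) (n ∘ φ) (B ∘ φ) (fun e i => hB _ i) (fun e => hvol _)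
      (g ∘ φ) (fun e l j => hdiv _ l j) (fun e l i => hsmall _ l i) (fun e => hli _)
      (a ∘ φ) (fun e l => hag _ l) (fun e => pen_ne_zero _ (hagcd _)) (fun e j => hφP e j)
    exact ⟨a (φ e₀), pen_ne_zero _ (hagcd _),
      (hφ.tendsto_atTop).frequently (p := fun e => ∀ l, ∑ j, a (φ e₀) j * g e l j = 0) he₀⟩
  · -- case B
    exfalso
    rw [not_frequently] at hcase
    -- compactness
    set u : ℕ → (Fin N → ℝ) × (Fin N → ℝ) := fun e =>
      (fun j => (n e j : ℝ) / q e, fun i => Real.logb b (B e i) / q e) with hu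
    have hlogB : ∀ e i, |Real.logb b (B e i)| ≤ C * q e := by
      intro e i
      rw [abs_le]
      constructor
      · have := Real.logb_le_logb_of_le hbR (Real.rpow_pos_of_pos hb0 _) (hB1 e i)
        rwa [Real.logb_rpow hb0 hbR.ne'] at this
      · have := Real.logb_le_logb_of_le hbR (hB e i) (hB2 e i)
        rwa [Real.logb_rpow hb0 hbR.ne'] at this
    have hdivb : ∀ (x : ℝ) (e : ℕ), |x| ≤ C * q e → |x / q e| ≤ |C| := by
      intro x e hx
      rcases Nat.eq_zero_or_pos (q e) with h0 | hpos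
      · rw [h0]
        simp
      · have hqp : (0 : ℝ) < q e := by exact_mod_cast hpos
        rw [abs_div, abs_of_pos hqp, div_le_iff₀ hqp]
        exact hx.trans (mul_le_mul_of_nonneg_right (le_abs_self C) hqp.le)
    have hub : ∀ e, u e ∈ Metric.closedBall (0 : (Fin N → ℝ) × (Fin N → ℝ)) |C| := by
      intro e
      rw [mem_closedBall_zero_iff, Prod.norm_def, max_le_iff]
      constructor
      · rw [pi_norm_le_iff_of_nonneg (abs_nonneg _)]
        intro j
        refine hdivb _ e ?_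
        rw [abs_of_nonneg (Nat.cast_nonneg _)]
        exact hn e j
      · rw [pi_norm_le_iff_of_nonneg (abs_nonneg _)]
        intro i
        exact hdivb _ e (hlogB e i)
    obtain ⟨lim, -, φ, hφ, hlim⟩ :=
      (isCompact_closedBall (0 : (Fin N → ℝ) × (Fin N → ℝ)) |C|).tendsto_subseq hub
    obtain ⟨ν, β⟩ := lim
    have hνlim : ∀ j, Tendsto (fun e => (n (φ e) j : ℝ) / q (φ e)) atTop (𝓝 (ν j)) := by
      intro j
      have h1 := (continuous_fst.tendsto _).comp hlim
      exact (tendsto_pi_nhds.1 h1) j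
    have hβlim : ∀ i, Tendsto (fun e => Real.logb b (B (φ e) i) / q (φ e)) atTop (𝓝 (β i)) := by
      intro i
      have h1 := (continuous_snd.tendsto _).comp hlim
      exact (tendsto_pi_nhds.1 h1) i
    have hν : ∀ j, 0 ≤ ν j := fun j => ge_of_tendsto' (hνlim j) fun e => by positivity
    have hsum : ∑ i, β i ≤ ∑ j, ν j := by
      refine le_of_tendsto_of_tendsto' (tendsto_finsetSum _ fun i _ => hβlim i)
        (tendsto_finsetSum _ fun j _ => hνlim j) fun e => ?_
      rw [← Finset.sum_div, ← Finset.sum_div]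
      apply div_le_div_of_nonneg_right _ (Nat.cast_nonneg _)
      have h1 := Real.logb_le_logb_of_le hbR (Finset.prod_pos fun i _ => hB (φ e) i) (hvol (φ e))
      rw [← Real.rpow_natCast, Real.logb_rpow hb0 hbR.ne', Real.logb_prod _ _
        (fun i _ => (hB _ i).ne')] at h1
      push_cast at h1
      exact h1
    obtain ⟨η, hη, κ, q₀, m, hroth⟩ := roth_machine hA b N hb hN L hL M hM hLr ν β hν hsum
      (δ / 2) (by linarith) η' hη'pos
    -- eventual properties
    have hqφ : Tendsto (fun e => (q (φ e) : ℝ)) atTop atTop :=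
      tendsto_natCast_atTop_atTop.comp (hq.comp hφ.tendsto_atTop)
    have hev1 : ∀ᶠ e in atTop, ∀ j, |(n (φ e) j : ℝ) - ν j * q (φ e)| ≤ η * q (φ e) := by
      rw [eventually_all]
      intro j
      have h1 := (hνlim j).eventually (Metric.closedBall_mem_nhds (ν j) hη)
      filter_upwards [h1, hqφ.eventually_gt_atTop 0] with e he hpos
      rw [Real.dist_eq] at he
      have h2 : (n (φ e) j : ℝ) - ν j * q (φ e) = ((n (φ e) j : ℝ) / q (φ e) - ν j) * q (φ e) := by
        field_simp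
      rw [h2, abs_mul, abs_of_pos hpos]
      exact mul_le_mul_of_nonneg_right he hpos.le
    have hev2 : ∀ᶠ e in atTop, ∀ i, Real.logb b (B (φ e) i) ≤ (β i + δ / 2) * q (φ e) := by
      rw [eventually_all]
      intro i
      have h1 := (hβlim i).eventually_le_const (u := β i + δ / 2) (by linarith)
      filter_upwards [h1, hqφ.eventually_gt_atTop 0] with e he hpos
      rwa [div_le_iff₀ hpos] at he
    have hev3 : ∀ᶠ e in atTop, q₀ ≤ q (φ e) := hqφ.eventually_ge_atTop q₀
    have hev4 : ∀ᶠ e in atTop, ∃ j, (b : ℝ) ^ (η' * (q (φ e) : ℝ)) ≤ |(a (φ e) j : ℝ)| := by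
      filter_upwards [hφ.tendsto_atTop.eventually hcase] with e he
      push Not at he
      obtain ⟨j, hj⟩ := he
      exact ⟨j, hj.le⟩
    obtain ⟨f, hfP, hfκ⟩ := pen_seq (q ∘ φ) (hq.comp hφ.tendsto_atTop) _
      (hev1.and (hev2.and (hev3.and hev4))) κ m
    refine hroth (fun h => q (φ (f h))) (fun h => n (φ (f h))) (fun h => g (φ (f h)))
      (fun h => a (φ (f h))) (fun h => (hfP h).2.2.1) (fun h h' hlt => hfκ h h' hlt)
      (fun h j => (hfP h).1 j) (fun h l j => hdiv _ l j) ?_ (fun h => hli _) (fun h => hagcd _)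
      (fun h l => hag _ l) (fun h => (hfP h).2.2.2)
    intro h l i
    refine (hsmall (φ (f h)) l i).trans ?_
    have h1 := (hfP h).2.1 i
    rw [← Real.rpow_logb hb0 hbR.ne' (hB (φ (f h)) i), ← Real.rpow_add hb0]
    apply Real.rpow_le_rpow_of_exponent_le hbR.le
    linarith

end Pool.Agent.Sub
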