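import Pool.Agent.Lib_MP_10b5ac_nt.Wronskian

set_option autoImplicit false

/-! Piece B3 of MP_10b5ac_nt: splitting off the variable `X 0`. -/

namespace Pool.Agent.Sub

open MvPolynomial Finset

theorem coeff_cons_mul_split {R : Type*} [CommSemiring R] {n : ℕ} (φ : MvPolynomial (Fin n) R)
    (ψ : Polynomial R) (e : ℕ) (I : Fin n →₀ ℕ) :
    coeff (Finsupp.cons e I) (rename Fin.succ φ * Polynomial.aeval (X 0) ψ) =
      coeff I φ * ψ.coeff e := by
  rw [← finSuccEquiv_coeff_coeff, map_mul]
  have h1 : finSuccEquiv R n (rename Fin.succ φ) = Polynomial.C φ := by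
    induction φ using MvPolynomial.induction_on with
    | C a => rw [rename_C, ← MvPolynomial.algebraMap_eq, AlgEquiv.commutes]; rfl
    | add p q hp hq => rw [map_add, map_add, hp, hq, map_add]
    | mul_X p i hp => rw [map_mul, map_mul, hp, rename_X, finSuccEquiv_X_succ, map_mul]
  have h2 : finSuccEquiv R n (Polynomial.aeval (X 0) ψ) = ψ.map (C : R →+* MvPolynomial (Fin n) R) := by
    induction ψ using Polynomial.induction_on' with
    | add p q hp hq => rw [map_add, map_add, hp, hq, Polynomial.map_add]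
    | monomial m a =>
      rw [Polynomial.aeval_monomial, map_mul, map_pow, finSuccEquiv_X_zero, Polynomial.map_monomial,
        ← Polynomial.C_mul_X_pow_eq_monomial]
      congr 1
      rw [AlgEquiv.commutes]; rfl
  rw [h1, h2, Polynomial.coeff_C_mul, Polynomial.coeff_map, mul_comm φ, coeff_C_mul, mul_comm]

theorem prod_choose_eq {n : ℕ} (i K : Fin n →₀ ℕ) :
    (i.prod fun s j => (K s).choose j : ℕ) = ∏ s, (K s).choose (i s) := by
  rw [Finsupp.prod_fintype]
  intro s
  simp

theorem hd_cons_mul {R : Type*} [CommSemiring R] {n : ℕ} (φ : MvPolynomial (Fin n) R)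
    (ψ : Polynomial R) (l : ℕ) (D : Fin n →₀ ℕ) :
    hd (Finsupp.cons l D) (rename Fin.succ φ * Polynomial.aeval (X 0) ψ) =
      rename Fin.succ (hd D φ) * Polynomial.aeval (X 0) (Polynomial.hasseDeriv l ψ) := by
  ext J
  rw [← Finsupp.cons_tail J]
  generalize Finsupp.tail J = I
  generalize J 0 = e
  rw [coeff_hd_eq]
  have hadd : (Finsupp.cons e I + Finsupp.cons l D : Fin (n+1) →₀ ℕ)
      = Finsupp.cons (e + l) (I + D) := by
    ext t
    refine Fin.cases ?_ (fun t => ?_) t
    · simp
    · simp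
  rw [hadd, coeff_cons_mul_split, coeff_cons_mul_split, coeff_hd_eq, Polynomial.hasseDeriv_coeff,
    prod_choose_eq, prod_choose_eq, Fin.prod_univ_succ]
  simp only [Finsupp.cons_zero, Finsupp.cons_succ, Finsupp.add_apply]
  push_cast
  ring

theorem hd_sum_eq {σ R ι : Type*} [CommSemiring R] (i : σ →₀ ℕ) (s : Finset ι)
    (P : ι → MvPolynomial σ R) : hd i (∑ a ∈ s, P a) = ∑ a ∈ s, hd i (P a) := by
  ext J
  rw [coeff_hd_eq, coeff_sum, coeff_sum, Finset.sum_mul]
  exact Finset.sum_congr rfl fun a _ => (coeff_hd_eq _ _ _).symm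

theorem hd_map_eq {σ R S : Type*} [CommSemiring R] [CommSemiring S] (f : R →+* S) (i : σ →₀ ℕ)
    (P : MvPolynomial σ R) : hd i (map f P) = map f (hd i P) := by
  ext J
  rw [coeff_hd_eq, coeff_map, coeff_map, coeff_hd_eq, map_mul, map_natCast]

/-- one-variable Wronskian with Hasse derivatives of orders `0, ..., k-1` -/
theorem wronskian_one_var {k : ℕ} (ψ : Fin k → Polynomial ℚ) (h : LinearIndependent ℚ ψ) :
    Matrix.det (fun j l : Fin k => Polynomial.hasseDeriv (l : ℕ) (ψ j)) ≠ 0 := by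
  classical
  have hco : ∀ (p : Polynomial ℚ) (e : ℕ),
      coeff (Finsupp.cons e (0 : Fin 0 →₀ ℕ)) (Polynomial.aeval (X 0 : MvPolynomial (Fin 1) ℚ) p)
        = p.coeff e := by
    intro p e
    have := coeff_cons_mul_split (1 : MvPolynomial (Fin 0) ℚ) p e 0
    rw [map_one, one_mul, coeff_zero_one, one_mul] at this
    exact this
  let T : Polynomial ℚ →ₐ[ℚ] MvPolynomial (Fin 1) ℚ := Polynomial.aeval (X 0)
  have hTinj : Function.Injective T := by
    intro p q hpq
    ext e
    rw [← hco p e, ← hco q e]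
    exact congrArg _ hpq
  have hli : LinearIndependent ℚ (fun j => T (ψ j)) := by
    have := h.map' T.toLinearMap (LinearMap.ker_eq_bot.2 hTinj)
    exact this
  obtain ⟨Δ, hΔ, hdet⟩ := gen_wronskian (fun j => T (ψ j)) hli
  have hΔ0 : ∀ i, Δ i 0 ≤ k - 1 := fun i => by
    have h1 := hΔ i
    rw [Finsupp.degree_eq_sum] at h1
    simpa using h1
  have hΔe : ∀ i, Δ i = Finsupp.cons (Δ i 0) (0 : Fin 0 →₀ ℕ) := by
    intro i
    apply Finsupp.ext
    intro t
    have : t = 0 := Subsingleton.elim _ _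
    rw [this, Finsupp.cons_zero]
  have hhd : ∀ (l : ℕ) (p : Polynomial ℚ), hd (Finsupp.cons l (0 : Fin 0 →₀ ℕ)) (T p)
      = T (Polynomial.hasseDeriv l p) := by
    intro l p
    have := hd_cons_mul (1 : MvPolynomial (Fin 0) ℚ) p l 0
    rw [map_one, one_mul, hd_zero_eq, map_one, one_mul] at this
    exact this
  have hlt : ∀ i : Fin k, Δ i 0 < k := fun i => by
    have h1 := hΔ0 i
    have h2 := i.2
    omega
  let d : Fin k → Fin k := fun i => ⟨Δ i 0, hlt i⟩
  have hdinj : Function.Injective d := by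
    intro i i' hii'
    by_contra hne
    apply hdet
    apply Matrix.det_zero_of_row_eq hne
    have : Δ i = Δ i' := by
      rw [hΔe i, hΔe i']
      have := congrArg Fin.val hii'
      simp only [d] at this
      rw [this]
    funext j
    simp only [this]
  let σ : Equiv.Perm (Fin k) := Equiv.ofBijective d (Finite.injective_iff_bijective.1 hdinj)
  intro hW
  apply hdet
  have h1 : (Matrix.of (fun i j : Fin k => hd (Δ i) (T (ψ j)))) =
      (Matrix.submatrix (Matrix.of (fun l j : Fin k => T (Polynomial.hasseDeriv (l : ℕ) (ψ j)))) σ id) := by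
    ext1 i j
    simp only [Matrix.of_apply, Matrix.submatrix_apply, id]
    rw [hΔe i, hhd]
    rfl
  have h2 : Matrix.det (fun i j : Fin k => hd (Δ i) (T (ψ j))) =
      Matrix.det (Matrix.submatrix (Matrix.of (fun l j : Fin k => T (Polynomial.hasseDeriv (l : ℕ) (ψ j)))) σ id) :=
    congrArg Matrix.det h1
  rw [h2, Matrix.det_permute]
  have h3 : Matrix.det (Matrix.of (fun l j : Fin k => T (Polynomial.hasseDeriv (l : ℕ) (ψ j)))) = 0 := by
    have h4 : Matrix.of (fun l j : Fin k => T (Polynomial.hasseDeriv (l : ℕ) (ψ j)))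
        = T.mapMatrix (Matrix.transpose (Matrix.of (fun j l : Fin k => Polynomial.hasseDeriv (l : ℕ) (ψ j)))) := by
      ext1 l j
      simp
    rw [h4, ← AlgHom.map_det, Matrix.det_transpose]
    have h5 : Matrix.det (Matrix.of (fun j l : Fin k => Polynomial.hasseDeriv (l : ℕ) (ψ j))) = 0 := hW
    rw [h5, map_zero]
  rw [h3, mul_zero]

theorem rank_decomp (n R₀ : ℕ) (f : MvPolynomial (Fin (n + 1)) ℚ) (hf : f ≠ 0)
    (hdeg : f.degreeOf 0 ≤ R₀) :
    ∃ k : ℕ, 1 ≤ k ∧ k ≤ R₀ + 1 ∧ ∃ (φ : Fin k → MvPolynomial (Fin n) ℚ)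
      (ψ : Fin k → Polynomial ℚ), LinearIndependent ℚ φ ∧ LinearIndependent ℚ ψ ∧
      f = ∑ j, rename Fin.succ (φ j) * Polynomial.aeval (X 0) (ψ j) := by
  classical
  set F := finSuccEquiv ℚ n f with hF
  have hF0 : F ≠ 0 := by
    rw [hF]
    simpa using hf
  have hFd : F.natDegree ≤ R₀ := by
    rw [hF, natDegree_finSuccEquiv]
    exact hdeg
  have hFe : ∀ e, R₀ + 1 ≤ e → F.coeff e = 0 := fun e he =>
    Polynomial.coeff_eq_zero_of_natDegree_lt (by omega)
  let V : Submodule ℚ (MvPolynomial (Fin n) ℚ) := Submodule.span ℚ (Set.range F.coeff)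
  have hVspan : V = Submodule.span ℚ (((Finset.range (R₀ + 1)).image F.coeff :
      Finset (MvPolynomial (Fin n) ℚ)) : Set (MvPolynomial (Fin n) ℚ)) := by
    apply le_antisymm
    · apply Submodule.span_le.2
      rintro _ ⟨e, rfl⟩
      by_cases he : e < R₀ + 1
      · apply Submodule.subset_span
        simp only [Finset.coe_image, Set.mem_image, Finset.mem_coe, Finset.mem_range]
        exact ⟨e, he, rfl⟩
      · rw [hFe e (by omega)]
        exact Submodule.zero_mem _
    · apply Submodule.span_mono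
      intro x hx
      simp only [Finset.coe_image, Set.mem_image, Finset.mem_coe, Finset.mem_range] at hx
      obtain ⟨e, _, rfl⟩ := hx
      exact ⟨e, rfl⟩
  have hfin : Module.Finite ℚ V := by
    rw [hVspan]
    infer_instance
  have hrank : Module.finrank ℚ V ≤ R₀ + 1 := by
    rw [hVspan]
    refine (finrank_span_finset_le_card _).trans ?_
    exact Finset.card_image_le.trans (by simp)
  set k := Module.finrank ℚ V with hk
  let b : Module.Basis (Fin k) ℚ V := Module.finBasis ℚ V
  have hmem : ∀ e, F.coeff e ∈ V := fun e => Submodule.subset_span ⟨e, rfl⟩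
  have hk1 : 1 ≤ k := by
    by_contra hcon
    have hk0 : k = 0 := by omega
    have hVbot : V = ⊥ := Submodule.finrank_eq_zero.1 hk0
    apply hF0
    ext1 e
    have h1 := hmem e
    rw [hVbot, Submodule.mem_bot] at h1
    rw [h1, Polynomial.coeff_zero]
  let ψ : Fin k → Polynomial ℚ := fun j =>
    ∑ l ∈ Finset.range (R₀ + 1), Polynomial.monomial l (b.coord j ⟨F.coeff l, hmem l⟩)
  have hψ : ∀ j e, (ψ j).coeff e = b.coord j ⟨F.coeff e, hmem e⟩ := by
    intro j e
    simp only [ψ, Polynomial.finsetSum_coeff, Polynomial.coeff_monomial]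
    rw [Finset.sum_ite_eq' (Finset.range (R₀ + 1)) e]
    split_ifs with h1
    · rfl
    · have h2 : (⟨F.coeff e, hmem e⟩ : V) = 0 := by
        apply Subtype.ext
        exact hFe e (by simpa using h1)
      rw [h2, map_zero]
  refine ⟨k, hk1, hrank, fun j => (b j : MvPolynomial (Fin n) ℚ), ψ, ?_, ?_, ?_⟩
  · exact b.linearIndependent.map' V.subtype (Submodule.ker_subtype V)
  · rw [Fintype.linearIndependent_iff]
    intro c hc j
    let T : V →ₗ[ℚ] ℚ := ∑ j, c j • b.coord j
    have hT : ∀ x (hx : x ∈ V), T ⟨x, hx⟩ = 0 := by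
      intro x hx
      induction hx using Submodule.span_induction with
      | mem x hx =>
        obtain ⟨e, rfl⟩ := hx
        have h1 := congrArg (fun p => Polynomial.coeff p e) hc
        simp only [Polynomial.finsetSum_coeff, Polynomial.coeff_smul, Polynomial.coeff_zero, hψ] at h1
        simp only [T, LinearMap.sum_apply, LinearMap.smul_apply]
        exact h1
      | zero => exact map_zero T
      | add x y hx hy h1 h2 =>
        have : (⟨x + y, Submodule.add_mem _ hx hy⟩ : V) = ⟨x, hx⟩ + ⟨y, hy⟩ := rfl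
        rw [this, map_add, h1, h2, add_zero]
      | smul a x hx h1 =>
        have : (⟨a • x, Submodule.smul_mem _ a hx⟩ : V) = a • ⟨x, hx⟩ := rfl
        rw [this, map_smul, h1, smul_zero]
    have h2 := hT (b j) (b j).2
    have h3 : (⟨(b j : MvPolynomial (Fin n) ℚ), (b j).2⟩ : V) = b j := rfl
    rw [h3] at h2
    simp only [T, LinearMap.sum_apply, LinearMap.smul_apply, Module.Basis.coord_apply,
      Module.Basis.repr_self, smul_eq_mul] at h2
    rw [Finset.sum_eq_single j] at h2
    · simpa using h2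
    · intro l _ hl
      rw [Finsupp.single_eq_of_ne hl, mul_zero]
    · simp
  · ext J
    rw [← Finsupp.cons_tail J]
    generalize Finsupp.tail J = I
    generalize J 0 = e
    rw [coeff_sum]
    simp only [coeff_cons_mul_split, hψ]
    rw [← finSuccEquiv_coeff_coeff, ← hF]
    have h1 : (⟨F.coeff e, hmem e⟩ : V) = ∑ j, b.coord j ⟨F.coeff e, hmem e⟩ • b j := by
      conv_lhs => rw [← b.sum_repr ⟨F.coeff e, hmem e⟩]
      rfl
    have h2 := congrArg (fun v : V => coeff I (v : MvPolynomial (Fin n) ℚ)) h1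
    simp only [Submodule.coe_sum, Submodule.coe_smul, coeff_sum, coeff_smul, smul_eq_mul] at h2
    rw [h2]
    exact Finset.sum_congr rfl fun j _ => mul_comm _ _

/-- Gauss lemma: clearing denominators in a product of polynomials in disjoint variables -/
theorem clear_denominators (n : ℕ) (V : MvPolynomial (Fin (n + 1)) ℤ)
    (U' : MvPolynomial (Fin n) ℚ) (W' : Polynomial ℚ) (hU' : U' ≠ 0) (hW' : W' ≠ 0)
    (h : map (Int.castRingHom ℚ) V = rename Fin.succ U' * Polynomial.aeval (X 0) W') :
    ∃ (U : MvPolynomial (Fin n) ℤ) (W : Polynomial ℤ), U ≠ 0 ∧ W ≠ 0 ∧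
      V = rename Fin.succ U * Polynomial.aeval (X 0) W := by
  classical
  obtain ⟨b, hbm, hb⟩ := IsLocalization.integerNormalization_spec (nonZeroDivisors ℤ) W'
  set W1 := IsLocalization.integerNormalization (nonZeroDivisors ℤ) W' with hW1
  have hb0 : ((b : ℤ) : ℚ) ≠ 0 := by
    have := nonZeroDivisors.ne_zero hbm
    exact_mod_cast this
  have hW1c : ∀ e, ((W1.coeff e : ℤ) : ℚ) = ((b : ℤ) : ℚ) * W'.coeff e := by
    intro e
    have := congrArg (fun p => Polynomial.coeff p e) hb
    simp only [Polynomial.coeff_map, Polynomial.coeff_smul] at this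
    simpa using this
  have hW10 : W1 ≠ 0 := by
    intro h0
    apply hW'
    ext e
    have := hW1c e
    rw [h0, Polynomial.coeff_zero, Int.cast_zero] at this
    rcases mul_eq_zero.1 this.symm with h1 | h1
    · exact absurd h1 hb0
    · rw [h1, Polynomial.coeff_zero]
  set W := W1.primPart with hW
  have hWprim : W.IsPrimitive := W1.isPrimitive_primPart
  have hcont : W1.content ≠ 0 := by
    rw [Ne, Polynomial.content_eq_zero_iff]
    exact hW10
  have hW1e : ∀ e, W1.coeff e = W1.content * W.coeff e := by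
    intro e
    conv_lhs => rw [W1.eq_C_content_mul_primPart]
    rw [Polynomial.coeff_C_mul]
  -- scaling constant
  set c : ℚ := (W1.content : ℚ) / ((b : ℤ) : ℚ) with hc
  have hc0 : c ≠ 0 := div_ne_zero (by exact_mod_cast hcont) hb0
  have hW'e : ∀ e, W'.coeff e = c * (W.coeff e : ℚ) := by
    intro e
    have h1 := hW1c e
    rw [hW1e e] at h1
    push_cast at h1
    rw [hc]
    field_simp
    linarith
  have hcoef : ∀ e I, ((coeff (Finsupp.cons e I) V : ℤ) : ℚ) = (c * coeff I U') * (W.coeff e : ℚ) := by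
    intro e I
    have h1 := congrArg (coeff (Finsupp.cons e I)) h
    rw [coeff_map, coeff_cons_mul_split, hW'e] at h1
    have h2 : ((Int.castRingHom ℚ) (coeff (Finsupp.cons e I) V)) = ((coeff (Finsupp.cons e I) V : ℤ) : ℚ) := rfl
    rw [h2] at h1
    rw [h1]
    ring
  have hint : ∀ I, ∃ z : ℤ, (z : ℚ) = c * coeff I U' := by
    intro I
    set u := c * coeff I U' with hu
    let J : Ideal ℤ :=
      { carrier := {x | ∃ z : ℤ, u * x = z}
        add_mem' := by
          rintro x y ⟨z, hz⟩ ⟨w, hw⟩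
          refine ⟨z + w, ?_⟩
          push_cast
          rw [mul_add, hz, hw]
        zero_mem' := ⟨0, by simp⟩
        smul_mem' := by
          rintro a x ⟨z, hz⟩
          refine ⟨a * z, ?_⟩
          push_cast [smul_eq_mul]
          rw [← hz]
          ring }
    obtain ⟨g, hg⟩ := (IsPrincipalIdealRing.principal J).principal
    have hWJ : ∀ e, W.coeff e ∈ J := fun e => ⟨coeff (Finsupp.cons e I) V, (hcoef e I).symm⟩
    have hgd : Polynomial.C g ∣ W := by
      rw [Polynomial.C_dvd_iff_dvd_coeff]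
      intro e
      have h1 := hWJ e
      rw [hg] at h1
      exact Ideal.mem_span_singleton.1 h1
    have hgu : IsUnit g := hWprim g hgd
    have h1 : (1 : ℤ) ∈ J := by
      rw [hg]
      exact Ideal.mem_span_singleton.2 hgu.dvd
    obtain ⟨z, hz⟩ := h1
    exact ⟨z, by rw [← hz]; simp⟩
  choose z hz using hint
  let U : MvPolynomial (Fin n) ℤ := ∑ I ∈ U'.support, monomial I (z I)
  have hUc : ∀ I, ((coeff I U : ℤ) : ℚ) = c * coeff I U' := by
    intro I
    simp only [U, coeff_sum, coeff_monomial]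
    rw [Finset.sum_ite_eq' U'.support I]
    split_ifs with h1
    · exact hz I
    · rw [notMem_support_iff.1 h1]
      simp
  refine ⟨U, W, ?_, hWprim.ne_zero, ?_⟩
  · intro h0
    apply hU'
    ext I
    have h1 := hUc I
    rw [h0, coeff_zero, Int.cast_zero] at h1
    rcases mul_eq_zero.1 h1.symm with h2 | h2
    · exact absurd h2 hc0
    · rw [h2, coeff_zero]
  · ext J
    rw [← Finsupp.cons_tail J]
    generalize Finsupp.tail J = I
    generalize J 0 = e
    rw [coeff_cons_mul_split]
    have : (((coeff (Finsupp.cons e I) V : ℤ) : ℚ)) = ((coeff I U * W.coeff e : ℤ) : ℚ) := by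
      rw [hcoef]
      push_cast
      rw [hUc]
    exact_mod_cast this

theorem wronskian_split (n : ℕ) (r : Fin (n + 1) → ℕ) (f : MvPolynomial (Fin (n + 1)) ℤ)
    (hf : f ≠ 0) (hdeg : ∀ h, f.degreeOf h ≤ r h) :
    ∃ k : ℕ, 1 ≤ k ∧ k ≤ r 0 + 1 ∧ ∃ Δ : Fin k → (Fin n →₀ ℕ),
      (∀ i, (Δ i).degree ≤ k - 1) ∧
      ∃ (U : MvPolynomial (Fin n) ℤ) (W : Polynomial ℤ), U ≠ 0 ∧ W ≠ 0 ∧
        Matrix.det (fun i l : Fin k => hd (Finsupp.cons (l : ℕ) (Δ i)) f)
          = rename Fin.succ U * Polynomial.aeval (X 0) W := by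
  classical
  set fQ : MvPolynomial (Fin (n + 1)) ℚ := map (Int.castRingHom ℚ) f with hfQ
  have hinj : Function.Injective (Int.castRingHom ℚ) := Int.cast_injective
  have hfQ0 : fQ ≠ 0 := by
    intro h0
    apply hf
    apply map_injective _ hinj
    rw [map_zero]
    exact h0
  have hdegQ : fQ.degreeOf 0 ≤ r 0 := by
    rw [hfQ]
    refine le_trans ?_ (hdeg 0)
    rw [degreeOf_le_iff]
    intro m hm
    exact (degreeOf_le_iff.1 le_rfl) m (support_map_subset _ _ hm)
  obtain ⟨k, hk1, hk2, φ, ψ, hφ, hψ, hsum⟩ := rank_decomp n (r 0) fQ hfQ0 hdegQ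
  obtain ⟨Δ, hΔ, hdet⟩ := gen_wronskian φ hφ
  refine ⟨k, hk1, hk2, Δ, hΔ, ?_⟩
  have hW := wronskian_one_var ψ hψ
  apply clear_denominators n _ _ _ hdet hW
  rw [RingHom.map_det]
  have h1 : (map (Int.castRingHom ℚ)).mapMatrix (fun i l : Fin k => hd (Finsupp.cons (l : ℕ) (Δ i)) f)
      = (rename Fin.succ).mapMatrix (Matrix.of fun i j => hd (Δ i) (φ j)) *
        (Polynomial.aeval (X 0)).mapMatrix (Matrix.of fun j l : Fin k => Polynomial.hasseDeriv (l : ℕ) (ψ j)) := by
    ext1 i l
    rw [RingHom.mapMatrix_apply, Matrix.map_apply, Matrix.mul_apply]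
    simp only [AlgHom.mapMatrix_apply, Matrix.map_apply, Matrix.of_apply]
    rw [← hd_map_eq, ← hfQ, hsum, hd_sum_eq]
    exact Finset.sum_congr rfl fun j _ => hd_cons_mul _ _ _ _
  rw [h1, Matrix.det_mul, ← AlgHom.map_det, ← AlgHom.map_det]
  rfl

end Pool.Agent.Sub
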