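import Pool.Agent.Lib_MP_10b5ac_nt.Poly
import Pool.Agent.Lib_MP_10b5ac_nt.OneVar
import Pool.Agent.Lib_MP_10b5ac_nt.Split

set_option autoImplicit false

namespace Pool.Agent.Sub

open MvPolynomial Finset

section aux

variable {σ : Type*}

/-- sub-sums of l1 -/
theorem sum_abs_coeff_le_l1 {ι : Type*} (P : MvPolynomial σ ℝ) (s : Finset ι) (g : ι → σ →₀ ℕ)
    (hg : Set.InjOn g s) : ∑ i ∈ s, |coeff (g i) P| ≤ l1 P := by
  classical
  rw [← Finset.sum_image (f := fun I => |coeff I P|) hg]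
  unfold l1
  have h1 : ∑ I ∈ s.image g, |coeff I P|
      = ∑ I ∈ (s.image g).filter (fun I => I ∈ P.support), |coeff I P| := by
    rw [Finset.sum_filter]
    apply Finset.sum_congr rfl
    intro I _
    split_ifs with h
    · rfl
    · rw [notMem_support_iff] at h; simp [h]
  rw [h1]
  apply Finset.sum_le_sum_of_subset_of_nonneg
  · intro I hI; exact (Finset.mem_filter.mp hI).2
  · intros; positivity

/-- all exponents in the support have weight at least `t` -/
def IdxGe {R : Type*} [CommSemiring R] (w : (σ →₀ ℕ) → ℝ) (t : ℝ) (P : MvPolynomial σ R) : Prop :=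
  ∀ I, coeff I P ≠ 0 → t ≤ w I

theorem IdxGe.mul {R : Type*} [CommSemiring R] {w : (σ →₀ ℕ) → ℝ} (hw : ∀ I J, w (I + J) = w I + w J)
    {s t : ℝ} {P Q : MvPolynomial σ R} (hP : IdxGe w s P) (hQ : IdxGe w t Q) :
    IdxGe w (s + t) (P * Q) := by
  classical
  intro I hI
  rw [coeff_mul] at hI
  obtain ⟨x, hx, hx0⟩ := Finset.exists_ne_zero_of_sum_ne_zero hI
  have hx' : x.1 + x.2 = I := by simpa using hx
  rw [← hx', hw]
  exact add_le_add (hP _ (left_ne_zero_of_mul hx0)) (hQ _ (right_ne_zero_of_mul hx0))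

theorem IdxGe.prod {R ι : Type*} [CommSemiring R] {w : (σ →₀ ℕ) → ℝ}
    (hw : ∀ I J, w (I + J) = w I + w J) (hw0 : 0 ≤ w 0)
    (s : Finset ι) (t : ι → ℝ) (P : ι → MvPolynomial σ R) (h : ∀ i ∈ s, IdxGe w (t i) (P i)) :
    IdxGe w (∑ i ∈ s, t i) (∏ i ∈ s, P i) := by
  classical
  induction s using Finset.induction_on with
  | empty =>
    intro I hI
    rw [Finset.prod_empty, coeff_one] at hI
    split_ifs at hI with h0
    · rw [← h0]; simpa using hw0
    · exact absurd rfl hI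
  | insert a s ha ih =>
    rw [Finset.sum_insert ha, Finset.prod_insert ha]
    exact IdxGe.mul hw (h a (Finset.mem_insert_self _ _))
      (ih fun i hi => h i (Finset.mem_insert_of_mem hi))

theorem IdxGe.sum {R ι : Type*} [CommSemiring R] {w : (σ →₀ ℕ) → ℝ} {t : ℝ}
    (s : Finset ι) (P : ι → MvPolynomial σ R) (h : ∀ i ∈ s, IdxGe w t (P i)) :
    IdxGe w t (∑ i ∈ s, P i) := by
  intro I hI
  rw [coeff_sum] at hI
  obtain ⟨i, hi, h0⟩ := Finset.exists_ne_zero_of_sum_ne_zero hI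
  exact h i hi I h0

theorem IdxGe.units_smul {R : Type*} [CommRing R] {w : (σ →₀ ℕ) → ℝ} {t : ℝ}
    (u : ℤˣ) {P : MvPolynomial σ R} (h : IdxGe w t P) : IdxGe w t (u • P) := by
  intro I hI
  apply h I
  rcases Int.units_eq_one_or u with rfl | rfl
  · simpa using hI
  · simpa using hI

theorem IdxGe.mono {R : Type*} [CommSemiring R] {w : (σ →₀ ℕ) → ℝ} {s t : ℝ} (hst : s ≤ t)
    {P : MvPolynomial σ R} (h : IdxGe w t P) : IdxGe w s P :=
  fun I hI => hst.trans (h I hI)

/-- index of a determinant -/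
theorem IdxGe.det {R : Type*} [CommRing R] {w : (σ →₀ ℕ) → ℝ}
    (hw : ∀ I J, w (I + J) = w I + w J) (hw0 : 0 ≤ w 0) {k : ℕ}
    (A : Matrix (Fin k) (Fin k) (MvPolynomial σ R)) (t : Fin k → ℝ)
    (h : ∀ i l, IdxGe w (t l) (A i l)) : IdxGe w (∑ l, t l) A.det := by
  rw [Matrix.det_apply]
  apply IdxGe.sum
  intro π _
  apply IdxGe.units_smul
  exact IdxGe.prod hw hw0 _ _ _ fun i _ => h _ _

end aux

section split

variable {R : Type*} [CommRing R] {n : ℕ}

theorem fse_rename (U : MvPolynomial (Fin n) R) :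
    finSuccEquiv R n (rename Fin.succ U) = Polynomial.C U := by
  induction U using MvPolynomial.induction_on with
  | C a => simp [finSuccEquiv_apply]
  | add p q hp hq => simp [hp, hq]
  | mul_X p i hp => simp [hp, finSuccEquiv_X_succ]

theorem fse_aeval (W : Polynomial R) :
    finSuccEquiv R n (Polynomial.aeval (X 0) W) = W.map C := by
  induction W using Polynomial.induction_on' with
  | add p q hp hq => simp [hp, hq]
  | monomial i a =>
    simp [finSuccEquiv_apply, ← Polynomial.C_mul_X_pow_eq_monomial, algebraMap_eq]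

theorem coeff_split (U : MvPolynomial (Fin n) R) (W : Polynomial R) (a : ℕ) (I : Fin n →₀ ℕ) :
    coeff (Finsupp.cons a I) (rename Fin.succ U * Polynomial.aeval (X 0) W)
      = coeff I U * W.coeff a := by
  rw [← finSuccEquiv_coeff_coeff, map_mul, fse_rename, fse_aeval, Polynomial.coeff_C_mul,
    Polynomial.coeff_map, mul_comm, coeff_C_mul, mul_comm]

theorem tay_rename_succ (x : Fin (n + 1) → R) (U : MvPolynomial (Fin n) R) :
    tay x (rename Fin.succ U) = rename Fin.succ (tay (fun h => x h.succ) U) := by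
  unfold tay
  induction U using MvPolynomial.induction_on with
  | C a => simp
  | add p q hp hq => simp [hp, hq]
  | mul_X p i hp => simp [hp]

theorem tay_aeval (x : Fin (n + 1) → R) (W : Polynomial R) :
    tay x (Polynomial.aeval (X 0) W) = Polynomial.aeval (X 0) (Polynomial.taylor (x 0) W) := by
  unfold tay
  induction W using Polynomial.induction_on' with
  | add p q hp hq => simp [hp, hq]
  | monomial i a =>
    simp [Polynomial.aeval_monomial, algebraMap_eq, add_comm]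

end split

section bounds

variable {σ : Type*}

theorem degreeOf_hd_le {R : Type*} [CommSemiring R] (s : σ) (i : σ →₀ ℕ) (P : MvPolynomial σ R) :
    degreeOf s (hd i P) ≤ degreeOf s P := by
  classical
  unfold hd
  refine (degreeOf_sum_le _ _ _).trans ?_
  apply Finset.sup_le
  intro I hI
  rw [degreeOf_le_iff]
  intro m hm
  have hm' := support_monomial_subset hm
  rw [Finset.mem_singleton] at hm'
  rw [hm', Finsupp.tsub_apply]
  have := (degreeOf_le_iff (n := s) (f := P)).mp le_rfl I hI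
  omega

theorem degreeOf_units_smul_le {R : Type*} [CommRing R] (s : σ) (u : ℤˣ) (P : MvPolynomial σ R) :
    degreeOf s (u • P) ≤ degreeOf s P := by
  classical
  rw [degreeOf_le_iff]
  intro m hm
  apply (degreeOf_le_iff (n := s) (f := P)).mp le_rfl
  rw [mem_support_iff] at hm ⊢
  rcases Int.units_eq_one_or u with rfl | rfl
  · simpa using hm
  · simpa using hm

theorem degreeOf_det_le {R : Type*} [CommRing R] (s : σ) {k d : ℕ}
    (A : Matrix (Fin k) (Fin k) (MvPolynomial σ R)) (h : ∀ i l, degreeOf s (A i l) ≤ d) :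
    degreeOf s A.det ≤ k * d := by
  rw [Matrix.det_apply]
  refine (degreeOf_sum_le _ _ _).trans ?_
  apply Finset.sup_le
  intro π _
  refine (degreeOf_units_smul_le _ _ _).trans ?_
  refine (degreeOf_prod_le _ _ _).trans ?_
  calc ∑ i : Fin k, degreeOf s (A (π i) i) ≤ ∑ _i : Fin k, d := Finset.sum_le_sum fun i _ => h _ _
    _ = k * d := by simp

theorem l1_units_smul (u : ℤˣ) (P : MvPolynomial σ ℝ) : l1 (u • P) = l1 P := by
  rcases Int.units_eq_one_or u with rfl | rfl
  · simp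
  · rw [Units.neg_smul, one_smul, l1_neg]

theorem l1_det {k : ℕ} (A : Matrix (Fin k) (Fin k) (MvPolynomial σ ℝ)) (B : ℝ)
    (h : ∀ i l, l1 (A i l) ≤ B) : l1 A.det ≤ k.factorial * B ^ k := by
  rw [Matrix.det_apply]
  refine (l1_sum _ _).trans ?_
  calc ∑ π : Equiv.Perm (Fin k), l1 (Equiv.Perm.sign π • ∏ i, A (π i) i)
      ≤ ∑ _π : Equiv.Perm (Fin k), B ^ k := by
        apply Finset.sum_le_sum
        intro π _
        rw [l1_units_smul]
        refine (l1_prod _ _).trans ?_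
        calc ∏ i, l1 (A (π i) i) ≤ ∏ _i : Fin k, B :=
              Finset.prod_le_prod (fun i _ => l1_nonneg _) fun i _ => h _ _
          _ = B ^ k := by simp
    _ = k.factorial * B ^ k := by
        rw [Finset.sum_const, Finset.card_univ, Fintype.card_perm, Fintype.card_fin, nsmul_eq_mul]

theorem totalDegree_toR_le {m : ℕ} (r : Fin m → ℕ) (f : MvPolynomial (Fin m) ℤ)
    (hdeg : ∀ h, f.degreeOf h ≤ r h) : (toR f).totalDegree ≤ ∑ h, r h := by
  classical
  unfold totalDegree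
  apply Finset.sup_le
  intro I hI
  have hI' : I ∈ f.support := support_map_subset _ _ hI
  rw [Finsupp.sum_fintype _ _ (fun _ => rfl)]
  apply Finset.sum_le_sum
  intro h _
  exact ((degreeOf_le_iff (n := h) (f := f)).mp le_rfl I hI').trans (hdeg h)

theorem sum_max_lower (θ : ℝ) (h0 : 0 ≤ θ) (h1 : θ ≤ 1) (r0 k : ℕ) (hr0 : 1 ≤ r0)
    (hk : k ≤ r0 + 1) :
    (k : ℝ) * (θ ^ 2 / 4) ≤ ∑ l : Fin k, max 0 (θ - ((l : ℕ) : ℝ) / r0) := by
  have hr : (1 : ℝ) ≤ r0 := by exact_mod_cast hr0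
  have hrpos : (0 : ℝ) < r0 := by linarith
  have hkr : (k : ℝ) ≤ r0 + 1 := by exact_mod_cast hk
  have hgauss : ∀ j : ℕ, ∑ l ∈ Finset.range j, (l : ℝ) = (j : ℝ) * (j - 1) / 2 := by
    intro j
    induction j with
    | zero => simp
    | succ j ih => rw [Finset.sum_range_succ, ih]; push_cast; ring
  have key : ∀ j : ℕ, j ≤ k → (j : ℝ) - 1 ≤ θ * r0 →
      (j : ℝ) * (θ / 2) ≤ ∑ l : Fin k, max 0 (θ - ((l : ℕ) : ℝ) / r0) := by
    intro j hj hjθ
    rw [Fin.sum_univ_eq_sum_range (fun l => max 0 (θ - (l : ℝ) / r0)) k]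
    have e1 : ∑ l ∈ Finset.range j, (θ - (l : ℝ) / r0)
        ≤ ∑ l ∈ Finset.range k, max 0 (θ - (l : ℝ) / r0) := by
      refine (Finset.sum_le_sum (s := Finset.range j) (f := fun l : ℕ => θ - (l : ℝ) / r0)
        (g := fun l : ℕ => max 0 (θ - (l : ℝ) / r0))
        (fun l _ => le_max_right 0 (θ - (l : ℝ) / r0))).trans ?_
      apply Finset.sum_le_sum_of_subset_of_nonneg
      · exact Finset.range_subset_range.mpr hj
      · intros; positivity
    refine le_trans ?_ e1
    rw [Finset.sum_sub_distrib, ← Finset.sum_div, hgauss, Finset.sum_const, Finset.card_range,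
      nsmul_eq_mul]
    have e2 : (j : ℝ) * (j - 1) / 2 / r0 ≤ (j : ℝ) * (θ / 2) := by
      rw [div_le_iff₀ hrpos]
      have : (j : ℝ) * (j - 1) ≤ j * (θ * r0) := mul_le_mul_of_nonneg_left hjθ (Nat.cast_nonneg _)
      linarith
    linarith
  have hk0 : (0 : ℝ) ≤ k := Nat.cast_nonneg _
  by_cases hc : k ≤ ⌊θ * r0⌋₊ + 1
  · have h2 : (k : ℝ) - 1 ≤ θ * r0 := by
      have : (k : ℝ) ≤ (⌊θ * r0⌋₊ : ℝ) + 1 := by exact_mod_cast hc
      have h3 := Nat.floor_le (show 0 ≤ θ * (r0 : ℝ) by positivity)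
      linarith
    have h3 := key k le_rfl h2
    refine le_trans ?_ h3
    apply mul_le_mul_of_nonneg_left _ hk0
    nlinarith
  · have hc' : ⌊θ * r0⌋₊ + 1 ≤ k := by omega
    have h2 := key (⌊θ * r0⌋₊ + 1) hc' (by
      push_cast
      have h3 := Nat.floor_le (show 0 ≤ θ * (r0 : ℝ) by positivity)
      linarith)
    refine le_trans ?_ h2
    have h4 : θ * r0 ≤ ((⌊θ * r0⌋₊ + 1 : ℕ) : ℝ) := by
      push_cast
      exact (Nat.lt_floor_add_one _).le
    have h5 : (θ * r0) * (θ / 2) ≤ ((⌊θ * r0⌋₊ + 1 : ℕ) : ℝ) * (θ / 2) :=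
      mul_le_mul_of_nonneg_right h4 (by linarith)
    refine le_trans ?_ h5
    have h6 : (k : ℝ) ≤ 2 * r0 := by linarith
    have h7 : (k : ℝ) * (θ ^ 2 / 4) ≤ (2 * r0) * (θ ^ 2 / 4) :=
      mul_le_mul_of_nonneg_right h6 (by positivity)
    linarith [h7, show (2 * (r0 : ℝ)) * (θ ^ 2 / 4) = θ * r0 * (θ / 2) by ring]

end bounds

/-- weight of a multi-index -/
noncomputable def wgt {m : ℕ} (r : Fin m → ℕ) (I : Fin m →₀ ℕ) : ℝ := ∑ h, (I h : ℝ) / (r h : ℝ)

theorem wgt_add {m : ℕ} (r : Fin m → ℕ) (I J : Fin m →₀ ℕ) :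
    wgt r (I + J) = wgt r I + wgt r J := by
  unfold wgt
  rw [← Finset.sum_add_distrib]
  apply Finset.sum_congr rfl
  intro h _
  rw [Finsupp.add_apply]
  push_cast
  rw [add_div]

theorem wgt_zero {m : ℕ} (r : Fin m → ℕ) : wgt r 0 = 0 := by simp [wgt]

theorem wgt_cons {m : ℕ} (r : Fin (m + 1) → ℕ) (a : ℕ) (I : Fin m →₀ ℕ) :
    wgt r (Finsupp.cons a I) = (a : ℝ) / r 0 + wgt (fun h => r h.succ) I := by
  unfold wgt
  rw [Fin.sum_univ_succ]
  simp

/-- the statement of Roth lemma for given `m`, `ε` -/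
def RothSt (m : ℕ) (ε : ℝ) : Prop := ∃ ω : ℝ, 0 < ω ∧ ω ≤ 1 ∧ ∃ K : ℝ, 1 ≤ K ∧
    ∀ r : Fin m → ℕ, (∀ h, 1 ≤ r h) → (∀ h h', h < h' → (r h : ℝ) ≤ ω * r h') →
    ∀ f : MvPolynomial (Fin m) ℤ, f ≠ 0 → (∀ h, f.degreeOf h ≤ r h) →
    ∀ p q : Fin m → ℤ, (∀ h, IsCoprime (p h) (q h)) → (∀ h, q h ≠ 0) →
      (∀ h, K ^ (∑ h', r h') * l1 (toR f) ≤ ((max |p h| |q h| : ℤ) : ℝ) ^ (ω * (r h : ℝ))) →
      ∃ i : Fin m →₀ ℕ, wgt r i < ε ∧
        coeff i (tay (fun h => (p h : ℚ) / q h) (toQ f)) ≠ 0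

theorem toQ_ne_zero {σ : Type*} {f : MvPolynomial σ ℤ} (hf : f ≠ 0) : toQ f ≠ 0 := by
  intro h0
  apply hf
  have h1 : MvPolynomial.map (Int.castRingHom ℚ) f = MvPolynomial.map (Int.castRingHom ℚ) 0 := by
    rw [map_zero]; exact h0
  exact map_injective _ (RingHom.injective_int (Int.castRingHom ℚ)) h1

theorem toQ_aeval {m : ℕ} (W : Polynomial ℤ) :
    MvPolynomial.map (Int.castRingHom ℚ) (Polynomial.aeval (X 0 : MvPolynomial (Fin (m + 1)) ℤ) W)
      = Polynomial.aeval (X 0) (W.map (Int.castRingHom ℚ)) := by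
  induction W using Polynomial.induction_on' with
  | add p q hp hq => simp [hp, hq]
  | monomial i a => simp [Polynomial.aeval_monomial]

theorem rothSt_zero (ε : ℝ) (hε : 0 < ε) : RothSt 0 ε := by
  refine ⟨1, one_pos, le_rfl, 1, le_rfl, ?_⟩
  intro r _ _ f hf _ p q _ _ _
  refine ⟨0, by rw [wgt_zero]; exact hε, ?_⟩
  have hx : (fun h : Fin 0 => (p h : ℚ) / q h) = 0 := by ext h; exact h.elim0
  intro h0
  apply toQ_ne_zero hf
  rw [← tay_eq_zero (fun h : Fin 0 => (p h : ℚ) / q h)]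
  ext I
  have : I = 0 := by ext h; exact h.elim0
  rw [this, h0, coeff_zero]

theorem rothSt_mono {m : ℕ} {ε ε' : ℝ} (h : ε ≤ ε') (H : RothSt m ε) : RothSt m ε' := by
  obtain ⟨ω, h1, h2, K, h3, H⟩ := H
  refine ⟨ω, h1, h2, K, h3, ?_⟩
  intro r a1 a2 f a3 a4 p q a5 a6 a7
  obtain ⟨i, hi, hi'⟩ := H r a1 a2 f a3 a4 p q a5 a6 a7
  exact ⟨i, hi.trans_le h, hi'⟩

theorem roth_step (m : ℕ) (ε : ℝ) (hε : 0 < ε) (hε1 : ε ≤ 1) (ih : RothSt m (ε ^ 2 / 32)) :
    RothSt (m + 1) ε := by
  obtain ⟨ω', hω'0, hω'1, K', hK', H⟩ := ih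
  have hK'0 : (0 : ℝ) < K' := by linarith
  refine ⟨min ω' (ε ^ 2 / 32), lt_min hω'0 (by positivity), (min_le_left _ _).trans hω'1,
    4 * K', by linarith, ?_⟩
  set ω := min ω' (ε ^ 2 / 32) with hω
  have hω0 : 0 < ω := lt_min hω'0 (by positivity)
  have hωω' : ω ≤ ω' := min_le_left _ _
  have hωε : ω ≤ ε ^ 2 / 32 := min_le_right _ _
  intro r hr hrω f hf hdeg p q hpq hq hsize
  by_contra hcon
  push Not at hcon
  obtain ⟨k, hk1, hkr, Δ, hΔ, U, W, hU, hW, hdet⟩ := wronskian_split m r f hf hdeg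
  -- sizes
  set F : ℝ := l1 (toR f) with hF
  have hF1 : 1 ≤ F := one_le_l1_toR f hf
  set S : ℕ := ∑ h, r h with hS
  have hr0S : r 0 ≤ S := Finset.single_le_sum (f := r) (fun _ _ => Nat.zero_le _) (Finset.mem_univ 0)
  set A : Matrix (Fin k) (Fin k) (MvPolynomial (Fin (m + 1)) ℤ) :=
    fun i l => hd (Finsupp.cons (l : ℕ) (Δ i)) f with hA
  set V : MvPolynomial (Fin (m + 1)) ℤ := A.det with hV
  have hVeq : V = rename Fin.succ U * Polynomial.aeval (X 0) W := hdet
  have hVcoeff : ∀ a I, coeff (Finsupp.cons a I) V = coeff I U * W.coeff a := by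
    intro a I; rw [hVeq, coeff_split]
  have hl1V : l1 (toR V) ≤ ((4 : ℝ) ^ S * F) ^ k := by
    have e1 : toR V = Matrix.det (fun i l => toR (A i l)) := by
      rw [hV]
      exact RingHom.map_det (map (Int.castRingHom ℝ)) A
    have e2 : ∀ i l, l1 (toR (A i l)) ≤ (2 : ℝ) ^ S * F := by
      intro i l
      have e3 : toR (A i l) = hd (Finsupp.cons (l : ℕ) (Δ i)) (toR f) := by
        rw [hA]; exact (hd_map _ _ _).symm
      rw [e3]
      exact l1_hd _ _ _ (totalDegree_toR_le r f hdeg)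
    rw [e1]
    refine (l1_det _ _ e2).trans ?_
    have e4 : (k.factorial : ℝ) ≤ ((2 : ℝ) ^ S) ^ k := by
      have e5 : k.factorial ≤ (2 ^ S) ^ k := by
        refine (Nat.factorial_le_pow k).trans ?_
        apply Nat.pow_le_pow_left
        refine hkr.trans ?_
        have : r 0 < 2 ^ (r 0) := Nat.lt_two_pow_self
        have h2 : 2 ^ (r 0) ≤ 2 ^ S := Nat.pow_le_pow_right (by norm_num) hr0S
        omega
      exact_mod_cast e5
    calc (k.factorial : ℝ) * ((2 : ℝ) ^ S * F) ^ k ≤ ((2 : ℝ) ^ S) ^ k * ((2 : ℝ) ^ S * F) ^ k :=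
          mul_le_mul_of_nonneg_right e4 (by positivity)
      _ = ((4 : ℝ) ^ S * F) ^ k := by
          rw [← mul_pow]
          congr 1
          rw [← mul_assoc, ← mul_pow]
          norm_num
  have hWabs : ∃ a, W.coeff a ≠ 0 := by
    by_contra h; push Not at h; exact hW (Polynomial.ext (by simpa using h))
  have hUabs : ∃ I, coeff I U ≠ 0 := by
    by_contra h; push Not at h; exact hU (MvPolynomial.ext _ _ (by simpa using h))
  obtain ⟨a0, ha0⟩ := hWabs
  obtain ⟨I0, hI0⟩ := hUabs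
  have habs1 : ∀ z : ℤ, z ≠ 0 → (1 : ℝ) ≤ |(z : ℝ)| := by
    intro z hz
    have := Int.one_le_abs hz
    exact_mod_cast this
  have hl1U : l1 (toR U) ≤ l1 (toR V) := by
    unfold l1
    refine le_trans ?_ (sum_abs_coeff_le_l1 (toR V) (toR U).support (fun I => Finsupp.cons a0 I)
      (fun I _ J _ h => by simpa using congrArg Finsupp.tail h))
    apply Finset.sum_le_sum
    intro I _
    rw [coeff_map, coeff_map, hVcoeff]
    simp only [eq_intCast, Int.cast_mul, abs_mul]
    exact le_mul_of_one_le_right (abs_nonneg _) (habs1 _ ha0)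
  have hl1W : ∑ i ∈ W.support, |(W.coeff i : ℝ)| ≤ l1 (toR V) := by
    refine le_trans ?_ (sum_abs_coeff_le_l1 (toR V) W.support (fun a => Finsupp.cons a I0)
      (fun a _ b _ h => by simpa using DFunLike.congr_fun h 0))
    apply Finset.sum_le_sum
    intro a _
    rw [coeff_map, hVcoeff]
    simp only [eq_intCast, Int.cast_mul, abs_mul]
    exact le_mul_of_one_le_left (abs_nonneg _) (habs1 _ hI0)
  have hdegU : ∀ h, degreeOf h U ≤ k * r h.succ := by
    intro h
    have e1 : degreeOf h.succ V ≤ k * r h.succ :=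
      degreeOf_det_le _ _ fun i l => (degreeOf_hd_le _ _ _).trans (hdeg _)
    rw [degreeOf_le_iff] at e1 ⊢
    intro I hI
    have := e1 (Finsupp.cons a0 I) (by
      rw [mem_support_iff, hVcoeff]
      exact mul_ne_zero (mem_support_iff.mp hI) ha0)
    simpa using this
  -- the hypothesis raised to the power `k`
  have hkpos : (0 : ℝ) < k := by exact_mod_cast hk1
  have hHt1 : ∀ h, (1 : ℝ) ≤ ((max |p h| |q h| : ℤ) : ℝ) := by
    intro h
    have h1 := Int.one_le_abs (hq h)
    have h2 : (1 : ℤ) ≤ max |p h| |q h| := h1.trans (le_max_right _ _)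
    exact_mod_cast h2
  have hsizek : ∀ h, (4 * K') ^ (k * S) * F ^ k
      ≤ ((max |p h| |q h| : ℤ) : ℝ) ^ (ω * (r h : ℝ) * k) := by
    intro h
    have h1 := hsize h
    have h2 : ((4 * K') ^ S * F) ^ k ≤ (((max |p h| |q h| : ℤ) : ℝ) ^ (ω * (r h : ℝ))) ^ k :=
      pow_le_pow_left₀ (by positivity) h1 k
    rw [mul_pow, ← pow_mul, mul_comm S k, ← Real.rpow_mul_natCast (by linarith [hHt1 h])] at h2
    exact h2
  -- induction hypothesis for `U`
  obtain ⟨i', hi', hi'0⟩ := H (fun h => k * r h.succ)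
    (fun h => Nat.one_le_iff_ne_zero.mpr (Nat.mul_ne_zero (by omega) (by have := hr h.succ; omega)))
    (fun h h' hh => by
      have h1 := hrω h.succ h'.succ (Fin.succ_lt_succ_iff.mpr hh)
      have h2 : (r h.succ : ℝ) ≤ ω' * r h'.succ :=
        h1.trans (mul_le_mul_of_nonneg_right hωω' (Nat.cast_nonneg _))
      push_cast
      have h3 := mul_le_mul_of_nonneg_left h2 hkpos.le
      linarith)
    U hU hdegU (fun h => p h.succ) (fun h => q h.succ) (fun h => hpq _) (fun h => hq _)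
    (fun h => by
      have e0 : ∑ h' : Fin m, k * r h'.succ ≤ k * S := by
        rw [← Finset.mul_sum]
        apply Nat.mul_le_mul_left
        rw [hS, Fin.sum_univ_succ]
        exact Nat.le_add_left _ _
      have e1 : K' ^ (∑ h' : Fin m, k * r h'.succ) * l1 (toR U)
          ≤ (4 * K') ^ (k * S) * F ^ k := by
        calc K' ^ (∑ h' : Fin m, k * r h'.succ) * l1 (toR U)
            ≤ K' ^ (k * S) * ((4 : ℝ) ^ S * F) ^ k := by
              apply mul_le_mul _ (hl1U.trans hl1V) (l1_nonneg _) (by positivity)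
              exact pow_le_pow_right₀ hK' e0
          _ = (4 * K') ^ (k * S) * F ^ k := by
              rw [mul_pow, mul_pow 4 K', ← pow_mul, mul_comm S k]; ring
      refine e1.trans ((hsizek h.succ).trans ?_)
      apply Real.rpow_le_rpow_of_exponent_le (hHt1 h.succ)
      push_cast
      have : ω * (r h.succ : ℝ) * k ≤ ω' * (r h.succ : ℝ) * k := by
        apply mul_le_mul_of_nonneg_right _ hkpos.le
        exact mul_le_mul_of_nonneg_right hωω' (Nat.cast_nonneg _)
      linarith)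
  -- the variable `X 0`
  set x : Fin (m + 1) → ℚ := fun h => (p h : ℚ) / q h with hx
  set Wq : Polynomial ℚ := W.map (Int.castRingHom ℚ) with hWq
  have hWq0 : Wq ≠ 0 := by
    rw [hWq]
    exact (Polynomial.map_ne_zero_iff (RingHom.injective_int (Int.castRingHom ℚ))).mpr hW
  have hex : ∃ a, Polynomial.eval (x 0) (Polynomial.hasseDeriv a Wq) ≠ 0 := by
    by_contra h
    push Not at h
    apply hWq0
    have : Polynomial.taylor (x 0) Wq = 0 := by
      ext a
      rw [Polynomial.taylor_coeff, h a, Polynomial.coeff_zero]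
    exact (Polynomial.taylor_injective (x 0)) (by rw [this, map_zero])
  classical
  set i0 := Nat.find hex with hi0
  have hi0ne : Polynomial.eval (x 0) (Polynomial.hasseDeriv i0 Wq) ≠ 0 := Nat.find_spec hex
  have hi0min : ∀ i < i0, Polynomial.eval (x 0) (Polynomial.hasseDeriv i Wq) = 0 := by
    intro i hi
    by_contra h
    exact Nat.find_min hex hi h
  have hi0le : (i0 : ℝ) ≤ ω * r 0 * k := by
    have e1 := one_var W hW (p 0) (q 0) (hpq 0) (hq 0) i0 hi0min
    have e2 : ((max |p 0| |q 0| : ℤ) : ℝ) ^ i0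
        ≤ ((max |p 0| |q 0| : ℤ) : ℝ) ^ (ω * (r 0 : ℝ) * k) := by
      refine e1.trans (hl1W.trans (hl1V.trans (le_trans ?_ (hsizek 0))))
      rw [mul_pow, ← pow_mul, mul_comm S k]
      apply mul_le_mul_of_nonneg_right _ (by positivity)
      exact pow_le_pow_left₀ (by norm_num) (by linarith) _
    have e3 : 1 < ((max |p 0| |q 0| : ℤ) : ℝ) := by
      rcases (hHt1 0).lt_or_eq with h | h
      · exact h
      · exfalso
        have h2 := hsize 0
        rw [← h, Real.one_rpow] at h2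
        have h3 : (4 * K') ^ 1 ≤ (4 * K') ^ S :=
          pow_le_pow_right₀ (by linarith) ((hr 0).trans hr0S)
        have h4 : (4 * K') ^ S * 1 ≤ (4 * K') ^ S * F :=
          mul_le_mul_of_nonneg_left hF1 (by positivity)
        linarith
    rw [← Real.rpow_natCast, Real.rpow_le_rpow_left_iff e3] at e2
    exact e2
  -- the nonvanishing coefficient of `V`
  have hVne : coeff (Finsupp.cons i0 i') (tay x (toQ V)) ≠ 0 := by
    have e1 : toQ V = rename Fin.succ (toQ U) * Polynomial.aeval (X 0) Wq := by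
      rw [hVeq]
      unfold toQ
      rw [map_mul, map_rename, toQ_aeval]
    have e2 : tay x (toQ V) = rename Fin.succ (tay (fun h => x h.succ) (toQ U))
        * Polynomial.aeval (X 0) (Polynomial.taylor (x 0) Wq) := by
      rw [e1]
      rw [← tay_rename_succ, ← tay_aeval]
      unfold tay
      rw [map_mul]
    rw [e2, coeff_split, Polynomial.taylor_coeff]
    exact mul_ne_zero hi'0 hi0ne
  -- lower bound
  have hlow : ∑ l : Fin k, max 0 (ε - ω - ((l : ℕ) : ℝ) / r 0) ≤ wgt r (Finsupp.cons i0 i') := by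
    have e1 : tay x (toQ V) = Matrix.det (fun i l => tay x (toQ (A i l))) := by
      have e11 : toQ V = Matrix.det (fun i l => toQ (A i l)) := by
        rw [hV]
        exact RingHom.map_det (map (Int.castRingHom ℚ)) A
      rw [e11]
      exact AlgHom.map_det (bind₁ (fun s => C (x s) + X s)) _
    have e2 := IdxGe.det (w := wgt r) (wgt_add r) (wgt_zero r).ge
      (fun i l => tay x (toQ (A i l))) (fun l => max 0 (ε - ω - ((l : ℕ) : ℝ) / r 0)) (by
        intro i l I hI
        have e3 : toQ (A i l) = hd (Finsupp.cons (l : ℕ) (Δ i)) (toQ f) := by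
          rw [hA]; exact (hd_map _ _ _).symm
        rw [e3, coeff_tay_hd] at hI
        have e4 : coeff (Finsupp.cons (l : ℕ) (Δ i) + I) (tay x (toQ f)) ≠ 0 :=
          right_ne_zero_of_mul hI
        have e5 : ε ≤ wgt r (Finsupp.cons (l : ℕ) (Δ i) + I) := by
          by_contra h
          push Not at h
          exact e4 (hcon _ h)
        rw [wgt_add, wgt_cons] at e5
        have e6 : wgt (fun h => r h.succ) (Δ i) ≤ ω := by
          have hr0 : (0 : ℝ) < r 0 := by exact_mod_cast hr 0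
          have e7 : wgt (fun h => r h.succ) (Δ i) ≤ ∑ h, (Δ i h : ℝ) * (ω / r 0) := by
            unfold wgt
            apply Finset.sum_le_sum
            intro h _
            have hrh : (0 : ℝ) < r h.succ := by exact_mod_cast hr h.succ
            rw [div_eq_mul_inv]
            apply mul_le_mul_of_nonneg_left _ (Nat.cast_nonneg _)
            rw [inv_eq_one_div, div_le_div_iff₀ hrh hr0, one_mul]
            exact hrω 0 h.succ (Fin.succ_pos _)
          refine e7.trans ?_
          rw [← Finset.sum_mul]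
          have e8 : (∑ h, (Δ i h : ℝ)) ≤ r 0 := by
            have e9 : ∑ h, Δ i h ≤ r 0 := by
              have e10 : Finsupp.degree (Δ i) = ∑ h, Δ i h := Finsupp.degree_eq_sum _
              rw [← e10]
              exact (hΔ i).trans (by omega)
            exact_mod_cast e9
          calc (∑ h, (Δ i h : ℝ)) * (ω / r 0) ≤ r 0 * (ω / r 0) :=
                mul_le_mul_of_nonneg_right e8 (by positivity)
            _ = ω := by field_simp
        apply max_le
        · unfold wgt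
          positivity
        · linarith)
    rw [← e1] at e2
    exact e2 _ hVne
  have hε2 : ε ^ 2 ≤ ε := by nlinarith
  have hup : wgt r (Finsupp.cons i0 i') ≤ k * (ω + ε ^ 2 / 32) := by
    rw [wgt_cons]
    have hr0 : (0 : ℝ) < r 0 := by exact_mod_cast hr 0
    have e1 : (i0 : ℝ) / r 0 ≤ k * ω := by
      rw [div_le_iff₀ hr0]
      linarith
    have e2 : wgt (fun h => r h.succ) i' = k * wgt (fun h => k * r h.succ) i' := by
      unfold wgt
      rw [Finset.mul_sum]
      apply Finset.sum_congr rfl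
      intro h _
      have hrh : (r h.succ : ℝ) ≠ 0 := by have := hr h.succ; positivity
      push_cast
      field_simp
    have e3 := mul_le_mul_of_nonneg_left hi'.le hkpos.le
    rw [e2]
    linarith
  have hθ0 : 0 ≤ ε - ω := by linarith
  have hsum := sum_max_lower (ε - ω) hθ0 (by linarith) (r 0) k (hr 0) hkr
  have h1 : (k : ℝ) * ((ε - ω) ^ 2 / 4) ≤ k * (ω + ε ^ 2 / 32) := hsum.trans (hlow.trans hup)
  have h2 : (ε - ω) ^ 2 / 4 ≤ ω + ε ^ 2 / 32 := le_of_mul_le_mul_left h1 hkpos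
  have h3 : 31 / 32 * ε ≤ ε - ω := by linarith
  have h4 : (31 / 32 * ε) ^ 2 ≤ (ε - ω) ^ 2 := pow_le_pow_left₀ (by positivity) h3 2
  have h5 : 0 < ε ^ 2 := by positivity
  nlinarith

/-- **Roth lemma.** -/
theorem roth_lemma (m : ℕ) (ε : ℝ) (hε : 0 < ε) : ∃ ω : ℝ, 0 < ω ∧ ω ≤ 1 ∧ ∃ K : ℝ, 1 ≤ K ∧
    ∀ r : Fin m → ℕ, (∀ h, 1 ≤ r h) → (∀ h h', h < h' → (r h : ℝ) ≤ ω * r h') →
    ∀ f : MvPolynomial (Fin m) ℤ, f ≠ 0 → (∀ h, f.degreeOf h ≤ r h) →
    ∀ p q : Fin m → ℤ, (∀ h, IsCoprime (p h) (q h)) → (∀ h, q h ≠ 0) →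
      (∀ h, K ^ (∑ h', r h') * l1 (toR f) ≤ ((max |p h| |q h| : ℤ) : ℝ) ^ (ω * (r h : ℝ))) →
      ∃ i : Fin m →₀ ℕ, (∑ h, (i h : ℝ) / (r h : ℝ)) < ε ∧
        coeff i (tay (fun h => (p h : ℚ) / q h) (toQ f)) ≠ 0 := by
  have main : ∀ (m : ℕ) (ε : ℝ), 0 < ε → RothSt m ε := by
    intro m
    induction m with
    | zero => exact rothSt_zero
    | succ m ih =>
      intro ε hε
      have h1 : 0 < min ε 1 := lt_min hε one_pos
      exact rothSt_mono (min_le_left ε 1) (roth_step m (min ε 1) h1 (min_le_right _ _)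
        (ih _ (by positivity)))
  exact main m ε hε

end Pool.Agent.Sub
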