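import Pool.Agent.Lib_MP_10b5ac_nt.Davenport
import Pool.Agent.Lib_MP_10b5ac_nt.HypRec
import Pool.Agent.Lib_MP_10b5ac_nt.Penultimate

set_option autoImplicit false

/-! Preparations for the Subspace theorem: the normalised matrix of a system. -/

namespace Pool.Agent.Sub

open Finset Filter Matrix

/-- the matrix of the normalised system -/
noncomputable def Mx {n : ℕ} (b : ℕ) (L : Matrix (Fin n) (Fin n) ℝ) (ex : Fin n → ℕ)
    (B : Fin n → ℝ) : Matrix (Fin n) (Fin n) ℝ :=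
  diagonal (fun i => (B i)⁻¹) * L * diagonal (fun j => (b : ℝ) ^ ex j)

section
variable {n : ℕ} (b : ℕ) (L : Matrix (Fin n) (Fin n) ℝ) (ex : Fin n → ℕ) (B : Fin n → ℝ)

theorem det_Mx : (Mx b L ex B).det = (∏ i, (B i)⁻¹) * L.det * (b : ℝ) ^ (∑ j, ex j) := by
  unfold Mx
  rw [det_mul, det_mul, det_diagonal, det_diagonal, Finset.prod_pow_eq_pow_sum]

theorem det_Mx_eq (hB : ∀ i, 0 < B i) (hvol : ∏ i, B i = (b : ℝ) ^ (∑ j, ex j)) :
    (Mx b L ex B).det = L.det := by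
  rw [det_Mx, ← hvol, Finset.prod_inv_distrib]
  have : ∏ i, B i ≠ 0 := (Finset.prod_pos fun i _ => hB i).ne'
  field_simp

theorem Mx_mulVec (y : Fin n → ℤ) (i : Fin n) :
    (Mx b L ex B).mulVec (rv y) i = (B i)⁻¹ * ∑ j, L i j * ((b : ℝ) ^ ex j * (y j : ℝ)) := by
  have h : (diagonal (fun j => (b : ℝ) ^ ex j)).mulVec (rv y)
      = fun j => (b : ℝ) ^ ex j * (y j : ℝ) := by
    funext j
    rw [mulVec_diagonal]; rfl
  unfold Mx
  rw [Matrix.mul_assoc, ← mulVec_mulVec, ← mulVec_mulVec, mulVec_diagonal, h]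
  rfl

theorem nrm_le_iff {N : ℕ} (M : Matrix (Fin N) (Fin N) ℝ) (y : Fin N → ℤ) (t : ℝ) (ht : 0 ≤ t) :
    nrm M y ≤ t ↔ ∀ i, |M.mulVec (rv y) i| ≤ t := by
  unfold nrm
  rw [pi_norm_le_iff_of_nonneg ht]
  rfl

theorem abs_le_nrm {N : ℕ} (M : Matrix (Fin N) (Fin N) ℝ) (y : Fin N → ℤ) (i : Fin N) :
    |M.mulVec (rv y) i| ≤ nrm M y := by
  unfold nrm
  exact norm_le_pi_norm (M.mulVec (rv y)) i

theorem rv_ne_zero {N : ℕ} {y : Fin N → ℤ} (hy : y ≠ 0) : rv y ≠ 0 := by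
  intro h
  apply hy
  funext j
  have := congrFun h j
  simpa [rv] using this

theorem nrm_pos {N : ℕ} (M : Matrix (Fin N) (Fin N) ℝ) (hM : M.det ≠ 0) {y : Fin N → ℤ}
    (hy : y ≠ 0) : 0 < nrm M y := by
  unfold nrm
  rw [norm_pos_iff]
  intro h
  apply rv_ne_zero hy
  exact Matrix.eq_zero_of_mulVec_eq_zero hM h

/-- a lower bound for the norm of a nonzero integer vector -/
theorem nrm_lower (hn : 1 ≤ n) (hL : L.det ≠ 0) : ∃ c : ℝ, 0 < c ∧ ∀ (b : ℕ) (ex : Fin n → ℕ)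
    (B : Fin n → ℝ) (X : ℝ), 1 ≤ b → (∀ i, 0 < B i) → (∀ i, B i ≤ X) → ∀ y : Fin n → ℤ, y ≠ 0 →
      c ≤ X * nrm (Mx b L ex B) y := by
  obtain ⟨K, hK0, hK⟩ : ∃ K : ℝ, 0 < K ∧ ∀ i j, |L⁻¹ i j| ≤ K := by
    refine ⟨1 + ∑ i, ∑ j, |L⁻¹ i j|, by positivity, fun i j => ?_⟩
    have h1 : |L⁻¹ i j| ≤ ∑ j, |L⁻¹ i j| :=
      Finset.single_le_sum (f := fun j => |L⁻¹ i j|) (fun _ _ => abs_nonneg _) (Finset.mem_univ j)
    have h2 : ∑ j, |L⁻¹ i j| ≤ ∑ i, ∑ j, |L⁻¹ i j| :=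
      Finset.single_le_sum (f := fun i => ∑ j, |L⁻¹ i j|)
        (fun _ _ => Finset.sum_nonneg fun _ _ => abs_nonneg _) (Finset.mem_univ i)
    linarith
  have hn' : (0 : ℝ) < n := by exact_mod_cast hn
  refine ⟨(n * K)⁻¹, by positivity, ?_⟩
  intro b ex B X hb hB hX y hy
  obtain ⟨j, hj⟩ : ∃ j, y j ≠ 0 := by
    by_contra h
    push Not at h
    exact hy (funext h)
  have h1 : (1 : ℝ) ≤ |(y j : ℝ)| := by
    have : (1 : ℤ) ≤ |y j| := Int.one_le_abs hj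
    exact_mod_cast this
  -- the vector `L * (b^ex y)`
  set u : Fin n → ℝ := fun j => (b : ℝ) ^ ex j * (y j : ℝ) with hu
  have h2 : L⁻¹.mulVec (L.mulVec u) = u := by
    rw [mulVec_mulVec, nonsing_inv_mul _ (isUnit_iff_ne_zero.2 hL), one_mulVec]
  have h3 : ∀ i, |L.mulVec u i| ≤ X * nrm (Mx b L ex B) y := by
    intro i
    have h4 := abs_le_nrm (Mx b L ex B) y i
    rw [Mx_mulVec, abs_mul, abs_of_pos (inv_pos.2 (hB i))] at h4
    have h5 : |L.mulVec u i| ≤ B i * nrm (Mx b L ex B) y := by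
      have : L.mulVec u i = ∑ j, L i j * ((b : ℝ) ^ ex j * (y j : ℝ)) := rfl
      rw [this]
      rw [inv_mul_le_iff₀ (hB i)] at h4
      exact h4
    exact h5.trans (mul_le_mul_of_nonneg_right (hX i) (nrm_nonneg _ _))
  have h6 : |u j| ≤ n * (K * (X * nrm (Mx b L ex B) y)) := by
    have : u j = ∑ i, L⁻¹ j i * L.mulVec u i := by
      conv_lhs => rw [← h2]
      rfl
    rw [this]
    calc |∑ i, L⁻¹ j i * L.mulVec u i| ≤ ∑ i, |L⁻¹ j i * L.mulVec u i| :=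
          Finset.abs_sum_le_sum_abs _ _
      _ ≤ ∑ _i : Fin n, K * (X * nrm (Mx b L ex B) y) := by
          apply Finset.sum_le_sum
          intro i _
          rw [abs_mul]
          exact mul_le_mul (hK j i) (h3 i) (abs_nonneg _) hK0.le
      _ = n * (K * (X * nrm (Mx b L ex B) y)) := by
          rw [Finset.sum_const, Finset.card_univ, Fintype.card_fin, nsmul_eq_mul]
  have h7 : 1 ≤ |u j| := by
    rw [hu]
    simp only [abs_mul, abs_pow, Nat.abs_cast]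
    have h8 : (1 : ℝ) ≤ (b : ℝ) ^ ex j := one_le_pow₀ (by exact_mod_cast hb)
    nlinarith
  rw [inv_le_iff_one_le_mul₀ (by positivity)]
  calc (1 : ℝ) ≤ |u j| := h7
    _ ≤ n * (K * (X * nrm (Mx b L ex B) y)) := h6
    _ = n * K * (X * nrm (Mx b L ex B) y) := by ring
    _ = X * nrm (Mx b L ex B) y * (n * K) := by ring

end

end Pool.Agent.Sub
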