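import Pool.Agent.Lib_MP_10b5ac_nt.SubA

set_option autoImplicit false

/-! Compound matrices of systems. -/

namespace Pool.Agent.Sub

open Finset Filter Matrix

section
variable {n : ℕ}

/-- columns `g i` -/
def colm {R : Type*} [IntCast R] (g : Fin n → Fin n → ℤ) : Matrix (Fin n) (Fin n) R :=
  Matrix.of fun j i => ((g i j : ℤ) : R)

theorem colm_map {R : Type*} [CommRing R] (g : Fin n → Fin n → ℤ) :
    (colm g : Matrix (Fin n) (Fin n) R) = (colm g : Matrix (Fin n) (Fin n) ℤ).map (Int.castRingHom R) := by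
  ext i j; simp [colm]

theorem det_colm_cast {R : Type*} [CommRing R] (g : Fin n → Fin n → ℤ) :
    (colm g : Matrix (Fin n) (Fin n) R).det = (((colm g : Matrix (Fin n) (Fin n) ℤ).det : ℤ) : R) := by
  rw [colm_map, ← RingHom.mapMatrix_apply, ← RingHom.map_det]; rfl

theorem det_colm_ne_zero {g : Fin n → Fin n → ℤ} (h : LinearIndependent ℚ (fun l => cv (g l))) :
    (colm g : Matrix (Fin n) (Fin n) ℤ).det ≠ 0 := by
  intro h0
  have h1 : (colm g : Matrix (Fin n) (Fin n) ℚ).det = 0 := by rw [det_colm_cast, h0]; simp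
  have h2 : LinearIndependent ℚ (colm g : Matrix (Fin n) (Fin n) ℚ).col := by
    have e : (colm g : Matrix (Fin n) (Fin n) ℚ).col = fun l => cv (g l) := by
      funext l j; rfl
    rw [e]; exact h
  rw [linearIndependent_cols_iff_isUnit, isUnit_iff_isUnit_det, h1] at h2
  simp at h2

/-- scaling of compound matrices -/
theorem cmp_smul {R : Type*} [CommRing R] (p : ℕ) (c : R) (A : Matrix (Fin n) (Fin n) R) :
    cmp p (c • A) = c ^ p • cmp p A := by
  have h1 : c • A = diagonal (fun _ => c) * A := by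
    ext i j; simp [diagonal_mul]
  rw [h1, cmp_mul, cmp_diagonal]
  ext i j
  simp [diagonal_mul]

/-- the compound of the normalised matrix -/
theorem cmp_Mx (p b : ℕ) (L : Matrix (Fin n) (Fin n) ℝ) (ex : Fin n → ℕ) (B : Fin n → ℝ) :
    cmp p (Mx b L ex B) = Mx b (cmp p L) (fun J => ∑ a, ex (enum p n J a))
      (fun J => ∏ a, B (enum p n J a)) := by
  unfold Mx
  rw [cmp_mul, cmp_mul, cmp_diagonal, cmp_diagonal]
  congr 2
  · ext i j
    simp [Finset.prod_inv_distrib]
  · funext J
    rw [Finset.prod_pow_eq_pow_sum]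

/-- entries of `Mx * G` -/
theorem Mx_colm (b : ℕ) (L : Matrix (Fin n) (Fin n) ℝ) (ex : Fin n → ℕ) (B : Fin n → ℝ)
    (g : Fin n → Fin n → ℤ) (i j : Fin n) :
    (Mx b L ex B * (colm g : Matrix (Fin n) (Fin n) ℝ)) i j = (Mx b L ex B).mulVec (rv (g j)) i := by
  rfl

theorem abs_Mx_colm_le (b : ℕ) (L : Matrix (Fin n) (Fin n) ℝ) (ex : Fin n → ℕ) (B : Fin n → ℝ)
    (g : Fin n → Fin n → ℤ) (i j : Fin n) :
    |(Mx b L ex B * (colm g : Matrix (Fin n) (Fin n) ℝ)) i j| ≤ nrm (Mx b L ex B) (g j) := by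
  rw [Mx_colm]; exact abs_le_nrm _ _ _

/-- Leibniz bound for the determinant -/
theorem abs_det_le (A : Matrix (Fin n) (Fin n) ℝ) (v : Fin n → ℝ) (hA : ∀ i j, |A i j| ≤ v j) :
    |A.det| ≤ n.factorial * ∏ j, v j := by
  have hv : ∀ j, 0 ≤ v j := fun j => (abs_nonneg _).trans (hA j j)
  rw [det_apply]
  calc |∑ σ : Equiv.Perm (Fin n), Equiv.Perm.sign σ • ∏ i, A (σ i) i|
      ≤ ∑ σ : Equiv.Perm (Fin n), |Equiv.Perm.sign σ • ∏ i, A (σ i) i| :=
        Finset.abs_sum_le_sum_abs _ _
    _ ≤ ∑ _σ : Equiv.Perm (Fin n), ∏ j, v j := by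
        apply Finset.sum_le_sum
        intro σ _
        have h1 : |Equiv.Perm.sign σ • ∏ i, A (σ i) i| = |∏ i, A (σ i) i| := by
          rcases Int.units_eq_one_or (Equiv.Perm.sign σ) with h | h <;> rw [h] <;> simp
        rw [h1, Finset.abs_prod]
        exact Finset.prod_le_prod (fun _ _ => abs_nonneg _) (fun i _ => hA _ _)
    _ = n.factorial * ∏ j, v j := by
        rw [Finset.sum_const, Finset.card_univ, Fintype.card_perm, Fintype.card_fin, nsmul_eq_mul]

/-- bound for the entries of the inverse -/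
theorem abs_adj_le (A : Matrix (Fin n) (Fin n) ℝ) (v : Fin n → ℝ) (hA : ∀ i j, |A i j| ≤ v j)
    (hv : ∀ j, 0 < v j) (i j : Fin n) :
    |A.adjugate i j| ≤ n.factorial * (∏ l, v l) * (v i)⁻¹ := by
  -- the adjugate entry is the determinant of `A` with row `j` replaced by the unit vector `i`
  rw [adjugate_apply]
  -- use the scaled bound: column bounds v, except that entry (j, i) is one
  have key : |(A.updateRow j (Pi.single i 1)).det| * v i ≤ n.factorial * ∏ l, v l := by
    have h2 : (A.updateRow j (Pi.single i 1)).det * v i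
        = ((A.updateRow j (Pi.single i (v i)))).det := by
      have : (Pi.single i (v i) : Fin n → ℝ) = v i • Pi.single i 1 := by
        ext l
        simp only [Pi.smul_apply, smul_eq_mul, Pi.single_apply]
        split_ifs <;> simp
      rw [this, det_updateRow_smul, mul_comm]
    have h3 : |(A.updateRow j (Pi.single i 1)).det| * v i
        = |((A.updateRow j (Pi.single i (v i)))).det| := by
      rw [← h2, abs_mul, abs_of_pos (hv i)]
    rw [h3]
    apply abs_det_le
    intro a c
    rw [updateRow_apply]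
    split_ifs with h
    · rw [Pi.single_apply]
      split_ifs with h'
      · rw [h', abs_of_pos (hv i)]
      · rw [abs_zero]; exact (hv c).le
    · exact hA a c
  have h4 : (v i) * (v i)⁻¹ = 1 := mul_inv_cancel₀ (hv i).ne'
  calc |(A.updateRow j (Pi.single i 1)).det|
      = |(A.updateRow j (Pi.single i 1)).det| * v i * (v i)⁻¹ := by rw [mul_assoc, h4, mul_one]
    _ ≤ n.factorial * (∏ l, v l) * (v i)⁻¹ :=
        mul_le_mul_of_nonneg_right key (inv_nonneg.2 (hv i).le)

end

/-! ### spans of columns -/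

theorem mem_spn_iff {N : ℕ} (A : Matrix (Fin N) (Fin N) ℤ) (A' : Matrix (Fin N) (Fin N) ℚ)
    (h1 : A.map (Int.castRingHom ℚ) * A' = 1) (h2 : A' * A.map (Int.castRingHom ℚ) = 1)
    (τ : Equiv.Perm (Fin N)) (i : ℕ) (Y : Fin N → ℤ) :
    cv Y ∈ spn (fun l j => A j (τ l)) i ↔ ∀ l : Fin N, i ≤ (l : ℕ) → A'.mulVec (cv Y) (τ l) = 0 := by
  constructor
  · intro h l hl
    unfold spn at h
    refine Submodule.span_induction (p := fun y _ => A'.mulVec y (τ l) = 0) ?_ ?_ ?_ ?_ h
    · rintro y ⟨l', hl', rfl⟩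
      have h3 : A'.mulVec (cv fun j => A j (τ l')) (τ l)
          = (A' * A.map (Int.castRingHom ℚ)) (τ l) (τ l') := rfl
      show A'.mulVec (cv fun j => A j (τ l')) (τ l) = 0
      rw [h3, h2, one_apply_ne]
      intro h4
      have h5 := τ.injective h4
      simp only [Set.mem_ofPred_eq] at hl'
      rw [h5] at hl
      omega
    · simp
    · intro y z _ _ hy hz
      rw [mulVec_add, Pi.add_apply, hy, hz, add_zero]
    · intro c y _ hy
      rw [mulVec_smul, Pi.smul_apply, hy, smul_zero]
  · intro h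
    have h3 : cv Y = ∑ l : Fin N, A'.mulVec (cv Y) (τ l) • cv (fun j => A j (τ l)) := by
      have h4 : (A.map (Int.castRingHom ℚ)).mulVec (A'.mulVec (cv Y)) = cv Y := by
        rw [mulVec_mulVec, h1, one_mulVec]
      conv_lhs => rw [← h4]
      funext j
      rw [Finset.sum_apply]
      simp only [Pi.smul_apply, smul_eq_mul]
      unfold mulVec dotProduct
      rw [← Equiv.sum_comp τ]
      apply Finset.sum_congr rfl
      intro l _
      rw [mul_comm]
      rfl
    rw [h3]
    apply Submodule.sum_mem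
    intro l _
    by_cases hl : i ≤ (l : ℕ)
    · rw [h l hl, zero_smul]; exact Submodule.zero_mem _
    · apply Submodule.smul_mem
      unfold spn
      apply Submodule.subset_span
      exact ⟨l, by simp only [Set.mem_ofPred_eq]; omega, rfl⟩

end Pool.Agent.Sub
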