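import Pool.Agent.Lib_MP_10b5ac_nt.SubB

set_option autoImplicit false

/-! Compound systems: the top index and the lower bound for norms. -/

namespace Pool.Agent.Sub

open Finset Filter Matrix

/-- the last `p` indices -/
def topEmb (n p : ℕ) (h : p ≤ n) : Fin p ↪o Fin n :=
  OrderEmbedding.ofStrictMono (fun a => ⟨n - p + a, by omega⟩) (by
    intro a b hab
    simp only [Fin.lt_def] at hab ⊢
    omega)

theorem topEmb_val (n p : ℕ) (h : p ≤ n) (a : Fin p) : ((topEmb n p h a : Fin n) : ℕ) = n - p + a :=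
  rfl

noncomputable def topIdx (n p : ℕ) (h : p ≤ n) : Fin (n.choose p) := (enum p n).symm (topEmb n p h)

theorem enum_topIdx (n p : ℕ) (h : p ≤ n) : enum p n (topIdx n p h) = topEmb n p h :=
  Equiv.apply_symm_apply _ _

theorem emb_le {n p : ℕ} (S : Fin p ↪o Fin n) (a : Fin p) : (S a : ℕ) ≤ n - p + a := by
  -- S a + (p - 1 - a) ≤ n - 1
  have key : ∀ d : ℕ, ∀ a : Fin p, (a : ℕ) + d + 1 = p → (S a : ℕ) + d + 1 ≤ n := by
    intro d
    induction d with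
    | zero => intro a _; have := (S a).2; omega
    | succ d ih =>
      intro a ha
      have h1 := ih ⟨a + 1, by omega⟩ (by simp only; omega)
      have h2 : S a < S ⟨a + 1, by omega⟩ := S.lt_iff_lt.2 (by rw [Fin.lt_def]; simp)
      rw [Fin.lt_def] at h2
      omega
  have ha := a.2
  have := key (p - 1 - a) a (by omega)
  omega

theorem emb_ge {n p : ℕ} (S : Fin p ↪o Fin n) (hp : 1 ≤ p) (a : Fin p) :
    (S ⟨0, hp⟩ : ℕ) + a ≤ S a := by
  obtain ⟨a, ha⟩ := a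
  induction a with
  | zero => simp
  | succ a ih =>
    have h1 := ih (by omega)
    have h2 : S ⟨a, by omega⟩ < S ⟨a + 1, ha⟩ := S.lt_iff_lt.2 (by rw [Fin.lt_def]; simp)
    rw [Fin.lt_def] at h2
    simp only at h1 ⊢
    omega

theorem eq_topEmb {n p : ℕ} (hp : 1 ≤ p) (h : p ≤ n) (S : Fin p ↪o Fin n)
    (h0 : n - p ≤ (S ⟨0, hp⟩ : ℕ)) : S = topEmb n p h := by
  apply DFunLike.ext
  intro a
  apply Fin.ext
  rw [topEmb_val]
  have h1 := emb_le S a
  have h2 := emb_ge S hp a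
  omega

theorem nu_gap {n p : ℕ} (hp : 1 ≤ p) (h : p ≤ n) (lam : Fin n → ℝ) (hpos : ∀ i, 0 < lam i)
    (hmono : Monotone lam) (Δ : ℝ) (hΔ : 0 ≤ Δ)
    (hgap : ∀ i j : Fin n, (i : ℕ) < n - p → n - p ≤ (j : ℕ) → Δ * lam i ≤ lam j)
    (I : Fin (n.choose p)) (hI : I ≠ topIdx n p h) :
    Δ * ∏ a, lam (enum p n I a) ≤ ∏ a, lam (enum p n (topIdx n p h) a) := by
  rw [enum_topIdx]
  set S := enum p n I with hS
  have h0 : (S ⟨0, hp⟩ : ℕ) < n - p := by
    by_contra hcon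
    push Not at hcon
    have := eq_topEmb hp h S hcon
    apply hI
    rw [topIdx, ← this, hS, Equiv.symm_apply_apply]
  rw [← Finset.mul_prod_erase univ (fun a => lam (S a)) (Finset.mem_univ ⟨0, hp⟩),
    ← Finset.mul_prod_erase univ (fun a => lam (topEmb n p h a)) (Finset.mem_univ ⟨0, hp⟩),
    ← mul_assoc]
  apply mul_le_mul
  · exact hgap _ _ h0 (by rw [topEmb_val]; simp)
  · apply Finset.prod_le_prod (fun a _ => (hpos _).le)
    intro a _
    apply hmono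
    rw [Fin.le_def, topEmb_val]
    exact emb_le S a
  · exact Finset.prod_nonneg fun a _ => (hpos _).le
  · exact (hpos _).le

section
variable {n : ℕ}

theorem cmp_inv_left (p : ℕ) {g : Fin n → Fin n → ℤ}
    (h : LinearIndependent ℚ (fun l => cv (g l))) :
    cmp p (colm g : Matrix (Fin n) (Fin n) ℚ)⁻¹ *
      (cmp p (colm g : Matrix (Fin n) (Fin n) ℤ)).map (Int.castRingHom ℚ) = 1 := by
  rw [← cmp_map, ← colm_map, ← cmp_mul, nonsing_inv_mul, cmp_one]
  rw [det_colm_cast]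
  exact isUnit_iff_ne_zero.2 (by exact_mod_cast det_colm_ne_zero h)

theorem cmp_inv_right (p : ℕ) {g : Fin n → Fin n → ℤ}
    (h : LinearIndependent ℚ (fun l => cv (g l))) :
    (cmp p (colm g : Matrix (Fin n) (Fin n) ℤ)).map (Int.castRingHom ℚ) *
    cmp p (colm g : Matrix (Fin n) (Fin n) ℚ)⁻¹ = 1 := by
  rw [← cmp_map, ← colm_map, ← cmp_mul, mul_nonsing_inv, cmp_one]
  rw [det_colm_cast]
  exact isUnit_iff_ne_zero.2 (by exact_mod_cast det_colm_ne_zero h)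

/-- coordinates in the basis of compounds have bounded denominators -/
theorem coord_lower (p : ℕ) {g : Fin n → Fin n → ℤ}
    (h : LinearIndependent ℚ (fun l => cv (g l))) (X : ℝ) (hX : 1 ≤ X)
    (hdet : |(((colm g : Matrix (Fin n) (Fin n) ℤ).det : ℤ) : ℝ)| ≤ X)
    (Y : Fin (n.choose p) → ℤ) (I : Fin (n.choose p))
    (hI : (cmp p (colm g : Matrix (Fin n) (Fin n) ℚ)⁻¹).mulVec (cv Y) I ≠ 0) :
    1 ≤ X ^ p * |(((cmp p (colm g : Matrix (Fin n) (Fin n) ℚ)⁻¹).mulVec (cv Y) I : ℚ) : ℝ)| := by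
  set d : ℤ := (colm g : Matrix (Fin n) (Fin n) ℤ).det with hd
  have hd0 : d ≠ 0 := det_colm_ne_zero h
  have hdq : (d : ℚ) ≠ 0 := by exact_mod_cast hd0
  have h1 : (colm g : Matrix (Fin n) (Fin n) ℚ)⁻¹ = (d : ℚ)⁻¹ •
      ((colm g : Matrix (Fin n) (Fin n) ℤ).adjugate.map (Int.castRingHom ℚ)) := by
    rw [Matrix.inv_def, det_colm_cast, ← hd, Ring.inverse_eq_inv', colm_map,
      ← RingHom.mapMatrix_apply, ← RingHom.map_adjugate]
    rfl
  have h2 : (cmp p (colm g : Matrix (Fin n) (Fin n) ℚ)⁻¹).mulVec (cv Y) I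
      = ((d : ℚ)⁻¹) ^ p * (((cmp p (colm g : Matrix (Fin n) (Fin n) ℤ).adjugate).mulVec Y I : ℤ) : ℚ) := by
    rw [h1, cmp_smul, cmp_map, smul_mulVec, Pi.smul_apply, smul_eq_mul]
    congr 1
    unfold mulVec dotProduct
    push_cast
    rfl
  rw [h2] at hI ⊢
  set z : ℤ := (cmp p (colm g : Matrix (Fin n) (Fin n) ℤ).adjugate).mulVec Y I with hz
  have hz0 : z ≠ 0 := by
    intro h0; rw [h0] at hI; simp at hI
  have hz1 : (1 : ℝ) ≤ |(z : ℝ)| := by
    have : (1 : ℤ) ≤ |z| := Int.one_le_abs hz0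
    exact_mod_cast this
  have hd1 : (0 : ℝ) < |(d : ℝ)| := abs_pos.2 (by exact_mod_cast hd0)
  push_cast
  rw [abs_mul, abs_pow, abs_inv]
  have h3 : |(d : ℝ)| ^ p ≤ X ^ p := pow_le_pow_left₀ (abs_nonneg _) hdet p
  have h4 : (0 : ℝ) < |(d : ℝ)| ^ p := pow_pos hd1 p
  rw [← mul_assoc, inv_pow]
  have h5 : 1 ≤ X ^ p * (|(d : ℝ)| ^ p)⁻¹ := by
    rw [← div_eq_mul_inv, one_le_div h4]; exact h3
  nlinarith

end

end Pool.Agent.Sub
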