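import Pool.Agent.Lib_MP_10b5ac_nt.SubC

set_option autoImplicit false

/-! Compound systems: lower bounds for norms in terms of coordinates. -/

namespace Pool.Agent.Sub

open Finset Filter Matrix

section
variable {n : ℕ}

/-- bounds coming from successive minima -/
theorem det_colm_le (b : ℕ) (L : Matrix (Fin n) (Fin n) ℝ) (hL : L.det ≠ 0) (ex : Fin n → ℕ)
    (B : Fin n → ℝ) (hB : ∀ i, 0 < B i) (hvol : ∏ i, B i = (b : ℝ) ^ (∑ j, ex j))
    (g : Fin n → Fin n → ℤ) (C1 : ℝ)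
    (hprod : ∏ i, nrm (Mx b L ex B) (g i) ≤ C1 * |L.det|) :
    |(((colm g : Matrix (Fin n) (Fin n) ℤ).det : ℤ) : ℝ)| ≤ n.factorial * C1 := by
  have h1 : |(Mx b L ex B * (colm g : Matrix (Fin n) (Fin n) ℝ)).det|
      ≤ n.factorial * ∏ i, nrm (Mx b L ex B) (g i) :=
    abs_det_le _ _ (fun i j => abs_Mx_colm_le b L ex B g i j)
  rw [det_mul, det_Mx_eq b L ex B hB hvol, det_colm_cast, abs_mul] at h1
  have hL' : 0 < |L.det| := abs_pos.2 hL
  have h2 : |L.det| * |(((colm g : Matrix (Fin n) (Fin n) ℤ).det : ℤ) : ℝ)|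
      ≤ |L.det| * (n.factorial * C1) := by
    calc _ ≤ n.factorial * ∏ i, nrm (Mx b L ex B) (g i) := h1
      _ ≤ n.factorial * (C1 * |L.det|) := mul_le_mul_of_nonneg_left hprod (by positivity)
      _ = |L.det| * (n.factorial * C1) := by ring
  exact le_of_mul_le_mul_left h2 hL'

/-- entries of the inverse of `Mx * G` -/
theorem abs_inv_le (b : ℕ) (L : Matrix (Fin n) (Fin n) ℝ) (hL : L.det ≠ 0) (ex : Fin n → ℕ)
    (B : Fin n → ℝ) (hB : ∀ i, 0 < B i) (hvol : ∏ i, B i = (b : ℝ) ^ (∑ j, ex j))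
    (g : Fin n → Fin n → ℤ) (h : LinearIndependent ℚ (fun l => cv (g l))) (C1 : ℝ)
    (hprod : ∏ i, nrm (Mx b L ex B) (g i) ≤ C1 * |L.det|) (i j : Fin n) :
    |(Mx b L ex B * (colm g : Matrix (Fin n) (Fin n) ℝ))⁻¹ i j|
      ≤ (n.factorial * C1) * (nrm (Mx b L ex B) (g i))⁻¹ := by
  have hL' : 0 < |L.det| := abs_pos.2 hL
  have hdet0 := det_colm_ne_zero h
  have hd1 : (1 : ℝ) ≤ |(((colm g : Matrix (Fin n) (Fin n) ℤ).det : ℤ) : ℝ)| := by
    have : (1 : ℤ) ≤ |(colm g : Matrix (Fin n) (Fin n) ℤ).det| := Int.one_le_abs hdet0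
    exact_mod_cast this
  have hM : (Mx b L ex B).det ≠ 0 := by rw [det_Mx_eq b L ex B hB hvol]; exact hL
  have hpos : ∀ l, 0 < nrm (Mx b L ex B) (g l) := by
    intro l
    apply nrm_pos _ hM
    intro h0
    apply h.ne_zero l
    rw [h0]; funext j; simp [cv]
  have hdet : (Mx b L ex B * (colm g : Matrix (Fin n) (Fin n) ℝ)).det
      = L.det * (((colm g : Matrix (Fin n) (Fin n) ℤ).det : ℤ) : ℝ) := by
    rw [det_mul, det_Mx_eq b L ex B hB hvol, det_colm_cast]
  have h1 := abs_adj_le (Mx b L ex B * (colm g : Matrix (Fin n) (Fin n) ℝ)) _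
    (fun i j => abs_Mx_colm_le b L ex B g i j) hpos i j
  rw [Matrix.inv_def, Matrix.smul_apply, smul_eq_mul, Ring.inverse_eq_inv', hdet, abs_mul, abs_inv, abs_mul]
  have h2 : (|L.det| * |(((colm g : Matrix (Fin n) (Fin n) ℤ).det : ℤ) : ℝ)|)⁻¹ ≤ |L.det|⁻¹ := by
    apply inv_anti₀ hL'
    nlinarith
  calc _ ≤ |L.det|⁻¹ * (n.factorial * (∏ l, nrm (Mx b L ex B) (g l)) * (nrm (Mx b L ex B) (g i))⁻¹) :=
        mul_le_mul h2 h1 (abs_nonneg _) (by positivity)
    _ ≤ |L.det|⁻¹ * (n.factorial * (C1 * |L.det|) * (nrm (Mx b L ex B) (g i))⁻¹) := by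
        apply mul_le_mul_of_nonneg_left _ (by positivity)
        apply mul_le_mul_of_nonneg_right _ (inv_nonneg.2 (hpos i).le)
        exact mul_le_mul_of_nonneg_left hprod (by positivity)
    _ = (n.factorial * C1) * (nrm (Mx b L ex B) (g i))⁻¹ := by
        field_simp

/-- lower bound of the norm by a nonzero coordinate -/
theorem cmp_lower (p : ℕ) (b : ℕ) (L : Matrix (Fin n) (Fin n) ℝ) (hL : L.det ≠ 0) (ex : Fin n → ℕ)
    (B : Fin n → ℝ) (hB : ∀ i, 0 < B i) (hvol : ∏ i, B i = (b : ℝ) ^ (∑ j, ex j))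
    (g : Fin n → Fin n → ℤ) (h : LinearIndependent ℚ (fun l => cv (g l))) (C1 : ℝ) (hC1 : 1 ≤ C1)
    (hprod : ∏ i, nrm (Mx b L ex B) (g i) ≤ C1 * |L.det|)
    (Y : Fin (n.choose p) → ℤ) (I : Fin (n.choose p))
    (hI : (cmp p (colm g : Matrix (Fin n) (Fin n) ℚ)⁻¹).mulVec (cv Y) I ≠ 0) :
    ∏ a, nrm (Mx b L ex B) (g (enum p n I a)) ≤
      ((n.choose p) * p.factorial * (n.factorial * C1) ^ (2 * p)) *
        nrm (cmp p (Mx b L ex B)) Y := by
  set X : ℝ := n.factorial * C1 with hX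
  have hX1 : 1 ≤ X := by
    have : (1 : ℝ) ≤ n.factorial := by exact_mod_cast Nat.one_le_iff_ne_zero.2 (Nat.factorial_ne_zero n)
    nlinarith
  have hdetle := det_colm_le b L hL ex B hB hvol g C1 hprod
  have h1 := coord_lower p h X hX1 hdetle Y I hI
  have hM : (Mx b L ex B).det ≠ 0 := by rw [det_Mx_eq b L ex B hB hvol]; exact hL
  have hpos : ∀ l, 0 < nrm (Mx b L ex B) (g l) := by
    intro l
    apply nrm_pos _ hM
    intro h0
    apply h.ne_zero l
    rw [h0]; funext j; simp [cv]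
  -- real version of the coordinate
  have hG : (colm g : Matrix (Fin n) (Fin n) ℝ).det ≠ 0 := by
    rw [det_colm_cast]; exact_mod_cast det_colm_ne_zero h
  have h2 : (((cmp p (colm g : Matrix (Fin n) (Fin n) ℚ)⁻¹).mulVec (cv Y) I : ℚ) : ℝ)
      = (cmp p (colm g : Matrix (Fin n) (Fin n) ℝ)⁻¹).mulVec (rv Y) I := by
    have e1 : (colm g : Matrix (Fin n) (Fin n) ℝ)⁻¹
        = ((colm g : Matrix (Fin n) (Fin n) ℚ)⁻¹).map (Rat.castHom ℝ) := by
      apply Matrix.inv_eq_left_inv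
      have e2 : (colm g : Matrix (Fin n) (Fin n) ℝ)
          = (colm g : Matrix (Fin n) (Fin n) ℚ).map (Rat.castHom ℝ) := by
        ext i j; simp [colm]
      rw [e2, ← RingHom.mapMatrix_apply, ← RingHom.mapMatrix_apply, ← map_mul, nonsing_inv_mul,
        map_one]
      rw [det_colm_cast]
      exact isUnit_iff_ne_zero.2 (by exact_mod_cast det_colm_ne_zero h)
    rw [e1, cmp_map]
    unfold mulVec dotProduct
    push_cast
    apply Finset.sum_congr rfl
    intro J _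
    congr 1
  have h3 : (cmp p (colm g : Matrix (Fin n) (Fin n) ℝ)⁻¹).mulVec (rv Y) I
      = ∑ J, cmp p (Mx b L ex B * (colm g : Matrix (Fin n) (Fin n) ℝ))⁻¹ I J *
          (cmp p (Mx b L ex B)).mulVec (rv Y) J := by
    have e1 : (colm g : Matrix (Fin n) (Fin n) ℝ)⁻¹
        = (Mx b L ex B * (colm g : Matrix (Fin n) (Fin n) ℝ))⁻¹ * Mx b L ex B := by
      rw [Matrix.mul_inv_rev, Matrix.mul_assoc, nonsing_inv_mul _ (isUnit_iff_ne_zero.2 hM),
        Matrix.mul_one]
    rw [e1, cmp_mul, ← mulVec_mulVec]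
    rfl
  have h4 : |(cmp p (colm g : Matrix (Fin n) (Fin n) ℝ)⁻¹).mulVec (rv Y) I|
      ≤ (n.choose p) * ((p.factorial * (X ^ p * ∏ a, (nrm (Mx b L ex B) (g (enum p n I a)))⁻¹)) *
        nrm (cmp p (Mx b L ex B)) Y) := by
    rw [h3]
    calc _ ≤ ∑ J, |cmp p (Mx b L ex B * (colm g : Matrix (Fin n) (Fin n) ℝ))⁻¹ I J *
          (cmp p (Mx b L ex B)).mulVec (rv Y) J| := Finset.abs_sum_le_sum_abs _ _
      _ ≤ ∑ _J : Fin (n.choose p), (p.factorial * (X ^ p * ∏ a,
          (nrm (Mx b L ex B) (g (enum p n I a)))⁻¹)) * nrm (cmp p (Mx b L ex B)) Y := by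
          apply Finset.sum_le_sum
          intro J _
          rw [abs_mul]
          apply mul_le_mul _ (abs_le_nrm _ _ _) (abs_nonneg _)
          · have : 0 ≤ ∏ a, (nrm (Mx b L ex B) (g (enum p n I a)))⁻¹ :=
              Finset.prod_nonneg fun a _ => inv_nonneg.2 (hpos _).le
            positivity
          · have := cmp_bound n p (Mx b L ex B * (colm g : Matrix (Fin n) (Fin n) ℝ))⁻¹
              (fun i => X * (nrm (Mx b L ex B) (g i))⁻¹) (fun _ => 1)
              (fun i => mul_nonneg (by linarith) (inv_nonneg.2 (hpos i).le)) (fun _ => zero_le_one)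
              (fun i j => by
                rw [mul_one]
                exact abs_inv_le b L hL ex B hB hvol g h C1 hprod i j) I J
            simp only [Finset.prod_const_one, mul_one, Finset.prod_mul_distrib,
              Finset.prod_const, Finset.card_univ, Fintype.card_fin] at this
            exact this
      _ = _ := by rw [Finset.sum_const, Finset.card_univ, Fintype.card_fin, nsmul_eq_mul]
  rw [h2] at h1
  have hν : 0 < ∏ a, nrm (Mx b L ex B) (g (enum p n I a)) := Finset.prod_pos fun a _ => hpos _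
  have hXp : 0 < X ^ p := by positivity
  have h5 : (1 : ℝ) ≤ X ^ p * ((n.choose p) * ((p.factorial * (X ^ p *
      (∏ a, nrm (Mx b L ex B) (g (enum p n I a)))⁻¹)) * nrm (cmp p (Mx b L ex B)) Y)) := by
    refine h1.trans (mul_le_mul_of_nonneg_left ?_ hXp.le)
    rw [Finset.prod_inv_distrib] at h4
    exact h4
  have h6 := mul_le_mul_of_nonneg_left h5 hν.le
  rw [mul_one] at h6
  calc ∏ a, nrm (Mx b L ex B) (g (enum p n I a)) ≤ _ := h6
    _ = _ := by
      rw [pow_mul', sq]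
      field_simp

end

end Pool.Agent.Sub
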