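import Pool.Agent.Lib_MP_10b5ac_nt.SubD

set_option autoImplicit false

/-! One step: from a system with a gap to a compound system with all but one minima small. -/

namespace Pool.Agent.Sub

open Finset Filter Matrix

theorem det_cmp_ne_zero {n : ℕ} (p : ℕ) (L : Matrix (Fin n) (Fin n) ℝ) (hL : L.det ≠ 0) :
    (cmp p L).det ≠ 0 := by
  intro h
  have h1 : cmp p L * cmp p L⁻¹ = 1 := by
    rw [← cmp_mul, mul_nonsing_inv _ (isUnit_iff_ne_zero.2 hL), cmp_one]
  have h2 := congrArg Matrix.det h1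
  rw [det_mul, h, zero_mul, det_one] at h2
  exact zero_ne_one h2

theorem li_cols {N : ℕ} (A : Matrix (Fin N) (Fin N) ℤ) (A' : Matrix (Fin N) (Fin N) ℚ)
    (h1 : A.map (Int.castRingHom ℚ) * A' = 1) (τ : Equiv.Perm (Fin N)) :
    LinearIndependent ℚ (fun l => cv (fun j => A j (τ l))) := by
  have h2 : IsUnit (A.map (Int.castRingHom ℚ)) := by
    rw [isUnit_iff_isUnit_det]
    have h3 := congrArg Matrix.det h1
    rw [det_mul, det_one] at h3
    exact IsUnit.of_mul_eq_one _ h3
  rw [← linearIndependent_cols_iff_isUnit] at h2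
  exact h2.comp τ τ.injective

theorem compound_vol {n : ℕ} (p : ℕ) (hp : 1 ≤ p) (b : ℕ) (ex : Fin n → ℕ) (B : Fin n → ℝ)
    (hvol : ∏ i, B i = (b : ℝ) ^ (∑ j, ex j)) :
    ∏ J : Fin (n.choose p), ∏ a, B (enum p n J a)
      = (b : ℝ) ^ (∑ J : Fin (n.choose p), ∑ a, ex (enum p n J a)) := by
  rw [prod_enum n p hp B, hvol]
  have h := prod_enum n p hp (fun j => (b : ℝ) ^ ex j)
  rw [Finset.prod_pow_eq_pow_sum] at h
  rw [← h, ← Finset.prod_pow_eq_pow_sum]
  apply Finset.prod_congr rfl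
  intro J _
  rw [Finset.prod_pow_eq_pow_sum]

theorem compound_step (n p : ℕ) (hp : 1 ≤ p) (hpn : p < n)
    (L : Matrix (Fin n) (Fin n) ℝ) (hL : L.det ≠ 0) (C1 : ℝ) (hC1 : 1 ≤ C1)
    (hN : 2 ≤ n.choose p) :
    ∃ C : ℝ, 1 ≤ C ∧ ∀ (b : ℕ) (ex : Fin n → ℕ) (B : Fin n → ℝ), (∀ i, 0 < B i) →
      ∏ i, B i = (b : ℝ) ^ (∑ j, ex j) → ∀ g : Fin n → Fin n → ℤ,
      LinearIndependent ℚ (fun l => cv (g l)) → Monotone (fun i => nrm (Mx b L ex B) (g i)) →
      ∏ i, nrm (Mx b L ex B) (g i) ≤ C1 * |L.det| → |L.det| ≤ C1 * ∏ i, nrm (Mx b L ex B) (g i) →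
      ∀ Δ : ℝ, C < Δ → (∀ i j : Fin n, (i : ℕ) < n - p → n - p ≤ (j : ℕ) →
        Δ * nrm (Mx b L ex B) (g i) ≤ nrm (Mx b L ex B) (g j)) →
      ∃ (B' : Fin (n.choose p) → ℝ) (g' : Fin (n.choose p - 1) → Fin (n.choose p) → ℤ),
        (∀ J, 0 < B' J) ∧
        (∏ J, B' J) * Δ ≤ C * (b : ℝ) ^ (∑ J : Fin (n.choose p), ∑ a, ex (enum p n J a)) ∧
        (∀ l I, |∑ J, cmp p L I J * ((b : ℝ) ^ (∑ a, ex (enum p n J a)) * (g' l J : ℝ))|
          ≤ C * B' I) ∧
        LinearIndependent ℚ (fun l => cv (g' l)) ∧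
        (∀ l, (cmp p (colm g : Matrix (Fin n) (Fin n) ℚ)⁻¹).mulVec (cv (g' l))
          (topIdx n p hpn.le) = 0) ∧
        (∀ lo hi : ℝ, 0 ≤ lo → (∀ i, lo ≤ nrm (Mx b L ex B) (g i)) →
          (∀ i, nrm (Mx b L ex B) (g i) ≤ hi) →
          ∀ J, (∏ a, B (enum p n J a)) * lo ^ p ≤ B' J ∧
            B' J ≤ (∏ a, B (enum p n J a)) * hi ^ p) := by
  set N := n.choose p with hNdef
  set w := (n - 1).choose (p - 1) with hw
  have hLpos : 0 < |L.det| := abs_pos.2 hL
  have hcL := det_cmp_ne_zero p L hL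
  have hcLpos : 0 < |(cmp p L).det| := abs_pos.2 hcL
  set C3 : ℝ := (N : ℝ) * p.factorial * (n.factorial * C1) ^ (2 * p) with hC3
  have hC3pos : 0 < C3 := by
    have h1 : (0 : ℝ) < N := by exact_mod_cast (by omega : 0 < N)
    have h2 : (0 : ℝ) < p.factorial := by exact_mod_cast Nat.factorial_pos p
    have h3 : (0 : ℝ) < n.factorial := by exact_mod_cast Nat.factorial_pos n
    positivity
  set c : ℝ := min (1 / C3) ((|L.det| / C1) ^ w / |(cmp p L).det|) with hc
  have hcpos : 0 < c := by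
    apply lt_min <;> positivity
  obtain ⟨C4, hC4, hdav⟩ := davenport N (by omega) c hcpos
  refine ⟨max (C4 * C4) ((C1 * |L.det|) ^ w), le_max_of_le_left (by nlinarith), ?_⟩
  intro b ex B hB hvol g hli hmono hpr1 hpr2 Δ hΔ hgap
  have hΔ1 : C4 * C4 < Δ := lt_of_le_of_lt (le_max_left _ _) hΔ
  have hΔpos : 0 < Δ := by nlinarith
  have hM : (Mx b L ex B).det ≠ 0 := by rw [det_Mx_eq b L ex B hB hvol]; exact hL
  set lam : Fin n → ℝ := fun i => nrm (Mx b L ex B) (g i) with hlam
  have hpos : ∀ l, 0 < lam l := by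
    intro l
    apply nrm_pos _ hM
    intro h0
    apply hli.ne_zero l
    rw [h0]; funext j; simp [cv]
  set ν : Fin N → ℝ := fun I => ∏ a, lam (enum p n I a) with hν
  have hνpos : ∀ I, 0 < ν I := fun I => Finset.prod_pos fun a _ => hpos _
  set τ : Equiv.Perm (Fin N) := Tuple.sort ν with hτ
  have hτmono : Monotone (fun i => ν (τ i)) := Tuple.monotone_sort ν
  set J0 : Fin N := topIdx n p hpn.le with hJ0
  have hgapν : ∀ I, I ≠ J0 → Δ * ν I ≤ ν J0 := fun I hI =>
    nu_gap hp hpn.le lam hpos hmono Δ hΔpos.le hgap I hI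
  -- the last index in the order is `J0`
  set last : Fin N := ⟨N - 1, by omega⟩ with hlast
  have hone : 1 < Δ := by nlinarith
  have hτlast : τ last = J0 := by
    by_contra hne
    have h1 := hgapν _ hne
    obtain ⟨i, hi⟩ := τ.surjective J0
    have h2 : i ≤ last := by rw [Fin.le_def]; have := i.2; simp only [hlast]; omega
    have h3 := hτmono h2
    simp only [hi] at h3
    have h4 := hνpos (τ last)
    nlinarith
  -- compound matrix of the lattice vectors
  set A : Matrix (Fin N) (Fin N) ℤ := cmp p (colm g : Matrix (Fin n) (Fin n) ℤ) with hA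
  set A' : Matrix (Fin N) (Fin N) ℚ := cmp p (colm g : Matrix (Fin n) (Fin n) ℚ)⁻¹ with hA'
  have hAA' : A.map (Int.castRingHom ℚ) * A' = 1 := cmp_inv_right p hli
  have hA'A : A' * A.map (Int.castRingHom ℚ) = 1 := cmp_inv_left p hli
  set v : Fin N → Fin N → ℤ := fun l j => A j (τ l) with hv
  have hvli : LinearIndependent ℚ (fun l => cv (v l)) := li_cols A A' hAA' τ
  have hprodν : ∏ i, ν (τ i) = (∏ i, lam i) ^ w := by
    rw [Equiv.prod_comp τ ν]
    exact prod_enum n p hp lam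
  have hcvol := compound_vol p hp b ex B hvol
  have hcB : ∀ J : Fin N, 0 < ∏ a, B (enum p n J a) := fun J => Finset.prod_pos fun a _ => hB _
  have hdetc : (cmp p (Mx b L ex B)).det = (cmp p L).det := by
    rw [cmp_Mx]
    exact det_Mx_eq b (cmp p L) _ _ hcB hcvol
  -- the last but one index
  set pen : Fin N := ⟨N - 2, by omega⟩ with hpen
  set idx : Fin N → Fin N := fun i => if i = last then pen else i with hidx
  have hidx_le : ∀ i j : Fin N, i ≤ j → idx i ≤ idx j := by
    intro i j hij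
    simp only [hidx]
    have hi := i.2
    have hj := j.2
    split_ifs with h1 h2 h2
    · exact le_rfl
    · rw [h1] at hij
      exfalso; apply h2
      apply le_antisymm _ hij
      rw [Fin.le_def]; simp only [hlast]; omega
    · rw [Fin.le_def]
      have : (i : ℕ) ≠ N - 1 := fun h => h1 (Fin.ext h)
      simp only [hpen]; omega
    · exact hij
  set ρ : Fin N → ℝ := fun i => (ν (τ (idx i)))⁻¹ with hρ
  have hρpos : ∀ i, 0 < ρ i := fun i => inv_pos.2 (hνpos _)
  have hρanti : Antitone ρ := by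
    intro i j hij
    exact inv_anti₀ (hνpos _) (hτmono (hidx_le i j hij))
  have hρν : ∀ i, i ≠ last → ρ i * ν (τ i) = 1 := by
    intro i hi
    simp only [hρ, hidx, if_neg hi]
    exact inv_mul_cancel₀ (hνpos _).ne'
  have hρνlast : Δ ≤ ρ last * ν (τ last) := by
    simp only [hρ, hidx, if_true]
    rw [hτlast]
    have hpl : τ pen ≠ J0 := by
      intro h
      rw [← hτlast] at h
      have := τ.injective h
      have h2 := congrArg Fin.val this
      simp only [hpen, hlast] at h2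
      omega
    have := hgapν _ hpl
    rw [inv_mul_eq_div, le_div_iff₀ (hνpos _)]
    exact this
  have hρνmono : Monotone (fun i => ρ i * ν (τ i)) := by
    intro i j hij
    simp only
    by_cases hj : j = last
    · by_cases hi : i = last
      · rw [hi, hj]
      · rw [hρν i hi, hj]; linarith
    · have hi : i ≠ last := by
        intro h
        apply hj
        apply le_antisymm _ (h ▸ hij)
        rw [Fin.le_def]; have := j.2; simp only [hlast]; omega
      rw [hρν i hi, hρν j hj]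
  obtain ⟨π, gd, hgdli, hgd1, hgd2⟩ := hdav (cmp p (Mx b L ex B)) (by rw [hdetc]; exact hcL) v hvli
    (fun i => ν (τ i)) (fun i => hνpos _) hτmono
    (by
      intro i y hy
      -- some coordinate with index ≥ i is nonzero
      have h1 : ∃ l : Fin N, (i : ℕ) ≤ l ∧ A'.mulVec (cv y) (τ l) ≠ 0 := by
        by_contra hcon
        push Not at hcon
        exact hy ((mem_spn_iff A A' hAA' hA'A τ i y).2 hcon)
      obtain ⟨l, hl, hne⟩ := h1
      have h2 := cmp_lower p b L hL ex B hB hvol g hli C1 hC1 hpr1 y (τ l) hne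
      have h3 : ν (τ i) ≤ ν (τ l) := hτmono (by rw [Fin.le_def]; exact hl)
      have h4 : ν (τ i) ≤ C3 * nrm (cmp p (Mx b L ex B)) y := h3.trans h2
      calc c * ν (τ i) ≤ (1 / C3) * ν (τ i) :=
            mul_le_mul_of_nonneg_right (min_le_left _ _) (hνpos _).le
        _ ≤ nrm (cmp p (Mx b L ex B)) y := by
            rw [one_div, inv_mul_le_iff₀ hC3pos]; exact h4)
    (by
      rw [hdetc, hprodν]
      have h1 : |L.det| / C1 ≤ ∏ i, lam i := by
        rw [div_le_iff₀ (by linarith), mul_comm]; exact hpr2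
      calc c * |(cmp p L).det| ≤ ((|L.det| / C1) ^ w / |(cmp p L).det|) * |(cmp p L).det| :=
            mul_le_mul_of_nonneg_right (min_le_right _ _) hcLpos.le
        _ = (|L.det| / C1) ^ w := by field_simp
        _ ≤ (∏ i, lam i) ^ w := pow_le_pow_left₀ (by positivity) h1 w)
    ρ hρpos hρanti hρνmono
  have hprodpos : 0 ≤ ∏ i, lam i := Finset.prod_nonneg fun i _ => (hpos i).le
  refine ⟨fun J => (∏ a, B (enum p n J a)) * (ρ (π J))⁻¹,
    fun l => gd ⟨l, by have := l.2; omega⟩, ?_, ?_, ?_, ?_, ?_, ?_⟩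
  · intro J
    exact mul_pos (hcB J) (inv_pos.2 (hρpos _))
  · rw [Finset.prod_mul_distrib, hcvol]
    have h1 : ∏ J, (ρ (π J))⁻¹ = ∏ i, (ρ i)⁻¹ := Equiv.prod_comp π (fun i => (ρ i)⁻¹)
    have h2 : (∏ i, (ρ i)⁻¹) * Δ ≤ ∏ i, ν (τ i) := by
      rw [← Finset.mul_prod_erase univ (fun i => (ρ i)⁻¹) (Finset.mem_univ last),
        ← Finset.mul_prod_erase univ (fun i => ν (τ i)) (Finset.mem_univ last)]
      have h3 : ∏ i ∈ univ.erase last, (ρ i)⁻¹ = ∏ i ∈ univ.erase last, ν (τ i) := by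
        apply Finset.prod_congr rfl
        intro i hi
        have hi' : i ≠ last := Finset.ne_of_mem_erase hi
        simp only [hρ, hidx, if_neg hi', inv_inv]
      rw [h3]
      have h4 : 0 ≤ ∏ i ∈ univ.erase last, ν (τ i) := Finset.prod_nonneg fun i _ => (hνpos _).le
      have h5 : (ρ last)⁻¹ * Δ ≤ ν (τ last) := by
        rw [inv_mul_le_iff₀ (hρpos _)]; exact hρνlast
      calc (ρ last)⁻¹ * (∏ i ∈ univ.erase last, ν (τ i)) * Δ
          = ((ρ last)⁻¹ * Δ) * ∏ i ∈ univ.erase last, ν (τ i) := by ring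
        _ ≤ ν (τ last) * ∏ i ∈ univ.erase last, ν (τ i) := mul_le_mul_of_nonneg_right h5 h4
    have h6 : ∏ i, ν (τ i) ≤ (C1 * |L.det|) ^ w := by
      rw [hprodν]; exact pow_le_pow_left₀ hprodpos hpr1 w
    rw [h1]
    calc (b : ℝ) ^ (∑ J : Fin N, ∑ a, ex (enum p n J a)) * (∏ i, (ρ i)⁻¹) * Δ
        = (b : ℝ) ^ (∑ J : Fin N, ∑ a, ex (enum p n J a)) * ((∏ i, (ρ i)⁻¹) * Δ) := by ring
      _ ≤ (b : ℝ) ^ (∑ J : Fin N, ∑ a, ex (enum p n J a)) * ((C1 * |L.det|) ^ w) :=
          mul_le_mul_of_nonneg_left (h2.trans h6) (by positivity)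
      _ ≤ (b : ℝ) ^ (∑ J : Fin N, ∑ a, ex (enum p n J a)) *
            max (C4 * C4) ((C1 * |L.det|) ^ w) :=
          mul_le_mul_of_nonneg_left (le_max_right _ _) (by positivity)
      _ = _ := mul_comm _ _
  · intro l I
    have hl : (⟨l, by have := l.2; omega⟩ : Fin N) ≠ last := by
      intro h
      have h2 := congrArg Fin.val h
      simp only [hlast] at h2
      have := l.2
      omega
    have h1 := hgd1 ⟨l, by have := l.2; omega⟩
    rw [hρν _ hl, mul_one, nrm_le_iff _ _ _ (by linarith)] at h1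
    have h2 := h1 I
    rw [← mulVec_mulVec, mulVec_diagonal, cmp_Mx, Mx_mulVec, abs_mul, abs_mul,
      abs_of_pos (hρpos _), abs_of_pos (inv_pos.2 (hcB I))] at h2
    set s : ℝ := |∑ J, cmp p L I J * ((b : ℝ) ^ (∑ a, ex (enum p n J a)) *
      ((gd ⟨l, by have := l.2; omega⟩ J : ℤ) : ℝ))| with hs
    have h3 : s ≤ C4 * ((∏ a, B (enum p n I a)) * (ρ (π I))⁻¹) := by
      have hρI := hρpos (π I)
      have hBI := hcB I
      rw [← div_eq_mul_inv, ← mul_div_assoc, le_div_iff₀ hρI]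
      have h4 : (∏ a, B (enum p n I a)) * (ρ (π I) * ((∏ a, B (enum p n I a))⁻¹ * s))
          ≤ (∏ a, B (enum p n I a)) * C4 := mul_le_mul_of_nonneg_left h2 hBI.le
      calc s * ρ (π I) = (∏ a, B (enum p n I a)) * (ρ (π I) * ((∏ a, B (enum p n I a))⁻¹ * s)) := by
            field_simp
        _ ≤ (∏ a, B (enum p n I a)) * C4 := h4
        _ = C4 * ∏ a, B (enum p n I a) := mul_comm _ _
    refine h3.trans (mul_le_mul_of_nonneg_right ?_ (mul_pos (hcB I) (inv_pos.2 (hρpos _))).le)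
    exact le_max_of_le_left (by nlinarith)
  · apply hgdli.comp
    intro l l' h
    have := congrArg Fin.val h
    exact Fin.ext this
  · intro l
    have hl : (⟨l, by have := l.2; omega⟩ : Fin N) ≠ last := by
      intro h
      have h2 := congrArg Fin.val h
      simp only [hlast] at h2
      have := l.2
      omega
    by_contra hne
    have h1 : cv (gd ⟨l, by have := l.2; omega⟩) ∉ spn v (last : Fin N) := by
      intro hmem
      apply hne
      have h2 := (mem_spn_iff A A' hAA' hA'A τ _ _).1 hmem last le_rfl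
      rw [hτlast] at h2
      exact h2
    have h2 := hgd2 last _ h1
    have h3 := hgd1 ⟨l, by have := l.2; omega⟩
    rw [hρν _ hl, mul_one] at h3
    have h4 : Δ ≤ C4 * C4 := by
      calc Δ ≤ ρ last * ν (τ last) := hρνlast
        _ ≤ C4 * _ := h2
        _ ≤ C4 * C4 := mul_le_mul_of_nonneg_left h3 (by linarith)
    linarith
  · intro lo hi hlo h1 h2 J
    have h3 : (ρ (π J))⁻¹ = ∏ a, lam (enum p n (τ (idx (π J))) a) := by
      simp only [hρ, inv_inv, hν]
    beta_reduce
    rw [h3]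
    constructor
    · apply mul_le_mul_of_nonneg_left _ (hcB J).le
      calc lo ^ p = ∏ _a : Fin p, lo := by rw [Finset.prod_const, Finset.card_univ, Fintype.card_fin]
        _ ≤ _ := Finset.prod_le_prod (fun _ _ => hlo) (fun a _ => h1 _)
    · apply mul_le_mul_of_nonneg_left _ (hcB J).le
      calc ∏ a, lam (enum p n (τ (idx (π J))) a) ≤ ∏ _a : Fin p, hi :=
            Finset.prod_le_prod (fun a _ => (hpos _).le) (fun a _ => h2 _)
        _ = hi ^ p := by rw [Finset.prod_const, Finset.card_univ, Fintype.card_fin]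

end Pool.Agent.Sub
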