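import Pool.Agent.Lib_MP_10b5ac_nt.SubE

set_option autoImplicit false

/-! From a fixed hyperplane of the compound to a fixed linear relation. -/

namespace Pool.Agent.Sub

open Finset Filter Matrix

/-- columns in the original coordinates -/
def xcol {n : ℕ} (b : ℕ) (ex : Fin n → ℕ) (g : Fin n → Fin n → ℤ) : Matrix (Fin n) (Fin n) ℤ :=
  diagonal (fun j => (b : ℤ) ^ ex j) * colm g

theorem xcol_det_ne_zero {n : ℕ} (b : ℕ) (hb : 2 ≤ b) (ex : Fin n → ℕ) (g : Fin n → Fin n → ℤ)
    (h : LinearIndependent ℚ (fun l => cv (g l))) : (xcol b ex g).det ≠ 0 := by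
  unfold xcol
  rw [det_mul, det_diagonal]
  apply mul_ne_zero _ (det_colm_ne_zero h)
  apply Finset.prod_ne_zero_iff.2
  intro j _
  exact pow_ne_zero _ (by exact_mod_cast (by omega : b ≠ 0))

theorem cmp_xcol {n : ℕ} (p b : ℕ) (ex : Fin n → ℕ) (g : Fin n → Fin n → ℤ) :
    cmp p (xcol b ex g) = diagonal (fun J => (b : ℤ) ^ (∑ a, ex (enum p n J a))) *
      cmp p (colm g : Matrix (Fin n) (Fin n) ℤ) := by
  unfold xcol
  rw [cmp_mul, cmp_diagonal]
  congr 2
  funext J
  rw [Finset.prod_pow_eq_pow_sum]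

/-- the functional `a` kills all the columns of the compound except the top one -/
theorem hyper_cols {n p : ℕ} (hpn : p ≤ n) (hN : 1 ≤ n.choose p) (b : ℕ) (ex : Fin n → ℕ)
    (g : Fin n → Fin n → ℤ) (hg : LinearIndependent ℚ (fun l => cv (g l)))
    (g' : Fin (n.choose p - 1) → Fin (n.choose p) → ℤ)
    (hli : LinearIndependent ℚ (fun l => cv (g' l)))
    (hmem : ∀ l, (cmp p (colm g : Matrix (Fin n) (Fin n) ℚ)⁻¹).mulVec (cv (g' l))
          (topIdx n p hpn) = 0)
    (a : Fin (n.choose p) → ℤ)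
    (ha : ∀ l, ∑ J, a J * ((b : ℤ) ^ (∑ c, ex (enum p n J c)) * g' l J) = 0)
    (I : Fin (n.choose p)) (hI : I ≠ topIdx n p hpn) :
    ∑ J, a J * cmp p (xcol b ex g) J I = 0 := by
  set A : Matrix (Fin (n.choose p)) (Fin (n.choose p)) ℤ :=
    cmp p (colm g : Matrix (Fin n) (Fin n) ℤ) with hA
  set A' : Matrix (Fin (n.choose p)) (Fin (n.choose p)) ℚ :=
    cmp p (colm g : Matrix (Fin n) (Fin n) ℚ)⁻¹ with hA'
  have hA'A : A' * A.map (Int.castRingHom ℚ) = 1 := cmp_inv_left p hg
  -- the two functionals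
  set f : (Fin (n.choose p) → ℚ) →ₗ[ℚ] ℚ := (LinearMap.proj (topIdx n p hpn)).comp A'.mulVecLin with hf
  have hfne : f ≠ 0 := by
    intro h0
    have h1 : f (fun J => (A.map (Int.castRingHom ℚ)) J (topIdx n p hpn)) = 1 := by
      show A'.mulVec (fun J => (A.map (Int.castRingHom ℚ)) J (topIdx n p hpn)) (topIdx n p hpn) = 1
      have : A'.mulVec (fun J => (A.map (Int.castRingHom ℚ)) J (topIdx n p hpn)) (topIdx n p hpn)
          = (A' * A.map (Int.castRingHom ℚ)) (topIdx n p hpn) (topIdx n p hpn) := rfl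
      rw [this, hA'A, one_apply_eq]
    rw [h0] at h1
    simp at h1
  have hker : Module.finrank ℚ (LinearMap.ker f) = n.choose p - 1 := by
    have h1 := LinearMap.finrank_range_add_finrank_ker f
    have h2 : LinearMap.range f = ⊤ := LinearMap.range_eq_top.2 (LinearMap.surjective hfne)
    rw [h2, finrank_top, Module.finrank_self, Module.finrank_fin_fun] at h1
    omega
  have hspan : Submodule.span ℚ (Set.range (fun l => cv (g' l))) = LinearMap.ker f := by
    apply Submodule.eq_of_le_of_finrank_eq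
    · rw [Submodule.span_le]
      rintro y ⟨l, rfl⟩
      exact hmem l
    · rw [hker, finrank_span_eq_card hli, Fintype.card_fin]
  have hcol : (fun J => ((A J I : ℤ) : ℚ)) ∈ Submodule.span ℚ (Set.range (fun l => cv (g' l))) := by
    rw [hspan]
    show A'.mulVec (fun J => ((A J I : ℤ) : ℚ)) (topIdx n p hpn) = 0
    have : A'.mulVec (fun J => ((A J I : ℤ) : ℚ)) (topIdx n p hpn)
        = (A' * A.map (Int.castRingHom ℚ)) (topIdx n p hpn) I := rfl
    rw [this, hA'A, one_apply_ne hI.symm]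
  -- the functional `a ∘ D`
  have hfin : ∑ J, (a J : ℚ) * ((b : ℚ) ^ (∑ c, ex (enum p n J c)) * ((A J I : ℤ) : ℚ)) = 0 := by
    refine Submodule.span_induction
      (p := fun y _ => ∑ J, (a J : ℚ) * ((b : ℚ) ^ (∑ c, ex (enum p n J c)) * y J) = 0)
      ?_ ?_ ?_ ?_ hcol
    · rintro y ⟨l, rfl⟩
      have := ha l
      simp only [cv]
      exact_mod_cast this
    · simp
    · intro y z _ _ hy hz
      simp only [Pi.add_apply, mul_add, Finset.sum_add_distrib]
      rw [hy, hz, add_zero]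
    · intro c y _ hy
      simp only [Pi.smul_apply, smul_eq_mul]
      have : ∑ J, (a J : ℚ) * ((b : ℚ) ^ (∑ c, ex (enum p n J c)) * (c * y J))
          = c * ∑ J, (a J : ℚ) * ((b : ℚ) ^ (∑ c, ex (enum p n J c)) * y J) := by
        rw [Finset.mul_sum]
        apply Finset.sum_congr rfl
        intro J _; ring
      rw [this, hy, mul_zero]
  rw [cmp_xcol]
  have h2 : ∑ J, a J * (diagonal (fun J => (b : ℤ) ^ (∑ c, ex (enum p n J c))) * A) J I
      = ∑ J, a J * ((b : ℤ) ^ (∑ c, ex (enum p n J c)) * A J I) := by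
    apply Finset.sum_congr rfl
    intro J _
    rw [diagonal_mul]
  rw [h2]
  exact_mod_cast hfin

/-- the linear relation -/
theorem relation {n p : ℕ} (hp : 1 ≤ p) (hpn : p < n) (b : ℕ) (hb : 2 ≤ b)
    (a : Fin (n.choose p) → ℤ) (ha : a ≠ 0)
    (ex ex' : Fin n → ℕ) (g g' : Fin n → Fin n → ℤ)
    (hg : LinearIndependent ℚ (fun l => cv (g l))) (hg' : LinearIndependent ℚ (fun l => cv (g' l)))
    (h1 : ∀ I, I ≠ topIdx n p hpn.le → ∑ J, a J * cmp p (xcol b ex g) J I = 0)
    (h2 : ∀ I, I ≠ topIdx n p hpn.le → ∑ J, a J * cmp p (xcol b ex' g') J I = 0)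
    (y : Fin n → ℤ) (hy : cv y ∈ spn g' (n - p)) :
    ∑ j, (xcol b ex g).adjugate ⟨n - 1, by omega⟩ j * ((b : ℤ) ^ ex' j * y j) = 0 := by
  set X : Matrix (Fin n) (Fin n) ℚ := (xcol b ex g).map (Int.castRingHom ℚ) with hX
  set X' : Matrix (Fin n) (Fin n) ℚ := (xcol b ex' g').map (Int.castRingHom ℚ) with hX'
  have hXdet : X.det ≠ 0 := by
    rw [hX, ← RingHom.mapMatrix_apply, ← RingHom.map_det, eq_intCast]
    exact_mod_cast xcol_det_ne_zero b hb ex g hg
  have hX'det : X'.det ≠ 0 := by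
    rw [hX', ← RingHom.mapMatrix_apply, ← RingHom.map_det, eq_intCast]
    exact_mod_cast xcol_det_ne_zero b hb ex' g' hg'
  set J0 := topIdx n p hpn.le with hJ0
  have hcX : cmp p X * cmp p X⁻¹ = 1 := by
    rw [← cmp_mul, mul_nonsing_inv _ (isUnit_iff_ne_zero.2 hXdet), cmp_one]
  -- `a = s • row J0 of cmp X⁻¹`
  set s : ℚ := ∑ J, (a J : ℚ) * cmp p X J J0 with hs
  have hrow : ∀ J, (a J : ℚ) = s * cmp p X⁻¹ J0 J := by
    intro J
    have e1 : (a J : ℚ) = ∑ K, (a K : ℚ) * (cmp p X * cmp p X⁻¹) K J := by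
      rw [hcX]
      rw [Finset.sum_eq_single J]
      · rw [one_apply_eq, mul_one]
      · intro K _ hK; rw [one_apply_ne hK, mul_zero]
      · intro h; exact absurd (Finset.mem_univ _) h
    have e2 : ∑ K, (a K : ℚ) * (cmp p X * cmp p X⁻¹) K J
        = ∑ I, (∑ K, (a K : ℚ) * cmp p X K I) * cmp p X⁻¹ I J := by
      simp only [mul_apply, Finset.mul_sum, Finset.sum_mul]
      rw [Finset.sum_comm]
      apply Finset.sum_congr rfl
      intro I _
      apply Finset.sum_congr rfl
      intro K _; ring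
    rw [e1, e2, Finset.sum_eq_single J0]
    · intro I _ hI
      have := h1 I hI
      have e3 : ∑ K, (a K : ℚ) * cmp p X K I = 0 := by
        rw [hX, cmp_map]
        simp only [map_apply, eq_intCast]
        exact_mod_cast this
      rw [e3, zero_mul]
    · intro h; exact absurd (Finset.mem_univ _) h
  have hs0 : s ≠ 0 := by
    intro h0
    apply ha
    funext J
    have := hrow J
    rw [h0, zero_mul] at this
    exact_mod_cast this
  -- the transition matrix
  set T : Matrix (Fin n) (Fin n) ℚ := X⁻¹ * X' with hT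
  have hTdet : T.det ≠ 0 := by
    rw [hT, det_mul, det_nonsing_inv, Ring.inverse_eq_inv']
    exact mul_ne_zero (inv_ne_zero hXdet) hX'det
  have hTz : ∀ I, I ≠ J0 → cmp p T J0 I = 0 := by
    intro I hI
    rw [hT, cmp_mul, mul_apply]
    have e1 : ∀ J, cmp p X⁻¹ J0 J = s⁻¹ * (a J : ℚ) := by
      intro J; rw [hrow J]; field_simp
    simp only [e1]
    have e2 : ∑ J, s⁻¹ * (a J : ℚ) * cmp p X' J I = s⁻¹ * ∑ J, (a J : ℚ) * cmp p X' J I := by
      rw [Finset.mul_sum]
      apply Finset.sum_congr rfl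
      intro J _; ring
    rw [e2]
    have e3 : ∑ K, (a K : ℚ) * cmp p X' K I = 0 := by
      rw [hX', cmp_map]
      simp only [map_apply, eq_intCast]
      exact_mod_cast h2 I hI
    rw [e3, mul_zero]
  have hblock := block_zero n p hpn.le T hTdet J0
    (fun c => by rw [hJ0, enum_topIdx, topEmb_val]) hTz
  -- coordinates of the vector
  obtain ⟨c, hc1, hc2⟩ : ∃ c : Fin n → ℚ, (∀ j : Fin n, n - p ≤ (j : ℕ) → c j = 0) ∧
      cv y = (colm g' : Matrix (Fin n) (Fin n) ℚ).mulVec c := by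
    unfold spn at hy
    refine Submodule.span_induction
      (p := fun z _ => ∃ c : Fin n → ℚ, (∀ j : Fin n, n - p ≤ (j : ℕ) → c j = 0) ∧
        z = (colm g' : Matrix (Fin n) (Fin n) ℚ).mulVec c) ?_ ?_ ?_ ?_ hy
    · rintro z ⟨l, hl, rfl⟩
      refine ⟨Pi.single l 1, ?_, ?_⟩
      · intro j hj
        rw [Pi.single_apply, if_neg]
        rintro rfl
        simp only [Set.mem_ofPred_eq] at hl
        omega
      · rw [mulVec_single_one]
        funext j
        rfl
    · exact ⟨0, fun _ _ => rfl, by simp⟩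
    · rintro z z' _ _ ⟨c, hc, rfl⟩ ⟨c', hc', rfl⟩
      exact ⟨c + c', fun j hj => by rw [Pi.add_apply, hc j hj, hc' j hj, add_zero],
        by rw [mulVec_add]⟩
    · rintro t z _ ⟨c, hc, rfl⟩
      exact ⟨t • c, fun j hj => by rw [Pi.smul_apply, hc j hj, smul_zero], by rw [mulVec_smul]⟩
  have hx : (fun j => ((b : ℚ) ^ ex' j * (y j : ℚ))) = X'.mulVec c := by
    have e1 : X' = diagonal (fun j => (b : ℚ) ^ ex' j) * (colm g' : Matrix (Fin n) (Fin n) ℚ) := by
      rw [hX', xcol, Matrix.map_mul, colm_map]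
      congr 1
      rw [diagonal_map (by simp)]
      congr 1
      funext j; simp
    rw [e1, ← mulVec_mulVec, ← hc2]
    funext j
    rw [mulVec_diagonal]
    rfl
  have hz : X.adjugate.mulVec (fun j => ((b : ℚ) ^ ex' j * (y j : ℚ))) ⟨n - 1, by omega⟩ = 0 := by
    have e1 : X.adjugate = X.det • X⁻¹ := by
      rw [Matrix.inv_def, smul_smul, Ring.inverse_eq_inv', mul_inv_cancel₀ hXdet, one_smul]
    rw [hx, e1, smul_mulVec, mulVec_mulVec, ← hT, Pi.smul_apply]
    have e2 : T.mulVec c ⟨n - 1, by omega⟩ = 0 := by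
      show ∑ j, T ⟨n - 1, by omega⟩ j * c j = 0
      apply Finset.sum_eq_zero
      intro j _
      by_cases hj : n - p ≤ (j : ℕ)
      · rw [hc1 j hj, mul_zero]
      · rw [hblock ⟨n - 1, by omega⟩ j (by simp only; omega) (by omega), zero_mul]
    rw [e2, smul_zero]
  have hadj : X.adjugate = (xcol b ex g).adjugate.map (Int.castRingHom ℚ) := by
    rw [hX, ← RingHom.mapMatrix_apply, ← RingHom.map_adjugate]
    rfl
  rw [hadj] at hz
  unfold mulVec dotProduct at hz
  simp only [map_apply, eq_intCast] at hz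
  exact_mod_cast hz

end Pool.Agent.Sub
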