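import Pool.Agent.Lib_MP_10b5ac_nt.SubF

set_option autoImplicit false

/-! The parametric Subspace theorem. -/

namespace Pool.Agent.Sub

open Finset Filter Matrix

/-- eventually `X ≤ b ^ (c q)` -/
theorem eventually_le_rpow (b : ℕ) (hb : 2 ≤ b) (q : ℕ → ℕ) (hq : Tendsto q atTop atTop)
    (c : ℝ) (hc : 0 < c) (X : ℝ) : ∀ᶠ e in atTop, X ≤ (b : ℝ) ^ (c * (q e : ℝ)) := by
  have h1 : Tendsto (fun e => (b : ℝ) ^ (c * (q e : ℝ))) atTop atTop := by
    have hb1 : (1 : ℝ) < b := by exact_mod_cast (by omega : 1 < b)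
    have h2 : Tendsto (fun e => c * (q e : ℝ)) atTop atTop :=
      (tendsto_natCast_atTop_atTop.comp hq).const_mul_atTop hc
    exact (tendsto_rpow_atTop_of_base_gt_one _ hb1).comp h2
  exact h1.eventually_ge_atTop X

/-- a gap in the successive minima -/
theorem exists_gap (n : ℕ) (hn : 2 ≤ n) (L : Matrix (Fin n) (Fin n) ℝ) (hL : L.det ≠ 0)
    (C1 : ℝ) (hC1 : 1 ≤ C1) (b : ℕ) (ex : Fin n → ℕ) (B : Fin n → ℝ)
    (g : Fin n → Fin n → ℤ) (hpos : ∀ i, 0 < nrm (Mx b L ex B) (g i))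
    (hli : LinearIndependent ℚ (fun l => cv (g l)))
    (hmono : Monotone (fun i => nrm (Mx b L ex B) (g i)))
    (hpr2 : |L.det| ≤ C1 * ∏ i, nrm (Mx b L ex B) (g i))
    (hmin : ∀ (i : Fin n) (y : Fin n → ℤ), cv y ∉ spn g i →
      nrm (Mx b L ex B) (g i) ≤ nrm (Mx b L ex B) y)
    (y : Fin n → ℤ) (hy0 : y ≠ 0) (Δ : ℝ) (hΔ : 1 ≤ Δ)
    (hy : nrm (Mx b L ex B) y * Δ ^ (2 * n) ≤ 1) (hbig : C1 < |L.det| * Δ ^ n) :
    ∃ p, 1 ≤ p ∧ p < n ∧ cv y ∈ spn g (n - p) ∧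
      ∀ i j : Fin n, (i : ℕ) < n - p → n - p ≤ (j : ℕ) →
        Δ * nrm (Mx b L ex B) (g i) ≤ nrm (Mx b L ex B) (g j) := by
  by_contra hcon
  push Not at hcon
  set lam : Fin n → ℝ := fun i => nrm (Mx b L ex B) (g i) with hlam
  have hΔ0 : 0 < Δ := by linarith
  -- claim: every `lam i ≤ Δ ^ i * nrm y`, as long as ...
  have claim : ∀ k : ℕ, ∀ hk : k < n, lam ⟨k, hk⟩ ≤ Δ ^ k * nrm (Mx b L ex B) y := by
    intro k
    induction k with
    | zero =>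
      intro hk
      rw [pow_zero, one_mul]
      apply hmin
      intro hmem
      simp only [spn] at hmem
      have : {l : Fin n | (l : ℕ) < ((⟨0, hk⟩ : Fin n) : ℕ)} = ∅ := by
        ext l; simp
      rw [this, Set.image_empty, Submodule.span_empty, Submodule.mem_bot] at hmem
      apply hy0
      funext j
      have := congrFun hmem j
      simpa [cv] using this
    | succ k ih =>
      intro hk
      have h1 := ih (by omega)
      by_cases hmem : cv y ∈ spn g (k + 1)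
      · -- no gap at k+1
        obtain ⟨i, j, hi, hj, hlt⟩ := hcon (n - (k + 1)) (by omega) (by omega)
          (by rw [show n - (n - (k + 1)) = k + 1 by omega]; exact hmem)
        rw [show n - (n - (k + 1)) = k + 1 by omega] at hi hj
        have h2 : lam i ≤ lam ⟨k, by omega⟩ := hmono (by rw [Fin.le_def]; simp only; omega)
        have h3 : lam ⟨k + 1, hk⟩ ≤ lam j := hmono (by rw [Fin.le_def]; exact hj)
        have h4 : lam j < Δ * lam i := hlt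
        calc lam ⟨k + 1, hk⟩ ≤ lam j := h3
          _ ≤ Δ * lam i := h4.le
          _ ≤ Δ * lam ⟨k, by omega⟩ := mul_le_mul_of_nonneg_left h2 hΔ0.le
          _ ≤ Δ * (Δ ^ k * nrm (Mx b L ex B) y) := mul_le_mul_of_nonneg_left h1 hΔ0.le
          _ = Δ ^ (k + 1) * nrm (Mx b L ex B) y := by ring
      · have h2 := hmin ⟨k + 1, hk⟩ y hmem
        have h3 : (1 : ℝ) ≤ Δ ^ (k + 1) := one_le_pow₀ hΔ
        have h4 := nrm_nonneg (Mx b L ex B) y
        calc lam ⟨k + 1, hk⟩ ≤ nrm (Mx b L ex B) y := h2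
          _ ≤ Δ ^ (k + 1) * nrm (Mx b L ex B) y := by nlinarith
  have hall : ∀ i, lam i ≤ (Δ ^ n)⁻¹ := by
    intro i
    have h1 := claim i i.2
    have h2 : Δ ^ (i : ℕ) ≤ Δ ^ n := pow_le_pow_right₀ hΔ i.2.le
    have h4 := nrm_nonneg (Mx b L ex B) y
    have hΔn : 0 < Δ ^ n := by positivity
    rw [le_inv_comm₀ (hpos i) hΔn, ← one_div, le_div_iff₀ (hpos i)]
    calc Δ ^ n * lam i ≤ Δ ^ n * (Δ ^ (i : ℕ) * nrm (Mx b L ex B) y) :=
          mul_le_mul_of_nonneg_left h1 hΔn.le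
      _ ≤ Δ ^ n * (Δ ^ n * nrm (Mx b L ex B) y) := by
          apply mul_le_mul_of_nonneg_left _ hΔn.le
          exact mul_le_mul_of_nonneg_right h2 h4
      _ = nrm (Mx b L ex B) y * Δ ^ (2 * n) := by ring
      _ ≤ 1 := hy
  have hprod : ∏ i, lam i ≤ (Δ ^ n)⁻¹ := by
    have hΔn : 1 ≤ Δ ^ n := one_le_pow₀ hΔ
    have hinv1 : (Δ ^ n)⁻¹ ≤ 1 := inv_le_one_of_one_le₀ hΔn
    have h0 : 0 < n := by omega
    rw [← Finset.mul_prod_erase univ lam (Finset.mem_univ ⟨0, h0⟩)]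
    have h1 : ∏ i ∈ univ.erase ⟨0, h0⟩, lam i ≤ 1 :=
      Finset.prod_le_one (fun i _ => (hpos i).le) (fun i _ => (hall i).trans hinv1)
    have h2 : 0 ≤ ∏ i ∈ univ.erase ⟨0, h0⟩, lam i := Finset.prod_nonneg fun i _ => (hpos i).le
    calc lam ⟨0, h0⟩ * ∏ i ∈ univ.erase ⟨0, h0⟩, lam i ≤ lam ⟨0, h0⟩ * 1 :=
          mul_le_mul_of_nonneg_left h1 (hpos _).le
      _ ≤ (Δ ^ n)⁻¹ := by rw [mul_one]; exact hall _
  have hΔn : 0 < Δ ^ n := by positivity
  have h5 : |L.det| ≤ C1 * (Δ ^ n)⁻¹ :=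
    hpr2.trans (mul_le_mul_of_nonneg_left hprod (by linarith))
  rw [← div_eq_mul_inv, le_div_iff₀ hΔn] at h5
  linarith

theorem two_le_choose (n p : ℕ) (hp : 1 ≤ p) (hpn : p < n) : 2 ≤ n.choose p := by
  obtain ⟨n, rfl⟩ : ∃ k, n = k + 1 := ⟨n - 1, by omega⟩
  obtain ⟨p, rfl⟩ : ∃ k, p = k + 1 := ⟨p - 1, by omega⟩
  rw [Nat.choose_succ_succ']
  have h1 : 0 < n.choose p := Nat.choose_pos (by omega)
  have h2 : 0 < n.choose (p + 1) := Nat.choose_pos (by omega)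
  omega

theorem subspace {θ : ℝ} {D : ℕ} {C₀ : ℝ} (hA : AlgData θ D C₀) (b n : ℕ) (hb : 2 ≤ b)
    (hn : 2 ≤ n) (L : Matrix (Fin n) (Fin n) ℝ) (hL : L.det ≠ 0) (M : ℝ) (hM : 1 ≤ M)
    (hLr : ∀ i j, Rep θ D M (L i j)) (δ : ℝ) (hδ : 0 < δ) (C : ℝ)
    (q : ℕ → ℕ) (hq : Tendsto q atTop atTop) (ex : ℕ → Fin n → ℕ) (B : ℕ → Fin n → ℝ)
    (hB : ∀ e i, 0 < B e i) (hvol : ∀ e, ∏ i, B e i = (b : ℝ) ^ (∑ j, ex e j))
    (hex : ∀ e j, (ex e j : ℝ) ≤ C * q e)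
    (hB1 : ∀ e i, (b : ℝ) ^ (-(C * (q e : ℝ))) ≤ B e i)
    (hB2 : ∀ e i, B e i ≤ (b : ℝ) ^ (C * (q e : ℝ)))
    (x : ℕ → Fin n → ℤ) (hx : ∀ e, x e ≠ 0) (hdiv : ∀ e j, ((b : ℤ) ^ ex e j) ∣ x e j)
    (hsmall : ∀ e i, |∑ j, L i j * (x e j : ℝ)| ≤ B e i * (b : ℝ) ^ (-(δ * (q e : ℝ)))) :
    ∃ z : Fin n → ℤ, z ≠ 0 ∧ ∃ᶠ e in atTop, ∑ j, z j * x e j = 0 := by
  have hb1 : (1 : ℝ) < b := by exact_mod_cast (by omega : 1 < b)
  have hb0 : (0 : ℝ) < b := by linarith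
  have hLpos : 0 < |L.det| := abs_pos.2 hL
  have hn0 : (0 : ℝ) < n := by exact_mod_cast (by omega : 0 < n)
  obtain ⟨C1, hC1, hmink⟩ := mink2 n (by omega)
  have hMxdet : ∀ e, (Mx b L (ex e) (B e)).det = L.det := fun e =>
    det_Mx_eq _ _ _ _ (hB e) (hvol e)
  have hMx0 : ∀ e, (Mx b L (ex e) (B e)).det ≠ 0 := fun e => by rw [hMxdet]; exact hL
  choose g hgli hgmono hgmin hgpr1 hgpr2 using fun e => hmink (Mx b L (ex e) (B e)) (hMx0 e)
  simp only [hMxdet] at hgpr1 hgpr2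
  choose y hy using hdiv
  have hy0 : ∀ e, y e ≠ 0 := by
    intro e h
    apply hx e
    funext j
    rw [hy e j, h]; simp
  have hynrm : ∀ e, nrm (Mx b L (ex e) (B e)) (y e) ≤ (b : ℝ) ^ (-(δ * (q e : ℝ))) := by
    intro e
    rw [nrm_le_iff _ _ _ (Real.rpow_nonneg hb0.le _)]
    intro i
    rw [Mx_mulVec, abs_mul, abs_of_pos (inv_pos.2 (hB e i)), inv_mul_le_iff₀ (hB e i)]
    have h1 := hsmall e i
    have h2 : ∑ j, L i j * ((b : ℝ) ^ ex e j * (y e j : ℝ)) = ∑ j, L i j * (x e j : ℝ) := by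
      apply Finset.sum_congr rfl
      intro j _
      rw [hy e j]; push_cast; rfl
    rw [h2]; exact h1
  have hgpos : ∀ e i, 0 < nrm (Mx b L (ex e) (B e)) (g e i) := by
    intro e i
    apply nrm_pos _ (hMx0 e)
    intro h0
    apply (hgli e).ne_zero i
    rw [h0]; funext j; simp [cv]
  set δ' : ℝ := δ / (2 * n) with hδ'
  have hδ'pos : 0 < δ' := by positivity
  -- gaps
  have hgapev : ∀ᶠ e in atTop, ∃ p, 1 ≤ p ∧ p < n ∧ cv (y e) ∈ spn (g e) (n - p) ∧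
      ∀ i j : Fin n, (i : ℕ) < n - p → n - p ≤ (j : ℕ) →
        (b : ℝ) ^ (δ' * (q e : ℝ)) * nrm (Mx b L (ex e) (B e)) (g e i)
          ≤ nrm (Mx b L (ex e) (B e)) (g e j) := by
    filter_upwards [eventually_le_rpow b hb q hq δ' hδ'pos (C1 / |L.det| + 1)] with e he
    have h0 : 0 < C1 / |L.det| := by positivity
    have hΔ : 1 ≤ (b : ℝ) ^ (δ' * (q e : ℝ)) := by linarith
    apply exists_gap n hn L hL C1 hC1 b (ex e) (B e) (g e) (hgpos e) (hgli e) (hgmono e) (hgpr2 e)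
      (hgmin e) (y e) (hy0 e) _ hΔ
    · have h1 : ((b : ℝ) ^ (δ' * (q e : ℝ))) ^ (2 * n) = (b : ℝ) ^ (δ * (q e : ℝ)) := by
        rw [← Real.rpow_natCast, ← Real.rpow_mul hb0.le]
        congr 1
        rw [hδ']; push_cast; field_simp
      rw [h1]
      calc _ ≤ (b : ℝ) ^ (-(δ * (q e : ℝ))) * (b : ℝ) ^ (δ * (q e : ℝ)) :=
            mul_le_mul_of_nonneg_right (hynrm e) (Real.rpow_nonneg hb0.le _)
        _ = 1 := by rw [← Real.rpow_add hb0]; simp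
    · have h1 : (b : ℝ) ^ (δ' * (q e : ℝ)) ≤ ((b : ℝ) ^ (δ' * (q e : ℝ))) ^ n :=
        le_self_pow₀ hΔ (by omega)
      have h2 : C1 / |L.det| < ((b : ℝ) ^ (δ' * (q e : ℝ))) ^ n := by linarith
      rw [div_lt_iff₀ hLpos] at h2
      linarith
  obtain ⟨p, hp1, hpn, hfreq⟩ : ∃ p, 1 ≤ p ∧ p < n ∧ ∃ᶠ e in atTop, cv (y e) ∈ spn (g e) (n - p) ∧
      ∀ i j : Fin n, (i : ℕ) < n - p → n - p ≤ (j : ℕ) →
        (b : ℝ) ^ (δ' * (q e : ℝ)) * nrm (Mx b L (ex e) (B e)) (g e i)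
          ≤ nrm (Mx b L (ex e) (B e)) (g e j) := by
    by_contra hcon
    push Not at hcon
    have hall : ∀ᶠ e in atTop, ∀ p ∈ Finset.range n, 1 ≤ p → ¬ (cv (y e) ∈ spn (g e) (n - p) ∧
      ∀ i j : Fin n, (i : ℕ) < n - p → n - p ≤ (j : ℕ) →
        (b : ℝ) ^ (δ' * (q e : ℝ)) * nrm (Mx b L (ex e) (B e)) (g e i)
          ≤ nrm (Mx b L (ex e) (B e)) (g e j)) := by
      rw [Filter.eventually_all_finset]
      intro p hp
      by_cases h1 : 1 ≤ p
      · have h2 := hcon p h1 (Finset.mem_range.1 hp)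
        filter_upwards [h2] with e he _
        intro h3
        obtain ⟨i, j, h4, h5, h6⟩ := he h3.1
        exact absurd (h3.2 i j h4 h5) (not_le.2 h6)
      · exact Filter.Eventually.of_forall fun e h => absurd h h1
    obtain ⟨e, he1, he2⟩ := (hgapev.and hall).exists
    obtain ⟨p, hp1, hp2, hp3, hp4⟩ := he1
    exact he2 p (Finset.mem_range.2 hp2) hp1 ⟨hp3, hp4⟩
  have hN := two_le_choose n p hp1 hpn
  have hN0 : (0 : ℝ) < (n.choose p : ℝ) := by exact_mod_cast (by omega : 0 < n.choose p)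
  obtain ⟨C2, hC2, hstep⟩ := compound_step n p hp1 hpn L hL C1 hC1 hN
  obtain ⟨c0, hc0, hlow⟩ := nrm_lower L (by omega) hL
  obtain ⟨κ, hκ⟩ := pow_unbounded_of_one_lt (1 / c0 + C1 * |L.det| + C2) hb1
  have hc0' : 0 < 1 / c0 := by positivity
  have hCL : 0 < C1 * |L.det| := by positivity
  -- the good indices
  obtain ⟨φ, hφ, hP⟩ := Filter.extraction_of_frequently_atTop
    (hfreq.and_eventually ((eventually_le_rpow b hb q hq δ' hδ'pos (C2 + 1)).and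
      ((eventually_le_rpow b hb q hq (δ' / 2) (by positivity) (C2 ^ (n.choose p + 1))).and
        (hq.eventually_ge_atTop 1))))
  have hq1 : ∀ i, (1 : ℝ) ≤ q (φ i) := fun i => by exact_mod_cast (hP i).2.2.2
  have hC0 : 0 ≤ C := by
    have h1 := hex (φ 0) ⟨0, by omega⟩
    have h2 : (0 : ℝ) ≤ (ex (φ 0) ⟨0, by omega⟩ : ℝ) := Nat.cast_nonneg _
    have h3 := hq1 0
    by_contra hneg
    push Not at hneg
    nlinarith
  choose B' g' hB'pos hB'vol hB'small hg'li hg'top hB'bd using fun i =>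
    hstep b (ex (φ i)) (B (φ i)) (hB _) (hvol _) (g (φ i)) (hgli _) (hgmono _) (hgpr1 _) (hgpr2 _)
      ((b : ℝ) ^ (δ' * (q (φ i) : ℝ))) (by linarith [(hP i).2.1]) (hP i).1.2
  obtain ⟨M', hM', hrep⟩ := rep_det hA p M hM
  set δ'' : ℝ := δ' / (2 * n.choose p) with hδ''
  have hδ''pos : 0 < δ'' := by positivity
  set C'' : ℝ := p * (2 * C + κ) + p * (C + κ + (κ + C) * (n - 1)) + κ + δ'' + p * C with hC''
  have hp0 : (0 : ℝ) ≤ p := Nat.cast_nonneg _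
  have hκ0 : (0 : ℝ) ≤ κ := Nat.cast_nonneg _
  have hn1 : (0 : ℝ) ≤ (n : ℝ) - 1 := by
    have : (1 : ℝ) ≤ n := by exact_mod_cast (by omega : 1 ≤ n)
    linarith
  have hq0 : ∀ i, (0 : ℝ) ≤ q (φ i) := fun i => Nat.cast_nonneg _
  have hC''1 : (p : ℝ) * C ≤ C'' ∧ (p : ℝ) * C + (κ + C) * p ≤ C'' ∧
      (p : ℝ) * C + (κ + (κ + C) * (n - 1)) * p + (κ + δ'') ≤ C'' := by
    clear_value C'' δ'' δ'
    have a1 : 0 ≤ (p : ℝ) * C := mul_nonneg hp0 hC0
    have a2 : 0 ≤ (p : ℝ) * κ := mul_nonneg hp0 hκ0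
    have a3 : 0 ≤ (p : ℝ) * ((κ + C) * (n - 1)) :=
      mul_nonneg hp0 (mul_nonneg (add_nonneg hκ0 hC0) hn1)
    have e0 : C'' = 4 * ((p : ℝ) * C) + 2 * ((p : ℝ) * κ) + (p : ℝ) * ((κ + C) * (n - 1)) + κ + δ'' := by
      rw [hC'']; ring
    refine ⟨by linarith, ?_, ?_⟩
    · have e1 : (p : ℝ) * C + (κ + C) * p = 2 * ((p : ℝ) * C) + (p : ℝ) * κ := by ring
      linarith
    · have e1 : (p : ℝ) * C + (κ + (κ + C) * (n - 1)) * p + (κ + δ'')
          = (p : ℝ) * C + (p : ℝ) * κ + (p : ℝ) * ((κ + C) * (n - 1)) + κ + δ'' := by ring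
      linarith
  have hκq : ∀ i, (b : ℝ) ^ κ ≤ (b : ℝ) ^ ((κ : ℝ) * (q (φ i) : ℝ)) := by
    intro i
    rw [← Real.rpow_natCast]
    apply Real.rpow_le_rpow_of_exponent_le hb1.le
    exact le_mul_of_one_le_right hκ0 (hq1 i)
  -- bounds for the successive minima
  have hlo : ∀ i l, (b : ℝ) ^ (-((κ + C) * (q (φ i) : ℝ))) ≤
      nrm (Mx b L (ex (φ i)) (B (φ i))) (g (φ i) l) := by
    intro i l
    have h1 := hlow b (ex (φ i)) (B (φ i)) ((b : ℝ) ^ (C * (q (φ i) : ℝ))) (by omega) (hB _)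
      (hB2 _) (g (φ i) l) (by
        intro h0
        apply (hgli (φ i)).ne_zero l
        rw [h0]; funext j; simp [cv])
    have h2 : (1 : ℝ) ≤ c0 * (b : ℝ) ^ ((κ : ℝ) * (q (φ i) : ℝ)) := by
      have h3 : 1 / c0 ≤ (b : ℝ) ^ ((κ : ℝ) * (q (φ i) : ℝ)) := by
        exact le_trans (by linarith) (hκq i)
      rw [div_le_iff₀ hc0] at h3
      linarith
    have h4 : (b : ℝ) ^ (-((κ + C) * (q (φ i) : ℝ))) * ((b : ℝ) ^ ((κ : ℝ) * (q (φ i) : ℝ)) *
        (b : ℝ) ^ (C * (q (φ i) : ℝ))) = 1 := by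
      rw [← Real.rpow_add hb0, ← Real.rpow_add hb0]
      have : -((κ + C) * (q (φ i) : ℝ)) + ((κ : ℝ) * (q (φ i) : ℝ) + C * (q (φ i) : ℝ)) = 0 := by
        ring
      rw [this, Real.rpow_zero]
    have hpos1 : 0 < (b : ℝ) ^ (-((κ + C) * (q (φ i) : ℝ))) := Real.rpow_pos_of_pos hb0 _
    have hpos2 : 0 < (b : ℝ) ^ ((κ : ℝ) * (q (φ i) : ℝ)) := Real.rpow_pos_of_pos hb0 _
    have hpos3 : 0 < (b : ℝ) ^ (C * (q (φ i) : ℝ)) := Real.rpow_pos_of_pos hb0 _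
    set U := (b : ℝ) ^ (-((κ + C) * (q (φ i) : ℝ)))
    set V := (b : ℝ) ^ ((κ : ℝ) * (q (φ i) : ℝ))
    set W := (b : ℝ) ^ (C * (q (φ i) : ℝ))
    set Z := nrm (Mx b L (ex (φ i)) (B (φ i))) (g (φ i) l)
    -- 1 ≤ c0 V, c0 ≤ W Z, U V W = 1
    have h5 : 1 ≤ V * (W * Z) := by
      calc (1 : ℝ) ≤ c0 * V := h2
        _ ≤ (W * Z) * V := mul_le_mul_of_nonneg_right h1 hpos2.le
        _ = V * (W * Z) := mul_comm _ _
    calc U = U * 1 := (mul_one _).symm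
      _ ≤ U * (V * (W * Z)) := mul_le_mul_of_nonneg_left h5 hpos1.le
      _ = (U * (V * W)) * Z := by ring
      _ = Z := by rw [h4, one_mul]
  have hhi : ∀ i l, nrm (Mx b L (ex (φ i)) (B (φ i))) (g (φ i) l) ≤
      (b : ℝ) ^ ((κ + (κ + C) * (n - 1)) * (q (φ i) : ℝ)) := by
    intro i l
    have h1 := hgpr1 (φ i)
    rw [← Finset.mul_prod_erase univ _ (Finset.mem_univ l)] at h1
    have h2 : ((b : ℝ) ^ (-((κ + C) * (q (φ i) : ℝ)))) ^ (n - 1)
        ≤ ∏ l' ∈ univ.erase l, nrm (Mx b L (ex (φ i)) (B (φ i))) (g (φ i) l') := by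
      calc _ = ∏ _l' ∈ univ.erase l, (b : ℝ) ^ (-((κ + C) * (q (φ i) : ℝ))) := by
            rw [Finset.prod_const, Finset.card_erase_of_mem (Finset.mem_univ _), Finset.card_univ,
              Fintype.card_fin]
        _ ≤ _ := Finset.prod_le_prod (fun _ _ => Real.rpow_nonneg hb0.le _) (fun l' _ => hlo i l')
    have h3 : nrm (Mx b L (ex (φ i)) (B (φ i))) (g (φ i) l) *
        ((b : ℝ) ^ (-((κ + C) * (q (φ i) : ℝ)))) ^ (n - 1) ≤ C1 * |L.det| :=
      (mul_le_mul_of_nonneg_left h2 (hgpos _ _).le).trans h1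
    have h4 : C1 * |L.det| ≤ (b : ℝ) ^ ((κ : ℝ) * (q (φ i) : ℝ)) := by
      exact le_trans (by linarith) (hκq i)
    have h5 : ((b : ℝ) ^ (-((κ + C) * (q (φ i) : ℝ)))) ^ (n - 1)
        = (b : ℝ) ^ (-((κ + C) * (n - 1) * (q (φ i) : ℝ))) := by
      rw [← Real.rpow_natCast, ← Real.rpow_mul hb0.le]
      congr 1
      rw [Nat.cast_sub (by omega)]
      push_cast; ring
    rw [h5] at h3
    have h6 : (b : ℝ) ^ ((κ + (κ + C) * (n - 1)) * (q (φ i) : ℝ))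
        = (b : ℝ) ^ ((κ : ℝ) * (q (φ i) : ℝ)) * (b : ℝ) ^ ((κ + C) * (n - 1) * (q (φ i) : ℝ)) := by
      rw [← Real.rpow_add hb0]
      congr 1; ring
    have h7 : (b : ℝ) ^ (-((κ + C) * (n - 1) * (q (φ i) : ℝ))) *
        (b : ℝ) ^ ((κ + C) * (n - 1) * (q (φ i) : ℝ)) = 1 := by
      rw [← Real.rpow_add hb0, neg_add_cancel, Real.rpow_zero]
    have h8 : 0 < (b : ℝ) ^ ((κ + C) * (n - 1) * (q (φ i) : ℝ)) := Real.rpow_pos_of_pos hb0 _
    rw [h6]
    calc nrm (Mx b L (ex (φ i)) (B (φ i))) (g (φ i) l)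
        = (nrm (Mx b L (ex (φ i)) (B (φ i))) (g (φ i) l) *
          (b : ℝ) ^ (-((κ + C) * (n - 1) * (q (φ i) : ℝ)))) *
          (b : ℝ) ^ ((κ + C) * (n - 1) * (q (φ i) : ℝ)) := by rw [mul_assoc, h7, mul_one]
      _ ≤ (b : ℝ) ^ ((κ : ℝ) * (q (φ i) : ℝ)) * _ :=
          mul_le_mul_of_nonneg_right (h3.trans h4) h8.le
  have hprodB1 : ∀ i J, (b : ℝ) ^ (-(p * C * (q (φ i) : ℝ))) ≤ ∏ a, B (φ i) (enum p n J a) := by
    intro i J
    calc (b : ℝ) ^ (-(p * C * (q (φ i) : ℝ))) = ∏ _a : Fin p, (b : ℝ) ^ (-(C * (q (φ i) : ℝ))) := by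
          rw [Finset.prod_const, Finset.card_univ, Fintype.card_fin, ← Real.rpow_natCast,
            ← Real.rpow_mul hb0.le]
          congr 1; ring
      _ ≤ _ := Finset.prod_le_prod (fun _ _ => Real.rpow_nonneg hb0.le _) (fun a _ => hB1 _ _)
  have hprodB2 : ∀ i J, ∏ a, B (φ i) (enum p n J a) ≤ (b : ℝ) ^ (p * C * (q (φ i) : ℝ)) := by
    intro i J
    calc ∏ a, B (φ i) (enum p n J a) ≤ ∏ _a : Fin p, (b : ℝ) ^ (C * (q (φ i) : ℝ)) :=
          Finset.prod_le_prod (fun _ _ => (hB _ _).le) (fun a _ => hB2 _ _)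
      _ = _ := by
          rw [Finset.prod_const, Finset.card_univ, Fintype.card_fin, ← Real.rpow_natCast,
            ← Real.rpow_mul hb0.le]
          congr 1; ring
  have hC2b : ∀ i, C2 ≤ (b : ℝ) ^ ((κ : ℝ) * (q (φ i) : ℝ)) := by
    intro i
    exact le_trans (by linarith) (hκq i)
  have hqφ : Tendsto (fun i => q (φ i)) atTop atTop := hq.comp hφ.tendsto_atTop
  obtain ⟨a, ha0, hfr⟩ := penultimate hA b (n.choose p) hb hN (cmp p L) (det_cmp_ne_zero p L hL)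
    M' hM' (fun J I => hrep _ (fun i j => hLr _ _)) δ'' hδ''pos C'' (fun i => q (φ i)) hqφ
    (fun i J => ∑ a, ex (φ i) (enum p n J a))
    (fun i J => B' i J * (C2 * (b : ℝ) ^ (δ'' * (q (φ i) : ℝ))))
    (by
      intro i J
      have := hB'pos i J
      have h2 : 0 < (b : ℝ) ^ (δ'' * (q (φ i) : ℝ)) := Real.rpow_pos_of_pos hb0 _
      positivity)
    (by
      intro i
      rw [Finset.prod_mul_distrib, Finset.prod_const, Finset.card_univ, Fintype.card_fin, mul_pow]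
      have h1 := hB'vol i
      have h2 := (hP i).2.2.1
      have h3 : ((b : ℝ) ^ (δ'' * (q (φ i) : ℝ))) ^ (n.choose p)
          = (b : ℝ) ^ (δ' / 2 * (q (φ i) : ℝ)) := by
        rw [← Real.rpow_natCast, ← Real.rpow_mul hb0.le]
        congr 1
        rw [hδ'']; field_simp
      have h4 : (b : ℝ) ^ (δ' * (q (φ i) : ℝ))
          = (b : ℝ) ^ (δ' / 2 * (q (φ i) : ℝ)) * (b : ℝ) ^ (δ' / 2 * (q (φ i) : ℝ)) := by
        rw [← Real.rpow_add hb0]; congr 1; ring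
      rw [h4] at h1
      rw [h3]
      set V := (b : ℝ) ^ (δ' / 2 * (q (φ i) : ℝ)) with hV
      have hVpos : 0 < V := Real.rpow_pos_of_pos hb0 _
      set S := (b : ℝ) ^ (∑ J : Fin (n.choose p), ∑ a, ex (φ i) (enum p n J a)) with hS
      have hSpos : 0 < S := by positivity
      set Pi := ∏ J, B' i J with hPi
      have hPipos : 0 < Pi := Finset.prod_pos fun J _ => hB'pos i J
      -- Pi V V ≤ C2 S, C2^(N+1) ≤ V
      have h5 : Pi * (C2 ^ (n.choose p) * V) * V ≤ S * V := by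
        calc Pi * (C2 ^ (n.choose p) * V) * V = (Pi * (V * V)) * C2 ^ (n.choose p) := by ring
          _ ≤ (C2 * S) * C2 ^ (n.choose p) := mul_le_mul_of_nonneg_right h1 (by positivity)
          _ = S * C2 ^ (n.choose p + 1) := by ring
          _ ≤ S * V := mul_le_mul_of_nonneg_left h2 hSpos.le
      exact le_of_mul_le_mul_right h5 hVpos)
    (by
      intro i J
      have h1 : ((∑ a, ex (φ i) (enum p n J a) : ℕ) : ℝ) ≤ p * (C * (q (φ i) : ℝ)) := by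
        push_cast
        calc ∑ a, (ex (φ i) (enum p n J a) : ℝ) ≤ ∑ _a : Fin p, C * (q (φ i) : ℝ) :=
              Finset.sum_le_sum fun a _ => hex _ _
          _ = _ := by rw [Finset.sum_const, Finset.card_univ, Fintype.card_fin, nsmul_eq_mul]
      have h2 := mul_le_mul_of_nonneg_right hC''1.1 (hq0 i)
      rw [← mul_assoc] at h1
      exact h1.trans h2)
    (by
      intro i J
      have h1 := (hB'bd i _ _ (Real.rpow_nonneg hb0.le _) (hlo i) (hhi i) J).1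
      have h2 : (b : ℝ) ^ (-(C'' * (q (φ i) : ℝ))) ≤
          (b : ℝ) ^ (-(p * C * (q (φ i) : ℝ))) * ((b : ℝ) ^ (-((κ + C) * (q (φ i) : ℝ)))) ^ p := by
        rw [← Real.rpow_natCast, ← Real.rpow_mul hb0.le, ← Real.rpow_add hb0]
        apply Real.rpow_le_rpow_of_exponent_le hb1.le
        have h3 := mul_le_mul_of_nonneg_right hC''1.2.1 (hq0 i)
        linarith
      have h3 : (b : ℝ) ^ (-(p * C * (q (φ i) : ℝ))) * ((b : ℝ) ^ (-((κ + C) * (q (φ i) : ℝ)))) ^ p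
          ≤ B' i J :=
        (mul_le_mul_of_nonneg_right (hprodB1 i J) (by positivity)).trans h1
      have h4 : (1 : ℝ) ≤ C2 * (b : ℝ) ^ (δ'' * (q (φ i) : ℝ)) := by
        have h5 : (1 : ℝ) ≤ (b : ℝ) ^ (δ'' * (q (φ i) : ℝ)) :=
          Real.one_le_rpow hb1.le (by have := hq1 i; positivity)
        nlinarith
      calc _ ≤ B' i J := h2.trans h3
        _ ≤ B' i J * (C2 * (b : ℝ) ^ (δ'' * (q (φ i) : ℝ))) := by
            have := hB'pos i J
            nlinarith)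
    (by
      intro i J
      have h1 := (hB'bd i _ _ (Real.rpow_nonneg hb0.le _) (hlo i) (hhi i) J).2
      have h2 : B' i J ≤ (b : ℝ) ^ (p * C * (q (φ i) : ℝ)) *
          ((b : ℝ) ^ ((κ + (κ + C) * (n - 1)) * (q (φ i) : ℝ))) ^ p :=
        h1.trans (mul_le_mul_of_nonneg_right (hprodB2 i J) (by positivity))
      have h3 : C2 * (b : ℝ) ^ (δ'' * (q (φ i) : ℝ)) ≤
          (b : ℝ) ^ ((κ : ℝ) * (q (φ i) : ℝ)) * (b : ℝ) ^ (δ'' * (q (φ i) : ℝ)) :=
        mul_le_mul_of_nonneg_right (hC2b i) (Real.rpow_nonneg hb0.le _)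
      have h4 := mul_le_mul h2 h3 (by positivity) (by positivity)
      refine h4.trans ?_
      rw [← Real.rpow_natCast, ← Real.rpow_mul hb0.le, ← Real.rpow_add hb0, ← Real.rpow_add hb0,
        ← Real.rpow_add hb0]
      apply Real.rpow_le_rpow_of_exponent_le hb1.le
      have h5 := mul_le_mul_of_nonneg_right hC''1.2.2 (hq0 i)
      linarith)
    (fun i l J => (b : ℤ) ^ (∑ a, ex (φ i) (enum p n J a)) * g' i l J)
    (fun i l J => dvd_mul_right _ _)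
    (by
      intro i l I
      have h1 := hB'small i l I
      have h2 : B' i I * (C2 * (b : ℝ) ^ (δ'' * (q (φ i) : ℝ))) * (b : ℝ) ^ (-(δ'' * (q (φ i) : ℝ)))
          = C2 * B' i I := by
        have h3 : (b : ℝ) ^ (δ'' * (q (φ i) : ℝ)) * (b : ℝ) ^ (-(δ'' * (q (φ i) : ℝ))) = 1 := by
          rw [← Real.rpow_add hb0, add_neg_cancel, Real.rpow_zero]
        calc _ = C2 * B' i I * ((b : ℝ) ^ (δ'' * (q (φ i) : ℝ)) *
              (b : ℝ) ^ (-(δ'' * (q (φ i) : ℝ)))) := by ring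
          _ = _ := by rw [h3, mul_one]
      rw [h2]
      push_cast
      exact h1)
    (by
      intro i
      have h1 := hg'li i
      set E : (Fin (n.choose p) → ℚ) →ₗ[ℚ] (Fin (n.choose p) → ℚ) :=
        (diagonal (fun J => (b : ℚ) ^ (∑ a, ex (φ i) (enum p n J a)))).mulVecLin with hE
      have hEinj : LinearMap.ker E = ⊥ := by
        rw [LinearMap.ker_eq_bot']
        intro v hv
        funext J
        have h2 := congrFun hv J
        simp only [hE, mulVecLin_apply, mulVec_diagonal, Pi.zero_apply] at h2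
        have h3 : (b : ℚ) ^ (∑ a, ex (φ i) (enum p n J a)) ≠ 0 :=
          pow_ne_zero _ (by exact_mod_cast (by omega : b ≠ 0))
        exact (mul_eq_zero.1 h2).resolve_left h3
      have h2 := h1.map' E hEinj
      have e : (fun l => cv (fun J => (b : ℤ) ^ (∑ a, ex (φ i) (enum p n J a)) * g' i l J))
          = (E ∘ fun l => cv (g' i l)) := by
        funext l J
        simp only [Function.comp, hE, mulVecLin_apply, mulVec_diagonal, cv]
        push_cast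
        rfl
      rw [e]
      exact h2)
  -- extraction of the relation
  have hcols : ∀ i, (∀ l, ∑ J, a J * ((b : ℤ) ^ (∑ c, ex (φ i) (enum p n J c)) * g' i l J) = 0) →
      ∀ I, I ≠ topIdx n p hpn.le → ∑ J, a J * cmp p (xcol b (ex (φ i)) (g (φ i))) J I = 0 :=
    fun i hi I hI => hyper_cols hpn.le (by omega) b (ex (φ i)) (g (φ i)) (hgli _) (g' i)
      (hg'li i) (hg'top i) a hi I hI
  obtain ⟨i0, hi0⟩ := hfr.exists
  refine ⟨fun j => (xcol b (ex (φ i0)) (g (φ i0))).adjugate ⟨n - 1, by omega⟩ j, ?_, ?_⟩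
  · intro h0
    have h1 := congrFun (congrFun (adjugate_mul (xcol b (ex (φ i0)) (g (φ i0)))) ⟨n - 1, by omega⟩)
      ⟨n - 1, by omega⟩
    rw [mul_apply, Matrix.smul_apply, one_apply_eq] at h1
    have h2 : ∀ j, (xcol b (ex (φ i0)) (g (φ i0))).adjugate ⟨n - 1, by omega⟩ j = 0 := fun j =>
      congrFun h0 j
    simp only [h2, zero_mul, Finset.sum_const_zero, smul_eq_mul, mul_one] at h1
    exact xcol_det_ne_zero b hb _ _ (hgli (φ i0)) h1.symm
  · have h3 : ∃ᶠ i in atTop, ∑ j, (xcol b (ex (φ i0)) (g (φ i0))).adjugate ⟨n - 1, by omega⟩ j *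
        x (φ i) j = 0 := by
      refine hfr.mono fun i hi => ?_
      have := relation hp1 hpn b hb a ha0 (ex (φ i0)) (ex (φ i)) (g (φ i0)) (g (φ i)) (hgli _)
        (hgli _) (hcols i0 hi0) (hcols i hi) (y (φ i)) (hP i).1.1
      rw [← this]
      apply Finset.sum_congr rfl
      intro j _
      rw [hy (φ i) j]
    exact hφ.tendsto_atTop.frequently h3

end Pool.Agent.Sub
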