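import Pool.Agent.Lib_MP_10b5ac_nt.Defs

set_option autoImplicit false

/-! Piece B2 of MP_10b5ac_nt: the generalised Wronskian criterion. -/

namespace Pool.Agent.Sub

open MvPolynomial Finset
open scoped MonomialOrder

/-- coefficients of the Hasse derivative -/
theorem coeff_hd_eq {σ R : Type*} [CommSemiring R] (i : σ →₀ ℕ) (P : MvPolynomial σ R)
    (J : σ →₀ ℕ) : coeff J (hd i P) =
      coeff (J + i) P * ((i.prod fun s j => ((J + i) s).choose j : ℕ) : R) := by
  classical
  unfold hd
  rw [coeff_sum]
  simp only [coeff_monomial]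
  rw [Finset.sum_eq_single (J + i)]
  · simp
  · intro I _ hne
    by_cases hle : i ≤ I
    · rw [if_neg]
      intro h
      apply hne
      rw [← h, tsub_add_cancel_of_le hle]
    · have h0 : (i.prod fun s j => (I s).choose j : ℕ) = 0 := by
        have : ∃ s, I s < i s := by
          by_contra hcon
          push Not at hcon
          exact hle hcon
        obtain ⟨s, hs⟩ := this
        apply Finset.prod_eq_zero (i := s)
        · rw [Finsupp.mem_support_iff]
          omega
        · exact Nat.choose_eq_zero_of_lt hs
      rw [h0]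
      simp
  · intro hns
    have : coeff (J + i) P = 0 := by
      simpa [mem_support_iff] using hns
    simp [this]

theorem prod_choose_succ {σ : Type*} (i J : σ →₀ ℕ) (s : σ) :
    (i.prod fun t j => ((J + Finsupp.single s 1 + i : σ →₀ ℕ) t).choose j : ℕ) * (J s + 1) =
      (i s + 1) * ((i + Finsupp.single s 1).prod fun t j =>
        ((J + (i + Finsupp.single s 1) : σ →₀ ℕ) t).choose j : ℕ) := by
  classical
  have e : J + (i + Finsupp.single s 1) = J + Finsupp.single s 1 + i := by
    rw [add_assoc, add_comm i]
  rw [e]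
  set K := J + Finsupp.single s 1 + i with hK
  have h1 : (i.prod fun t j => (K t).choose j : ℕ) =
      (K s).choose (i s) * ∏ t ∈ i.support.erase s, (K t).choose (i t) := by
    by_cases hs : s ∈ i.support
    · rw [Finsupp.prod, Finset.mul_prod_erase _ (fun t => (K t).choose (i t)) hs]
    · have : i s = 0 := by simpa using hs
      rw [Finsupp.prod, Finset.erase_eq_of_notMem hs, this]
      simp
  have h2 : ((i + Finsupp.single s 1).prod fun t j => (K t).choose j : ℕ) =
      (K s).choose (i s + 1) * ∏ t ∈ i.support.erase s, (K t).choose (i t) := by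
    have hs : s ∈ (i + Finsupp.single s 1).support := by simp
    rw [Finsupp.prod, ← Finset.mul_prod_erase _ _ hs]
    have h3 : (i + Finsupp.single s 1).support.erase s = i.support.erase s := by
      ext t
      simp only [Finset.mem_erase, Finsupp.mem_support_iff, Finsupp.add_apply, ne_eq]
      constructor
      · rintro ⟨hts, h⟩
        refine ⟨hts, ?_⟩
        rwa [Finsupp.single_eq_of_ne hts, add_zero] at h
      · rintro ⟨hts, h⟩
        refine ⟨hts, ?_⟩
        rwa [Finsupp.single_eq_of_ne hts, add_zero]
    rw [h3]
    congr 1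
    · simp
    · apply Finset.prod_congr rfl
      intro t ht
      rw [Finsupp.add_apply i, Finsupp.single_eq_of_ne (Finset.ne_of_mem_erase ht), add_zero]
  rw [h1, h2]
  have hKs : K s = J s + 1 + i s := by simp [hK]
  have key : (K s).choose (i s) * (J s + 1) = (i s + 1) * (K s).choose (i s + 1) := by
    have := Nat.choose_succ_right_eq (K s) (i s)
    rw [hKs] at this ⊢
    rw [mul_comm (i s + 1), this]
    congr 1
    omega
  calc _ = ((K s).choose (i s) * (J s + 1)) * ∏ t ∈ i.support.erase s, (K t).choose (i t) := by ring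
    _ = _ := by rw [key]; ring

/-- a partial derivative of a Hasse derivative -/
theorem pderiv_hd {σ R : Type*} [CommSemiring R] (s : σ) (i : σ →₀ ℕ) (P : MvPolynomial σ R) :
    pderiv s (hd i P) = C ((i s : R) + 1) * hd (i + Finsupp.single s 1) P := by
  ext J
  rw [coeff_pderiv, coeff_C_mul, coeff_hd_eq, coeff_hd_eq]
  have h := prod_choose_succ i J s
  have h' := congrArg (Nat.cast : ℕ → R) h
  push_cast at h'
  have e : J + Finsupp.single s 1 + i = J + (i + Finsupp.single s 1) := by
    rw [add_assoc, add_comm (Finsupp.single s 1)]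
  rw [mul_assoc]
  have h'' : ((i.prod fun t j => ((J + Finsupp.single s 1 + i : σ →₀ ℕ) t).choose j : ℕ) : R)
      * ((J s : R) + 1) = ((i s : R) + 1) * (((i + Finsupp.single s 1).prod fun t j =>
        ((J + (i + Finsupp.single s 1) : σ →₀ ℕ) t).choose j : ℕ) : R) := by
    exact_mod_cast congrArg (Nat.cast : ℕ → R) h
  rw [h'', e]
  ring

theorem hd_zero_eq {σ R : Type*} [CommSemiring R] (P : MvPolynomial σ R) : hd 0 P = P := by
  ext J
  rw [coeff_hd_eq]
  simp

/-- if `g ∂f = f ∂g` for all partial derivatives and `g ≠ 0`, then `f` is a scalar multiple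
of `g`. -/
theorem proportional_of_pderiv {n : ℕ} (f g : MvPolynomial (Fin n) ℚ) (hg : g ≠ 0)
    (h : ∀ s, g * pderiv s f = f * pderiv s g) : ∃ c : ℚ, f = C c * g := by
  classical
  let m : MonomialOrder (Fin n) := MonomialOrder.lex
  set α := m.degree g with hα
  have hga : coeff α g ≠ 0 := by
    have := (m.leadingCoeff_ne_zero_iff (f := g)).2 hg
    exact this
  refine ⟨coeff α f / coeff α g, ?_⟩
  by_contra hne
  set c := coeff α f / coeff α g with hc
  set F := f - C c * g with hF
  have hF0 : F ≠ 0 := sub_ne_zero.2 hne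
  have hFα : coeff α F = 0 := by
    rw [hF, coeff_sub, coeff_C_mul, hc]
    field_simp
    ring
  have hrel : ∀ s, g * pderiv s F = F * pderiv s g := by
    intro s
    rw [hF, map_sub, pderiv_C_mul, mul_sub, sub_mul, h s]
    ring
  set β := m.degree F with hβ
  have hFb : coeff β F ≠ 0 := (m.leadingCoeff_ne_zero_iff (f := F)).2 hF0
  have hαβ : α ≠ β := by
    intro he
    rw [he] at hFα
    exact hFb hFα
  obtain ⟨s, hs⟩ : ∃ s, α s ≠ β s := by
    by_contra hcon
    push Not at hcon
    exact hαβ (Finsupp.ext hcon)
  -- coefficients of `X s * pderiv s P`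
  have hth : ∀ (P : MvPolynomial (Fin n) ℚ) (J : Fin n →₀ ℕ),
      coeff J (X s * pderiv s P) = (J s : ℚ) * coeff J P := by
    intro P J
    induction P using MvPolynomial.induction_on' with
    | add p q hp hq => rw [map_add, mul_add, coeff_add, coeff_add, hp, hq]; ring
    | monomial I a =>
      rw [X_mul_pderiv_monomial, coeff_smul, coeff_monomial]
      by_cases hIJ : I = J
      · simp [hIJ]
      · simp [hIJ]
  have hdeg : ∀ (P : MvPolynomial (Fin n) ℚ), m.degree (X s * pderiv s P) ≼[m] m.degree P := by
    intro P
    rw [m.degree_le_iff]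
    intro b hb
    apply m.le_degree
    rw [mem_support_iff] at hb ⊢
    rw [hth] at hb
    exact right_ne_zero_of_mul hb
  have e1 : coeff (α + β) (g * (X s * pderiv s F)) = coeff α g * ((β s : ℚ) * coeff β F) := by
    rw [m.coeff_mul_of_add_of_degree_le (le_of_eq rfl) (hdeg F), hth]
  have e2 : coeff (α + β) ((X s * pderiv s g) * F) = ((α s : ℚ) * coeff α g) * coeff β F := by
    rw [m.coeff_mul_of_add_of_degree_le (hdeg g) (le_of_eq rfl), hth]
  have e3 : g * (X s * pderiv s F) = (X s * pderiv s g) * F := by
    calc g * (X s * pderiv s F) = X s * (g * pderiv s F) := by ring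
      _ = X s * (F * pderiv s g) := by rw [hrel]
      _ = _ := by ring
  rw [e3, e2] at e1
  have e4 : ((α s : ℚ) - β s) * (coeff α g * coeff β F) = 0 := by linarith
  rcases mul_eq_zero.1 e4 with h5 | h5
  · apply hs
    have : (α s : ℚ) = β s := by linarith
    exact_mod_cast this
  · exact (mul_ne_zero hga hFb) h5

theorem gen_wronskian {n k : ℕ} (φ : Fin k → MvPolynomial (Fin n) ℚ)
    (h : LinearIndependent ℚ φ) :
    ∃ Δ : Fin k → (Fin n →₀ ℕ), (∀ i, (Δ i).degree ≤ k - 1) ∧
      Matrix.det (fun i j => hd (Δ i) (φ j)) ≠ 0 := by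
  classical
  induction k with
  | zero => exact ⟨fun _ => 0, fun i => i.elim0, by simp⟩
  | succ k ih =>
    obtain ⟨Δ, hΔ, hdet⟩ := ih (fun j => φ j.castSucc)
      (h.comp Fin.castSucc (Fin.castSucc_injective k))
    by_contra hcon
    push Not at hcon
    -- cofactors of the last row
    let c : Fin (k + 1) → MvPolynomial (Fin n) ℚ := fun j =>
      (-1) ^ ((Fin.last k : ℕ) + (j : ℕ)) * Matrix.det (fun i l : Fin k => hd (Δ i) (φ (j.succAbove l)))
    have hclast : c (Fin.last k) ≠ 0 := by
      apply mul_ne_zero
      · exact pow_ne_zero _ (by simp)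
      · have : (fun i l : Fin k => hd (Δ i) (φ ((Fin.last k).succAbove l)))
            = (fun i l => hd (Δ i) (φ l.castSucc)) := by
          funext i l
          rw [Fin.succAbove_last]
        rw [this]
        exact hdet
    have hrel : ∀ E : Fin n →₀ ℕ, E.degree ≤ k → ∑ j, c j * hd E (φ j) = 0 := by
      intro E hE
      have h0 := hcon (Fin.snoc (α := fun _ => Fin n →₀ ℕ) Δ E) (by
        intro i
        refine Fin.lastCases ?_ (fun i => ?_) i
        · rw [Fin.snoc_last]; simpa using hE
        · rw [Fin.snoc_castSucc]; have := hΔ i; omega)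
      rw [Matrix.det_succ_row _ (Fin.last k)] at h0
      rw [← h0]
      apply Finset.sum_congr rfl
      intro j _
      have hsub : (Matrix.submatrix (fun i j : Fin (k+1) => hd
          (Fin.snoc (α := fun _ => Fin n →₀ ℕ) Δ E i) (φ j)) (Fin.last k).succAbove j.succAbove)
          = (fun i l : Fin k => hd (Δ i) (φ (j.succAbove l))) := by
        funext i l
        simp only [Matrix.submatrix_apply, Fin.succAbove_last, Fin.snoc_castSucc]
      have hsub' : Matrix.det (Matrix.submatrix (fun i j : Fin (k+1) => hd
          (Fin.snoc (α := fun _ => Fin n →₀ ℕ) Δ E i) (φ j)) (Fin.last k).succAbove j.succAbove)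
          = Matrix.det (fun i l : Fin k => hd (Δ i) (φ (j.succAbove l))) := congrArg _ hsub
      rw [hsub']
      simp only [Fin.snoc_last, c]
      ring
    -- differentiate
    have hder : ∀ (s : Fin n) (E : Fin n →₀ ℕ), E.degree + 1 ≤ k →
        ∑ j, pderiv s (c j) * hd E (φ j) = 0 := by
      intro s E hE
      have h1 := congrArg (pderiv s) (hrel E (by omega))
      rw [map_sum, map_zero] at h1
      simp only [pderiv_mul, pderiv_hd] at h1
      rw [Finset.sum_add_distrib] at h1
      have h2 : ∑ j, c j * (C ((E s : ℚ) + 1) * hd (E + Finsupp.single s 1) (φ j)) = 0 := by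
        have h3 := hrel (E + Finsupp.single s 1) (by
          rw [map_add, Finsupp.degree_single]; exact hE)
        calc _ = C ((E s : ℚ) + 1) * ∑ j, c j * hd (E + Finsupp.single s 1) (φ j) := by
              rw [Finset.mul_sum]
              apply Finset.sum_congr rfl
              intro j _
              ring
          _ = 0 := by rw [h3, mul_zero]
      rw [h2, add_zero] at h1
      exact h1
    have hprop : ∀ j : Fin k, ∀ s, c (Fin.last k) * pderiv s (c j.castSucc)
        = c j.castSucc * pderiv s (c (Fin.last k)) := by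
      intro j s
      have hk : 1 ≤ k := by have := j.2; omega
      let v : Fin k → MvPolynomial (Fin n) ℚ := fun j =>
        c (Fin.last k) * pderiv s (c j.castSucc) - c j.castSucc * pderiv s (c (Fin.last k))
      have hv : Matrix.mulVec (fun i l : Fin k => hd (Δ i) (φ l.castSucc)) v = 0 := by
        funext i
        have h1 := hrel (Δ i) (by have := hΔ i; omega)
        have h2 := hder s (Δ i) (by have := hΔ i; omega)
        rw [Fin.sum_univ_castSucc] at h1 h2
        simp only [Matrix.mulVec, dotProduct, Pi.zero_apply]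
        have h3 : ∑ l : Fin k, hd (Δ i) (φ l.castSucc) * v l =
            c (Fin.last k) * (∑ l : Fin k, pderiv s (c l.castSucc) * hd (Δ i) (φ l.castSucc))
            - pderiv s (c (Fin.last k)) * ∑ l : Fin k, c l.castSucc * hd (Δ i) (φ l.castSucc) := by
          rw [Finset.mul_sum, Finset.mul_sum, ← Finset.sum_sub_distrib]
          apply Finset.sum_congr rfl
          intro l _
          simp only [v]
          ring
        rw [h3, eq_neg_of_add_eq_zero_left h1, eq_neg_of_add_eq_zero_left h2]
        ring
      have h4 := Matrix.eq_zero_of_mulVec_eq_zero hdet hv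
      have h5 := congrFun h4 j
      exact sub_eq_zero.1 h5
    choose lam hlam using fun j : Fin k => proportional_of_pderiv (c j.castSucc) (c (Fin.last k))
      hclast (hprop j)
    have h6 := hrel 0 (by simp)
    rw [Fin.sum_univ_castSucc] at h6
    simp only [hd_zero_eq] at h6
    have h7 : c (Fin.last k) * ((∑ l : Fin k, C (lam l) * φ l.castSucc) + φ (Fin.last k)) = 0 := by
      rw [mul_add, Finset.mul_sum, ← h6]
      congr 1
      apply Finset.sum_congr rfl
      intro l _
      rw [hlam l]
      ring
    have h8 := (mul_eq_zero.1 h7).resolve_left hclast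
    have h9 := Fintype.linearIndependent_iff.1 h (Fin.snoc (α := fun _ => ℚ) lam 1) (by
      rw [Fin.sum_univ_castSucc]
      simp only [Fin.snoc_castSucc, Fin.snoc_last, one_smul]
      rw [← h8]
      congr 1
      apply Finset.sum_congr rfl
      intro l _
      rw [C_mul'])
    have h10 := h9 (Fin.last k)
    rw [Fin.snoc_last] at h10
    exact one_ne_zero h10

end Pool.Agent.Sub
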